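import Pool.Agent.EStab.Defs

/-!
# Products of subalgebras
-/

namespace Pool.Agent.EinS

open Pool.Agent.EStab

/-- The product of subalgebras. -/
def piSub {r : ℕ} {L : Fin r → Type} [∀ i, LieRing (L i)] [∀ i, LieAlgebra ℝ (L i)]
    (k : ∀ i, LieSubalgebra ℝ (L i)) : LieSubalgebra ℝ (∀ i, L i) where
  carrier := {x | ∀ i, x i ∈ k i}
  add_mem' := fun hx hy i => (k i).add_mem (hx i) (hy i)
  zero_mem' := fun i => (k i).zero_mem
  smul_mem' := fun c _ hx i => (k i).smul_mem c (hx i)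
  lie_mem' := fun hx hy i => (k i).lie_mem (hx i) (hy i)

end Pool.Agent.EinS
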