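import Pool.Agent.EinS.Main
import Pool.Agent.EinS.PiSub
import Pool.Agent.EStab.PiLie

/-!
# Products of symmetric pairs
-/

namespace Pool.Agent.EinS

open Matrix Pool.Agent.EStab

section

variable {L : Type*} [LieRing L] [LieAlgebra ℝ L]

theorem casimir_aux [Module.Finite ℝ L] (hg : CompactSemisimple L) {k : LieSubalgebra ℝ L}
    {nk : ℕ} {e : Fin nk → L} (he : IsFrame k.toSubmodule e)
    {n : ℕ} (b : Fin n → L) (hb : ∀ j, b j ∈ k)
    (hB : ∀ v, ∑ j, Qf L (b j) v ^ 2 ≤ Qf L v v) (x : L) :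
    ∑ j, Qf L ⁅b j, x⁆ ⁅b j, x⁆ ≤ ∑ i, Qf L ⁅e i, x⁆ ⁅e i, x⁆ := by
  obtain ⟨m, w, hw⟩ := exists_frame hg (⊤ : Submodule ℝ L)
  have h1 : ∀ u : L, Qf L ⁅u, x⁆ ⁅u, x⁆ = ∑ m, Qf L u ⁅x, w m⁆ ^ 2 := by
    intro u
    rw [hw.parseval Submodule.mem_top]
    refine Finset.sum_congr rfl fun m _ => ?_
    rw [Qf_lie]
    ring
  simp only [h1]
  rw [Finset.sum_comm, Finset.sum_comm (s := Finset.univ) (t := Finset.univ)
    (f := fun i m => Qf L (e i) ⁅x, w m⁆ ^ 2)]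
  refine Finset.sum_le_sum fun m _ => ?_
  set y := ⁅x, w m⁆ with hy
  set z := ∑ i, Qf L y (e i) • e i with hz
  have h2 := he.sub_mem_perp y
  have h3 : ∀ j, Qf L (b j) y = Qf L (b j) z := by
    intro j
    have h4 := h2 (b j) (hb j)
    rw [← hz, map_sub, LinearMap.sub_apply, sub_eq_zero] at h4
    rw [Qf_symm, h4, Qf_symm]
  simp only [h3]
  refine le_trans (hB z) (le_of_eq ?_)
  have h5 : z ∈ k.toSubmodule := Submodule.sum_mem _ fun i _ => Submodule.smul_mem _ _ (he.mem i)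
  rw [he.parseval h5]
  refine Finset.sum_congr rfl fun i _ => ?_
  rw [hz, he.coord, Qf_symm (e i)]
  ring

theorem casimir_of_bessel [Module.Finite ℝ L] (hg : CompactSemisimple L)
    {k l : LieSubalgebra ℝ L} {s t : ℝ} (hc : CasimirLE k l s t) {n : ℕ} (b : Fin n → L)
    (hb : ∀ j, b j ∈ k) (hB : ∀ v, ∑ j, Qf L (b j) v ^ 2 ≤ Qf L v v) :
    (∀ x ∈ k, ∑ j, Qf L ⁅b j, x⁆ ⁅b j, x⁆ ≤ s * Qf L x x) ∧
      ∀ x, Orth k l x → ∑ j, Qf L ⁅b j, x⁆ ⁅b j, x⁆ ≤ t * Qf L x x := by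
  obtain ⟨nk, e, he⟩ := exists_frame hg k.toSubmodule
  have h1 := hc nk e he.mem (fun i j => by
    have := he.orth i j
    rw [Qf_apply] at this
    split_ifs at this ⊢ <;> linarith)
  exact ⟨fun x hx => le_trans (casimir_aux hg he b hb hB x) (h1.1 x hx),
    fun x hx => le_trans (casimir_aux hg he b hb hB x) (h1.2 x hx)⟩

end

section

variable {r : ℕ} {L : Fin r → Type} [∀ i, LieRing (L i)] [∀ i, LieAlgebra ℝ (L i)]
  [∀ i, Module.Finite ℝ (L i)]

theorem Qf_pi (x y : ∀ i, L i) : Qf (∀ i, L i) x y = ∑ i, Qf (L i) (x i) (y i) := by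
  rw [Qf_apply, killing_pi, ← Finset.sum_neg_distrib]
  rfl

theorem single_mem {k : ∀ i, LieSubalgebra ℝ (L i)} {i : Fin r} {y : L i} (hy : y ∈ k i) :
    (Pi.single i y : ∀ i, L i) ∈ piSub k := by
  intro j
  by_cases h : j = i
  · subst h
    rw [Pi.single_eq_same]
    exact hy
  · rw [Pi.single_eq_of_ne h]
    exact (k j).zero_mem

theorem Qf_single (x : ∀ i, L i) {i : Fin r} (y : L i) :
    Qf (∀ i, L i) x (Pi.single i y) = Qf (L i) (x i) y := by
  rw [Qf_pi, Finset.sum_eq_single i]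
  · rw [Pi.single_eq_same]
  · intro j _ hj
    rw [Pi.single_eq_of_ne hj, map_zero]
  · intro h
    exact absurd (Finset.mem_univ i) h

theorem orth_pi {k l : ∀ i, LieSubalgebra ℝ (L i)} {x : ∀ i, L i}
    (h : Orth (piSub k) (piSub l) x) (i : Fin r) : Orth (k i) (l i) (x i) := by
  refine ⟨fun y hy => ?_, fun y hy => ?_⟩
  · have h1 := h.1 _ (single_mem (k := k) hy)
    have h2 := Qf_single x y
    rw [Qf_apply, Qf_apply, h1] at h2
    linarith
  · have h1 := h.2 _ (single_mem (k := l) hy)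
    have h2 := Qf_single x y
    rw [Qf_apply, Qf_apply, h1] at h2
    linarith

theorem SymPair.pi {k l : ∀ i, LieSubalgebra ℝ (L i)} (h : ∀ i, SymPair (k i) (l i)) :
    SymPair (piSub k) (piSub l) := by
  refine ⟨fun x hx y hy => ?_, fun x hx y hy => ?_, fun x y z hx hy hz => ?_⟩
  · funext i
    exact (h i).comm _ (hx i) _ (hy i)
  · rw [killing_pi]
    exact Finset.sum_eq_zero fun i _ => (h i).orth _ (hx i) _ (hy i)
  · rw [killing_pi]
    exact Finset.sum_eq_zero fun i _ =>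
      (h i).symm _ _ _ (orth_pi hx i) (orth_pi hy i) (orth_pi hz i)

theorem CasimirLE.pi (hg : ∀ i, CompactSemisimple (L i)) {k l : ∀ i, LieSubalgebra ℝ (L i)}
    {s t : ℝ} (h : ∀ i, CasimirLE (k i) (l i) s t) : CasimirLE (piSub k) (piSub l) s t := by
  intro n a ha ho
  have hgp : CompactSemisimple (∀ i, L i) := compact_pi hg
  have hB : ∀ i, ∀ v : L i, ∑ j, Qf (L i) (a j i) v ^ 2 ≤ Qf (L i) v v := by
    intro i v
    have h1 := bessel_fam hgp (e := a) (fun j j' => by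
      rw [Qf_apply, ho]
      split_ifs <;> norm_num) (Pi.single i v)
    have h2 : Qf (∀ i, L i) (Pi.single i v) (Pi.single i v) = Qf (L i) v v := by
      rw [Qf_single, Pi.single_eq_same]
    rw [h2] at h1
    refine le_trans (le_of_eq ?_) h1
    refine Finset.sum_congr rfl fun j _ => ?_
    rw [Qf_symm (Pi.single i v), Qf_single]
  have key : ∀ i, _ := fun i => casimir_of_bessel (hg i) (h i) (fun j => a j i)
    (fun j => ha j i) (hB i)
  have hsum : ∀ x : ∀ i, L i, ∑ j, -killingForm ℝ (∀ i, L i) ⁅a j, x⁆ ⁅a j, x⁆ =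
      ∑ i, ∑ j, Qf (L i) ⁅a j i, x i⁆ ⁅a j i, x i⁆ := by
    intro x
    rw [Finset.sum_comm]
    refine Finset.sum_congr rfl fun j _ => ?_
    exact Qf_pi _ _
  have hx2 : ∀ x : ∀ i, L i, -killingForm ℝ (∀ i, L i) x x = ∑ i, Qf (L i) (x i) (x i) :=
    fun x => Qf_pi x x
  refine ⟨fun x hx => ?_, fun x hx => ?_⟩
  · rw [hsum, hx2, Finset.mul_sum]
    exact Finset.sum_le_sum fun i _ => (key i).1 (x i) (hx i)
  · rw [hsum, hx2, Finset.mul_sum]
    exact Finset.sum_le_sum fun i _ => (key i).2 (x i) (orth_pi hx i)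

end

end Pool.Agent.EinS
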