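import Pool.Agent.EinS.Conj

/-!
# Einstein metrics on `SO(N)/H` for every closed subgroup `H` of `SO(k)` and `N ≥ N_0(H)`
-/

namespace Pool.Agent.EinS

open Matrix Pool.Agent.EStab LieAlgebra.Orthogonal

/-- The bi-invariant metric. -/
theorem biinvariant {L : Type*} [LieRing L] [LieAlgebra ℝ L] [Module.Finite ℝ L]
    (hg : CompactSemisimple L) {W : LieSubalgebra ℝ L} (hW : W = ⊥) {Γ : Set (L →ₗ[ℝ] L)}
    (hΓ : ∀ γ ∈ Γ, ∃ δ : L ≃ₗ⁅ℝ⁆ L, ∀ x, γ x = δ x) :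
    HasEinsteinMetric L W.toSubmodule Γ := by
  classical
  obtain ⟨n, e, he⟩ := exists_frame hg (perp W.toSubmodule)
  have hP : perp W.toSubmodule = ⊤ := by
    rw [eq_top_iff]
    intro x _ y hy
    rw [hW] at hy
    have h0 : y = 0 := hy
    rw [h0, map_zero]
  have he' : IsFrame (⊤ : Submodule ℝ L) e := by
    rw [← hP]
    exact he
  have hU : UU (CF e) (1 : Matrix (Fin n) (Fin n) ℝ) 1 = 1 := by
    ext x y
    change trace (CF e x * 1 * (CF e y)ᵀ * 1) = _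
    rw [Matrix.mul_one, Matrix.mul_one, Matrix.one_apply, ← he'.orth, he'.killing (e x) (e y)]
    unfold trace
    refine Finset.sum_congr rfl fun z _ => ?_
    rw [Matrix.diag_apply, Matrix.mul_apply, he'.parseval Submodule.mem_top]
    rfl
  have hUs : ∀ a b : ℝ, UU (CF e) (a • (1 : Matrix (Fin n) (Fin n) ℝ)) (b • 1) =
      (a * b) • 1 := by
    intro a b
    ext x y
    have h0 := congrFun (congrFun hU x) y
    change trace (CF e x * 1 * (CF e y)ᵀ * 1) = _ at h0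
    rw [Matrix.smul_apply, ← h0]
    change trace (CF e x * (a • (1 : Matrix (Fin n) (Fin n) ℝ)) * (CF e y)ᵀ * (b • 1)) =
      a * b * trace (CF e x * 1 * (CF e y)ᵀ * 1)
    simp only [Matrix.mul_smul, Matrix.smul_mul, Matrix.trace_smul, smul_eq_mul, Matrix.mul_one]
    ring
  refine hasEinstein_of hg he (G := (1 / 2 : ℝ) • 1) (Gi := (2 : ℝ) • 1) ?_ ?_ ?_ ?_ ?_
  · unfold Matrix.IsSymm
    rw [Matrix.transpose_smul, Matrix.transpose_one]
  · rw [Matrix.smul_mul, Matrix.one_mul, smul_smul]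
    norm_num
  · intro x
    rw [Matrix.smul_mulVec, Matrix.one_mulVec, dotProduct_smul, smul_eq_mul]
    have := dot_self_nonneg x
    linarith
  · unfold RicM
    rw [hUs, hUs, Matrix.smul_mul, Matrix.one_mul, Matrix.mul_smul, Matrix.mul_one]
    module
  · intro γ hγ
    obtain ⟨δ, hδ⟩ := hΓ γ hγ
    refine ⟨δ, ⟨fun x hx => ?_, fun x hx => ?_⟩, hδ, ?_⟩
    · rw [hW] at hx ⊢
      have h0 : x = 0 := hx
      rw [h0, map_zero]
      exact Submodule.zero_mem _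
    · rw [hW] at hx ⊢
      have h0 : x = 0 := hx
      rw [h0, map_zero]
      exact Submodule.zero_mem _
    · have h1 := mat_orth (δ := δ) he' ⟨fun x _ => Submodule.mem_top, fun x _ =>
        Submodule.mem_top⟩
      rw [Matrix.mul_smul, Matrix.smul_mul, Matrix.mul_one, h1]

variable {n k : ℕ}

/-! ### Splitting off the fixed vectors -/

theorem exists_split (h : LieSubalgebra ℝ (so (Fin k) ℝ)) :
    ∃ (j r : ℕ) (U : Matrix (Fin k) (Fin j) ℝ) (V : Matrix (Fin k) (Fin r) ℝ),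
      Uᵀ * U = 1 ∧ Vᵀ * V = 1 ∧ Uᵀ * V = 0 ∧ U * Uᵀ + V * Vᵀ = 1 ∧
      (∀ x ∈ h, x.1 * U = 0) ∧
      ∀ v : Fin k → ℝ, (∀ x ∈ h, x.1 *ᵥ v = 0) → Vᵀ *ᵥ v = 0 := by
  set F : Submodule ℝ (EuclideanSpace ℝ (Fin k)) :=
    { carrier := {v | ∀ x ∈ h, x.1 *ᵥ v.ofLp = 0}
      add_mem' := fun {v w} hv hw x hx => by
        change x.1 *ᵥ (v.ofLp + w.ofLp) = 0
        rw [Matrix.mulVec_add, hv x hx, hw x hx, add_zero]
      zero_mem' := fun x _ => Matrix.mulVec_zero _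
      smul_mem' := fun c v hv x hx => by
        change x.1 *ᵥ (c • v.ofLp) = 0
        rw [Matrix.mulVec_smul, hv x hx, smul_zero] } with hF
  have hFm : ∀ v : EuclideanSpace ℝ (Fin k), v ∈ F ↔ ∀ x ∈ h, x.1 *ᵥ v.ofLp = 0 :=
    fun v => Iff.rfl
  let u := stdOrthonormalBasis ℝ F
  let w := stdOrthonormalBasis ℝ Fᗮ
  set j := Module.finrank ℝ F with hj
  set r := Module.finrank ℝ Fᗮ with hr
  set U : Matrix (Fin k) (Fin j) ℝ := of fun a i => (u i : EuclideanSpace ℝ (Fin k)).ofLp a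
    with hU
  set V : Matrix (Fin k) (Fin r) ℝ := of fun a i => (w i : EuclideanSpace ℝ (Fin k)).ofLp a
    with hV
  have hin : ∀ x y : EuclideanSpace ℝ (Fin k), ∑ a, x.ofLp a * y.ofLp a = inner ℝ x y := by
    intro x y
    rw [PiLp.inner_apply]
    refine Finset.sum_congr rfl fun a _ => ?_
    rw [RCLike.inner_apply, conj_trivial, mul_comm]
  have h1 : Uᵀ * U = 1 := by
    ext i i'
    rw [Matrix.mul_apply, Matrix.one_apply]
    have h2 := orthonormal_iff_ite.1 u.orthonormal i i'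
    rw [Submodule.coe_inner, ← hin] at h2
    exact h2
  have h2 : Vᵀ * V = 1 := by
    ext i i'
    rw [Matrix.mul_apply, Matrix.one_apply]
    have h2 := orthonormal_iff_ite.1 w.orthonormal i i'
    rw [Submodule.coe_inner, ← hin] at h2
    exact h2
  have h3 : Uᵀ * V = 0 := by
    ext i i'
    rw [Matrix.mul_apply, Matrix.zero_apply]
    have h3 := Submodule.inner_right_of_mem_orthogonal (u i).2 (w i').2
    rw [← hin] at h3
    exact h3
  have h3' : Vᵀ * U = 0 := by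
    have := congrArg Matrix.transpose h3
    rw [Matrix.transpose_mul, Matrix.transpose_transpose, Matrix.transpose_zero] at this
    exact this
  have hcard : j + r = k := by
    have := Submodule.finrank_add_finrank_orthogonal F
    rw [finrank_euclideanSpace_fin] at this
    exact this
  have h4 : U * Uᵀ + V * Vᵀ = 1 := by
    set T : Matrix (Fin k) (Fin j ⊕ Fin r) ℝ := Matrix.fromCols U V with hT
    have h5 : Tᵀ * T = 1 := by
      rw [hT, Matrix.transpose_fromCols, Matrix.fromRows_mul_fromCols, h1, h2, h3, h3']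
      exact fromBlocks_one
    have e : (Fin j ⊕ Fin r) ≃ Fin k := finSumFinEquiv.trans (finCongr hcard)
    have h6 : T * Tᵀ = 1 := (Matrix.mul_eq_one_comm_of_equiv e).1 h5
    rw [hT, Matrix.transpose_fromCols, Matrix.fromCols_mul_fromRows] at h6
    exact h6
  refine ⟨j, r, U, V, h1, h2, h3, h4, ?_, ?_⟩
  · intro x hx
    ext a i
    have h5 := congrFun ((hFm _).1 (u i).2 x hx) a
    rw [Matrix.mul_apply]
    exact h5
  · intro v hv
    have h5 : (WithLp.toLp 2 v : EuclideanSpace ℝ (Fin k)) ∈ F := (hFm _).2 hv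
    funext i
    have h6 := Submodule.inner_right_of_mem_orthogonal h5 (w i).2
    rw [← hin] at h6
    rw [Matrix.mulVec, dotProduct]
    refine Eq.trans ?_ h6
    refine Finset.sum_congr rfl fun a _ => ?_
    rw [mul_comm]
    rfl

section

variable {h : LieSubalgebra ℝ (so (Fin k) ℝ)} {j r : ℕ} {U : Matrix (Fin k) (Fin j) ℝ}
  {V : Matrix (Fin k) (Fin r) ℝ}

theorem split_left (hU : ∀ x ∈ h, x.1 * U = 0) {x : so (Fin k) ℝ} (hx : x ∈ h) :
    Uᵀ * x.1 = 0 := by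
  have h1 := congrArg Matrix.transpose (hU x hx)
  rw [Matrix.transpose_mul, (mem_so _ _ _).1 x.2, Matrix.transpose_zero, Matrix.mul_neg,
    neg_eq_zero] at h1
  exact h1

theorem split_VV (h4 : U * Uᵀ + V * Vᵀ = 1) (hU : ∀ x ∈ h, x.1 * U = 0)
    {x : so (Fin k) ℝ} (hx : x ∈ h) : x.1 * (V * Vᵀ) = x.1 ∧ V * Vᵀ * x.1 = x.1 := by
  have h5 : V * Vᵀ = 1 - U * Uᵀ := by
    rw [← h4]
    abel
  constructor
  · rw [h5, Matrix.mul_sub, Matrix.mul_one, ← Matrix.mul_assoc, hU x hx, Matrix.zero_mul,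
      sub_zero]
  · rw [h5, Matrix.sub_mul, Matrix.one_mul, Matrix.mul_assoc, split_left hU hx,
      Matrix.mul_zero, sub_zero]

/-- The compressed algebra. -/
noncomputable def compr (h : LieSubalgebra ℝ (so (Fin k) ℝ)) (U : Matrix (Fin k) (Fin j) ℝ)
    (V : Matrix (Fin k) (Fin r) ℝ) (h4 : U * Uᵀ + V * Vᵀ = 1) (hU : ∀ x ∈ h, x.1 * U = 0) :
    LieSubalgebra ℝ (so (Fin r) ℝ) where
  carrier := {y | ∃ x ∈ h, y.1 = Vᵀ * x.1 * V}
  add_mem' := by
    rintro y y' ⟨x, hx, hy⟩ ⟨x', hx', hy'⟩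
    refine ⟨x + x', h.add_mem hx hx', ?_⟩
    change y.1 + y'.1 = Vᵀ * (x.1 + x'.1) * V
    rw [hy, hy', Matrix.mul_add, Matrix.add_mul]
  zero_mem' := by
    refine ⟨0, h.zero_mem, ?_⟩
    change (0 : Matrix (Fin r) (Fin r) ℝ) = Vᵀ * (0 : Matrix (Fin k) (Fin k) ℝ) * V
    rw [Matrix.mul_zero, Matrix.zero_mul]
  smul_mem' := by
    rintro c y ⟨x, hx, hy⟩
    refine ⟨c • x, h.smul_mem c hx, ?_⟩
    change c • y.1 = Vᵀ * (c • x.1) * V
    rw [hy, Matrix.mul_smul, Matrix.smul_mul]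
  lie_mem' := by
    rintro y y' ⟨x, hx, hy⟩ ⟨x', hx', hy'⟩
    refine ⟨⁅x, x'⁆, h.lie_mem hx hx', ?_⟩
    change y.1 * y'.1 - y'.1 * y.1 = Vᵀ * (x.1 * x'.1 - x'.1 * x.1) * V
    have e : ∀ z z' : so (Fin k) ℝ, z ∈ h →
        Vᵀ * z.1 * V * (Vᵀ * z'.1 * V) = Vᵀ * (z.1 * z'.1) * V := by
      intro z z' hz
      calc Vᵀ * z.1 * V * (Vᵀ * z'.1 * V) = Vᵀ * (z.1 * (V * Vᵀ)) * z'.1 * V := by
            simp only [Matrix.mul_assoc]
        _ = _ := by
          rw [(split_VV h4 hU hz).1]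
          simp only [Matrix.mul_assoc]
    rw [hy, hy', e x x' hx, e x' x hx', Matrix.mul_sub, Matrix.sub_mul]

theorem compr_noFixed (h2 : Vᵀ * V = 1) (h4 : U * Uᵀ + V * Vᵀ = 1)
    (hU : ∀ x ∈ h, x.1 * U = 0)
    (h6 : ∀ v : Fin k → ℝ, (∀ x ∈ h, x.1 *ᵥ v = 0) → Vᵀ *ᵥ v = 0) :
    NoFixed (compr h U V h4 hU) := by
  intro v hv
  have h7 := h6 (V *ᵥ v) (fun x hx => by
    have h8 : (⟨Vᵀ * x.1 * V, by
      rw [mem_so, Matrix.transpose_mul, Matrix.transpose_mul, Matrix.transpose_transpose,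
        (mem_so _ _ _).1 x.2, Matrix.neg_mul, Matrix.mul_neg, Matrix.mul_assoc]⟩ :
        so (Fin r) ℝ) ∈ compr h U V h4 hU := ⟨x, hx, rfl⟩
    have h9 := hv _ h8
    change (Vᵀ * x.1 * V) *ᵥ v = 0 at h9
    have h10 : x.1 *ᵥ (V *ᵥ v) = V *ᵥ ((Vᵀ * x.1 * V) *ᵥ v) := by
      rw [Matrix.mulVec_mulVec, Matrix.mulVec_mulVec]
      congr 1
      rw [← Matrix.mul_assoc, ← Matrix.mul_assoc, (split_VV h4 hU hx).2]
    rw [h10, h9, Matrix.mulVec_zero])
  rwa [Matrix.mulVec_mulVec, h2, Matrix.one_mulVec] at h7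

/-- The index set. -/
def ixEquiv (n j r : ℕ) : Fin (n + j) ⊕ Fin r ≃ (Fin n ⊕ Fin j) ⊕ Fin r :=
  Equiv.sumCongr finSumFinEquiv.symm (Equiv.refl _)

/-- The orthogonal matrix before reindexing. -/
noncomputable def TT0 (n : ℕ) (U : Matrix (Fin k) (Fin j) ℝ) (V : Matrix (Fin k) (Fin r) ℝ) :
    Matrix (Fin n ⊕ Fin k) ((Fin n ⊕ Fin j) ⊕ Fin r) ℝ :=
  fromBlocks (Matrix.fromCols 1 0) 0 (Matrix.fromCols 0 U) V

/-- The orthogonal matrix. -/
noncomputable def TTm (n : ℕ) (U : Matrix (Fin k) (Fin j) ℝ) (V : Matrix (Fin k) (Fin r) ℝ) :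
    Matrix (Fin n ⊕ Fin k) (Fin (n + j) ⊕ Fin r) ℝ :=
  (TT0 n U V).submatrix id (ixEquiv n j r)

theorem TT0_mul (n : ℕ) (h4 : U * Uᵀ + V * Vᵀ = 1) : TT0 n U V * (TT0 n U V)ᵀ = 1 := by
  unfold TT0
  rw [Matrix.fromBlocks_transpose, Matrix.fromBlocks_multiply, Matrix.transpose_fromCols,
    Matrix.transpose_fromCols, Matrix.fromCols_mul_fromRows, Matrix.fromCols_mul_fromRows,
    Matrix.fromCols_mul_fromRows, Matrix.fromCols_mul_fromRows]
  simp only [Matrix.transpose_zero, Matrix.transpose_one, Matrix.mul_zero, Matrix.zero_mul,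
    Matrix.mul_one, add_zero, zero_add]
  rw [h4]
  exact fromBlocks_one

theorem TTm_mul (n : ℕ) (h4 : U * Uᵀ + V * Vᵀ = 1) : TTm n U V * (TTm n U V)ᵀ = 1 := by
  unfold TTm
  rw [Matrix.transpose_submatrix, Matrix.submatrix_mul_equiv, TT0_mul n h4,
    Matrix.submatrix_id_id]

theorem TTm_mul' (n : ℕ) (hc : j + r = k) (h4 : U * Uᵀ + V * Vᵀ = 1) :
    (TTm n U V)ᵀ * TTm n U V = 1 := by
  have e : Fin n ⊕ Fin k ≃ Fin (n + j) ⊕ Fin r :=
    (finSumFinEquiv.trans (finCongr (by omega : n + k = n + j + r))).trans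
      finSumFinEquiv.symm
  exact (Matrix.mul_eq_one_comm_of_equiv e).1 (TTm_mul n h4)

end

end Pool.Agent.EinS
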