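import Pool.Agent.EinS.AllH

/-!
# Einstein metrics on `SO(N)/H` for every closed subgroup `H` of `SO(k)` and `N ≥ N_0(H)`
-/

namespace Pool.Agent.EinS

open Matrix Pool.Agent.EStab LieAlgebra.Orthogonal

/-! ### Orthogonal matrices which normalise an algebra without fixed vectors -/

section

variable {a b : ℕ}

theorem lowHom_mulVec {y : so (Fin b) ℝ} (v : Fin a ⊕ Fin b → ℝ) (i : Fin b) :
    ((lowHom a b y).1 *ᵥ v) (Sum.inr i) = (y.1 *ᵥ (v ∘ Sum.inr)) i := by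
  change (fromBlocks (0 : Matrix (Fin a) (Fin a) ℝ) 0 0 y.1 *ᵥ v) (Sum.inr i) = _
  rw [Matrix.fromBlocks_mulVec, Sum.elim_inr, Matrix.zero_mulVec, zero_add]

theorem lowHom_mulVec_inl {y : so (Fin b) ℝ} (v : Fin a → ℝ) :
    (lowHom a b y).1 *ᵥ (Sum.elim v (fun _ => 0)) = 0 := by
  change fromBlocks (0 : Matrix (Fin a) (Fin a) ℝ) 0 0 y.1 *ᵥ _ = 0
  rw [Matrix.fromBlocks_mulVec]
  have h0 : (Sum.elim v (fun _ : Fin b => (0 : ℝ))) ∘ Sum.inr = 0 := rfl
  rw [h0, Matrix.mulVec_zero, Matrix.mulVec_zero, Matrix.zero_mulVec, Matrix.zero_mulVec,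
    add_zero, add_zero]
  funext i
  rcases i with i | i <;> rfl

/-- An orthogonal matrix which normalises an algebra without fixed vectors is block diagonal. -/
theorem block_diag {h : LieSubalgebra ℝ (so (Fin b) ℝ)} (hf : NoFixed h)
    {g : Matrix (Fin a ⊕ Fin b) (Fin a ⊕ Fin b) ℝ} (hg : g * gᵀ = 1)
    (hn : ∀ y ∈ h, ∃ z ∈ h, (lowHom a b y).1 = g * (lowHom a b z).1 * gᵀ) :
    ∃ (A : Matrix (Fin a) (Fin a) ℝ) (D : Matrix (Fin b) (Fin b) ℝ), g = fromBlocks A 0 0 D ∧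
      A * Aᵀ = 1 ∧ D * Dᵀ = 1 := by
  have hg' : gᵀ * g = 1 := mul_eq_one_comm.1 hg
  -- the lower left block vanishes
  have h1 : ∀ (v : Fin a → ℝ), (g *ᵥ (Sum.elim v (fun _ => 0))) ∘ Sum.inr = 0 := by
    intro v
    apply hf
    intro y hy
    obtain ⟨z, hz, hyz⟩ := hn y hy
    funext i
    rw [← lowHom_mulVec (a := a), hyz, Matrix.mulVec_mulVec]
    have h2 : g * (lowHom a b z).1 * gᵀ * g = g * (lowHom a b z).1 := by
      rw [Matrix.mul_assoc, hg', Matrix.mul_one]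
    rw [h2, ← Matrix.mulVec_mulVec, lowHom_mulVec_inl, Matrix.mulVec_zero]
    rfl
  have h2 : ∀ i j, g (Sum.inr i) (Sum.inl j) = 0 := by
    intro i j
    have h3 := congrFun (h1 (Pi.single j 1)) i
    change (g *ᵥ (Sum.elim (Pi.single j 1) (fun _ => 0))) (Sum.inr i) = 0 at h3
    rw [Matrix.mulVec, dotProduct, Fintype.sum_sum_type] at h3
    simp only [Sum.elim_inl, Sum.elim_inr, mul_zero, Finset.sum_const_zero, add_zero] at h3
    rw [Finset.sum_eq_single j] at h3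
    · rwa [Pi.single_eq_same, mul_one] at h3
    · intro j' _ hj'
      rw [Pi.single_eq_of_ne hj', mul_zero]
    · intro hj
      exact absurd (Finset.mem_univ j) hj
  have h3 : g = fromBlocks g.toBlocks₁₁ g.toBlocks₁₂ 0 g.toBlocks₂₂ := by
    conv_lhs => rw [← Matrix.fromBlocks_toBlocks g]
    congr 1
    ext i j
    exact h2 i j
  set A := g.toBlocks₁₁ with hA
  set B := g.toBlocks₁₂ with hB
  set D := g.toBlocks₂₂ with hD
  rw [h3, Matrix.fromBlocks_transpose, Matrix.fromBlocks_multiply, ← fromBlocks_one] at hg'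
  have e1 := congrArg Matrix.toBlocks₁₁ hg'
  have e2 := congrArg Matrix.toBlocks₁₂ hg'
  have e3 := congrArg Matrix.toBlocks₂₂ hg'
  simp only [Matrix.toBlocks_fromBlocks₁₁, Matrix.toBlocks_fromBlocks₁₂,
    Matrix.toBlocks_fromBlocks₂₂, Matrix.transpose_zero, Matrix.mul_zero, Matrix.zero_mul,
    add_zero] at e1 e2 e3
  have e4 : A * Aᵀ = 1 := mul_eq_one_comm.1 e1
  have e5 : B = 0 := by
    calc B = A * Aᵀ * B := by rw [e4, Matrix.one_mul]
      _ = A * (Aᵀ * B) := by rw [Matrix.mul_assoc]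
      _ = 0 := by rw [e2, Matrix.mul_zero]
  rw [e5, Matrix.mul_zero, zero_add] at e3
  refine ⟨A, D, ?_, e4, mul_eq_one_comm.1 e3⟩
  rw [h3, e5]

theorem conj_mem_lower {A : Matrix (Fin a) (Fin a) ℝ} {D : Matrix (Fin b) (Fin b) ℝ}
    {x : so (Fin a ⊕ Fin b) ℝ} (hx : x ∈ lower a b) {y : so (Fin a ⊕ Fin b) ℝ}
    (hy : y.1 = fromBlocks A 0 0 D * x.1 * (fromBlocks A 0 0 D)ᵀ) : y ∈ lower a b := by
  intro i j
  have h1 : x.1 = fromBlocks 0 0 0 x.1.toBlocks₂₂ := by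
    conv_lhs => rw [← Matrix.fromBlocks_toBlocks x.1]
    congr 1
    · ext p q
      exact lower_row hx p _
    · ext p q
      exact lower_row hx p _
    · ext p q
      exact lower_col hx q _
  rw [hy, h1, Matrix.fromBlocks_transpose, Matrix.fromBlocks_multiply,
    Matrix.fromBlocks_multiply]
  rcases j with j | j <;> simp

theorem conj_mem_upper {A : Matrix (Fin a) (Fin a) ℝ} {D : Matrix (Fin b) (Fin b) ℝ}
    {x : so (Fin a ⊕ Fin b) ℝ} (hx : x ∈ upper a b) {y : so (Fin a ⊕ Fin b) ℝ}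
    (hy : y.1 = fromBlocks A 0 0 D * x.1 * (fromBlocks A 0 0 D)ᵀ) : y ∈ upper a b := by
  intro i j
  have h1 : x.1 = fromBlocks x.1.toBlocks₁₁ 0 0 0 := by
    conv_lhs => rw [← Matrix.fromBlocks_toBlocks x.1]
    congr 1
    · ext p q
      exact upper_col hx q _
    · ext p q
      exact upper_row hx p _
    · ext p q
      exact upper_row hx p _
  rw [hy, h1, Matrix.fromBlocks_transpose, Matrix.fromBlocks_multiply,
    Matrix.fromBlocks_multiply]
  rcases j with j | j <;> simp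

theorem map_eq_of_both {L : Type*} [LieRing L] [LieAlgebra ℝ L] {k : LieSubalgebra ℝ L}
    {δ : L ≃ₗ⁅ℝ⁆ L} (h1 : ∀ x ∈ k, δ x ∈ k) (h2 : ∀ x ∈ k, δ.symm x ∈ k) :
    k.map (δ : L →ₗ⁅ℝ⁆ L) = k := by
  apply le_antisymm
  · rintro x ⟨y, hy, rfl⟩
    exact h1 y hy
  · intro x hx
    exact ⟨δ.symm x, h2 x hx, δ.apply_symm_apply x⟩

theorem mem_pairAuts {h : LieSubalgebra ℝ (so (Fin b) ℝ)} (hf : NoFixed h)
    {g : Matrix (Fin a ⊕ Fin b) (Fin a ⊕ Fin b) ℝ} (hg : g * gᵀ = 1)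
    {γ : so (Fin a ⊕ Fin b) ℝ →ₗ[ℝ] so (Fin a ⊕ Fin b) ℝ}
    (hγ : ∀ x, (γ x).1 = g * x.1 * gᵀ)
    (h1 : ∀ x ∈ h.map (lowHom a b), γ x ∈ h.map (lowHom a b))
    (h2 : ∀ y ∈ h.map (lowHom a b), ∃ x ∈ h.map (lowHom a b), γ x = y) :
    γ ∈ pairAuts (lower a b) (upper a b) (h.map (lowHom a b)) := by
  have hg' : gᵀ * g = 1 := mul_eq_one_comm.1 hg
  obtain ⟨A, D, hgAD, hA, hD⟩ := block_diag hf hg (fun y hy => by
    obtain ⟨x, ⟨z, hz, hzx⟩, hx⟩ := h2 (lowHom a b y) ⟨y, hy, rfl⟩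
    refine ⟨z, hz, ?_⟩
    have h3 : lowHom a b z = x := hzx
    rw [h3, ← hγ, hx])
  have hδ : ∀ x, γ x = soConj g hg hg' x := by
    intro x
    apply Subtype.ext
    exact hγ x
  have hgt : gᵀ = fromBlocks Aᵀ 0 0 Dᵀ := by
    rw [hgAD, Matrix.fromBlocks_transpose]
    simp only [Matrix.transpose_zero]
  have hgs : ∀ x : so (Fin a ⊕ Fin b) ℝ, ((soConj g hg hg').symm x).1 =
      fromBlocks Aᵀ 0 0 Dᵀ * x.1 * (fromBlocks Aᵀ 0 0 Dᵀ)ᵀ := by
    intro x
    rw [← hgt, Matrix.transpose_transpose]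
    rfl
  have hgc : ∀ x : so (Fin a ⊕ Fin b) ℝ, (soConj g hg hg' x).1 =
      fromBlocks A 0 0 D * x.1 * (fromBlocks A 0 0 D)ᵀ := by
    intro x
    rw [← hgAD]
    rfl
  refine ⟨soConj g hg hg', ?_, ?_, ?_, hδ⟩
  · exact map_eq_of_both (fun x hx => conj_mem_lower hx (hgc x))
      fun x hx => conj_mem_lower hx (hgs x)
  · exact map_eq_of_both (fun x hx => conj_mem_upper hx (hgc x))
      fun x hx => conj_mem_upper hx (hgs x)
  · refine map_eq_of_both (fun x hx => ?_) fun x hx => ?_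
    · rw [← hδ]
      exact h1 x hx
    · obtain ⟨z, hz, hzx⟩ := h2 x hx
      rw [← hzx, hδ, LieEquiv.symm_apply_apply]
      exact hz

end

section

variable {n k j r : ℕ} {h : LieSubalgebra ℝ (so (Fin k) ℝ)} {U : Matrix (Fin k) (Fin j) ℝ}
  {V : Matrix (Fin k) (Fin r) ℝ}

theorem TTm_conj (x : Matrix (Fin r) (Fin r) ℝ) :
    TTm n U V * (fromBlocks 0 0 0 x : Matrix (Fin (n + j) ⊕ Fin r) (Fin (n + j) ⊕ Fin r) ℝ) *
      (TTm n U V)ᵀ = fromBlocks 0 0 0 (V * x * Vᵀ) := by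
  have h1 : TTm n U V = fromBlocks
      ((Matrix.fromCols (1 : Matrix (Fin n) (Fin n) ℝ) 0).submatrix id finSumFinEquiv.symm) 0
      ((Matrix.fromCols (0 : Matrix (Fin k) (Fin n) ℝ) U).submatrix id finSumFinEquiv.symm)
      V := by
    ext p q
    rcases p with p | p <;> rcases q with q | q <;> rfl
  rw [h1, Matrix.fromBlocks_transpose, Matrix.fromBlocks_multiply,
    Matrix.fromBlocks_multiply]
  simp only [Matrix.mul_zero, Matrix.zero_mul, Matrix.transpose_zero, add_zero, zero_add]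

theorem all_aux (hj : j + r = k) (h2 : Vᵀ * V = 1)
    (h4 : U * Uᵀ + V * Vᵀ = 1) (h5 : ∀ x ∈ h, x.1 * U = 0)
    (h6 : ∀ v : Fin k → ℝ, (∀ x ∈ h, x.1 *ᵥ v = 0) → Vᵀ *ᵥ v = 0)
    (hE : HasEinsteinMetric (so (Fin (n + j) ⊕ Fin r) ℝ)
      ((compr h U V h4 h5).map (lowHom (n + j) r)).toSubmodule
      (pairAuts (lower (n + j) r) (upper (n + j) r)
        ((compr h U V h4 h5).map (lowHom (n + j) r)))) :
    HasEinsteinMetric (so (Fin n ⊕ Fin k) ℝ) (h.map (lowHom n k)).toSubmodule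
      (normAuts (h.map (lowHom n k))) := by
  have hT := TTm_mul n h4
  have hT' := TTm_mul' n hj h4
  set T := TTm n U V with hTdef
  set e := soConj T hT hT' with he
  have hea : ∀ x, (e x).1 = T * x.1 * Tᵀ := fun x => rfl
  have key : ∀ (y : so (Fin r) ℝ) (x : so (Fin k) ℝ), x ∈ h → y.1 = Vᵀ * x.1 * V →
      e (lowHom (n + j) r y) = lowHom n k x := by
    intro y x hx hy
    apply Subtype.ext
    rw [hea]
    change T * fromBlocks 0 0 0 y.1 * Tᵀ = fromBlocks 0 0 0 x.1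
    rw [hTdef, TTm_conj, hy]
    congr 1
    calc V * (Vᵀ * x.1 * V) * Vᵀ = (V * Vᵀ * x.1) * (V * Vᵀ) := by
          simp only [Matrix.mul_assoc]
      _ = _ := by rw [(split_VV h4 h5 hx).2, (split_VV h4 h5 hx).1]
  have hW : ∀ x, e x ∈ (h.map (lowHom n k)).toSubmodule ↔
      x ∈ ((compr h U V h4 h5).map (lowHom (n + j) r)).toSubmodule := by
    intro x
    constructor
    · rintro ⟨z, hz, hzx⟩
      have hz' : lowHom n k z = e x := hzx
      have h8 : (⟨Vᵀ * z.1 * V, by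
        rw [mem_so, Matrix.transpose_mul, Matrix.transpose_mul, Matrix.transpose_transpose,
          (mem_so _ _ _).1 z.2, Matrix.neg_mul, Matrix.mul_neg, Matrix.mul_assoc]⟩ :
          so (Fin r) ℝ) ∈ compr h U V h4 h5 := ⟨z, hz, rfl⟩
      refine ⟨_, h8, ?_⟩
      apply e.injective
      exact (key _ z hz rfl).trans hz'
    · rintro ⟨y, ⟨z, hz, hyz⟩, hyx⟩
      have hyx' : lowHom (n + j) r y = x := hyx
      rw [← hyx', key y z hz hyz]
      exact ⟨z, hz, rfl⟩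
  refine hasEinstein_equiv e hW ?_ hE
  rintro γ' ⟨g, hg, hγ', hmap⟩
  have hg0 : (Tᵀ * g * T) * (Tᵀ * g * T)ᵀ = 1 := by
    rw [Matrix.transpose_mul, Matrix.transpose_mul, Matrix.transpose_transpose]
    calc Tᵀ * g * T * (Tᵀ * (gᵀ * T)) = Tᵀ * (g * ((T * Tᵀ) * gᵀ)) * T := by
          simp only [Matrix.mul_assoc]
      _ = _ := by rw [hT, Matrix.one_mul, hg, Matrix.mul_one, hT']
  have hg0' : (Tᵀ * g * T)ᵀ * (Tᵀ * g * T) = 1 := mul_eq_one_comm.1 hg0
  set δ := soConj (Tᵀ * g * T) hg0 hg0' with hδ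
  have hcomm : ∀ x, γ' (e x) = e (δ x) := by
    intro x
    apply Subtype.ext
    rw [hγ', hea, hea]
    change g * (T * x.1 * Tᵀ) * gᵀ = T * ((Tᵀ * g * T) * x.1 * (Tᵀ * g * T)ᵀ) * Tᵀ
    rw [Matrix.transpose_mul, Matrix.transpose_mul, Matrix.transpose_transpose]
    calc g * (T * x.1 * Tᵀ) * gᵀ = (T * Tᵀ) * g * T * x.1 * Tᵀ * gᵀ * (T * Tᵀ) := by
          rw [hT, Matrix.one_mul, Matrix.mul_one]
          simp only [Matrix.mul_assoc]
      _ = _ := by simp only [Matrix.mul_assoc]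
  refine ⟨(δ : so (Fin (n + j) ⊕ Fin r) ℝ →ₗ[ℝ] so (Fin (n + j) ⊕ Fin r) ℝ), ?_, hcomm⟩
  refine mem_pairAuts (compr_noFixed h2 h4 h5 h6) hg0 (fun x => rfl) ?_ ?_
  · intro x hx
    rw [← LieSubalgebra.mem_toSubmodule, ← hW]
    change e (δ x) ∈ _
    rw [← hcomm, ← hmap]
    exact ⟨e x, (hW x).2 hx, rfl⟩
  · intro y hy
    have h7 : e y ∈ (h.map (lowHom n k)).toSubmodule := (hW y).2 hy
    rw [← hmap] at h7
    obtain ⟨z, hz, hzy⟩ := h7
    refine ⟨e.symm z, ?_, ?_⟩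
    · rw [← LieSubalgebra.mem_toSubmodule, ← hW, LieEquiv.apply_symm_apply]
      exact hz
    · apply e.injective
      change e (δ (e.symm z)) = e y
      rw [← hcomm, LieEquiv.apply_symm_apply, hzy]

end

/-- For every subalgebra `h` of `so(k)` and every large `n`, the space `SO(n + k)/H` has an invariant
Einstein metric, invariant under the normaliser of `H` in `O(n + k)`. -/
theorem so_all {k : ℕ} (h : LieSubalgebra ℝ (so (Fin k) ℝ)) :
    ∃ n0 : ℕ, ∀ n ≥ n0, HasEinsteinMetric (so (Fin n ⊕ Fin k) ℝ)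
      (h.map (lowHom n k)).toSubmodule (normAuts (h.map (lowHom n k))) := by
  obtain ⟨j, r, U, V, h1, h2, h3, h4, h5, h6⟩ := exists_split h
  have hj : j + r = k := by
    have e1 := congrArg Matrix.trace h4
    have e2 : trace (U * Uᵀ) = j := by
      rw [Matrix.trace_mul_comm, h1, Matrix.trace_one, Fintype.card_fin]
    have e3 : trace (V * Vᵀ) = r := by
      rw [Matrix.trace_mul_comm, h2, Matrix.trace_one, Fintype.card_fin]
    rw [Matrix.trace_add, e2, e3, Matrix.trace_one, Fintype.card_fin] at e1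
    exact_mod_cast e1
  rcases Nat.eq_zero_or_pos r with hr | hr
  · -- `h` is trivial
    refine ⟨3, fun n hn => ?_⟩
    have h0 : h.map (lowHom n k) = ⊥ := by
      rw [eq_bot_iff]
      rintro x ⟨y, hy, hyx⟩
      have h7 : V = 0 := by
        subst hr
        ext p q
        exact q.elim0
      have h8 := (split_VV h4 h5 hy).1
      rw [h7, Matrix.zero_mul, Matrix.mul_zero] at h8
      have h9 : y = 0 := Subtype.ext h8.symm
      have h10 : lowHom n k y = x := hyx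
      rw [← h10, h9, map_zero]
      exact LieSubalgebra.zero_mem _
    refine biinvariant (so_compact' (by
      rw [Fintype.card_sum, Fintype.card_fin, Fintype.card_fin]
      omega)) h0 ?_
    rintro γ ⟨g, hg, hγ, -⟩
    exact ⟨soConj g hg (mul_eq_one_comm.1 hg), fun x => Subtype.ext (hγ x)⟩
  · obtain ⟨n0, hn0⟩ := so_large hr (compr_noFixed h2 h4 h5 h6)
    exact ⟨n0, fun n hn => all_aux hj h2 h4 h5 h6 (hn0 (n + j) (by omega))⟩

end Pool.Agent.EinS
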