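import Pool.Agent.EinS.Main

/-!
# Assembling an Einstein metric from its matrix
-/

namespace Pool.Agent.EinS

open Matrix Pool.Agent.EStab

variable {L : Type*} [LieRing L] [LieAlgebra ℝ L]

theorem hasEinstein_of [Module.Finite ℝ L] (hg : CompactSemisimple L) {W : LieSubalgebra ℝ L}
    {ι : Type} [Fintype ι] [DecidableEq ι] {e : ι → L} (hfm : IsFrame (perp W.toSubmodule) e)
    {G Gi : Matrix ι ι ℝ} (hGs : G.IsSymm) (hGG : G * Gi = 1)
    (hG0 : ∀ x : ι → ℝ, 0 ≤ x ⬝ᵥ (G *ᵥ x)) (hR : RicM (CF e) G Gi = (1 / 2 : ℝ) • G)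
    {Γ : Set (L →ₗ[ℝ] L)}
    (hΓ : ∀ γ ∈ Γ, ∃ δ : L ≃ₗ⁅ℝ⁆ L, Pres δ W.toSubmodule ∧ (∀ x, γ x = δ x) ∧
      mat δ e * G * (mat δ e)ᵀ = G) :
    HasEinsteinMetric L W.toSubmodule Γ := by
  classical
  have hGd : G.det ≠ 0 := by
    intro h0
    have h1 := congrArg Matrix.det hGG
    rw [Matrix.det_mul, h0, zero_mul, Matrix.det_one] at h1
    exact one_ne_zero h1.symm
  obtain ⟨E, hE⟩ := exists_orthonormal hGs hG0 hGd
  have hEd : E.det ≠ 0 := by
    intro h0
    have h1 := congrArg Matrix.det hE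
    rw [Matrix.det_mul, h0, mul_zero, Matrix.det_one] at h1
    exact one_ne_zero h1.symm
  have hEE : E * E⁻¹ = 1 := Matrix.mul_nonsing_inv _ (isUnit_iff_ne_zero.2 hEd)
  let eqv : Fin (Fintype.card ι) ≃ ι := (Fintype.equivFin ι).symm
  refine ⟨perp W.toSubmodule, prj e, bet e G, Fintype.card ι, fun i => XE e E (eqv i), 1 / 2,
    ?_, ?_, ?_, ?_, ?_, ?_, ?_, ?_, ?_, ?_, ?_⟩
  · -- complement
    obtain ⟨n, w, hw⟩ := exists_frame hg W.toSubmodule
    constructor
    · rw [Submodule.disjoint_def]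
      intro x hx hx'
      exact Qf_eq_zero hg (hx' x hx)
    · rw [codisjoint_iff, eq_top_iff]
      intro x _
      have h3 : x = (∑ i, Qf L x (w i) • w i) + (x - ∑ i, Qf L x (w i) • w i) := by abel
      rw [h3]
      exact Submodule.add_mem_sup (frame_mem hw _) (hw.sub_mem_perp x)
  · intro y hy
    rw [prj_apply]
    refine Finset.sum_eq_zero fun x _ => ?_
    rw [Qf_symm, hfm.mem x y hy, zero_smul]
  · intro x hx
    exact (hfm.exp x hx).symm
  · intro y hy x hx z hz
    rw [Qf_lie', hx _ (W.lie_mem hy hz), neg_zero]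
  · intro γ hγ x hx
    obtain ⟨δ, h1, h2, -⟩ := hΓ γ hγ
    rw [h2]
    exact h1.perp.1 x hx
  · intro γ hγ x hx y hy
    obtain ⟨δ, h1, h2, hMG⟩ := hΓ γ hγ
    have hWp : Pres δ (perp W.toSubmodule) := h1.perp
    rw [h2, h2, bet_apply, bet_apply, co_equiv hfm hWp, co_equiv hfm hWp]
    have hM := mat_orth hfm hWp
    have hM' : (mat δ e)ᵀ * mat δ e = 1 := mul_eq_one_comm.1 hM
    have hMG' : (mat δ e)ᵀ * (G * mat δ e) = G := by
      calc (mat δ e)ᵀ * (G * mat δ e)
          = (mat δ e)ᵀ * (mat δ e * G * (mat δ e)ᵀ * mat δ e) := by rw [hMG]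
        _ = ((mat δ e)ᵀ * mat δ e) * G * ((mat δ e)ᵀ * mat δ e) := by
            simp only [Matrix.mul_assoc]
        _ = G := by rw [hM', Matrix.one_mul, Matrix.mul_one]
    have h5 : ∀ c d : ι → ℝ, (mat δ e *ᵥ c) ⬝ᵥ (G *ᵥ (mat δ e *ᵥ d)) =
        c ⬝ᵥ (G *ᵥ d) := by
      intro c d
      rw [Matrix.mulVec_mulVec]
      have h6 : (mat δ e *ᵥ c) ⬝ᵥ ((G * mat δ e) *ᵥ d) =
          c ⬝ᵥ ((mat δ e)ᵀ *ᵥ ((G * mat δ e) *ᵥ d)) := by
        rw [Matrix.dotProduct_mulVec c, ← Matrix.mulVec_transpose, Matrix.transpose_transpose]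
      rw [h6, Matrix.mulVec_mulVec, hMG']
    exact h5 _ _
  · intro x y
    exact bet_symm e hGs x y
  · apply le_antisymm
    · rw [Submodule.span_le]
      rintro x ⟨i, rfl⟩
      exact Submodule.sum_mem _ fun y _ => Submodule.smul_mem _ _ (hfm.mem y)
    · intro x hx
      rw [hfm.exp x hx]
      refine Submodule.sum_mem _ fun y _ => Submodule.smul_mem _ _ ?_
      have h1 : e y = ∑ i, E⁻¹ i y • XE e E i := by
        have h2 : ∀ i, XE e E i = ∑ z, E z i • e z := fun i => rfl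
        simp only [h2, Finset.smul_sum, smul_smul]
        rw [Finset.sum_comm]
        have h3 : ∀ z, ∑ i, (E⁻¹ i y * E z i) • e z = (E * E⁻¹) z y • e z := by
          intro z
          rw [← Finset.sum_smul, Matrix.mul_apply]
          congr 1
          refine Finset.sum_congr rfl fun i _ => ?_
          rw [mul_comm]
        simp only [h3, hEE, Matrix.one_apply, ite_smul, one_smul, zero_smul]
        simp
      rw [h1]
      refine Submodule.sum_mem _ fun i _ => Submodule.smul_mem _ _ (Submodule.subset_span ?_)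
      exact ⟨eqv.symm i, by simp⟩
  · intro i j
    have hX : ∀ i, co e (XE e E i) = fun z => E z i := fun i => co_comb hfm fun z => E z i
    have h1 : ∀ i j, bet e G (XE e E i) (XE e E j) = (Eᵀ * G * E) i j := by
      intro i j
      rw [bet_apply, hX, hX, Matrix.mul_assoc, Matrix.mul_apply]
      unfold dotProduct
      refine Finset.sum_congr rfl fun z _ => ?_
      rw [Matrix.transpose_apply, Matrix.mul_apply]
      rfl
    rw [h1, hE, Matrix.one_apply]
    simp only [EmbeddingLike.apply_eq_iff_eq]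
  · norm_num
  · intro x hx
    rw [ricci_eval eqv hfm hE hGs hGG hx, hR, Matrix.smul_mulVec, dotProduct_smul, smul_eq_mul,
      bet_apply]

end Pool.Agent.EinS
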