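import Pool.Agent.EinS.Est2

/-!
# Existence of the fixed point near the bi-invariant metric
-/

namespace Pool.Agent.EinS

open Matrix

variable {m q p l : Type*} [Fintype m] [DecidableEq m] [Fintype q] [DecidableEq q] [Fintype p]
  [DecidableEq p] [Fintype l] [DecidableEq l]

/-- The data of the second factor `l`: `M u` is the action of `u` on `p`, `Λ u` on `l`. -/
structure LData (N : q → Matrix p p ℝ) (M : l → Matrix p p ℝ) (Λ : l → Matrix l l ℝ)
    (κ α : ℝ) : Prop where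
  comm : ∀ a u, N a * M u = M u * N a
  skewN : ∀ a, (N a)ᵀ = -N a
  skewM : ∀ u, (M u)ᵀ = -M u
  casM : ∑ u, M u * (M u)ᵀ = (1 / 2 - κ) • (1 : Matrix p p ℝ)
  trM : ∀ u v, trace (M u * (M v)ᵀ) = if u = v then 1 - α else 0
  trL : ∀ u v, trace (Λ u * (Λ v)ᵀ) = if u = v then α else 0
  cross : ∀ X : Matrix p p ℝ, (∀ u, X * M u = M u * X) → ∀ u, trace (X * M u) = 0
  homog : ∀ X : Matrix p p ℝ, X.IsSymm → (∀ u, X * M u = M u * X) →
    ∃ μ : ℝ, ∀ u v, trace (M u * (M v)ᵀ * X) = if u = v then μ else 0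

/-- The average of `tr (M_u B⁻¹ M_uᵀ B⁻¹)`. -/
noncomputable def muF (M : l → Matrix p p ℝ) (B : Matrix p p ℝ) : ℝ :=
  (1 / (Fintype.card l : ℝ)) * ∑ u, trace (B⁻¹ * (M u * B⁻¹ * (M u)ᵀ))

theorem muF_btw [Nonempty l] {N : q → Matrix p p ℝ} {M : l → Matrix p p ℝ}
    {Λ : l → Matrix l l ℝ} {κ α s : ℝ} (hL : LData N M Λ κ α) (s0 : 0 < s)
    {B : Matrix p p ℝ} (hB : Btw (1 / 2) (1 / 2 + s) B) :
    1 / (1 / 2 + s) * (1 / (1 / 2 + s)) * (1 - α) ≤ muF M B ∧ muF M B ≤ 4 * (1 - α) := by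
  have hb0 : (0 : ℝ) < 1 / 2 + s := by linarith
  have hR := hB.inv (by norm_num) hb0
  have hc : (0 : ℝ) < (Fintype.card l : ℝ) := by exact_mod_cast Fintype.card_pos
  have h1 : ∀ u, 1 / (1 / 2 + s) * (1 / (1 / 2 + s)) * (1 - α) ≤
      trace (B⁻¹ * (M u * B⁻¹ * (M u)ᵀ)) := by
    intro u
    have := (trace_quad (by positivity) (by positivity) (by positivity) hR hR (M u)).1
    rwa [hL.trM, if_pos rfl] at this
  have h2 : ∀ u, trace (B⁻¹ * (M u * B⁻¹ * (M u)ᵀ)) ≤ 4 * (1 - α) := by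
    intro u
    have := (trace_quad (by positivity) (by positivity) (by positivity) hR hR (M u)).2
    rw [hL.trM, if_pos rfl] at this
    have e : (1 : ℝ) / (1 / 2) * (1 / (1 / 2)) = 4 := by norm_num
    rwa [e] at this
  have h3 : (Fintype.card l : ℝ) * (1 / (1 / 2 + s) * (1 / (1 / 2 + s)) * (1 - α)) ≤
      ∑ u, trace (B⁻¹ * (M u * B⁻¹ * (M u)ᵀ)) := by
    have := Finset.sum_le_sum fun u (_ : u ∈ Finset.univ) => h1 u
    rwa [Finset.sum_const, Finset.card_univ, nsmul_eq_mul] at this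
  have h4 : ∑ u, trace (B⁻¹ * (M u * B⁻¹ * (M u)ᵀ)) ≤
      (Fintype.card l : ℝ) * (4 * (1 - α)) := by
    have := Finset.sum_le_sum fun u (_ : u ∈ Finset.univ) => h2 u
    rwa [Finset.sum_const, Finset.card_univ, nsmul_eq_mul] at this
  have e : muF M B = (∑ u, trace (B⁻¹ * (M u * B⁻¹ * (M u)ᵀ))) / (Fintype.card l : ℝ) := by
    unfold muF
    rw [one_div_mul_eq_div]
  rw [e]
  exact ⟨(le_div_iff₀' hc).2 h3, (div_le_iff₀' hc).2 h4⟩

/-- The invariant triples in the box. -/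
def Box2 (N : q → Matrix p p ℝ) (S : q → Matrix q q ℝ) (M : l → Matrix p p ℝ) (s : ℝ) :
    Set ((Matrix p p ℝ × Matrix q q ℝ) × ℝ) :=
  {z | Btw (1 / 2) (1 / 2 + s) z.1.1 ∧ Btw (2 - 20 * s) (2 + 11 * s) z.1.2 ∧
    z.2 ∈ Set.Icc (1 / 2 - 8 * s ^ 3) (1 / 2) ∧ (∀ u, z.1.1 * M u = M u * z.1.1) ∧
    ∀ u v, Sym N S u v → v * z.1.1 * vᵀ = z.1.1 ∧ u * z.1.2 * uᵀ = z.1.2}

/-- The map. -/
noncomputable def Map2 (N : q → Matrix p p ℝ) (S : q → Matrix q q ℝ) (M : l → Matrix p p ℝ)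
    (κ α : ℝ) (z : (Matrix p p ℝ × Matrix q q ℝ) × ℝ) : (Matrix p p ℝ × Matrix q q ℝ) × ℝ :=
  ((Phi1 N z.1.1 z.1.2 - (z.2 * (1 / 2 - κ)) • z.1.1⁻¹, Phi2 N S z.1.1 z.1.2),
    1 / 2 * α + 1 / 2 * z.2 ^ 2 * muF M z.1.1)

theorem isCompact_entries' (k : Type*) [Fintype k] : IsCompact {A : Matrix k k ℝ |
    ∀ i j, A i j ∈ Set.Icc (-3 : ℝ) 3} := by
  have := isCompact_univ_pi (fun _ : k => isCompact_univ_pi (fun _ : k =>
    (isCompact_Icc : IsCompact (Set.Icc (-3 : ℝ) 3))))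
  refine this.of_isClosed_subset ?_ ?_
  · have h2 : {A : Matrix k k ℝ | ∀ i j, A i j ∈ Set.Icc (-3 : ℝ) 3} =
        ⋂ i, ⋂ j, {A | A i j ∈ Set.Icc (-3 : ℝ) 3} := by
      ext A; simp
    rw [h2]
    exact isClosed_iInter fun i => isClosed_iInter fun j =>
      isClosed_Icc.preimage (Continuous.matrix_elem continuous_id i j)
  · intro A hA i _ j _
    exact hA i j

theorem isCompact_box2 (N : q → Matrix p p ℝ) (S : q → Matrix q q ℝ) (M : l → Matrix p p ℝ)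
    {s : ℝ} (s0 : 0 < s) (s2 : s ≤ 1 / 50) : IsCompact (Box2 N S M s) := by
  have hK : IsCompact {z : (Matrix p p ℝ × Matrix q q ℝ) × ℝ |
      ((∀ i j, z.1.1 i j ∈ Set.Icc (-3 : ℝ) 3) ∧ ∀ i j, z.1.2 i j ∈ Set.Icc (-3 : ℝ) 3) ∧
        z.2 ∈ Set.Icc (1 / 2 - 8 * s ^ 3) (1 / 2)} :=
    ((isCompact_entries' p).prod (isCompact_entries' q)).prod isCompact_Icc
  refine hK.of_isClosed_subset ?_ ?_
  · have h2 : Box2 N S M s = ((fun z => z.1.1) ⁻¹' {A | Btw (1 / 2) (1 / 2 + s) A}) ∩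
        (((fun z => z.1.2) ⁻¹' {A | Btw (2 - 20 * s) (2 + 11 * s) A}) ∩
        ((Prod.snd ⁻¹' Set.Icc (1 / 2 - 8 * s ^ 3) (1 / 2)) ∩
        ((⋂ u, {z : (Matrix p p ℝ × Matrix q q ℝ) × ℝ | z.1.1 * M u = M u * z.1.1}) ∩
        ⋂ u : Matrix q q ℝ, ⋂ v : Matrix p p ℝ, ⋂ _ : Sym N S u v,
          ({z : (Matrix p p ℝ × Matrix q q ℝ) × ℝ | v * z.1.1 * vᵀ = z.1.1} ∩
            {z | u * z.1.2 * uᵀ = z.1.2})))) := by
      ext z
      simp only [Box2, Set.mem_setOf_eq, Set.mem_inter_iff, Set.mem_preimage, Set.mem_iInter]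
    have c1 : Continuous fun z : (Matrix p p ℝ × Matrix q q ℝ) × ℝ => z.1.1 :=
      continuous_fst.comp continuous_fst
    have c2 : Continuous fun z : (Matrix p p ℝ × Matrix q q ℝ) × ℝ => z.1.2 :=
      continuous_snd.comp continuous_fst
    rw [h2]
    refine IsClosed.inter ((isClosed_btw _ _).preimage c1)
      (IsClosed.inter ((isClosed_btw _ _).preimage c2)
      (IsClosed.inter (isClosed_Icc.preimage continuous_snd) (IsClosed.inter ?_ ?_)))
    · refine isClosed_iInter fun u => isClosed_eq ?_ ?_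
      · exact Continuous.matrix_mul c1 continuous_const
      · exact Continuous.matrix_mul continuous_const c1
    · refine isClosed_iInter fun u => isClosed_iInter fun v => isClosed_iInter fun _ => ?_
      refine IsClosed.inter (isClosed_eq ?_ c1) (isClosed_eq ?_ c2)
      · exact Continuous.matrix_mul (Continuous.matrix_mul continuous_const c1)
          continuous_const
      · exact Continuous.matrix_mul (Continuous.matrix_mul continuous_const c2)
          continuous_const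
  · rintro z ⟨h1, h2, h3, -⟩
    refine ⟨⟨fun i j => ?_, fun i j => ?_⟩, h3⟩
    · have := h1.entry (by norm_num) (by linarith) i j
      rw [abs_le] at this
      constructor <;> linarith
    · have := h2.entry (by linarith) (by linarith) i j
      rw [abs_le] at this
      constructor <;> linarith

theorem comm_inv {A C : Matrix m m ℝ} (hC : C.det ≠ 0) (h : C * A = A * C) :
    C⁻¹ * A = A * C⁻¹ := by
  have h1 : C⁻¹ * C = 1 := Matrix.nonsing_inv_mul _ (isUnit_iff_ne_zero.2 hC)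
  have h2 : C * C⁻¹ = 1 := Matrix.mul_nonsing_inv _ (isUnit_iff_ne_zero.2 hC)
  calc C⁻¹ * A = C⁻¹ * A * (C * C⁻¹) := by rw [h2, Matrix.mul_one]
    _ = C⁻¹ * (A * C) * C⁻¹ := by simp only [Matrix.mul_assoc]
    _ = C⁻¹ * (C * A) * C⁻¹ := by rw [h]
    _ = (C⁻¹ * C) * A * C⁻¹ := by simp only [Matrix.mul_assoc]
    _ = A * C⁻¹ := by rw [h1, Matrix.one_mul]

theorem TT_comm {N : q → Matrix p p ℝ} {A C : Matrix p p ℝ} (hN : ∀ a, N a * A = A * N a)
    (hs : ∀ a, (N a)ᵀ = -N a) (hC : C * A = A * C) (T : Matrix q q ℝ) :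
    TT N T C * A = A * TT N T C := by
  unfold TT
  rw [Finset.sum_mul, Finset.mul_sum]
  refine Finset.sum_congr rfl fun a _ => ?_
  rw [Finset.sum_mul, Finset.mul_sum]
  refine Finset.sum_congr rfl fun b _ => ?_
  rw [Matrix.smul_mul, Matrix.mul_smul]
  congr 1
  rw [hs, Matrix.mul_neg, Matrix.neg_mul, Matrix.mul_neg]
  congr 1
  calc N a * C * N b * A = N a * (C * (N b * A)) := by simp only [Matrix.mul_assoc]
    _ = N a * (C * A) * N b := by rw [hN]; simp only [Matrix.mul_assoc]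
    _ = (N a * A) * C * N b := by rw [hC]; simp only [Matrix.mul_assoc]
    _ = A * (N a * C * N b) := by rw [hN]; simp only [Matrix.mul_assoc]

theorem exists_fixed2 [Nonempty l] {N : q → Matrix p p ℝ} {S : q → Matrix q q ℝ}
    {M : l → Matrix p p ℝ} {Λ : l → Matrix l l ℝ} {θ κ α s : ℝ} (h : Small2 N S θ κ)
    (hL : LData N M Λ κ α) (s0 : 0 < s) (s1 : 50 * s ≤ θ) (t1 : θ ≤ 1) (k0 : 0 ≤ κ)
    (k1 : 3 * κ ≤ s ^ 2) (ha : α ≤ 1) (ha' : 1 - α ≤ 4 * κ) :
    ∃ (B : Matrix p p ℝ) (P : Matrix q q ℝ) (x : ℝ), Btw (1 / 2) (1 / 2 + s) B ∧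
      Btw (2 - 20 * s) (2 + 11 * s) P ∧ x ∈ Set.Icc (1 / 2 - 8 * s ^ 3) (1 / 2) ∧
      (∀ u, B * M u = M u * B) ∧
      (∀ u v, Sym N S u v → v * B * vᵀ = B ∧ u * P * uᵀ = P) ∧
      Phi1 N B P - (x * (1 / 2 - κ)) • B⁻¹ = B ∧ Phi2 N S B P = P ∧
      1 / 2 * α + 1 / 2 * x ^ 2 * muF M B = x := by
  have s2 : s ≤ 1 / 50 := by linarith
  have hb0 : (0 : ℝ) < 1 / 2 + s := by linarith
  have hp0 : (0 : ℝ) < 2 - 20 * s := by linarith
  have hp1 : (0 : ℝ) < 2 + 11 * s := by linarith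
  have hconv : Convex ℝ (Box2 N S M s) := by
    rintro z ⟨z1, z2, z3, z4, z5⟩ w ⟨w1, w2, w3, w4, w5⟩ a b ha hb hab
    refine ⟨z1.convex w1 ha hb hab, z2.convex w2 ha hb hab,
      (convex_Icc _ _) z3 w3 ha hb hab, fun u => ?_, fun u v huv => ⟨?_, ?_⟩⟩
    · change (a • z.1.1 + b • w.1.1) * M u = M u * (a • z.1.1 + b • w.1.1)
      rw [Matrix.add_mul, Matrix.mul_add, Matrix.smul_mul, Matrix.smul_mul, Matrix.mul_smul,
        Matrix.mul_smul, z4, w4]
    · change v * (a • z.1.1 + b • w.1.1) * vᵀ = a • z.1.1 + b • w.1.1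
      rw [Matrix.mul_add, Matrix.add_mul, Matrix.mul_smul, Matrix.mul_smul, Matrix.smul_mul,
        Matrix.smul_mul, (z5 u v huv).1, (w5 u v huv).1]
    · change u * (a • z.1.2 + b • w.1.2) * uᵀ = a • z.1.2 + b • w.1.2
      rw [Matrix.mul_add, Matrix.add_mul, Matrix.mul_smul, Matrix.mul_smul, Matrix.smul_mul,
        Matrix.smul_mul, (z5 u v huv).2, (w5 u v huv).2]
  have hne : (Box2 N S M s).Nonempty := by
    refine ⟨(((1 / 2 : ℝ) • 1, (2 : ℝ) • 1), 1 / 2), btw_smul_one le_rfl (by linarith),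
      btw_smul_one (by linarith) (by linarith), ⟨?_, le_rfl⟩, fun u => ?_,
      fun u v huv => ⟨?_, ?_⟩⟩
    · have : (0 : ℝ) ≤ s ^ 3 := by positivity
      change 1 / 2 - 8 * s ^ 3 ≤ 1 / 2
      linarith
    · change (1 / 2 : ℝ) • (1 : Matrix p p ℝ) * M u = M u * ((1 / 2 : ℝ) • 1)
      rw [Matrix.smul_mul, Matrix.mul_smul, Matrix.one_mul, Matrix.mul_one]
    · change v * ((1 / 2 : ℝ) • 1) * vᵀ = (1 / 2 : ℝ) • 1
      rw [Matrix.mul_smul, Matrix.smul_mul, Matrix.mul_one, huv.v1]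
    · change u * ((2 : ℝ) • 1) * uᵀ = (2 : ℝ) • 1
      rw [Matrix.mul_smul, Matrix.smul_mul, Matrix.mul_one, huv.u1]
  have d1 : Continuous fun z : (Matrix p p ℝ × Matrix q q ℝ) × ℝ => z.1.1 :=
    continuous_fst.comp continuous_fst
  have d2 : Continuous fun z : (Matrix p p ℝ × Matrix q q ℝ) × ℝ => z.1.2 :=
    continuous_snd.comp continuous_fst
  have hR : ContinuousOn (fun z : (Matrix p p ℝ × Matrix q q ℝ) × ℝ => z.1.1⁻¹)
      (Box2 N S M s) :=
    (continuousOn_inv (a := 1 / 2) (b := 1 / 2 + s) (by norm_num)).comp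
      d1.continuousOn fun z hz => hz.1
  have hD : ContinuousOn (fun z : (Matrix p p ℝ × Matrix q q ℝ) × ℝ => z.1.2⁻¹)
      (Box2 N S M s) :=
    (continuousOn_inv (a := 2 - 20 * s) (b := 2 + 11 * s) hp0).comp
      d2.continuousOn fun z hz => hz.2.1
  have hB : ContinuousOn (fun z : (Matrix p p ℝ × Matrix q q ℝ) × ℝ => z.1.1)
      (Box2 N S M s) := d1.continuousOn
  have hP : ContinuousOn (fun z : (Matrix p p ℝ × Matrix q q ℝ) × ℝ => z.1.2)
      (Box2 N S M s) := d2.continuousOn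
  have hx : ContinuousOn (fun z : (Matrix p p ℝ × Matrix q q ℝ) × ℝ => z.2)
      (Box2 N S M s) := continuous_snd.continuousOn
  have h1 : ContinuousOn (fun z : (Matrix p p ℝ × Matrix q q ℝ) × ℝ =>
      Phi1 N z.1.1 z.1.2 - (z.2 * (1 / 2 - κ)) • z.1.1⁻¹) (Box2 N S M s) := by
    unfold Phi1
    exact (((continuousOn_const.sub (continuousOn_TT N hD hR)).sub
      (continuousOn_TT N hP hB)).add
      (continuousOn_mul' (continuousOn_mul' hB (continuousOn_TT N hP hR)) hB)).sub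
      ((hx.mul continuousOn_const).smul hR)
  have h2 : ContinuousOn (fun z : (Matrix p p ℝ × Matrix q q ℝ) × ℝ =>
      Phi2 N S z.1.1 z.1.2) (Box2 N S M s) := by
    unfold Phi2
    have c1 : ContinuousOn (fun z : (Matrix p p ℝ × Matrix q q ℝ) × ℝ =>
        (1 / 2 : ℝ) • UU N z.1.1⁻¹ z.1.1⁻¹) (Box2 N S M s) :=
      ContinuousOn.const_smul (continuousOn_UU N hR hR) (1 / 2 : ℝ)
    have c2 : ContinuousOn (fun z : (Matrix p p ℝ × Matrix q q ℝ) × ℝ =>
        (1 / 2 : ℝ) • UU S z.1.2 z.1.2) (Box2 N S M s) :=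
      ContinuousOn.const_smul (continuousOn_UU S hP hP) (1 / 2 : ℝ)
    exact (c1.add (continuousOn_mul' (continuousOn_mul' hP ((continuousOn_const.sub
        (continuousOn_UU N hB hR)).sub (continuousOn_UU S hD hP))) hP)).add c2
  have h3 : ContinuousOn (fun z : (Matrix p p ℝ × Matrix q q ℝ) × ℝ =>
      1 / 2 * α + 1 / 2 * z.2 ^ 2 * muF M z.1.1) (Box2 N S M s) := by
    unfold muF
    refine continuousOn_const.add ((continuousOn_const.mul (hx.pow 2)).mul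
      (continuousOn_const.mul ?_))
    refine continuousOn_finset_sum _ fun u _ => ?_
    exact continuousOn_tr (continuousOn_mul' hR (continuousOn_mul'
      (continuousOn_mul' continuousOn_const hR) continuousOn_const))
  obtain ⟨z, ⟨z1, z2, z3, z4, z5⟩, hz⟩ := Pool.Lib.brouwer_fixed_point_convex
    (isCompact_box2 N S M s0 s2) hconv hne
    (f := Map2 N S M κ α) ((h1.prodMk h2).prodMk h3) (fun z hz => by
      obtain ⟨z1, z2, z3, z4, z5⟩ := hz
      have hp : Par θ κ s z.2 := ⟨s0, s1, t1, k0, k1, z3.1, z3.2⟩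
      have hR' := z1.inv (by norm_num) hb0
      have hdet := z1.det_ne (by norm_num)
      have hmu := muF_btw hL s0 z1
      have hxb := x_btw hp ha ha' hmu.1 hmu.2
      have hcomm : ∀ u, z.1.1⁻¹ * M u = M u * z.1.1⁻¹ := fun u => comm_inv hdet (z4 u)
      refine ⟨Phi1x_btw h hp z1 z2, Phi2_btw2 h hp z1 z2, hxb, fun u => ?_,
        fun u v huv => ⟨?_, ?_⟩⟩
      · change (Phi1 N z.1.1 z.1.2 - (z.2 * (1 / 2 - κ)) • z.1.1⁻¹) * M u =
          M u * (Phi1 N z.1.1 z.1.2 - (z.2 * (1 / 2 - κ)) • z.1.1⁻¹)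
        have hN : ∀ a, N a * M u = M u * N a := fun a => hL.comm a u
        rw [Matrix.sub_mul, Matrix.mul_sub, Matrix.smul_mul, Matrix.mul_smul, hcomm]
        congr 1
        unfold Phi1
        have e1 := TT_comm hN hL.skewN (hcomm u) z.1.2⁻¹
        have e2 := TT_comm hN hL.skewN (z4 u) z.1.2
        have e3 := TT_comm hN hL.skewN (hcomm u) z.1.2
        rw [Matrix.add_mul, Matrix.sub_mul, Matrix.sub_mul, Matrix.mul_add, Matrix.mul_sub,
          Matrix.mul_sub, e1, e2, Matrix.one_mul, Matrix.mul_one]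
        congr 1
        calc z.1.1 * TT N z.1.2 z.1.1⁻¹ * z.1.1 * M u
            = z.1.1 * (TT N z.1.2 z.1.1⁻¹ * (z.1.1 * M u)) := by
              simp only [Matrix.mul_assoc]
          _ = z.1.1 * ((TT N z.1.2 z.1.1⁻¹ * M u) * z.1.1) := by
              rw [z4]; simp only [Matrix.mul_assoc]
          _ = (z.1.1 * M u) * TT N z.1.2 z.1.1⁻¹ * z.1.1 := by
              rw [e3]; simp only [Matrix.mul_assoc]
          _ = _ := by rw [z4]; simp only [Matrix.mul_assoc]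
      · change v * (Phi1 N z.1.1 z.1.2 - (z.2 * (1 / 2 - κ)) • z.1.1⁻¹) * vᵀ =
          Phi1 N z.1.1 z.1.2 - (z.2 * (1 / 2 - κ)) • z.1.1⁻¹
        rw [Matrix.mul_sub, Matrix.sub_mul, Phi1_inv huv (z5 u v huv).1 (z5 u v huv).2,
          Matrix.mul_smul, Matrix.smul_mul, conj_inv huv.v1 (z5 u v huv).1]
      · exact Phi2_inv huv (z5 u v huv).1 (z5 u v huv).2)
  exact ⟨z.1.1, z.1.2, z.2, z1, z2, z3, z4, z5, congrArg (fun w => w.1.1) hz,
    congrArg (fun w => w.1.2) hz, congrArg (fun w => w.2) hz⟩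

end Pool.Agent.EinS
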