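import Mathlib

/-!
# The projection of the coefficients to the centre
-/

namespace Pool.Agent.EinS

open Quaternion

/-- A linear map to the centre which vanishes on commutators (the identity for `ℝ` and `ℂ`, the real
part for `ℍ`). -/
class Cen (A : Type) [Ring A] [StarRing A] [Algebra ℝ A] where
  /-- the projection to the centre -/
  cen : A →ₗ[ℝ] A
  star_smul' : ∀ (c : ℝ) (x : A), star (c • x) = c • star x
  cen_comm : ∀ x y, cen x * y = y * cen x
  cen_mul_comm : ∀ x y, cen (x * y) = cen (y * x)

noncomputable instance cenReal : Cen ℝ where
  cen := LinearMap.id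
  star_smul' c x := by simp
  cen_comm x y := mul_comm x y
  cen_mul_comm x y := by rw [mul_comm]

noncomputable instance cenComplex : Cen ℂ where
  cen := LinearMap.id
  star_smul' c x := by
    apply Complex.ext <;> simp
  cen_comm x y := mul_comm _ _
  cen_mul_comm x y := by rw [mul_comm]

/-- The projection to the centre of the quaternions. -/
def quCen : ℍ[ℝ] →ₗ[ℝ] ℍ[ℝ] where
  toFun x := ⟨x.re, 0, 0, 0⟩
  map_add' x y := by
    apply Quaternion.ext <;> simp
  map_smul' c x := by
    apply Quaternion.ext <;> simp

noncomputable instance cenQuat : Cen ℍ[ℝ] where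
  cen := quCen
  star_smul' c x := by
    apply Quaternion.ext <;> simp
  cen_comm x y := by
    apply Quaternion.ext <;> simp [quCen] <;> ring
  cen_mul_comm x y := by
    apply Quaternion.ext <;> simp [quCen]
    ring

end Pool.Agent.EinS
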