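import Pool.Agent.EinS.ClConj

/-!
# Einstein metrics on `G(N)/H` for every closed subgroup `H` of `G(k)` and `N ≥ N_0(H)`, where `G`
is `SO`, `SU` or `Sp`
-/

namespace Pool.Agent.EinS

open Matrix Pool.Agent.EStab

attribute [local instance 100] LieRing.ofAssociativeRing

variable {A : Type} [Ring A] [StarRing A] [Algebra ℝ A] [Cen A] [Coef A]
variable {n k : ℕ}

/-! ### Reflections -/

theorem colT_mul (v : Matrix (Fin k) (Fin 1) A) : vᴴ * v = ip v v • (1 : Matrix (Fin 1) (Fin 1) A) := by
  ext i j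
  rw [Matrix.mul_apply, Subsingleton.elim i 0, Subsingleton.elim j 0, Matrix.smul_apply,
    Matrix.one_apply_eq, ip, Finset.sum_smul]
  refine Finset.sum_congr rfl fun r _ => ?_
  rw [Fin.sum_univ_one, Matrix.conjTranspose_apply, star_mul_self'']

theorem star_real (t : ℝ) : star (t • (1 : A)) = t • (1 : A) := by
  rw [Cen.star_smul', star_one]

/-- A unit column with real first entry is the first column of a unitary matrix. -/
theorem exists_reflection {w : Matrix (Fin (k + 1)) (Fin 1) A} (hw : wᴴ * w = 1) {t : ℝ}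
    (ht : w 0 0 = t • (1 : A)) :
    ∃ T : Matrix (Fin (k + 1)) (Fin (k + 1)) A, T * Tᴴ = 1 ∧ Tᴴ * T = 1 ∧
      T * (Matrix.single 0 0 1 : Matrix (Fin (k + 1)) (Fin 1) A) = w := by
  set e : Matrix (Fin (k + 1)) (Fin 1) A := Matrix.single 0 0 1 with he
  have hee : eᴴ * e = 1 := by
    rw [he, Matrix.conjTranspose_single, star_one, Matrix.single_mul_single_same, mul_one]
    ext i j
    rw [Subsingleton.elim i 0, Subsingleton.elim j 0, Matrix.single_apply_same,
      Matrix.one_apply_eq]
  have hew : eᴴ * w = t • (1 : Matrix (Fin 1) (Fin 1) A) := by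
    ext i j
    rw [Subsingleton.elim i 0, Subsingleton.elim j 0, Matrix.mul_apply, Matrix.smul_apply,
      Matrix.one_apply_eq, Finset.sum_eq_single 0]
    · rw [he, Matrix.conjTranspose_single, star_one, Matrix.single_apply_same, one_mul, ht]
    · intro r _ hr
      rw [he, Matrix.conjTranspose_single, Matrix.single_apply_of_ne, zero_mul]
      rintro ⟨-, h⟩
      exact hr h.symm
    · intro h
      exact absurd (Finset.mem_univ _) h
  have hwe : wᴴ * e = t • (1 : Matrix (Fin 1) (Fin 1) A) := by
    have h1 := congrArg Matrix.conjTranspose hew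
    rw [Matrix.conjTranspose_mul, Matrix.conjTranspose_conjTranspose] at h1
    rw [h1]
    ext i j
    rw [Subsingleton.elim i 0, Subsingleton.elim j 0, Matrix.conjTranspose_apply,
      Matrix.smul_apply, Matrix.one_apply_eq, star_real]
  set u := w - e with hu
  have huu : uᴴ * u = (2 - 2 * t) • (1 : Matrix (Fin 1) (Fin 1) A) := by
    rw [hu, Matrix.conjTranspose_sub, Matrix.sub_mul, Matrix.mul_sub, Matrix.mul_sub, hw, hwe,
      hew, hee]
    module
  by_cases h1 : t = 1
  · have h2 : u = 0 := by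
      apply ip_self_eq_zero
      rw [colT_mul, h1] at huu
      have h3 := congrFun (congrFun huu 0) 0
      rw [Matrix.smul_apply, Matrix.smul_apply, Matrix.one_apply_eq] at h3
      have h4 := congrArg Coef.re h3
      rw [map_smul, map_smul, Coef.re_one, smul_eq_mul, smul_eq_mul] at h4
      linarith
    refine ⟨1, ?_, ?_, ?_⟩
    · rw [Matrix.conjTranspose_one, Matrix.one_mul]
    · rw [Matrix.conjTranspose_one, Matrix.one_mul]
    · rw [Matrix.one_mul]
      exact (sub_eq_zero.1 h2).symm
  · have h2 : (1 - t) ≠ 0 := fun h => h1 (by linarith)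
    set c : ℝ := 1 / (1 - t) with hc
    have hct : c * (1 - t) = 1 := by
      rw [hc, one_div, inv_mul_cancel₀ h2]
    set T : Matrix (Fin (k + 1)) (Fin (k + 1)) A := 1 - c • (u * uᴴ) with hT
    have hTs : Tᴴ = T := by
      rw [hT, Matrix.conjTranspose_sub, Matrix.conjTranspose_one]
      congr 1
      ext i j
      rw [Matrix.conjTranspose_apply, Matrix.smul_apply, Matrix.smul_apply, Cen.star_smul']
      congr 1
      have h3 := congrFun (congrFun (Matrix.conjTranspose_mul u uᴴ) i) j
      rw [Matrix.conjTranspose_conjTranspose, Matrix.conjTranspose_apply] at h3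
      exact h3
    have hTT : T * T = 1 := by
      have h3 : (u * uᴴ) * (u * uᴴ) = (2 - 2 * t) • (u * uᴴ) := by
        calc (u * uᴴ) * (u * uᴴ) = u * (uᴴ * u) * uᴴ := by simp only [Matrix.mul_assoc]
          _ = _ := by rw [huu, Matrix.mul_smul, Matrix.mul_one, Matrix.smul_mul]
      rw [hT, Matrix.sub_mul, Matrix.mul_sub, Matrix.mul_sub, Matrix.one_mul, Matrix.mul_one,
        Matrix.one_mul, Matrix.smul_mul, Matrix.mul_smul, h3, smul_smul, smul_smul]
      have h4 : c * c * (2 - 2 * t) = 2 * c := by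
        calc c * c * (2 - 2 * t) = 2 * c * (c * (1 - t)) := by ring
          _ = _ := by rw [hct, mul_one]
      rw [h4]
      module
    refine ⟨T, ?_, ?_, ?_⟩
    · rw [hTs, hTT]
    · rw [hTs, hTT]
    · have h3 : uᴴ * e = (t - 1) • (1 : Matrix (Fin 1) (Fin 1) A) := by
        rw [hu, Matrix.conjTranspose_sub, Matrix.sub_mul, hwe, hee]
        module
      rw [hT, Matrix.sub_mul, Matrix.one_mul, Matrix.smul_mul, Matrix.mul_assoc, h3,
        Matrix.mul_smul, Matrix.mul_one, smul_smul]
      have h4 : c * (t - 1) = -1 := by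
        calc c * (t - 1) = -(c * (1 - t)) := by ring
          _ = _ := by rw [hct]
      rw [h4, hu]
      module

/-- Normalisation of a column. -/
theorem exists_normal (v : Matrix (Fin (k + 1)) (Fin 1) A) (hv : v ≠ 0) :
    ∃ (a : Matrix (Fin 1) (Fin 1) A) (t : ℝ), (v * a)ᴴ * (v * a) = 1 ∧
      (v * a) 0 0 = t • (1 : A) := by
  have hs : 0 < ip v v := by
    rcases (ip_self_nonneg v).lt_or_eq with h | h
    · exact h
    · exact absurd (ip_self_eq_zero h.symm) hv
  set s := ip v v with hsdef
  have key : ∀ a : Matrix (Fin 1) (Fin 1) A, (v * a)ᴴ * (v * a) =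
      (s * ip a a) • (1 : Matrix (Fin 1) (Fin 1) A) := by
    intro a
    rw [Matrix.conjTranspose_mul]
    calc aᴴ * vᴴ * (v * a) = aᴴ * (vᴴ * v) * a := by simp only [Matrix.mul_assoc]
      _ = _ := by
        rw [colT_mul, Matrix.mul_smul, Matrix.mul_one, Matrix.smul_mul, colT_mul, smul_smul]
  by_cases h0 : v 0 0 = 0
  · refine ⟨(1 / Real.sqrt s) • 1, 0, ?_, ?_⟩
    · rw [key, ip_smul, ip_smul_right]
      have h1 : ip (1 : Matrix (Fin 1) (Fin 1) A) 1 = 1 := by
        unfold ip
        rw [Fin.sum_univ_one, Fin.sum_univ_one, Matrix.one_apply_eq, star_one, mul_one]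
        exact Coef.re_one
      rw [h1, mul_one]
      have h2 : s * (1 / Real.sqrt s * (1 / Real.sqrt s)) = 1 := by
        have h3 := Real.mul_self_sqrt hs.le
        have h4 : Real.sqrt s ≠ 0 := (Real.sqrt_pos.2 hs).ne'
        field_simp
        rw [sq]
        exact h3.symm
      rw [h2, one_smul]
    · rw [Matrix.mul_smul, Matrix.mul_one, Matrix.smul_apply, h0, smul_zero, zero_smul]
  · set q := rl (v 0 0 * star (v 0 0)) with hq
    have hq0 : 0 < q := Coef.pos _ h0
    set r := Real.sqrt (s * q) with hr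
    have hsq : 0 < s * q := mul_pos hs hq0
    have hr0 : 0 < r := Real.sqrt_pos.2 hsq
    have hrr : r * r = s * q := Real.mul_self_sqrt hsq.le
    refine ⟨(1 / r) • of fun _ _ => star (v 0 0), q / r, ?_, ?_⟩
    · rw [key, ip_smul, ip_smul_right]
      have h1 : ip (of fun _ _ => star (v 0 0) : Matrix (Fin 1) (Fin 1) A)
          (of fun _ _ => star (v 0 0)) = q := by
        unfold ip
        rw [Fin.sum_univ_one, Fin.sum_univ_one, Matrix.of_apply, star_star]
        exact rl_mul_comm _ _
      rw [h1]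
      have h2 : s * (1 / r * (1 / r * q)) = 1 := by
        have h4 : s * (1 / r * (1 / r * q)) = (s * q) / (r * r) := by
          field_simp
        rw [h4, hrr, div_self hsq.ne']
      rw [h2, one_smul]
    · rw [Matrix.mul_smul, Matrix.smul_apply, Matrix.mul_apply, Fin.sum_univ_one,
        Matrix.of_apply, mul_star_self', smul_smul]
      congr 1
      rw [hq]
      ring

/-- Splitting off a fixed vector. -/
theorem exists_splitA {h : LieSubalgebra ℝ (cl A (Fin (k + 1)))} (hf : ¬ NoFixedA h) :
    ∃ (U : Matrix (Fin (k + 1)) (Fin 1) A) (V : Matrix (Fin (k + 1)) (Fin k) A),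
      Uᴴ * U = 1 ∧ Vᴴ * V = 1 ∧ Uᴴ * V = 0 ∧ U * Uᴴ + V * Vᴴ = 1 ∧
      (∀ x ∈ h, x.1 * U = 0) := by
  unfold NoFixedA at hf
  push_neg at hf
  obtain ⟨v, hv, hv0⟩ := hf
  set v1 : Matrix (Fin (k + 1)) (Fin 1) A := of fun i _ => v i with hv1
  have hv1' : v1 ≠ 0 := by
    intro h1
    apply hv0
    funext i
    exact congrFun (congrFun h1 i) 0
  have hx : ∀ x ∈ h, x.1 * v1 = 0 := by
    intro x hx
    ext i j
    rw [Matrix.mul_apply]
    exact congrFun (hv x hx) i
  obtain ⟨a, t, ha, ht⟩ := exists_normal v1 hv1'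
  obtain ⟨T, hT1, hT2, hTe⟩ := exists_reflection ha ht
  set T' : Matrix (Fin (k + 1)) (Fin 1 ⊕ Fin k) A :=
    Matrix.fromCols (T.submatrix id (fun _ => 0)) (T.submatrix id Fin.succ) with hT'
  have hU : T.submatrix id (fun _ : Fin 1 => 0) = v1 * a := by
    rw [← hTe]
    ext i j
    rw [Matrix.submatrix_apply, Matrix.mul_apply, Finset.sum_eq_single 0]
    · rw [Subsingleton.elim j 0, Matrix.single_apply_same, mul_one]
      rfl
    · intro r _ hr
      rw [Matrix.single_apply_of_ne, mul_zero]
      rintro ⟨h, -⟩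
      exact hr h.symm
    · intro h
      exact absurd (Finset.mem_univ _) h
  set U := T.submatrix id (fun _ : Fin 1 => 0) with hUdef
  set V := T.submatrix id (Fin.succ : Fin k → Fin (k + 1)) with hVdef
  have hent : ∀ i j, ∑ r, star (T r i) * T r j = if i = j then 1 else 0 := by
    intro i j
    have h1 := congrFun (congrFun hT2 i) j
    rw [Matrix.mul_apply, Matrix.one_apply] at h1
    exact h1
  refine ⟨U, V, ?_, ?_, ?_, ?_, ?_⟩
  · ext i j
    rw [Matrix.mul_apply, Matrix.one_apply]
    refine (hent 0 0).trans ?_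
    rw [if_pos rfl, if_pos (Subsingleton.elim i j)]
  · ext i j
    rw [Matrix.mul_apply, Matrix.one_apply]
    refine (hent i.succ j.succ).trans ?_
    simp only [Fin.succ_inj]
  · ext i j
    rw [Matrix.mul_apply, Matrix.zero_apply]
    refine (hent 0 j.succ).trans ?_
    rw [if_neg (Fin.succ_ne_zero j).symm]
  · ext i j
    have h1 := congrFun (congrFun hT1 i) j
    rw [Matrix.mul_apply, Fin.sum_univ_succ] at h1
    rw [Matrix.add_apply, Matrix.mul_apply, Matrix.mul_apply, Fin.sum_univ_one]
    exact h1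
  · intro x hx'
    rw [hU, ← Matrix.mul_assoc, hx x hx', Matrix.zero_mul]

end Pool.Agent.EinS
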