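import Pool.Agent.EinS.ClAll

/-!
# Einstein metrics on `G(N)/H` for every closed subgroup `H` of `G(k)` and `N ≥ N_0(H)`, where `G`
is `SO`, `SU` or `Sp`
-/

namespace Pool.Agent.EinS

open Matrix Pool.Agent.EStab

attribute [local instance 100] LieRing.ofAssociativeRing

variable {A : Type} [Ring A] [StarRing A] [Algebra ℝ A] [Cen A] [Coef A]
variable {n k j r : ℕ}

section

variable {h : LieSubalgebra ℝ (cl A (Fin k))} {U : Matrix (Fin k) (Fin j) A}
  {V : Matrix (Fin k) (Fin r) A}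

theorem split_leftA (hU : ∀ x ∈ h, x.1 * U = 0) {x : cl A (Fin k)} (hx : x ∈ h) :
    Uᴴ * x.1 = 0 := by
  have h1 := congrArg Matrix.conjTranspose (hU x hx)
  rw [Matrix.conjTranspose_mul, x.2.1, Matrix.conjTranspose_zero, Matrix.mul_neg,
    neg_eq_zero] at h1
  exact h1

theorem split_VVA (h4 : U * Uᴴ + V * Vᴴ = 1) (hU : ∀ x ∈ h, x.1 * U = 0)
    {x : cl A (Fin k)} (hx : x ∈ h) : x.1 * (V * Vᴴ) = x.1 ∧ V * Vᴴ * x.1 = x.1 := by
  have h5 : V * Vᴴ = 1 - U * Uᴴ := by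
    rw [← h4]
    abel
  constructor
  · rw [h5, Matrix.mul_sub, Matrix.mul_one, ← Matrix.mul_assoc, hU x hx, Matrix.zero_mul,
      sub_zero]
  · rw [h5, Matrix.sub_mul, Matrix.one_mul, Matrix.mul_assoc, split_leftA hU hx,
      Matrix.mul_zero, sub_zero]

theorem compr_mem (h4 : U * Uᴴ + V * Vᴴ = 1) (hU : ∀ x ∈ h, x.1 * U = 0)
    {x : cl A (Fin k)} (hx : x ∈ h) :
    (Vᴴ * x.1 * V)ᴴ = -(Vᴴ * x.1 * V) ∧ Cen.cen (trace (Vᴴ * x.1 * V)) = 0 := by
  constructor
  · rw [Matrix.conjTranspose_mul, Matrix.conjTranspose_mul, Matrix.conjTranspose_conjTranspose,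
      x.2.1, Matrix.neg_mul, Matrix.mul_neg, Matrix.mul_assoc]
  · have h3 := ce_trace_comm (Vᴴ * x.1) V
    rw [← Matrix.mul_assoc, (split_VVA h4 hU hx).2] at h3
    exact h3.trans x.2.2

/-- The compressed algebra. -/
noncomputable def comprA (h : LieSubalgebra ℝ (cl A (Fin k))) (U : Matrix (Fin k) (Fin j) A)
    (V : Matrix (Fin k) (Fin r) A) (h4 : U * Uᴴ + V * Vᴴ = 1) (hU : ∀ x ∈ h, x.1 * U = 0) :
    LieSubalgebra ℝ (cl A (Fin r)) where
  carrier := {y | ∃ x ∈ h, y.1 = Vᴴ * x.1 * V}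
  add_mem' := by
    rintro y y' ⟨x, hx, hy⟩ ⟨x', hx', hy'⟩
    refine ⟨x + x', h.add_mem hx hx', ?_⟩
    change y.1 + y'.1 = Vᴴ * (x.1 + x'.1) * V
    rw [hy, hy', Matrix.mul_add, Matrix.add_mul]
  zero_mem' := by
    refine ⟨0, h.zero_mem, ?_⟩
    change (0 : Matrix (Fin r) (Fin r) A) = Vᴴ * (0 : Matrix (Fin k) (Fin k) A) * V
    rw [Matrix.mul_zero, Matrix.zero_mul]
  smul_mem' := by
    rintro c y ⟨x, hx, hy⟩
    refine ⟨c • x, h.smul_mem c hx, ?_⟩
    change c • y.1 = Vᴴ * (c • x.1) * V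
    rw [hy, Matrix.mul_smul, Matrix.smul_mul]
  lie_mem' := by
    rintro y y' ⟨x, hx, hy⟩ ⟨x', hx', hy'⟩
    refine ⟨⁅x, x'⁆, h.lie_mem hx hx', ?_⟩
    change y.1 * y'.1 - y'.1 * y.1 = Vᴴ * (x.1 * x'.1 - x'.1 * x.1) * V
    have e : ∀ z z' : cl A (Fin k), z ∈ h →
        Vᴴ * z.1 * V * (Vᴴ * z'.1 * V) = Vᴴ * (z.1 * z'.1) * V := by
      intro z z' hz
      calc Vᴴ * z.1 * V * (Vᴴ * z'.1 * V) = Vᴴ * (z.1 * (V * Vᴴ)) * z'.1 * V := by
            simp only [Matrix.mul_assoc]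
        _ = _ := by
          rw [(split_VVA h4 hU hz).1]
          simp only [Matrix.mul_assoc]
    rw [hy, hy', e x x' hx, e x' x hx', Matrix.mul_sub, Matrix.sub_mul]

/-- The unitary matrix before reindexing. -/
noncomputable def TA0 (n : ℕ) (U : Matrix (Fin k) (Fin j) A) (V : Matrix (Fin k) (Fin r) A) :
    Matrix (Fin n ⊕ Fin k) ((Fin n ⊕ Fin j) ⊕ Fin r) A :=
  fromBlocks (Matrix.fromCols 1 0) 0 (Matrix.fromCols 0 U) V

/-- The unitary matrix. -/
noncomputable def TAm (n : ℕ) (U : Matrix (Fin k) (Fin j) A) (V : Matrix (Fin k) (Fin r) A) :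
    Matrix (Fin n ⊕ Fin k) (Fin (n + j) ⊕ Fin r) A :=
  (TA0 n U V).submatrix id (ixEquiv n j r)

theorem TA0_mul (n : ℕ) (h4 : U * Uᴴ + V * Vᴴ = 1) : TA0 n U V * (TA0 n U V)ᴴ = 1 := by
  unfold TA0
  rw [Matrix.fromBlocks_conjTranspose, Matrix.fromBlocks_multiply,
    Matrix.conjTranspose_fromCols_eq_fromRows_conjTranspose,
    Matrix.conjTranspose_fromCols_eq_fromRows_conjTranspose, Matrix.fromCols_mul_fromRows,
    Matrix.fromCols_mul_fromRows, Matrix.fromCols_mul_fromRows, Matrix.fromCols_mul_fromRows]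
  simp only [Matrix.conjTranspose_zero, Matrix.conjTranspose_one, Matrix.mul_zero,
    Matrix.zero_mul, Matrix.mul_one, add_zero, zero_add]
  rw [h4]
  exact fromBlocks_one

theorem TA0_mul' (n : ℕ) (h1 : Uᴴ * U = 1) (h2 : Vᴴ * V = 1) (h3 : Uᴴ * V = 0) :
    (TA0 n U V)ᴴ * TA0 n U V = 1 := by
  have h3' : Vᴴ * U = 0 := by
    have := congrArg Matrix.conjTranspose h3
    rw [Matrix.conjTranspose_mul, Matrix.conjTranspose_conjTranspose,
      Matrix.conjTranspose_zero] at this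
    exact this
  unfold TA0
  rw [Matrix.fromBlocks_conjTranspose, Matrix.fromBlocks_multiply,
    Matrix.conjTranspose_fromCols_eq_fromRows_conjTranspose,
    Matrix.conjTranspose_fromCols_eq_fromRows_conjTranspose, Matrix.fromRows_mul_fromCols,
    Matrix.fromRows_mul_fromCols, Matrix.fromRows_mul, Matrix.mul_fromCols]
  simp only [Matrix.conjTranspose_zero, Matrix.conjTranspose_one, Matrix.mul_zero,
    Matrix.zero_mul, Matrix.mul_one, add_zero, zero_add, h1, h2, h3, h3',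
    Matrix.fromRows_zero, Matrix.fromCols_zero]
  rw [← fromBlocks_one (l := Fin n ⊕ Fin j) (m := Fin r)]
  congr 1
  · rw [← fromBlocks_one, Matrix.fromBlocks_add]
    simp only [zero_add, add_zero]
  · rw [Matrix.fromRows_mul, h3, Matrix.zero_mul, Matrix.fromRows_zero]
  · rw [Matrix.mul_fromCols, h3', Matrix.mul_zero, Matrix.fromCols_zero]

theorem TAm_mul (n : ℕ) (h4 : U * Uᴴ + V * Vᴴ = 1) : TAm n U V * (TAm n U V)ᴴ = 1 := by
  unfold TAm
  rw [Matrix.conjTranspose_submatrix, Matrix.submatrix_mul_equiv, TA0_mul n h4,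
    Matrix.submatrix_id_id]

theorem TAm_mul' (n : ℕ) (h1 : Uᴴ * U = 1) (h2 : Vᴴ * V = 1) (h3 : Uᴴ * V = 0) :
    (TAm n U V)ᴴ * TAm n U V = 1 := by
  unfold TAm
  rw [Matrix.conjTranspose_submatrix]
  have h5 := Matrix.submatrix_mul_equiv (TA0 n U V)ᴴ (TA0 n U V) (ixEquiv n j r)
    (Equiv.refl _) (ixEquiv n j r)
  refine Eq.trans h5 ?_
  rw [TA0_mul' n h1 h2 h3, Matrix.submatrix_one_equiv]

theorem TAm_conj (x : Matrix (Fin r) (Fin r) A) :
    TAm n U V * (fromBlocks 0 0 0 x : Matrix (Fin (n + j) ⊕ Fin r) (Fin (n + j) ⊕ Fin r) A) *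
      (TAm n U V)ᴴ = fromBlocks 0 0 0 (V * x * Vᴴ) := by
  have h1 : TAm n U V = fromBlocks
      ((Matrix.fromCols (1 : Matrix (Fin n) (Fin n) A) 0).submatrix id finSumFinEquiv.symm) 0
      ((Matrix.fromCols (0 : Matrix (Fin k) (Fin n) A) U).submatrix id finSumFinEquiv.symm)
      V := by
    ext p q
    rcases p with p | p <;> rcases q with q | q <;> rfl
  rw [h1, Matrix.fromBlocks_conjTranspose, Matrix.fromBlocks_multiply,
    Matrix.fromBlocks_multiply]
  simp only [Matrix.mul_zero, Matrix.zero_mul, Matrix.conjTranspose_zero, add_zero, zero_add]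

theorem all_auxA (h1 : Uᴴ * U = 1) (h2 : Vᴴ * V = 1) (h3 : Uᴴ * V = 0)
    (h4 : U * Uᴴ + V * Vᴴ = 1) (h5 : ∀ x ∈ h, x.1 * U = 0)
    (hE : HasEinsteinMetric (cl A (Fin (n + j) ⊕ Fin r))
      ((comprA h U V h4 h5).map (lowHomA A (n + j) r)).toSubmodule
      (nrmAuts ((comprA h U V h4 h5).map (lowHomA A (n + j) r)))) :
    HasEinsteinMetric (cl A (Fin n ⊕ Fin k)) (h.map (lowHomA A n k)).toSubmodule
      (nrmAuts (h.map (lowHomA A n k))) := by
  have hT := TAm_mul n h4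
  have hT' := TAm_mul' n h1 h2 h3
  set T := TAm n U V with hTdef
  set e := clConj T hT hT' with he
  have hea : ∀ x, (e x).1 = T * x.1 * Tᴴ := fun x => rfl
  have key : ∀ (y : cl A (Fin r)) (x : cl A (Fin k)), x ∈ h → y.1 = Vᴴ * x.1 * V →
      e (lowHomA A (n + j) r y) = lowHomA A n k x := by
    intro y x hx hy
    apply Subtype.ext
    rw [hea, lowHomA_val, lowHomA_val, hTdef, TAm_conj, hy]
    congr 1
    calc V * (Vᴴ * x.1 * V) * Vᴴ = (V * Vᴴ * x.1) * (V * Vᴴ) := by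
          simp only [Matrix.mul_assoc]
      _ = _ := by rw [(split_VVA h4 h5 hx).2, (split_VVA h4 h5 hx).1]
  have hW : ∀ x, e x ∈ (h.map (lowHomA A n k)).toSubmodule ↔
      x ∈ ((comprA h U V h4 h5).map (lowHomA A (n + j) r)).toSubmodule := by
    intro x
    constructor
    · rintro ⟨z, hz, hzx⟩
      have hz' : lowHomA A n k z = e x := hzx
      have h8 : (⟨Vᴴ * z.1 * V, compr_mem h4 h5 hz⟩ : cl A (Fin r)) ∈ comprA h U V h4 h5 :=
        ⟨z, hz, rfl⟩
      refine ⟨_, h8, ?_⟩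
      apply e.injective
      exact (key _ z hz rfl).trans hz'
    · rintro ⟨y, ⟨z, hz, hyz⟩, hyx⟩
      have hyx' : lowHomA A (n + j) r y = x := hyx
      rw [← hyx', key y z hz hyz]
      exact ⟨z, hz, rfl⟩
  refine hasEinstein_equiv e hW ?_ hE
  rintro γ' ⟨g, hg, hg', hγ', hmap⟩
  have hTg : (Tᴴ * g * T)ᴴ = Tᴴ * gᴴ * T := by
    rw [Matrix.conjTranspose_mul, Matrix.conjTranspose_mul, Matrix.conjTranspose_conjTranspose,
      Matrix.mul_assoc]
  have hg0 : (Tᴴ * g * T) * (Tᴴ * g * T)ᴴ = 1 := by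
    rw [hTg]
    calc Tᴴ * g * T * (Tᴴ * gᴴ * T) = Tᴴ * (g * ((T * Tᴴ) * gᴴ)) * T := by
          simp only [Matrix.mul_assoc]
      _ = _ := by rw [hT, Matrix.one_mul, hg, Matrix.mul_one, hT']
  have hg0' : (Tᴴ * g * T)ᴴ * (Tᴴ * g * T) = 1 := by
    rw [hTg]
    calc Tᴴ * gᴴ * T * (Tᴴ * g * T) = Tᴴ * (gᴴ * ((T * Tᴴ) * g)) * T := by
          simp only [Matrix.mul_assoc]
      _ = _ := by rw [hT, Matrix.one_mul, hg', Matrix.mul_one, hT']
  set δ := clConj (Tᴴ * g * T) hg0 hg0' with hδ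
  have hcomm : ∀ x, γ' (e x) = e (δ x) := by
    intro x
    apply Subtype.ext
    rw [hγ', hea, hea]
    change g * (T * x.1 * Tᴴ) * gᴴ = T * ((Tᴴ * g * T) * x.1 * (Tᴴ * g * T)ᴴ) * Tᴴ
    rw [hTg]
    calc g * (T * x.1 * Tᴴ) * gᴴ = (T * Tᴴ) * g * T * x.1 * Tᴴ * gᴴ * (T * Tᴴ) := by
          rw [hT, Matrix.one_mul, Matrix.mul_one]
          simp only [Matrix.mul_assoc]
      _ = _ := by simp only [Matrix.mul_assoc]
  refine ⟨(δ : cl A (Fin (n + j) ⊕ Fin r) →ₗ[ℝ] cl A (Fin (n + j) ⊕ Fin r)),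
    ⟨Tᴴ * g * T, hg0, hg0', fun x => rfl, ?_⟩, hcomm⟩
  apply le_antisymm
  · rintro y ⟨x, hx, rfl⟩
    rw [← hW]
    change e (δ x) ∈ _
    rw [← hcomm, ← hmap]
    exact ⟨e x, (hW x).2 hx, rfl⟩
  · intro y hy
    have h7 : e y ∈ (h.map (lowHomA A n k)).toSubmodule := (hW y).2 hy
    rw [← hmap] at h7
    obtain ⟨z, hz, hzy⟩ := h7
    refine ⟨e.symm z, ?_, ?_⟩
    · change e.symm z ∈ ((comprA h U V h4 h5).map (lowHomA A (n + j) r)).toSubmodule
      rw [← hW, LieEquiv.apply_symm_apply]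
      exact hz
    · apply e.injective
      change e (δ (e.symm z)) = e y
      rw [← hcomm, LieEquiv.apply_symm_apply, hzy]

end

theorem noFixed_cond {h : LieSubalgebra ℝ (cl A (Fin (k + 1)))} (hf : NoFixedA h) :
    2 * Coef.sg A ≤ ((k + 1 : ℕ) : ℝ) * Coef.m A := by
  have hm1 : (1 : ℝ) ≤ Coef.m A := by exact_mod_cast Coef.m_pos (A := A)
  have hsg := Coef.sg_le (A := A)
  rcases Nat.eq_zero_or_pos k with hk | hk
  · subst hk
    rcases Coef.alt (A := A) with h1 | h1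
    · rw [zero_add, Nat.cast_one, one_mul]
      exact h1
    · exfalso
      have h2 := hf (fun _ => 1) (fun x _ => by
        funext i
        rw [Matrix.mulVec, dotProduct]
        refine Finset.sum_eq_zero fun j _ => ?_
        have hij : j = i := by
          apply Fin.ext
          omega
        have h3 := cl_skew x i j
        rw [h1, hij] at h3
        rw [hij, mul_one]
        have h4 : (2 : ℝ) • x.1 i i = 0 := by
          rw [two_smul]
          nth_rewrite 1 [h3]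
          exact neg_add_cancel _
        exact (smul_eq_zero.1 h4).resolve_left two_ne_zero)
      have h3 := congrFun h2 0
      have h3' : (1 : A) = 0 := h3
      have h4 := congrArg Coef.re h3'
      rw [Coef.re_one, map_zero] at h4
      exact one_ne_zero h4
  · have hk' : (2 : ℝ) ≤ ((k + 1 : ℕ) : ℝ) := by
      exact_mod_cast Nat.succ_le_succ hk
    nlinarith

/-- For every subalgebra `h` of `so(k)`, `su(k)`, `sp(k)` and every large `n`, the space
`G(n + k)/H` has an invariant Einstein metric, invariant under the normaliser of `H`. -/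
theorem cl_all : ∀ (k : ℕ) (h : LieSubalgebra ℝ (cl A (Fin k))),
    ∃ n0 : ℕ, ∀ n ≥ n0, HasEinsteinMetric (cl A (Fin n ⊕ Fin k))
      (h.map (lowHomA A n k)).toSubmodule (nrmAuts (h.map (lowHomA A n k))) := by
  intro k
  induction k with
  | zero =>
    intro h
    refine ⟨3, fun n hn => ?_⟩
    haveI : NeZero n := ⟨by omega⟩
    have h0 : h.map (lowHomA A n 0) = ⊥ := by
      rw [eq_bot_iff]
      rintro x ⟨y, hy, hyx⟩
      have h9 : y = 0 := by
        apply Subtype.ext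
        ext p q
        exact q.elim0
      have h10 : lowHomA A n 0 y = x := hyx
      rw [← h10, h9, map_zero]
      exact LieSubalgebra.zero_mem _
    have hC : 0 < CN A n 0 := by
      have hm1 : (1 : ℝ) ≤ Coef.m A := by exact_mod_cast Coef.m_pos (A := A)
      have hsg := Coef.sg_le (A := A)
      have hn' : (3 : ℝ) ≤ n := by exact_mod_cast hn
      unfold CN
      push_cast
      nlinarith
    refine biinvariant (CN_compact hC) h0 ?_
    rintro γ ⟨g, hg, hg', hγ, -⟩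
    exact ⟨clConj g hg hg', fun x => Subtype.ext (hγ x)⟩
  | succ k ih =>
    intro h
    by_cases hf : NoFixedA h
    · obtain ⟨n0, hn0⟩ := cl_large (by omega) (noFixed_cond hf) hf
      refine ⟨n0, fun n hn => ?_⟩
      refine hasEinstein_equiv (LieEquiv.refl) (fun x => Iff.rfl) ?_ (hn0 n hn)
      rintro γ ⟨g, hg, hg', hγ, hmap⟩
      refine ⟨γ, mem_pairAutsA hf hg hg' hγ (fun x hx => ?_) (fun y hy => ?_), fun x => rfl⟩
      · rw [← LieSubalgebra.mem_toSubmodule, ← hmap]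
        exact ⟨x, hx, rfl⟩
      · rw [← LieSubalgebra.mem_toSubmodule, ← hmap] at hy
        obtain ⟨x, hx, hxy⟩ := hy
        exact ⟨x, hx, hxy⟩
    · obtain ⟨U, V, h1, h2, h3, h4, h5⟩ := exists_splitA hf
      obtain ⟨n0, hn0⟩ := ih (comprA h U V h4 h5)
      exact ⟨n0, fun n hn => all_auxA h1 h2 h3 h4 h5 (hn0 (n + 1) (by omega))⟩

end Pool.Agent.EinS
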