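import Pool.Agent.EinS.ClPair

/-!
# The Casimir operators of the classical Grassmannians
-/

namespace Pool.Agent.EinS

open Matrix Pool.Agent.EStab

attribute [local instance 100] LieRing.ofAssociativeRing

variable {A : Type} [Ring A] [StarRing A] [Algebra ℝ A] [Cen A] [Coef A]

section coord

variable {α β γ : Type*} [Fintype α] [DecidableEq α] [Fintype β] [DecidableEq β] [Fintype γ]
  [DecidableEq γ]

/-- test matrices -/
noncomputable def wR (D : Matrix β γ A) (i : α) (r : γ) (μ : Fin (Coef.m A)) : Matrix α β A :=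
  of fun i' s => if i' = i then Coef.b μ * star (D s r) else 0

/-- test matrices -/
noncomputable def wL (X : Matrix γ α A) (s : γ) (r : β) (μ : Fin (Coef.m A)) : Matrix α β A :=
  of fun t r' => if r' = r then star (X s t) * Coef.b μ else 0

theorem ip_wR (F : Matrix α β A) (D : Matrix β γ A) (i : α) (r : γ) (μ : Fin (Coef.m A)) :
    ip F (wR D i r μ) = rl ((F * D) i r * star (Coef.b μ)) := by
  unfold ip wR
  rw [Finset.sum_eq_single i]
  · rw [Matrix.mul_apply, Finset.sum_mul, rl_sum]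
    refine Finset.sum_congr rfl fun s _ => ?_
    rw [Matrix.of_apply, if_pos rfl, star_mul, star_star, mul_assoc]
  · intro i' _ hi'
    refine Finset.sum_eq_zero fun s _ => ?_
    rw [Matrix.of_apply, if_neg hi', star_zero, mul_zero, rl, map_zero]
  · intro h
    exact absurd (Finset.mem_univ i) h

theorem ip_wL (X : Matrix γ α A) (F : Matrix α β A) (s : γ) (r : β) (μ : Fin (Coef.m A)) :
    ip F (wL X s r μ) = rl ((X * F) s r * star (Coef.b μ)) := by
  unfold ip wL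
  rw [Matrix.mul_apply, Finset.sum_mul, rl_sum]
  refine Finset.sum_congr rfl fun t _ => ?_
  rw [Finset.sum_eq_single r]
  · rw [Matrix.of_apply, if_pos rfl, star_mul, star_star, ← mul_assoc, rl_mul_comm,
      ← mul_assoc]
  · intro r' _ hr'
    rw [Matrix.of_apply, if_neg hr', star_zero, mul_zero, rl, map_zero]
  · intro h
    exact absurd (Finset.mem_univ r) h

theorem ip_wR_self (D : Matrix β γ A) (i : α) (r : γ) (μ : Fin (Coef.m A)) :
    ip (wR D i r μ : Matrix α β A) (wR D i r μ) = ∑ s, rl (D s r * star (D s r)) := by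
  rw [ip, Finset.sum_eq_single i]
  · refine Finset.sum_congr rfl fun s _ => ?_
    rw [wR, Matrix.of_apply, if_pos rfl, star_mul, star_star, mul_assoc,
      rl_mul_comm (Coef.b μ), mul_assoc, mul_assoc, b_star_mul, mul_one, rl_mul_comm]
  · intro i' _ hi'
    refine Finset.sum_eq_zero fun s _ => ?_
    rw [wR, Matrix.of_apply, if_neg hi', zero_mul, rl, map_zero]
  · intro h
    exact absurd (Finset.mem_univ i) h

theorem ip_wL_self (X : Matrix γ α A) (s : γ) (r : β) (μ : Fin (Coef.m A)) :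
    ip (wL X s r μ : Matrix α β A) (wL X s r μ) = ∑ t, rl (X s t * star (X s t)) := by
  unfold ip
  refine Finset.sum_congr rfl fun t _ => ?_
  rw [Finset.sum_eq_single r]
  · rw [wL, Matrix.of_apply, if_pos rfl, star_mul, star_star, mul_assoc,
      ← mul_assoc (Coef.b μ), b_mul_star, one_mul, rl_mul_comm]
  · intro r' _ hr'
    rw [wL, Matrix.of_apply, if_neg hr', zero_mul, rl, map_zero]
  · intro h
    exact absurd (Finset.mem_univ r) h

theorem sum_wR (D : Matrix β γ A) :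
    ∑ i : α, ∑ r : γ, ∑ μ : Fin (Coef.m A), ip (wR D i r μ : Matrix α β A) (wR D i r μ) =
      (Fintype.card α : ℝ) * Coef.m A * ip D D := by
  simp only [ip_wR_self, Finset.sum_const, Finset.card_univ, Fintype.card_fin, nsmul_eq_mul]
  rw [← Finset.mul_sum, Finset.sum_comm, mul_assoc]
  rfl

theorem sum_wL (X : Matrix γ α A) :
    ∑ s : γ, ∑ r : β, ∑ μ : Fin (Coef.m A), ip (wL X s r μ : Matrix α β A) (wL X s r μ) =
      (Fintype.card β : ℝ) * Coef.m A * ip X X := by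
  simp only [ip_wL_self, Finset.sum_const, Finset.card_univ, Fintype.card_fin, nsmul_eq_mul]
  unfold ip
  rw [Finset.mul_sum]
  refine Finset.sum_congr rfl fun s _ => ?_
  ring

theorem ip_FD (F : Matrix α β A) (D : Matrix β γ A) : ip (F * D) (F * D) =
    ∑ i : α, ∑ r : γ, ∑ μ : Fin (Coef.m A), ip F (wR D i r μ) ^ 2 := by
  rw [ip_coord]
  refine Finset.sum_congr rfl fun i _ => Finset.sum_congr rfl fun r _ =>
    Finset.sum_congr rfl fun μ _ => ?_
  rw [ip_wR, sq]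

theorem ip_XF (X : Matrix γ α A) (F : Matrix α β A) : ip (X * F) (X * F) =
    ∑ s : γ, ∑ r : β, ∑ μ : Fin (Coef.m A), ip F (wL X s r μ) ^ 2 := by
  rw [ip_coord]
  refine Finset.sum_congr rfl fun i _ => Finset.sum_congr rfl fun r _ =>
    Finset.sum_congr rfl fun μ _ => ?_
  rw [ip_wL, sq]

end coord

variable {n k : ℕ}

theorem lie_up_off (E : cl A (Fin n)) (Y : Matrix (Fin n) (Fin k) A) :
    ⁅upEl k E, offA Y⁆ = offA (E.1 * Y) := by
  apply Subtype.ext
  rw [cl_lie]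
  change fromBlocks E.1 0 0 0 * fromBlocks 0 Y (-Yᴴ) 0 -
    fromBlocks 0 Y (-Yᴴ) 0 * fromBlocks E.1 0 0 0 =
    fromBlocks 0 (E.1 * Y) (-(E.1 * Y)ᴴ) 0
  rw [fromBlocks_multiply, fromBlocks_multiply]
  simp only [Matrix.mul_zero, Matrix.zero_mul, add_zero, zero_add]
  rw [sub_eq_add_neg, fromBlocks_neg, fromBlocks_add, Matrix.conjTranspose_mul, E.2.1]
  simp only [neg_zero, add_zero, zero_add, Matrix.mul_neg, Matrix.neg_mul, neg_neg]

theorem lie_low_off {x : cl A (Fin n ⊕ Fin k)} {c : A} {X : Matrix (Fin k) (Fin k) A}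
    (hx : x.1 = fromBlocks (Matrix.diagonal (fun _ => ce c)) 0 0 X) (hX : Xᴴ = -X)
    (Y : Matrix (Fin n) (Fin k) A) :
    ⁅x, offA Y⁆ = offA (Y * (Matrix.diagonal (fun _ => ce c) - X)) := by
  have hd : (Matrix.diagonal (fun _ => ce c) : Matrix (Fin n) (Fin n) A) * Y =
      Y * (Matrix.diagonal (fun _ => ce c) : Matrix (Fin k) (Fin k) A) := by
    ext i j
    rw [Matrix.mul_diagonal, Matrix.diagonal_mul, ce_mul_comm']
  have h12 : (⁅x, offA Y⁆ : cl A (Fin n ⊕ Fin k)).1.toBlocks₁₂ =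
      Y * (Matrix.diagonal (fun _ => ce c) - X) := by
    rw [cl_lie, hx]
    change (fromBlocks _ 0 0 X * fromBlocks 0 Y (-Yᴴ) 0 -
      fromBlocks 0 Y (-Yᴴ) 0 * fromBlocks _ 0 0 X).toBlocks₁₂ = _
    rw [fromBlocks_multiply, fromBlocks_multiply, sub_eq_add_neg, fromBlocks_neg,
      fromBlocks_add, Matrix.toBlocks_fromBlocks₁₂]
    simp only [Matrix.mul_zero, Matrix.zero_mul, add_zero, zero_add]
    rw [hd, Matrix.mul_sub, sub_eq_add_neg]
  have h11 : (⁅x, offA Y⁆ : cl A (Fin n ⊕ Fin k)).1.toBlocks₁₁ = 0 := by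
    rw [cl_lie, hx]
    change (fromBlocks _ 0 0 X * fromBlocks 0 Y (-Yᴴ) 0 -
      fromBlocks 0 Y (-Yᴴ) 0 * fromBlocks _ 0 0 X).toBlocks₁₁ = _
    rw [fromBlocks_multiply, fromBlocks_multiply, sub_eq_add_neg, fromBlocks_neg,
      fromBlocks_add, Matrix.toBlocks_fromBlocks₁₁]
    simp only [Matrix.mul_zero, Matrix.zero_mul, add_zero, neg_zero]
  have h22 : (⁅x, offA Y⁆ : cl A (Fin n ⊕ Fin k)).1.toBlocks₂₂ = 0 := by
    rw [cl_lie, hx]
    change (fromBlocks _ 0 0 X * fromBlocks 0 Y (-Yᴴ) 0 -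
      fromBlocks 0 Y (-Yᴴ) 0 * fromBlocks _ 0 0 X).toBlocks₂₂ = _
    rw [fromBlocks_multiply, fromBlocks_multiply, sub_eq_add_neg, fromBlocks_neg,
      fromBlocks_add, Matrix.toBlocks_fromBlocks₂₂]
    simp only [Matrix.mul_zero, Matrix.zero_mul, add_zero, neg_zero]
  have h21 : (⁅x, offA Y⁆ : cl A (Fin n ⊕ Fin k)).1.toBlocks₂₁ =
      -(⁅x, offA Y⁆ : cl A (Fin n ⊕ Fin k)).1.toBlocks₁₂ᴴ := by
    ext r i
    rw [Matrix.neg_apply, Matrix.conjTranspose_apply]
    exact cl_skew' (⁅x, offA Y⁆ : cl A (Fin n ⊕ Fin k)) (Sum.inl i) (Sum.inr r)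
  apply Subtype.ext
  rw [← Matrix.fromBlocks_toBlocks (⁅x, offA Y⁆ : cl A (Fin n ⊕ Fin k)).1, h21, h12, h11, h22]
  rfl

section

variable [NeZero n]

/-- Parseval's identity for frames of `p`. -/
theorem parseval_off (hC : 0 < CN A n k) {m : ℕ} {f : Fin m → cl A (Fin n ⊕ Fin k)}
    (hf : IsFrame (pp (lowA A n k) (uppA A n k)) f) (W : Matrix (Fin n) (Fin k) A) :
    ∑ i, ip (f i).1.toBlocks₁₂ W ^ 2 = ip W W / (2 * CN A n k) := by
  have h1 := hf.parseval (x := offA W) (orth_iff.1 (offA_orth W)) (offA W)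
  rw [Qf_offA] at h1
  have h2 : (offA W).1.toBlocks₁₂ = W := rfl
  have h3 : ∀ i, Qf _ (offA W) (f i) * Qf _ (offA W) (f i) =
      (2 * CN A n k) ^ 2 * ip (f i).1.toBlocks₁₂ W ^ 2 := by
    intro i
    rw [Qf_symm, Qf_offA]
    ring
  rw [h2] at h1
  simp only [h3] at h1
  rw [← Finset.mul_sum] at h1
  rw [eq_div_iff (by positivity)]
  set S := ∑ i, ip (f i).1.toBlocks₁₂ W ^ 2
  have h4 : (2 * CN A n k) * (S * (2 * CN A n k)) = (2 * CN A n k) * ip W W := by
    rw [h1]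
    ring
  exact mul_left_cancel₀ (by positivity) h4

theorem pr_adj (E : cl A (Fin n)) (W : Matrix (Fin n) (Fin n) A) :
    ip E.1 (pr W : cl A (Fin n)).1 = ip E.1 W := by
  rw [pr_apply, ip_sub_right, ip_smul_right, ip_sub_right]
  have h1 : ip E.1 Wᴴ = -ip E.1 W := by
    have h2 : E.1 = -E.1ᴴ := by rw [E.2.1, neg_neg]
    conv_lhs => rw [h2]
    rw [ip_neg, ip_conjT]
  have h3 : ip E.1 (Matrix.diagonal (fun _ => cc W)) = 0 := by
    rw [ip_comm]
    exact ip_diag_ce _ E.2.2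
  rw [h1, h3]
  ring

/-- Parseval's identity for frames of `l`. -/
theorem parseval_up (hC : 0 < CN A n k) {m : ℕ} {e : Fin m → cl A (Fin n ⊕ Fin k)}
    (he : IsFrame (uppA A n k).toSubmodule e) (W : Matrix (Fin n) (Fin n) A) :
    ∑ i, ip (e i).1.toBlocks₁₁ W ^ 2 = ip (pr W : cl A (Fin n)).1 W / CN A n k := by
  have h1 := he.parseval (x := upEl k (pr W)) (upEl_mem _) (upEl k (pr W))
  rw [Qf_up] at h1
  have h2 : (upEl k (pr W)).1.toBlocks₁₁ = (pr W : cl A (Fin n)).1 := rfl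
  have h3 : ∀ i, Qf _ (upEl k (pr W)) (e i) * Qf _ (upEl k (pr W)) (e i) =
      (CN A n k) ^ 2 * ip (e i).1.toBlocks₁₁ W ^ 2 := by
    intro i
    obtain ⟨Y, hY⟩ := upp_blocks (he.mem i)
    rw [Qf_symm, Qf_up, hY, Matrix.toBlocks_fromBlocks₁₁, pr_adj]
    ring
  rw [h2, pr_adj] at h1
  simp only [h3] at h1
  rw [← Finset.mul_sum] at h1
  rw [eq_div_iff hC.ne']
  set S := ∑ i, ip (e i).1.toBlocks₁₁ W ^ 2
  have h4 : (CN A n k) * (S * (CN A n k)) = (CN A n k) * ip (pr W : cl A (Fin n)).1 W := by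
    rw [h1]
    ring
  exact mul_left_cancel₀ hC.ne' h4

theorem ip_pr (W : Matrix (Fin n) (Fin n) A) : ip (pr W : cl A (Fin n)).1 W =
    1 / 2 * ip W W - 1 / 2 * ip Wᴴ W - rl (cc W * star (trace W)) := by
  rw [pr_apply, ip_sub, ip_smul, ip_sub, ip_diag_left]
  ring

theorem ip_wR_conj (Y : Matrix (Fin n) (Fin k) A) (s : Fin n) (r : Fin k)
    (μ : Fin (Coef.m A)) :
    ip (wR Y s r μ : Matrix (Fin n) (Fin n) A)ᴴ (wR Y s r μ) =
      rl (Y s r * star (Coef.b μ) * (Y s r) * star (Coef.b μ)) := by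
  rw [ip, Finset.sum_eq_single s]
  · rw [Finset.sum_eq_single s]
    · rw [Matrix.conjTranspose_apply, wR, Matrix.of_apply, if_pos rfl, star_mul, star_star]
      simp only [mul_assoc]
    · intro t _ ht
      rw [Matrix.conjTranspose_apply, wR, Matrix.of_apply, if_neg ht, star_zero, zero_mul, rl,
        map_zero]
    · intro h
      exact absurd (Finset.mem_univ s) h
  · intro s' _ hs'
    refine Finset.sum_eq_zero fun t _ => ?_
    have : (wR Y s r μ : Matrix (Fin n) (Fin n) A) s' t = 0 := by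
      rw [wR, Matrix.of_apply, if_neg hs']
    rw [this, star_zero, mul_zero, rl, map_zero]
  · intro h
    exact absurd (Finset.mem_univ s) h

theorem trace_wR (Y : Matrix (Fin n) (Fin k) A) (s : Fin n) (r : Fin k)
    (μ : Fin (Coef.m A)) :
    trace (wR Y s r μ : Matrix (Fin n) (Fin n) A) = Coef.b μ * star (Y s r) := by
  rw [trace, Finset.sum_eq_single s]
  · rw [Matrix.diag_apply, wR, Matrix.of_apply, if_pos rfl]
  · intro t _ ht
    rw [Matrix.diag_apply, wR, Matrix.of_apply, if_neg ht]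
  · intro h
    exact absurd (Finset.mem_univ s) h

theorem sum_pr_wR (Y : Matrix (Fin n) (Fin k) A) :
    ∑ s : Fin n, ∑ r : Fin k, ∑ μ : Fin (Coef.m A),
      ip (pr (wR Y s r μ : Matrix (Fin n) (Fin n) A) : cl A (Fin n)).1 (wR Y s r μ) =
      (1 / 2 * (n * Coef.m A - Coef.sg A) - Coef.ep A / n) * ip Y Y := by
  simp only [ip_pr, Finset.sum_sub_distrib, ← Finset.mul_sum]
  rw [sum_wR]
  have h1 : ∑ s : Fin n, ∑ r : Fin k, ∑ μ : Fin (Coef.m A),
      ip (wR Y s r μ : Matrix (Fin n) (Fin n) A)ᴴ (wR Y s r μ) = Coef.sg A * ip Y Y := by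
    unfold ip
    rw [Finset.mul_sum]
    refine Finset.sum_congr rfl fun s _ => ?_
    rw [Finset.mul_sum]
    refine Finset.sum_congr rfl fun r _ => ?_
    have h2 := sum_bbar2 (Y s r) (Y s r)
    rw [← h2]
    refine Finset.sum_congr rfl fun μ _ => ?_
    have h3 := ip_wR_conj Y s r μ
    unfold ip at h3
    rw [h3]
    simp only [mul_assoc]
  have h2 : ∑ s : Fin n, ∑ r : Fin k, ∑ μ : Fin (Coef.m A),
      rl (cc (wR Y s r μ : Matrix (Fin n) (Fin n) A) *
        star (trace (wR Y s r μ : Matrix (Fin n) (Fin n) A))) =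
      Coef.ep A / n * ip Y Y := by
    unfold ip
    rw [Finset.mul_sum]
    refine Finset.sum_congr rfl fun s _ => ?_
    rw [Finset.mul_sum]
    refine Finset.sum_congr rfl fun r _ => ?_
    have h3 : ∀ μ : Fin (Coef.m A), rl (cc (wR Y s r μ : Matrix (Fin n) (Fin n) A) *
        star (trace (wR Y s r μ : Matrix (Fin n) (Fin n) A))) =
        1 / (2 * n) * rl (Cen.cen (Coef.b μ * star (Y s r) - Y s r * star (Coef.b μ)) *
          (Y s r * star (Coef.b μ))) := by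
      intro μ
      rw [cc, trace_wR, star_mul, star_star, map_smul, smul_mul_assoc, rl_smul,
        Fintype.card_fin]
    simp only [h3]
    have h4 := Coef.sum3 (Y s r)
    rw [← Finset.mul_sum]
    have h5 : ∑ μ : Fin (Coef.m A), rl (Cen.cen (Coef.b μ * star (Y s r) -
        Y s r * star (Coef.b μ)) * (Y s r * star (Coef.b μ))) =
        2 * Coef.ep A * rl (Y s r * star (Y s r)) := h4
    rw [h5]
    have hn : (n : ℝ) ≠ 0 := by exact_mod_cast NeZero.ne n
    field_simp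
  rw [h1, h2, Fintype.card_fin]
  ring

/-- The Casimir value of `k` on `p`. -/
noncomputable def kap (A : Type) [Ring A] [StarRing A] [Algebra ℝ A] [Cen A] [Coef A] (n k : ℕ) : ℝ :=
  (k * Coef.m A - Coef.sg A + 2 * Coef.ep A / n) / (2 * CN A n k)

theorem casL_A (hC : 0 < CN A n k) {m : ℕ} {e : Fin m → cl A (Fin n ⊕ Fin k)}
    (he : IsFrame (uppA A n k).toSubmodule e) {y : cl A (Fin n ⊕ Fin k)}
    (hy : y ∈ pp (lowA A n k) (uppA A n k)) :
    ∑ i, Qf _ ⁅e i, y⁆ ⁅e i, y⁆ = (1 / 2 - kap A n k) * Qf _ y y := by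
  have hy' := off_diagA hC (orth_iff.2 hy)
  set Y := y.1.toBlocks₁₂ with hY
  have h1 : ∀ i, Qf _ ⁅e i, y⁆ ⁅e i, y⁆ = (2 * CN A n k) *
      ∑ s : Fin n, ∑ r : Fin k, ∑ μ : Fin (Coef.m A),
        ip (e i).1.toBlocks₁₁ (wR Y s r μ) ^ 2 := by
    intro i
    obtain ⟨E, hE⟩ := upp_blocks (he.mem i)
    have h2 : e i = upEl k E := Subtype.ext hE
    rw [hy', h2, lie_up_off, Qf_offA]
    have h3 : (offA (E.1 * Y)).1.toBlocks₁₂ = E.1 * Y := rfl
    have h4 : (upEl k E).1.toBlocks₁₁ = E.1 := rfl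
    rw [h3, h4, ip_FD]
  simp only [h1]
  rw [← Finset.mul_sum]
  have h5 : ∑ i, ∑ s : Fin n, ∑ r : Fin k, ∑ μ : Fin (Coef.m A),
      ip (e i).1.toBlocks₁₁ (wR Y s r μ) ^ 2 =
      ∑ s : Fin n, ∑ r : Fin k, ∑ μ : Fin (Coef.m A),
        ip (pr (wR Y s r μ : Matrix (Fin n) (Fin n) A) : cl A (Fin n)).1 (wR Y s r μ) /
          CN A n k := by
    rw [Finset.sum_comm]
    refine Finset.sum_congr rfl fun s _ => ?_
    rw [Finset.sum_comm]
    refine Finset.sum_congr rfl fun r _ => ?_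
    rw [Finset.sum_comm]
    exact Finset.sum_congr rfl fun μ _ => parseval_up hC he _
  rw [h5]
  simp only [← Finset.sum_div]
  rw [sum_pr_wR]
  have h6 : Qf _ y y = 2 * CN A n k * ip Y Y := by
    conv_lhs =>
      enter [2]
      rw [hy']
    rw [Qf_offA]
  rw [h6]
  unfold kap
  have h7 : CN A n k = (n + k : ℝ) * Coef.m A - 2 * Coef.sg A := rfl
  have hn : (n : ℝ) ≠ 0 := by exact_mod_cast NeZero.ne n
  have h8 : (1 / 2 - (k * Coef.m A - Coef.sg A + 2 * Coef.ep A / n) / (2 * CN A n k)) *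
      (2 * CN A n k * ip Y Y) =
      (CN A n k - (k * Coef.m A - Coef.sg A + 2 * Coef.ep A / n)) * ip Y Y := by
    field_simp
  have h9 : 2 * CN A n k * ((1 / 2 * (n * Coef.m A - Coef.sg A) - Coef.ep A / n) *
      ip Y Y / CN A n k) =
      (n * Coef.m A - Coef.sg A - 2 * Coef.ep A / n) * ip Y Y := by
    field_simp
  rw [h8, h9, h7]
  ring

/-- The action of `l` on `p`. -/
theorem small_A (hC : 0 < CN A n k) {m : ℕ} {f : Fin m → cl A (Fin n ⊕ Fin k)}
    (hf : IsFrame (pp (lowA A n k) (uppA A n k)) f) {x : cl A (Fin n ⊕ Fin k)}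
    (hx : x ∈ uppA A n k) :
    ∑ i, Qf _ ⁅x, f i⁆ ⁅x, f i⁆ = (k * Coef.m A / CN A n k) * Qf _ x x := by
  obtain ⟨X, hX⟩ := upp_blocks hx
  have hx' : x = upEl k X := Subtype.ext hX
  have h1 : ∀ i, Qf _ ⁅x, f i⁆ ⁅x, f i⁆ = (2 * CN A n k) *
      ∑ s : Fin n, ∑ r : Fin k, ∑ μ : Fin (Coef.m A),
        ip (f i).1.toBlocks₁₂ (wL X.1 s r μ) ^ 2 := by
    intro i
    have hf' := off_diagA hC (orth_iff.2 (hf.mem i))
    set F := (f i).1.toBlocks₁₂
    rw [hf', hx', lie_up_off, Qf_offA]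
    have h3 : (offA (X.1 * F)).1.toBlocks₁₂ = X.1 * F := rfl
    rw [h3, ip_XF]
  simp only [h1]
  rw [← Finset.mul_sum]
  have h5 : ∑ i, ∑ s : Fin n, ∑ r : Fin k, ∑ μ : Fin (Coef.m A),
      ip (f i).1.toBlocks₁₂ (wL X.1 s r μ) ^ 2 =
      ∑ s : Fin n, ∑ r : Fin k, ∑ μ : Fin (Coef.m A),
        ip (wL X.1 s r μ : Matrix (Fin n) (Fin k) A) (wL X.1 s r μ) / (2 * CN A n k) := by
    rw [Finset.sum_comm]
    refine Finset.sum_congr rfl fun s _ => ?_
    rw [Finset.sum_comm]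
    refine Finset.sum_congr rfl fun r _ => ?_
    rw [Finset.sum_comm]
    exact Finset.sum_congr rfl fun μ _ => parseval_off hC hf _
  rw [h5]
  simp only [← Finset.sum_div]
  rw [sum_wL, Fintype.card_fin]
  have h6 : Qf _ x x = CN A n k * ip X.1 X.1 := by
    rw [Qf_A, hX, ip_blocks, ip_zero_left, ip_zero_left, ip_zero_left]
    ring
  rw [h6]
  field_simp

/-- The action of `k` on `p`. -/
theorem low_A (hC : 0 < CN A n k) {m : ℕ} {f : Fin m → cl A (Fin n ⊕ Fin k)}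
    (hf : IsFrame (pp (lowA A n k) (uppA A n k)) f) {x : cl A (Fin n ⊕ Fin k)}
    (hx : x ∈ lowA A n k) :
    (n * Coef.m A / CN A n k) * Qf _ x x ≤ ∑ i, Qf _ ⁅x, f i⁆ ⁅x, f i⁆ := by
  obtain ⟨c, X, hX, hXs, hXt⟩ := low_blocks hx
  set D : Matrix (Fin k) (Fin k) A := Matrix.diagonal (fun _ => ce c) - X with hD
  have h1 : ∀ i, Qf _ ⁅x, f i⁆ ⁅x, f i⁆ = (2 * CN A n k) *
      ∑ s : Fin n, ∑ r : Fin k, ∑ μ : Fin (Coef.m A),
        ip (f i).1.toBlocks₁₂ (wR D s r μ) ^ 2 := by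
    intro i
    have hf' := off_diagA hC (orth_iff.2 (hf.mem i))
    set F := (f i).1.toBlocks₁₂
    rw [hf', lie_low_off hX hXs, Qf_offA]
    have h3 : (offA (F * D)).1.toBlocks₁₂ = F * D := rfl
    rw [h3, ip_FD]
  simp only [h1]
  rw [← Finset.mul_sum]
  have h5 : ∑ i, ∑ s : Fin n, ∑ r : Fin k, ∑ μ : Fin (Coef.m A),
      ip (f i).1.toBlocks₁₂ (wR D s r μ) ^ 2 =
      ∑ s : Fin n, ∑ r : Fin k, ∑ μ : Fin (Coef.m A),
        ip (wR D s r μ : Matrix (Fin n) (Fin k) A) (wR D s r μ) / (2 * CN A n k) := by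
    rw [Finset.sum_comm]
    refine Finset.sum_congr rfl fun s _ => ?_
    rw [Finset.sum_comm]
    refine Finset.sum_congr rfl fun r _ => ?_
    rw [Finset.sum_comm]
    exact Finset.sum_congr rfl fun μ _ => parseval_off hC hf _
  rw [h5]
  simp only [← Finset.sum_div]
  rw [sum_wR, Fintype.card_fin]
  have hcc := sq_nonneg' (ce c)
  set C2 := rl (ce c * star (ce c)) with hC2
  have hdd : ∀ (a : ℕ), ip (Matrix.diagonal (fun _ => ce c) : Matrix (Fin a) (Fin a) A)
      (Matrix.diagonal (fun _ => ce c)) = a * C2 := by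
    intro a
    rw [ip_diag_left, trace_diag_const, Fintype.card_fin, Cen.star_smul', mul_smul_comm,
      rl_smul]
  have h6 : Qf _ x x = CN A n k * (n * C2 + ip X X) := by
    rw [Qf_A, hX, ip_blocks, ip_zero_left, ip_zero_left, hdd]
    ring
  have h7 : ip D D = (k + 2 * n) * C2 + ip X X := by
    have h8 : ip (Matrix.diagonal (fun _ => ce c)) X = -(n * C2) := by
      rw [ip_diag_left, rl_ce_mul, ← star_ce, hXt, star_neg, Cen.star_smul', mul_neg,
        mul_smul_comm, rl, map_neg]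
      change -rl ((n : ℝ) • (ce c * star (ce c))) = _
      rw [rl_smul]
    rw [hD, ip_sub, ip_sub_right, ip_sub_right, hdd, ip_comm X, h8]
    ring
  rw [h6, h7]
  have h8 : 2 * CN A n k * (n * Coef.m A * ((k + 2 * n) * C2 + ip X X) / (2 * CN A n k)) =
      n * Coef.m A * ((k + 2 * n) * C2 + ip X X) := by
    field_simp
  have h9 : n * Coef.m A / CN A n k * (CN A n k * (n * C2 + ip X X)) =
      n * Coef.m A * (n * C2 + ip X X) := by
    field_simp
  rw [h8, h9]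
  have h10 : (0 : ℝ) ≤ k := Nat.cast_nonneg k
  have h11 : (0 : ℝ) ≤ n := Nat.cast_nonneg n
  have h12 : (0 : ℝ) ≤ (Coef.m A : ℝ) := Nat.cast_nonneg _
  refine mul_le_mul_of_nonneg_left ?_ (mul_nonneg h11 h12)
  have h13 : 0 ≤ (k + n : ℝ) * C2 := mul_nonneg (by linarith) hcc
  linarith

end

end Pool.Agent.EinS
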