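import Pool.Agent.EinS.ClMain
import Pool.Agent.EinS.AllH2

/-!
# Conjugation by unitary matrices
-/

namespace Pool.Agent.EinS

open Matrix Pool.Agent.EStab

attribute [local instance 100] LieRing.ofAssociativeRing

variable {A : Type} [Ring A] [StarRing A] [Algebra ℝ A] [Cen A] [Coef A]

theorem ce_sum {α : Type*} (s : Finset α) (f : α → A) : ce (∑ i ∈ s, f i) = ∑ i ∈ s, ce (f i) :=
  map_sum _ _ _

theorem ce_trace_comm {α β : Type*} [Fintype α] [Fintype β] (X : Matrix α β A)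
    (Y : Matrix β α A) : ce (trace (X * Y)) = ce (trace (Y * X)) := by
  unfold trace
  rw [ce_sum, ce_sum]
  simp only [Matrix.diag_apply, Matrix.mul_apply, ce_sum]
  rw [Finset.sum_comm]
  exact Finset.sum_congr rfl fun i _ => Finset.sum_congr rfl fun j _ => Cen.cen_mul_comm _ _

section

variable {ι κ : Type} [Fintype ι] [DecidableEq ι] [Fintype κ] [DecidableEq κ]

theorem conj_mem (T : Matrix ι κ A) (h2 : Tᴴ * T = 1) (x : cl A κ) :
    (T * x.1 * Tᴴ)ᴴ = -(T * x.1 * Tᴴ) ∧ Cen.cen (trace (T * x.1 * Tᴴ)) = 0 := by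
  constructor
  · rw [Matrix.conjTranspose_mul, Matrix.conjTranspose_mul, Matrix.conjTranspose_conjTranspose,
      x.2.1, Matrix.neg_mul, Matrix.mul_neg, Matrix.mul_assoc]
  · have h3 := ce_trace_comm (T * x.1) Tᴴ
    rw [← Matrix.mul_assoc, h2, Matrix.one_mul] at h3
    exact h3.trans x.2.2

theorem conj_mul (T : Matrix ι κ A) (h2 : Tᴴ * T = 1) (x y : Matrix κ κ A) :
    T * x * Tᴴ * (T * y * Tᴴ) = T * (x * y) * Tᴴ := by
  calc T * x * Tᴴ * (T * y * Tᴴ) = T * x * (Tᴴ * T) * y * Tᴴ := by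
        simp only [Matrix.mul_assoc]
    _ = _ := by rw [h2, Matrix.mul_one]; simp only [Matrix.mul_assoc]

/-- Conjugation by a unitary matrix. -/
noncomputable def clConj (T : Matrix ι κ A) (h1 : T * Tᴴ = 1) (h2 : Tᴴ * T = 1) :
    cl A κ ≃ₗ⁅ℝ⁆ cl A ι where
  toFun x := ⟨T * x.1 * Tᴴ, conj_mem T h2 x⟩
  map_add' x y := by
    apply Subtype.ext
    change T * (x.1 + y.1) * Tᴴ = T * x.1 * Tᴴ + T * y.1 * Tᴴ
    rw [Matrix.mul_add, Matrix.add_mul]
  map_smul' c x := by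
    apply Subtype.ext
    change T * (c • x.1) * Tᴴ = c • (T * x.1 * Tᴴ)
    rw [Matrix.mul_smul, Matrix.smul_mul]
  map_lie' := by
    intro x y
    apply Subtype.ext
    change T * (x.1 * y.1 - y.1 * x.1) * Tᴴ =
      T * x.1 * Tᴴ * (T * y.1 * Tᴴ) - T * y.1 * Tᴴ * (T * x.1 * Tᴴ)
    rw [conj_mul T h2, conj_mul T h2, Matrix.mul_sub, Matrix.sub_mul]
  invFun x := ⟨Tᴴ * x.1 * T, by
    have h3 := conj_mem Tᴴ (by rw [Matrix.conjTranspose_conjTranspose, h1]) x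
    rw [Matrix.conjTranspose_conjTranspose] at h3
    exact h3⟩
  left_inv x := by
    apply Subtype.ext
    change Tᴴ * (T * x.1 * Tᴴ) * T = x.1
    calc Tᴴ * (T * x.1 * Tᴴ) * T = (Tᴴ * T) * x.1 * (Tᴴ * T) := by
          simp only [Matrix.mul_assoc]
      _ = _ := by rw [h2, Matrix.one_mul, Matrix.mul_one]
  right_inv x := by
    apply Subtype.ext
    change T * (Tᴴ * x.1 * T) * Tᴴ = x.1
    calc T * (Tᴴ * x.1 * T) * Tᴴ = (T * Tᴴ) * x.1 * (T * Tᴴ) := by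
          simp only [Matrix.mul_assoc]
      _ = _ := by rw [h1, Matrix.one_mul, Matrix.mul_one]

theorem clConj_apply (T : Matrix ι κ A) (h1 : T * Tᴴ = 1) (h2 : Tᴴ * T = 1) (x : cl A κ) :
    (clConj T h1 h2 x).1 = T * x.1 * Tᴴ := rfl

end

/-! ### Unitary matrices which normalise an algebra without fixed vectors -/

section

variable {a b : ℕ}

theorem lowA_mulVec {y : cl A (Fin b)} (v : Fin a ⊕ Fin b → A) (i : Fin b) :
    ((lowHomA A a b y).1 *ᵥ v) (Sum.inr i) = (y.1 *ᵥ (v ∘ Sum.inr)) i := by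
  rw [lowHomA_val, Matrix.fromBlocks_mulVec, Sum.elim_inr, Matrix.zero_mulVec, zero_add]

theorem lowA_mulVec_inl {y : cl A (Fin b)} (v : Fin a → A) :
    (lowHomA A a b y).1 *ᵥ (Sum.elim v (fun _ => 0)) = 0 := by
  rw [lowHomA_val, Matrix.fromBlocks_mulVec]
  have h0 : (Sum.elim v (fun _ : Fin b => (0 : A))) ∘ Sum.inr = 0 := rfl
  rw [h0, Matrix.mulVec_zero, Matrix.mulVec_zero, Matrix.zero_mulVec, Matrix.zero_mulVec,
    add_zero, add_zero]
  funext i
  rcases i with i | i <;> rfl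

/-- The lower left block of a normalising matrix vanishes. -/
theorem block_zero {h : LieSubalgebra ℝ (cl A (Fin b))} (hf : NoFixedA h)
    {g : Matrix (Fin a ⊕ Fin b) (Fin a ⊕ Fin b) A} (hg' : gᴴ * g = 1)
    (hn : ∀ y ∈ h, ∃ z ∈ h, (lowHomA A a b y).1 = g * (lowHomA A a b z).1 * gᴴ) :
    g.toBlocks₂₁ = 0 := by
  have h1 : ∀ (v : Fin a → A), (g *ᵥ (Sum.elim v (fun _ => 0))) ∘ Sum.inr = 0 := by
    intro v
    apply hf
    intro y hy
    obtain ⟨z, hz, hyz⟩ := hn y hy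
    funext i
    rw [← lowA_mulVec (a := a), hyz, Matrix.mulVec_mulVec]
    have h2 : g * (lowHomA A a b z).1 * gᴴ * g = g * (lowHomA A a b z).1 := by
      rw [Matrix.mul_assoc, hg', Matrix.mul_one]
    rw [h2, ← Matrix.mulVec_mulVec, lowA_mulVec_inl, Matrix.mulVec_zero]
    rfl
  ext i j
  have h3 := congrFun (h1 (Pi.single j 1)) i
  change (g *ᵥ (Sum.elim (Pi.single j 1) (fun _ => 0))) (Sum.inr i) = 0 at h3
  rw [Matrix.mulVec, dotProduct, Fintype.sum_sum_type] at h3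
  simp only [Sum.elim_inl, Sum.elim_inr, mul_zero, Finset.sum_const_zero, add_zero] at h3
  rw [Finset.sum_eq_single j] at h3
  · rw [Pi.single_eq_same, mul_one] at h3
    exact h3
  · intro j' _ hj'
    rw [Pi.single_eq_of_ne hj', mul_zero]
  · intro hj
    exact absurd (Finset.mem_univ j) hj

/-- A unitary matrix which normalises an algebra without fixed vectors is block diagonal. -/
theorem block_diagA {h : LieSubalgebra ℝ (cl A (Fin b))} (hf : NoFixedA h)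
    {g : Matrix (Fin a ⊕ Fin b) (Fin a ⊕ Fin b) A} (hg : g * gᴴ = 1) (hg' : gᴴ * g = 1)
    (hn : ∀ y ∈ h, ∃ z ∈ h, (lowHomA A a b y).1 = g * (lowHomA A a b z).1 * gᴴ)
    (hn' : ∀ y ∈ h, ∃ z ∈ h, (lowHomA A a b y).1 = gᴴ * (lowHomA A a b z).1 * g) :
    ∃ (P : Matrix (Fin a) (Fin a) A) (D : Matrix (Fin b) (Fin b) A), g = fromBlocks P 0 0 D ∧
      P * Pᴴ = 1 ∧ Pᴴ * P = 1 := by
  have h1 := block_zero hf hg' hn
  have h2 := block_zero (g := gᴴ) hf (by rw [Matrix.conjTranspose_conjTranspose, hg])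
    (by rw [Matrix.conjTranspose_conjTranspose]; exact hn')
  have h3 : g.toBlocks₁₂ = 0 := by
    ext i j
    have h4 := congrFun (congrFun h2 j) i
    have h5 : star (g (Sum.inl i) (Sum.inr j)) = 0 := h4
    exact star_eq_zero.1 h5
  have h4 : g = fromBlocks g.toBlocks₁₁ 0 0 g.toBlocks₂₂ := by
    conv_lhs => rw [← Matrix.fromBlocks_toBlocks g]
    rw [h1, h3]
  set P := g.toBlocks₁₁ with hP
  set D := g.toBlocks₂₂ with hD
  rw [h4, Matrix.fromBlocks_conjTranspose, Matrix.fromBlocks_multiply, ← fromBlocks_one] at hg'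
  rw [h4, Matrix.fromBlocks_conjTranspose, Matrix.fromBlocks_multiply, ← fromBlocks_one] at hg
  have e1 := congrArg Matrix.toBlocks₁₁ hg'
  have e2 := congrArg Matrix.toBlocks₁₁ hg
  simp only [Matrix.toBlocks_fromBlocks₁₁, Matrix.conjTranspose_zero, Matrix.mul_zero,
    Matrix.zero_mul, add_zero] at e1 e2
  exact ⟨P, D, h4, e2, e1⟩

theorem conj_mem_lowA {P : Matrix (Fin a) (Fin a) A} {D : Matrix (Fin b) (Fin b) A}
    (hP : P * Pᴴ = 1)
    {x : cl A (Fin a ⊕ Fin b)} (hx : x ∈ lowA A a b) {y : cl A (Fin a ⊕ Fin b)}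
    (hy : y.1 = fromBlocks P 0 0 D * x.1 * (fromBlocks P 0 0 D)ᴴ) : y ∈ lowA A a b := by
  obtain ⟨c, X, hX, -, -⟩ := low_blocks hx
  have h1 : P * Matrix.diagonal (fun _ => ce c) * Pᴴ = Matrix.diagonal (fun _ => ce c) := by
    have h2 : P * Matrix.diagonal (fun _ => ce c) = Matrix.diagonal (fun _ => ce c) * P := by
      ext i j
      rw [Matrix.mul_diagonal, Matrix.diagonal_mul, ce_mul_comm']
    rw [h2, Matrix.mul_assoc, hP, Matrix.mul_one]
  rw [hX, Matrix.fromBlocks_conjTranspose, Matrix.fromBlocks_multiply,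
    Matrix.fromBlocks_multiply] at hy
  simp only [Matrix.mul_zero, Matrix.zero_mul, add_zero, zero_add,
    Matrix.conjTranspose_zero] at hy
  rw [h1] at hy
  refine ⟨fun i r => ?_, c, fun i j => ?_⟩
  · rw [hy]
    rfl
  · rw [hy, Matrix.fromBlocks_apply₁₁, Matrix.diagonal_apply]

theorem conj_mem_uppA {P : Matrix (Fin a) (Fin a) A} {D : Matrix (Fin b) (Fin b) A}
    {x : cl A (Fin a ⊕ Fin b)} (hx : x ∈ uppA A a b) {y : cl A (Fin a ⊕ Fin b)}
    (hy : y.1 = fromBlocks P 0 0 D * x.1 * (fromBlocks P 0 0 D)ᴴ) : y ∈ uppA A a b := by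
  obtain ⟨X, hX⟩ := upp_blocks hx
  rw [hX, Matrix.fromBlocks_conjTranspose, Matrix.fromBlocks_multiply,
    Matrix.fromBlocks_multiply] at hy
  simp only [Matrix.mul_zero, Matrix.zero_mul, add_zero, zero_add,
    Matrix.conjTranspose_zero] at hy
  intro i j
  rw [hy]
  rcases j with j | j <;> rfl

theorem mem_pairAutsA {h : LieSubalgebra ℝ (cl A (Fin b))} (hf : NoFixedA h)
    {g : Matrix (Fin a ⊕ Fin b) (Fin a ⊕ Fin b) A} (hg : g * gᴴ = 1) (hg' : gᴴ * g = 1)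
    {γ : cl A (Fin a ⊕ Fin b) →ₗ[ℝ] cl A (Fin a ⊕ Fin b)}
    (hγ : ∀ x, (γ x).1 = g * x.1 * gᴴ)
    (h1 : ∀ x ∈ h.map (lowHomA A a b), γ x ∈ h.map (lowHomA A a b))
    (h2 : ∀ y ∈ h.map (lowHomA A a b), ∃ x ∈ h.map (lowHomA A a b), γ x = y) :
    γ ∈ pairAuts (lowA A a b) (uppA A a b) (h.map (lowHomA A a b)) := by
  obtain ⟨P, D, hgPD, hP, hP'⟩ := block_diagA hf hg hg' (fun y hy => by
    obtain ⟨x, ⟨z, hz, hzx⟩, hx⟩ := h2 (lowHomA A a b y) ⟨y, hy, rfl⟩
    refine ⟨z, hz, ?_⟩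
    have h3 : lowHomA A a b z = x := hzx
    rw [h3, ← hγ, hx]) (fun y hy => by
    obtain ⟨z, hz, hzx⟩ := h1 (lowHomA A a b y) ⟨y, hy, rfl⟩
    refine ⟨z, hz, ?_⟩
    have h3 : lowHomA A a b z = γ (lowHomA A a b y) := hzx
    rw [h3, hγ]
    calc (lowHomA A a b y).1 = (gᴴ * g) * (lowHomA A a b y).1 * (gᴴ * g) := by
          rw [hg', Matrix.one_mul, Matrix.mul_one]
      _ = _ := by simp only [Matrix.mul_assoc])
  have hδ : ∀ x, γ x = clConj g hg hg' x := by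
    intro x
    apply Subtype.ext
    exact hγ x
  have hgt : gᴴ = fromBlocks Pᴴ 0 0 Dᴴ := by
    rw [hgPD, Matrix.fromBlocks_conjTranspose]
    simp only [Matrix.conjTranspose_zero]
  have hgs : ∀ x : cl A (Fin a ⊕ Fin b), ((clConj g hg hg').symm x).1 =
      fromBlocks Pᴴ 0 0 Dᴴ * x.1 * (fromBlocks Pᴴ 0 0 Dᴴ)ᴴ := by
    intro x
    rw [← hgt, Matrix.conjTranspose_conjTranspose]
    rfl
  have hgc : ∀ x : cl A (Fin a ⊕ Fin b), (clConj g hg hg' x).1 =
      fromBlocks P 0 0 D * x.1 * (fromBlocks P 0 0 D)ᴴ := by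
    intro x
    rw [← hgPD]
    rfl
  have hP2 : Pᴴ * Pᴴᴴ = 1 := by rw [Matrix.conjTranspose_conjTranspose, hP']
  refine ⟨clConj g hg hg', ?_, ?_, ?_, hδ⟩
  · exact map_eq_of_both (fun x hx => conj_mem_lowA hP hx (hgc x))
      fun x hx => conj_mem_lowA hP2 hx (hgs x)
  · exact map_eq_of_both (fun x hx => conj_mem_uppA hx (hgc x))
      fun x hx => conj_mem_uppA hx (hgs x)
  · refine map_eq_of_both (fun x hx => ?_) fun x hx => ?_
    · rw [← hδ]
      exact h1 x hx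
    · obtain ⟨z, hz, hzx⟩ := h2 x hx
      rw [← hzx, hδ, LieEquiv.symm_apply_apply]
      exact hz

end

end Pool.Agent.EinS
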