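import Pool.Agent.EStab.Defs

/-!
# Symmetric pairs with a factor of small Casimir value
-/

namespace Pool.Agent.EinS

open Pool.Agent.EStab

variable {L : Type*} [LieRing L] [LieAlgebra ℝ L]

/-- `x` is orthogonal to `k` and to `l`. -/
def Orth (k l : LieSubalgebra ℝ L) (x : L) : Prop :=
  (∀ y ∈ k, killingForm ℝ L x y = 0) ∧ ∀ y ∈ l, killingForm ℝ L x y = 0

/-- `k` and `l` are commuting orthogonal subalgebras and `(L, k ⊕ l)` is a symmetric pair: the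
orthogonal complement `p` of `k ⊕ l` satisfies `[p, p] ⟂ p`, so `[p, p] ⊆ k ⊕ l`. -/
structure SymPair (k l : LieSubalgebra ℝ L) : Prop where
  comm : ∀ x ∈ k, ∀ y ∈ l, ⁅x, y⁆ = 0
  orth : ∀ x ∈ k, ∀ y ∈ l, killingForm ℝ L x y = 0
  symm : ∀ x y z, Orth k l x → Orth k l y → Orth k l z → killingForm ℝ L ⁅x, y⁆ z = 0

/-- The Casimir operator of `k` with respect to minus the Killing form of `L` is at most `s` on `k`
and at most `t` on the orthogonal complement `p` of `k ⊕ l`. -/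
def CasimirLE (k l : LieSubalgebra ℝ L) (s t : ℝ) : Prop :=
  ∀ (n : ℕ) (a : Fin n → L), (∀ i, a i ∈ k) →
    (∀ i j, killingForm ℝ L (a i) (a j) = if i = j then -1 else 0) →
    (∀ x ∈ k, ∑ i, -killingForm ℝ L ⁅a i, x⁆ ⁅a i, x⁆ ≤ s * -killingForm ℝ L x x) ∧
    ∀ x, Orth k l x → ∑ i, -killingForm ℝ L ⁅a i, x⁆ ⁅a i, x⁆ ≤ t * -killingForm ℝ L x x

/-- The automorphisms of `L` which preserve `k`, `l` and `h`. -/
def pairAuts (k l h : LieSubalgebra ℝ L) : Set (L →ₗ[ℝ] L) :=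
  {γ | ∃ δ : L ≃ₗ⁅ℝ⁆ L, k.map (δ : L →ₗ⁅ℝ⁆ L) = k ∧ l.map (δ : L →ₗ⁅ℝ⁆ L) = l ∧
    h.map (δ : L →ₗ⁅ℝ⁆ L) = h ∧ ∀ x, γ x = δ x}

end Pool.Agent.EinS
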