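import Pool.Agent.EinS.Cen
import Pool.Agent.EinS.Defs
import Pool.Agent.EinS.PiSub

/-!
# The classical groups: definitions
-/

namespace Pool.Agent.EinS

open Matrix Pool.Agent.EStab Quaternion

attribute [local instance 100] LieRing.ofAssociativeRing

variable {A : Type} [Ring A] [StarRing A] [Algebra ℝ A] [Cen A]

section

variable {ι : Type} [Fintype ι] [DecidableEq ι]

variable (A ι) in
/-- The Lie algebra of skew-Hermitian matrices with coefficients in `A` whose trace has no central
component. -/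
noncomputable def cl : LieSubalgebra ℝ (Matrix ι ι A) where
  carrier := {x | xᴴ = -x ∧ Cen.cen (trace x) = 0}
  add_mem' := by
    rintro x y ⟨hx, hx'⟩ ⟨hy, hy'⟩
    refine ⟨?_, ?_⟩
    · rw [Matrix.conjTranspose_add, hx, hy, neg_add]
    · rw [Matrix.trace_add, map_add, hx', hy', add_zero]
  zero_mem' := by
    refine ⟨?_, ?_⟩
    · rw [Matrix.conjTranspose_zero, neg_zero]
    · rw [Matrix.trace_zero, map_zero]
  smul_mem' := by
    rintro c x ⟨hx, hx'⟩
    refine ⟨?_, ?_⟩
    · ext i j
      have h := congrFun (congrFun hx i) j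
      rw [Matrix.conjTranspose_apply, Matrix.neg_apply] at h
      rw [Matrix.conjTranspose_apply, Matrix.neg_apply, Matrix.smul_apply, Matrix.smul_apply,
        Cen.star_smul', h, smul_neg]
    · rw [Matrix.trace_smul, map_smul, hx', smul_zero]
  lie_mem' := by
    rintro x y ⟨hx, hx'⟩ ⟨hy, hy'⟩
    rw [Ring.lie_def]
    refine ⟨?_, ?_⟩
    · rw [Matrix.conjTranspose_sub, Matrix.conjTranspose_mul, Matrix.conjTranspose_mul, hx, hy]
      noncomm_ring
    · rw [Matrix.trace_sub, map_sub, sub_eq_zero]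
      unfold trace
      simp only [Matrix.diag_apply, Matrix.mul_apply]
      rw [Finset.sum_comm, map_sum, map_sum]
      refine Finset.sum_congr rfl fun i _ => ?_
      rw [map_sum, map_sum]
      refine Finset.sum_congr rfl fun j _ => ?_
      rw [Cen.cen_mul_comm]

theorem cl_skew (x : cl A ι) (i j : ι) : star (x.1 j i) = -x.1 i j := by
  have h := congrFun (congrFun x.2.1 i) j
  rw [Matrix.conjTranspose_apply, Matrix.neg_apply] at h
  exact h

theorem cl_skew' (x : cl A ι) (i j : ι) : x.1 j i = -star (x.1 i j) := by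
  rw [cl_skew, neg_neg]

theorem cl_tr (x : cl A ι) : Cen.cen (trace x.1) = 0 := x.2.2

theorem cl_lie (x y : cl A ι) : (⁅x, y⁆ : cl A ι).1 = x.1 * y.1 - y.1 * x.1 := rfl

/-- The automorphisms `Ad(g)`, `g` a unitary matrix which normalises `W`. -/
def nrmAuts (W : LieSubalgebra ℝ (cl A ι)) : Set (cl A ι →ₗ[ℝ] cl A ι) :=
  {γ | ∃ g : Matrix ι ι A, g * gᴴ = 1 ∧ gᴴ * g = 1 ∧ (∀ x, (γ x).1 = g * x.1 * gᴴ) ∧
    W.toSubmodule.map γ = W.toSubmodule}

end

theorem trFB {α β : Type*} [Fintype α] [Fintype β] (X : Matrix α α A) (Y : Matrix α β A)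
    (Z : Matrix β α A) (W : Matrix β β A) :
    trace (fromBlocks X Y Z W) = trace X + trace W := by
  unfold trace
  rw [Fintype.sum_sum_type]
  rfl

variable {n k : ℕ}

/-- The subalgebra of `K`. -/
noncomputable def lowA (A : Type) [Ring A] [StarRing A] [Algebra ℝ A] [Cen A] (n k : ℕ) :
    LieSubalgebra ℝ (cl A (Fin n ⊕ Fin k)) where
  carrier := {x | (∀ i r, x.1 (Sum.inl i) (Sum.inr r) = 0) ∧
    ∃ c : A, ∀ i j, x.1 (Sum.inl i) (Sum.inl j) = if i = j then Cen.cen c else 0}
  add_mem' := by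
    rintro x y ⟨hx, c, hc⟩ ⟨hy, d, hd⟩
    refine ⟨fun i r => ?_, c + d, fun i j => ?_⟩
    · change x.1 _ _ + y.1 _ _ = 0
      rw [hx, hy, add_zero]
    · change x.1 _ _ + y.1 _ _ = _
      rw [hc, hd, map_add]
      split_ifs
      · rfl
      · rw [add_zero]
  zero_mem' := by
    refine ⟨fun i r => rfl, 0, fun i j => ?_⟩
    change (0 : A) = _
    rw [map_zero, ite_self]
  smul_mem' := by
    rintro t x ⟨hx, c, hc⟩
    refine ⟨fun i r => ?_, t • c, fun i j => ?_⟩
    · change t • x.1 _ _ = 0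
      rw [hx, smul_zero]
    · change t • x.1 _ _ = _
      rw [hc, map_smul]
      split_ifs
      · rfl
      · rw [smul_zero]
  lie_mem' := by
    rintro x y ⟨hx, c, hc⟩ ⟨hy, d, hd⟩
    have hx' : ∀ i r, x.1 (Sum.inr r) (Sum.inl i) = 0 := by
      intro i r
      rw [cl_skew' x, hx, star_zero, neg_zero]
    have hy' : ∀ i r, y.1 (Sum.inr r) (Sum.inl i) = 0 := by
      intro i r
      rw [cl_skew' y, hy, star_zero, neg_zero]
    refine ⟨fun i r => ?_, 0, fun i j => ?_⟩
    · rw [cl_lie, Matrix.sub_apply, Matrix.mul_apply, Matrix.mul_apply,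
        Fintype.sum_sum_type, Fintype.sum_sum_type]
      simp only [hx, hy, mul_zero, zero_mul, Finset.sum_const_zero, add_zero, sub_zero]
    · have key : ∀ (u v : cl A (Fin n ⊕ Fin k)) (c d : A),
          (∀ i r, u.1 (Sum.inl i) (Sum.inr r) = 0) →
          (∀ i j, u.1 (Sum.inl i) (Sum.inl j) = if i = j then Cen.cen c else 0) →
          (∀ i j, v.1 (Sum.inl i) (Sum.inl j) = if i = j then Cen.cen d else 0) →
          (u.1 * v.1) (Sum.inl i) (Sum.inl j) = if i = j then Cen.cen c * Cen.cen d else 0 := by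
        intro u v c d hu hc hd
        rw [Matrix.mul_apply, Fintype.sum_sum_type]
        simp only [hu, hc, hd, zero_mul, Finset.sum_const_zero, add_zero]
        rw [Finset.sum_eq_single i]
        · by_cases hij : i = j
          · rw [if_pos rfl, if_pos hij, if_pos hij]
          · rw [if_neg hij, if_neg hij, mul_zero]
        · intro a _ ha
          rw [if_neg (Ne.symm ha), zero_mul]
        · intro h
          exact absurd (Finset.mem_univ i) h
      rw [cl_lie, Matrix.sub_apply, key x y c d hx hc hd, key y x d c hy hd hc,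
        Cen.cen_comm c, map_zero, ite_self]
      split_ifs
      · exact sub_self _
      · exact sub_self _

/-- The subalgebra of `L`. -/
noncomputable def uppA (A : Type) [Ring A] [StarRing A] [Algebra ℝ A] [Cen A] (n k : ℕ) :
    LieSubalgebra ℝ (cl A (Fin n ⊕ Fin k)) where
  carrier := {x | ∀ r p, x.1 (Sum.inr r) p = 0}
  add_mem' := by
    intro x y hx hy i j
    change x.1 _ _ + y.1 _ _ = 0
    rw [hx, hy, add_zero]
  zero_mem' := fun _ _ => rfl
  smul_mem' := by
    intro c x hx i j
    change c • x.1 _ _ = 0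
    rw [hx, smul_zero]
  lie_mem' := by
    intro x y hx hy i j
    rw [cl_lie, Matrix.sub_apply, Matrix.mul_apply, Matrix.mul_apply]
    simp only [hx _ _, hy _ _, zero_mul, Finset.sum_const_zero, sub_zero]

/-- The standard embedding. -/
noncomputable def lowHomA (A : Type) [Ring A] [StarRing A] [Algebra ℝ A] [Cen A] (n k : ℕ) :
    cl A (Fin k) →ₗ⁅ℝ⁆ cl A (Fin n ⊕ Fin k) where
  toFun x := ⟨fromBlocks 0 0 0 x.1, by
    refine ⟨?_, ?_⟩
    · rw [Matrix.fromBlocks_conjTranspose, Matrix.fromBlocks_neg, x.2.1]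
      simp only [Matrix.conjTranspose_zero, neg_zero]
    · rw [trFB, Matrix.trace_zero, zero_add]
      exact x.2.2⟩
  map_add' x y := by
    apply Subtype.ext
    change fromBlocks 0 0 0 (x.1 + y.1) = fromBlocks 0 0 0 x.1 + fromBlocks 0 0 0 y.1
    rw [fromBlocks_add]
    simp only [add_zero]
  map_smul' c x := by
    apply Subtype.ext
    change fromBlocks 0 0 0 (c • x.1) = c • fromBlocks 0 0 0 x.1
    rw [fromBlocks_smul]
    simp only [smul_zero]
  map_lie' := by
    intro x y
    apply Subtype.ext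
    change fromBlocks 0 0 0 (x.1 * y.1 - y.1 * x.1) =
      fromBlocks 0 0 0 x.1 * fromBlocks 0 0 0 y.1 - fromBlocks 0 0 0 y.1 * fromBlocks 0 0 0 x.1
    rw [fromBlocks_multiply, fromBlocks_multiply]
    simp only [Matrix.mul_zero, Matrix.zero_mul, add_zero, zero_add]
    rw [sub_eq_add_neg (fromBlocks _ _ _ _), fromBlocks_neg, fromBlocks_add]
    simp only [neg_zero, add_zero]
    rw [← sub_eq_add_neg]

end Pool.Agent.EinS
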