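import Pool.Agent.EinS.ClDefs

/-!
# The classical groups: the statements
-/

namespace Pool.Agent.EinS

open Matrix Pool.Agent.EStab Quaternion

attribute [local instance 100] LieRing.ofAssociativeRing

section

variable (A : Type) [Ring A] [StarRing A] [Algebra ℝ A] [Cen A]
variable (ι : Type) [Fintype ι] [DecidableEq ι]

/-- The Lie algebra `so(ι)`, `su(ι)` or `sp(ι)`. -/
def Gr : Type := cl A ι

noncomputable instance grLieRing : LieRing (Gr A ι) :=
  LieSubalgebra.lieRing ℝ (Matrix ι ι A) (cl A ι)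

noncomputable instance grLieAlgebra : LieAlgebra ℝ (Gr A ι) :=
  LieSubalgebra.lieAlgebra ℝ (Matrix ι ι A) (cl A ι)

end

section

variable {A : Type} [Ring A] [StarRing A] [Algebra ℝ A] [Cen A]

section

variable {ι : Type} [Fintype ι] [DecidableEq ι]

/-- The matrix of an element of the Lie algebra. -/
def Gr.mat (x : Gr A ι) : Matrix ι ι A := x.1

/-- The automorphisms `Ad(g)`, `g` a unitary matrix which normalises `W`. -/
def adNorm (W : Submodule ℝ (Gr A ι)) : Set (Gr A ι →ₗ[ℝ] Gr A ι) :=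
  {γ | ∃ g : Matrix ι ι A, g * gᴴ = 1 ∧ gᴴ * g = 1 ∧ (∀ x, (γ x).mat = g * x.mat * gᴴ) ∧
    W.map γ = W}

end

/-- The subalgebra `h` of `g(k)` as a subspace of `g(n + k)`, in the lower right block. -/
noncomputable def corner (n : ℕ) {k : ℕ} (h : LieSubalgebra ℝ (Gr A (Fin k))) :
    Submodule ℝ (Gr A (Fin n ⊕ Fin k)) where
  carrier := {x | ∃ y ∈ h, x.mat = fromBlocks 0 0 0 y.mat}
  add_mem' := by
    rintro x x' ⟨y, hy, hxy⟩ ⟨y', hy', hxy'⟩
    refine ⟨y + y', h.add_mem hy hy', ?_⟩
    change x.mat + x'.mat = fromBlocks 0 0 0 (y.mat + y'.mat)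
    rw [hxy, hxy', fromBlocks_add]
    simp only [add_zero]
  zero_mem' := by
    refine ⟨0, h.zero_mem, ?_⟩
    change (0 : Matrix (Fin n ⊕ Fin k) (Fin n ⊕ Fin k) A) =
      fromBlocks 0 0 0 (0 : Matrix (Fin k) (Fin k) A)
    rw [fromBlocks_zero]
  smul_mem' := by
    rintro c x ⟨y, hy, hxy⟩
    refine ⟨c • y, h.smul_mem c hy, ?_⟩
    change c • x.mat = fromBlocks 0 0 0 (c • y.mat)
    rw [hxy, fromBlocks_smul]
    simp only [smul_zero]

end

section

variable (A : Type) [Ring A] [StarRing A] [Algebra ℝ A] [Cen A]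

/-- For every subalgebra `h` of `g(k)`, where `g` is `so`, `su` or `sp`, and every large `n`, the
homogeneous space `G(n + k)/H` has an invariant Einstein metric of positive scalar curvature, which
is also invariant under `Ad(g)` for all matrices `g` of `O(n + k)`, `U(n + k)` or `Sp(n + k)` which
normalise `h`. -/
def LargeQuotientsEinstein : Prop :=
  ∀ (k : ℕ) (h : LieSubalgebra ℝ (Gr A (Fin k))), ∃ n0 : ℕ, ∀ n ≥ n0,
    HasEinsteinMetric (Gr A (Fin n ⊕ Fin k)) (corner n h) (adNorm (corner n h))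

/-- The subalgebra `k` of the Grassmannian: `so(k)`, `u(k)` or `sp(k)`. -/
noncomputable def lowG (n k : ℕ) : LieSubalgebra ℝ (Gr A (Fin n ⊕ Fin k)) := lowA A n k

/-- The subalgebra `l` of the Grassmannian: `so(n)`, `su(n)` or `sp(n)`. -/
noncomputable def uppG (n k : ℕ) : LieSubalgebra ℝ (Gr A (Fin n ⊕ Fin k)) := uppA A n k

end

/-! ### The three families -/

/-- The three real division algebras. -/
inductive Fld
  | R
  | C
  | H

/-- The real, complex and quaternionic numbers. -/
def Fld.T : Fld → Type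
  | .R => ℝ
  | .C => ℂ
  | .H => ℍ[ℝ]

noncomputable instance Fld.ring : (F : Fld) → Ring F.T
  | .R => (inferInstance : Ring ℝ)
  | .C => (inferInstance : Ring ℂ)
  | .H => (inferInstance : Ring ℍ[ℝ])

noncomputable instance Fld.starRing : (F : Fld) → StarRing F.T
  | .R => (inferInstance : StarRing ℝ)
  | .C => (inferInstance : StarRing ℂ)
  | .H => (inferInstance : StarRing ℍ[ℝ])

noncomputable instance Fld.algebra : (F : Fld) → Algebra ℝ F.T
  | .R => (inferInstance : Algebra ℝ ℝ)
  | .C => (inferInstance : Algebra ℝ ℂ)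
  | .H => (inferInstance : Algebra ℝ ℍ[ℝ])

noncomputable instance Fld.cen : (F : Fld) → Cen F.T
  | .R => cenReal
  | .C => cenComplex
  | .H => cenQuat

/-- The product of the subalgebras `k` of the Grassmannians. -/
noncomputable def lowersF {r : ℕ} (F : Fin r → Fld) (n k : Fin r → ℕ) :
    LieSubalgebra ℝ (∀ i, Gr (F i).T (Fin (n i) ⊕ Fin (k i))) :=
  piSub fun i => lowG (F i).T (n i) (k i)

/-- The product of the subalgebras `l` of the Grassmannians. -/
noncomputable def uppersF {r : ℕ} (F : Fin r → Fld) (n k : Fin r → ℕ) :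
    LieSubalgebra ℝ (∀ i, Gr (F i).T (Fin (n i) ⊕ Fin (k i))) :=
  piSub fun i => uppG (F i).T (n i) (k i)

end Pool.Agent.EinS
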