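import Pool.Agent.EinS.So

/-!
# The Casimir operator of `so(k)` in `so(n + k)`
-/

namespace Pool.Agent.EinS

open Matrix Pool.Agent.EStab LieAlgebra.Orthogonal

variable {n k : ℕ}

/-- the matrix with `⟨U, WA⟩ = [U, V]_{ab}` -/
def WA (V : Matrix (Fin k) (Fin k) ℝ) (a b : Fin k) : Matrix (Fin k) (Fin k) ℝ :=
  of fun c d => (if c = a then V d b else 0) - (if d = b then V a c else 0)

theorem WA_pair (U V : Matrix (Fin k) (Fin k) ℝ) (a b : Fin k) :
    ∑ c, ∑ d, U c d * WA V a b c d = (U * V - V * U) a b := by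
  have h1 : ∀ c d, U c d * WA V a b c d =
      (if c = a then U c d * V d b else 0) - (if d = b then U c d * V a c else 0) := by
    intro c d
    unfold WA
    rw [Matrix.of_apply, mul_sub]
    congr 1 <;> split_ifs <;> simp
  simp only [h1, Finset.sum_sub_distrib]
  rw [Finset.sum_comm, Matrix.sub_apply, Matrix.mul_apply, Matrix.mul_apply]
  simp only [Finset.sum_ite_eq', Finset.mem_univ, if_true]
  congr 1
  exact Finset.sum_congr rfl fun c _ => mul_comm _ _

theorem WA_sq (V : Matrix (Fin k) (Fin k) ℝ) (hV : ∀ c d, V c d = - V d c) (a b : Fin k) :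
    ∑ c, ∑ d, WA V a b c d ^ 2 = ∑ d, V d b ^ 2 + ∑ c, V a c ^ 2 := by
  have haa : V a a = 0 := by
    have := hV a a
    linarith
  have h1 : ∀ c d, WA V a b c d ^ 2 =
      (if c = a then V d b ^ 2 else 0) + (if d = b then V a c ^ 2 else 0) -
        2 * (if c = a then (if d = b then V a c * V d b else 0) else 0) := by
    intro c d
    unfold WA
    rw [Matrix.of_apply]
    split_ifs <;> ring
  simp only [h1, Finset.sum_sub_distrib, Finset.sum_add_distrib, ← Finset.mul_sum]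
  have h2 : ∑ c, ∑ d, (if c = a then V d b ^ 2 else 0) = ∑ d, V d b ^ 2 := by
    rw [Finset.sum_comm]
    simp only [Finset.sum_ite_eq', Finset.mem_univ, if_true]
  have h3 : ∑ c, ∑ d, (if d = b then V a c ^ 2 else 0) = ∑ c, V a c ^ 2 := by
    simp only [Finset.sum_ite_eq', Finset.mem_univ, if_true]
  have h4 : ∑ c, ∑ d, (if c = a then (if d = b then V a c * V d b else 0) else 0) = 0 := by
    rw [Finset.sum_comm]
    simp only [Finset.sum_ite_eq', Finset.mem_univ, if_true]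
    rw [haa, zero_mul]
  rw [h2, h3, h4]
  ring

theorem WA_tr (V : Matrix (Fin k) (Fin k) ℝ) (hV : ∀ c d, V c d = - V d c) (a b : Fin k) :
    ∑ c, ∑ d, WA V a b c d * WA V a b d c =
      2 * V a b ^ 2 + (if a = b then 2 * ∑ d, V a d ^ 2 else 0) := by
  have h1 : ∀ c d, WA V a b c d * WA V a b d c =
      (if c = a then (if d = a then V d b * V c b else 0) else 0)
      - (if c = a then (if c = b then V d b * V a d else 0) else 0)
      - (if d = b then (if d = a then V a c * V c b else 0) else 0)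
      + (if d = b then (if c = b then V a c * V a d else 0) else 0) := by
    intro c d
    unfold WA
    rw [Matrix.of_apply, Matrix.of_apply]
    split_ifs <;> ring
  simp only [h1, Finset.sum_sub_distrib, Finset.sum_add_distrib]
  have h2 : ∑ c, ∑ d, (if c = a then (if d = a then V d b * V c b else 0) else 0) =
      V a b ^ 2 := by
    rw [Finset.sum_comm]
    simp only [Finset.sum_ite_eq', Finset.mem_univ, if_true]
    ring
  have h3 : ∑ c, ∑ d, (if c = a then (if c = b then V d b * V a d else 0) else 0) =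
      if a = b then -∑ d, V a d ^ 2 else 0 := by
    rw [Finset.sum_comm]
    simp only [Finset.sum_ite_eq', Finset.mem_univ, if_true]
    split_ifs with hab
    · subst hab
      rw [← Finset.sum_neg_distrib]
      refine Finset.sum_congr rfl fun d _ => ?_
      rw [hV d a]
      ring
    · simp
  have h4 : ∑ c, ∑ d, (if d = b then (if d = a then V a c * V c b else 0) else 0) =
      if a = b then -∑ d, V a d ^ 2 else 0 := by
    simp only [Finset.sum_ite_eq', Finset.mem_univ, if_true]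
    by_cases hab : a = b
    · subst hab
      simp only [if_true]
      rw [← Finset.sum_neg_distrib]
      refine Finset.sum_congr rfl fun d _ => ?_
      rw [hV d a]
      ring
    · rw [if_neg hab]
      simp only [if_neg (Ne.symm hab), Finset.sum_const_zero]
  have h5 : ∑ c, ∑ d, (if d = b then (if c = b then V a c * V a d else 0) else 0) =
      V a b ^ 2 := by
    simp only [Finset.sum_ite_eq', Finset.mem_univ, if_true]
    ring
  rw [h2, h3, h4, h5]
  split_ifs <;> ring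

theorem WA_total (V : Matrix (Fin k) (Fin k) ℝ) (hV : ∀ c d, V c d = - V d c) :
    ∑ a, ∑ b, (∑ c, ∑ d, WA V a b c d ^ 2 - ∑ c, ∑ d, WA V a b c d * WA V a b d c) =
      (2 * k - 4 : ℝ) * ∑ a, ∑ b, V a b ^ 2 := by
  simp only [WA_sq V hV, WA_tr V hV, Finset.sum_sub_distrib, Finset.sum_add_distrib,
    ← Finset.mul_sum, Finset.sum_ite_eq, Finset.mem_univ, if_true]
  have h1 : ∑ a : Fin k, ∑ b, ∑ d, V d b ^ 2 = k * ∑ a, ∑ b, V a b ^ 2 := by
    rw [Finset.sum_const, Finset.card_univ, Fintype.card_fin, nsmul_eq_mul, Finset.sum_comm]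
  have h2 : ∑ a : Fin k, ∑ _b : Fin k, ∑ c, V a c ^ 2 = k * ∑ a, ∑ b, V a b ^ 2 := by
    rw [Finset.sum_comm, Finset.sum_const, Finset.card_univ, Fintype.card_fin, nsmul_eq_mul]
  rw [h1, h2]
  ring

/-- the matrix with `⟨U, WB⟩ = ∑ c, X_c U_{cj}` -/
def WB (X : Fin k → ℝ) (j : Fin k) : Matrix (Fin k) (Fin k) ℝ :=
  of fun c d => if d = j then X c else 0

theorem WB_pair (U : Matrix (Fin k) (Fin k) ℝ) (X : Fin k → ℝ) (j : Fin k) :
    ∑ c, ∑ d, U c d * WB X j c d = ∑ c, X c * U c j := by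
  unfold WB
  simp only [Matrix.of_apply, mul_ite, mul_zero, Finset.sum_ite_eq', Finset.mem_univ, if_true]
  exact Finset.sum_congr rfl fun c _ => mul_comm _ _

theorem WB_total (X : Fin k → ℝ) :
    ∑ j, (∑ c, ∑ d, WB X j c d ^ 2 - ∑ c, ∑ d, WB X j c d * WB X j d c) =
      (k - 1 : ℝ) * ∑ c, X c ^ 2 := by
  have h1 : ∀ j, ∑ c, ∑ d, WB X j c d ^ 2 = ∑ c, X c ^ 2 := by
    intro j
    unfold WB
    simp only [Matrix.of_apply, ite_pow, ne_eq, OfNat.ofNat_ne_zero, not_false_eq_true,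
      zero_pow, Finset.sum_ite_eq', Finset.mem_univ, if_true]
  have h2 : ∀ j, ∑ c, ∑ d, WB X j c d * WB X j d c = X j ^ 2 := by
    intro j
    have h3 : ∀ c d, WB X j c d * WB X j d c =
        if d = j then (if c = j then X c * X d else 0) else 0 := by
      intro c d
      unfold WB
      rw [Matrix.of_apply, Matrix.of_apply]
      split_ifs <;> ring
    simp only [h3, Finset.sum_ite_eq', Finset.mem_univ, if_true]
    ring
  simp only [h1, h2, Finset.sum_sub_distrib, Finset.sum_const, Finset.card_univ,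
    Fintype.card_fin, nsmul_eq_mul]
  ring

theorem so_casimir_k (h3 : 3 ≤ n + k) {m : ℕ} {a : Fin m → so (Fin n ⊕ Fin k) ℝ}
    (ha : ∀ i, a i ∈ lower n k)
    (ho : ∀ i j, Qf _ (a i) (a j) = if i = j then 1 else 0) {x : so (Fin n ⊕ Fin k) ℝ}
    (hx : x ∈ lower n k) :
    ∑ i, Qf _ ⁅a i, x⁆ ⁅a i, x⁆ ≤ ((k - 2 : ℝ) / (n + k - 2)) * Qf _ x x := by
  have hM : (0 : ℝ) < n + k - 2 := by
    have : (3 : ℝ) ≤ n + k := by exact_mod_cast h3
    linarith
  set V : Matrix (Fin k) (Fin k) ℝ := of fun c d => x.1 (Sum.inr c) (Sum.inr d) with hV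
  have hVs : ∀ c d, V c d = - V d c := fun c d => so_skew x _ _
  have h1 : ∀ i, Qf _ ⁅a i, x⁆ ⁅a i, x⁆ = (n + k - 2 : ℝ) *
      ∑ p, ∑ q, (∑ c, ∑ d, (a i).1 (Sum.inr c) (Sum.inr d) * WA V p q c d) ^ 2 := by
    intro i
    rw [Qf_so, card_nk, sum4]
    congr 1
    have h2 : ∀ p q, (⁅a i, x⁆ : so (Fin n ⊕ Fin k) ℝ).1 (Sum.inr p) (Sum.inr q) =
        ∑ c, ∑ d, (a i).1 (Sum.inr c) (Sum.inr d) * WA V p q c d := by
      intro p q
      have h3 := WA_pair (of fun c d => (a i).1 (Sum.inr c) (Sum.inr d)) V p q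
      rw [so_lie, Matrix.sub_apply, Matrix.mul_apply, Matrix.mul_apply, Fintype.sum_sum_type,
        Fintype.sum_sum_type]
      simp only [lower_col hx, lower_row hx, lower_col (ha i), lower_row (ha i), mul_zero,
        Finset.sum_const_zero, zero_add]
      rw [Matrix.sub_apply, Matrix.mul_apply, Matrix.mul_apply] at h3
      exact h3.symm
    have h4 : ∀ p q, (⁅a i, x⁆ : so (Fin n ⊕ Fin k) ℝ).1 (Sum.inl p) q = 0 :=
      fun p q => lower_row ((lower n k).lie_mem (ha i) hx) p q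
    have h5 : ∀ p q, (⁅a i, x⁆ : so (Fin n ⊕ Fin k) ℝ).1 q (Sum.inl p) = 0 :=
      fun p q => lower_col ((lower n k).lie_mem (ha i) hx) p q
    simp only [h4, h5, mul_zero, Finset.sum_const_zero, zero_add, h2]
    refine Finset.sum_congr rfl fun p _ => Finset.sum_congr rfl fun q _ => ?_
    ring
  simp only [h1]
  rw [← Finset.mul_sum, Finset.sum_comm]
  have h6 : ∑ p, ∑ i, ∑ q, (∑ c, ∑ d, (a i).1 (Sum.inr c) (Sum.inr d) * WA V p q c d) ^ 2 ≤
      ∑ p, ∑ q, (∑ c, ∑ d, WA V p q c d ^ 2 - ∑ c, ∑ d, WA V p q c d * WA V p q d c) /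
        (2 * (n + k - 2)) := by
    refine Finset.sum_le_sum fun p _ => ?_
    rw [Finset.sum_comm]
    exact Finset.sum_le_sum fun q _ => so_bessel h3 ho (WA V p q)
  have h7 : Qf _ x x = (n + k - 2 : ℝ) * ∑ p, ∑ q, V p q ^ 2 := by
    rw [Qf_so, card_nk, sum4]
    congr 1
    simp only [lower_col hx, lower_row hx, mul_zero, Finset.sum_const_zero, zero_add]
    refine Finset.sum_congr rfl fun p _ => Finset.sum_congr rfl fun q _ => ?_
    rw [sq]
    rfl
  simp only [← Finset.sum_div] at h6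
  rw [WA_total V hVs] at h6
  calc (n + k - 2 : ℝ) * _ ≤ (n + k - 2 : ℝ) *
        ((2 * k - 4 : ℝ) * ∑ p, ∑ q, V p q ^ 2 / (2 * (n + k - 2))) := by
        refine mul_le_mul_of_nonneg_left ?_ hM.le
        simp only [← Finset.sum_div]
        rw [← mul_div_assoc]
        exact h6
    _ = _ := by
        rw [h7]
        simp only [← Finset.sum_div]
        field_simp
        ring

theorem so_casimir_p (h3 : 3 ≤ n + k) {m : ℕ} {a : Fin m → so (Fin n ⊕ Fin k) ℝ}
    (ha : ∀ i, a i ∈ lower n k)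
    (ho : ∀ i j, Qf _ (a i) (a j) = if i = j then 1 else 0) {x : so (Fin n ⊕ Fin k) ℝ}
    (hx : Orth (lower n k) (upper n k) x) :
    ∑ i, Qf _ ⁅a i, x⁆ ⁅a i, x⁆ ≤ ((k - 1 : ℝ) / (2 * (n + k - 2))) * Qf _ x x := by
  have hM : (0 : ℝ) < n + k - 2 := by
    have : (3 : ℝ) ≤ n + k := by exact_mod_cast h3
    linarith
  obtain ⟨hx1, hx2⟩ := off_diag hM hx
  set X : Fin n → Fin k → ℝ := fun r c => x.1 (Sum.inl r) (Sum.inr c) with hX
  have hflip : ∀ y : so (Fin n ⊕ Fin k) ℝ,
      ∑ j, ∑ r, y.1 (Sum.inr j) (Sum.inl r) * y.1 (Sum.inr j) (Sum.inl r) =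
      ∑ r, ∑ j, y.1 (Sum.inl r) (Sum.inr j) * y.1 (Sum.inl r) (Sum.inr j) := by
    intro y
    rw [Finset.sum_comm]
    refine Finset.sum_congr rfl fun r _ => Finset.sum_congr rfl fun j _ => ?_
    rw [so_skew y (Sum.inr j) (Sum.inl r)]
    ring
  have h1 : ∀ i, Qf _ ⁅a i, x⁆ ⁅a i, x⁆ = (2 * (n + k - 2) : ℝ) *
      ∑ r, ∑ j, (∑ c, ∑ d, (a i).1 (Sum.inr c) (Sum.inr d) * WB (X r) j c d) ^ 2 := by
    intro i
    rw [Qf_so, card_nk, sum4, hflip]
    have h2 : ∀ r j, (⁅a i, x⁆ : so (Fin n ⊕ Fin k) ℝ).1 (Sum.inl r) (Sum.inr j) =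
        -∑ c, ∑ d, (a i).1 (Sum.inr c) (Sum.inr d) * WB (X r) j c d := by
      intro r j
      have h3 := WB_pair (of fun c d => (a i).1 (Sum.inr c) (Sum.inr d)) (X r) j
      rw [so_lie, Matrix.sub_apply, Matrix.mul_apply, Matrix.mul_apply, Fintype.sum_sum_type,
        Fintype.sum_sum_type]
      simp only [lower_col (ha i), lower_row (ha i), hx2, mul_zero, zero_mul,
        Finset.sum_const_zero, zero_add, zero_sub]
      exact congrArg Neg.neg h3.symm
    have h4 : ∀ r s, (⁅a i, x⁆ : so (Fin n ⊕ Fin k) ℝ).1 (Sum.inl r) (Sum.inl s) = 0 := by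
      intro r s
      rw [so_lie, Matrix.sub_apply, Matrix.mul_apply, Matrix.mul_apply, Fintype.sum_sum_type,
        Fintype.sum_sum_type]
      simp only [lower_col (ha i), lower_row (ha i), hx2, mul_zero, zero_mul,
        Finset.sum_const_zero, zero_add, sub_zero]
    have h5 : ∀ p q, (⁅a i, x⁆ : so (Fin n ⊕ Fin k) ℝ).1 (Sum.inr p) (Sum.inr q) = 0 := by
      intro p q
      rw [so_lie, Matrix.sub_apply, Matrix.mul_apply, Matrix.mul_apply, Fintype.sum_sum_type,
        Fintype.sum_sum_type]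
      simp only [lower_col (ha i), lower_row (ha i), hx1, mul_zero, zero_mul,
        Finset.sum_const_zero, zero_add, sub_zero]
    simp only [h4, h5, mul_zero, Finset.sum_const_zero, zero_add, add_zero, h2, neg_mul_neg]
    have h6 : ∀ r j, (∑ c, ∑ d, (a i).1 (Sum.inr c) (Sum.inr d) * WB (X r) j c d) ^ 2 =
      (∑ c, ∑ d, (a i).1 (Sum.inr c) (Sum.inr d) * WB (X r) j c d) *
      (∑ c, ∑ d, (a i).1 (Sum.inr c) (Sum.inr d) * WB (X r) j c d) := fun r j => sq _
    simp only [h6]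
    ring
  simp only [h1]
  rw [← Finset.mul_sum, Finset.sum_comm]
  have h6 : ∑ r, ∑ i, ∑ j, (∑ c, ∑ d, (a i).1 (Sum.inr c) (Sum.inr d) *
      WB (X r) j c d) ^ 2 ≤
      ∑ r, ∑ j, (∑ c, ∑ d, WB (X r) j c d ^ 2 - ∑ c, ∑ d, WB (X r) j c d * WB (X r) j d c) /
        (2 * (n + k - 2)) := by
    refine Finset.sum_le_sum fun r _ => ?_
    rw [Finset.sum_comm]
    exact Finset.sum_le_sum fun j _ => so_bessel h3 ho (WB (X r) j)
  have h7 : Qf _ x x = (2 * (n + k - 2) : ℝ) * ∑ r, ∑ c, X r c ^ 2 := by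
    rw [Qf_so, card_nk, sum4, hflip]
    simp only [hx1, hx2, mul_zero, Finset.sum_const_zero, zero_add, add_zero]
    have h8 : ∀ r c, X r c ^ 2 = x.1 (Sum.inl r) (Sum.inr c) * x.1 (Sum.inl r) (Sum.inr c) :=
      fun r c => sq _
    simp only [h8]
    ring
  simp only [← Finset.sum_div] at h6
  simp only [WB_total, ← Finset.mul_sum] at h6
  calc (2 * (n + k - 2) : ℝ) * _ ≤ (2 * (n + k - 2) : ℝ) *
        ((k - 1 : ℝ) * (∑ r, ∑ c, X r c ^ 2) / (2 * (n + k - 2))) := by
        exact mul_le_mul_of_nonneg_left h6 (by linarith)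
    _ = _ := by
        rw [h7]
        field_simp

theorem so_casimir (hn : 19 * k ≤ n) (h3 : 3 ≤ n + k) :
    CasimirLE (lower n k) (upper n k) (1 / 20) (1 / 40) := by
  intro m a ha ho
  have hM : (0 : ℝ) < n + k - 2 := by
    have : (3 : ℝ) ≤ n + k := by exact_mod_cast h3
    linarith
  have hn' : (19 : ℝ) * k ≤ n := by exact_mod_cast hn
  have hg : CompactSemisimple (so (Fin n ⊕ Fin k) ℝ) := so_compact' (by
    rw [Fintype.card_sum, Fintype.card_fin, Fintype.card_fin]
    exact h3)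
  have ho' : ∀ i j, Qf _ (a i) (a j) = if i = j then 1 else 0 := by
    intro i j
    rw [Qf_apply, ho]
    split_ifs <;> norm_num
  refine ⟨fun x hx => ?_, fun x hx => ?_⟩
  · refine le_trans (so_casimir_k h3 ha ho' hx) ?_
    refine mul_le_mul_of_nonneg_right ?_ (Qf_nonneg hg x)
    rw [div_le_iff₀ hM]
    linarith
  · refine le_trans (so_casimir_p h3 ha ho' hx) ?_
    refine mul_le_mul_of_nonneg_right ?_ (Qf_nonneg hg x)
    rw [div_le_iff₀ (by linarith)]
    linarith

end Pool.Agent.EinS
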