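import Pool.Agent.EinS.Prod
import Pool.Agent.EinS.SoCas

/-!
# Einstein metrics on `G/(H × L)` for every closed subgroup `H` of `K`
-/

namespace Pool.Agent.EinS

open Pool.Agent.EStab LieAlgebra.Orthogonal

/-- For every subalgebra `h` of `k` (Lie algebra of the closed subgroup `H` of `K`), the homogeneous
space `G/(H × L)` has an invariant Einstein metric of positive scalar curvature, invariant also under
all automorphisms preserving `k`, `l` and `h`. -/
def AllQuotientsEinstein {g : Type*} [LieRing g] [LieAlgebra ℝ g] (k l : LieSubalgebra ℝ g) :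
    Prop :=
  ∀ h ≤ k, HasEinsteinMetric g (h.toSubmodule ⊔ l.toSubmodule) (pairAuts k l h)

/-- The subalgebra `so(k_1) × ... × so(k_r)` of the product of the `so(n_i + k_i)`. -/
def lowers {r : ℕ} (n k : Fin r → ℕ) : LieSubalgebra ℝ (∀ i, so (Fin (n i) ⊕ Fin (k i)) ℝ) :=
  piSub fun i => lower (n i) (k i)

/-- The subalgebra `so(n_1) × ... × so(n_r)` of the product of the `so(n_i + k_i)`. -/
def uppers {r : ℕ} (n k : Fin r → ℕ) : LieSubalgebra ℝ (∀ i, so (Fin (n i) ⊕ Fin (k i)) ℝ) :=
  piSub fun i => upper (n i) (k i)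

theorem einstein_all {g : Type*} [LieRing g] [LieAlgebra ℝ g] [Module.Finite ℝ g]
    {k l : LieSubalgebra ℝ g} (hg : CompactSemisimple g) (hs : SymPair k l)
    (hc : CasimirLE k l (1 / 20) (1 / 40)) : AllQuotientsEinstein k l :=
  fun _ hk => einstein_pair hg hs hc hk

theorem einstein_stiefel_prod {r : ℕ} {n k : Fin r → ℕ}
    (hn : ∀ i, 19 * k i ≤ n i ∧ 3 ≤ n i + k i) :
    AllQuotientsEinstein (lowers n k) (uppers n k) := by
  have hM : ∀ i, (0 : ℝ) < n i + k i - 2 := by
    intro i
    have : (3 : ℝ) ≤ n i + k i := by exact_mod_cast (hn i).2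
    linarith
  have hg : ∀ i, CompactSemisimple (so (Fin (n i) ⊕ Fin (k i)) ℝ) := fun i => so_compact' (by
    rw [Fintype.card_sum, Fintype.card_fin, Fintype.card_fin]
    exact (hn i).2)
  exact einstein_all (compact_pi hg) (SymPair.pi fun i => so_symPair (hM i))
    (CasimirLE.pi hg fun i => so_casimir (hn i).1 (hn i).2)

end Pool.Agent.EinS
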