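import Pool.Agent.EinS.ClAll2
import Pool.Agent.EinS.Final
import Pool.Agent.EinS.ClSt

/-!
# The three families of classical groups
-/

namespace Pool.Agent.EinS

open Matrix Pool.Agent.EStab Quaternion

attribute [local instance 100] LieRing.ofAssociativeRing

noncomputable instance Fld.coef : (F : Fld) → Coef F.T
  | .R => coefReal
  | .C => coefComplex
  | .H => coefQuat

section

variable {A : Type} [Ring A] [StarRing A] [Algebra ℝ A] [Cen A] [Coef A] {n k : ℕ}

theorem CN_pos_of (hn : 19 * (k + 1) ≤ n) : 0 < CN A n k := by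
  have hm1 : (1 : ℝ) ≤ Coef.m A := by exact_mod_cast Coef.m_pos (A := A)
  have hsg := Coef.sg_le (A := A)
  have hk0 : (0 : ℝ) ≤ k := Nat.cast_nonneg k
  have hn' : (19 : ℝ) * (k + 1) ≤ n := by exact_mod_cast hn
  unfold CN
  nlinarith

theorem casimir_cl (hn : 19 * (k + 1) ≤ n) :
    CasimirLE (lowA A n k) (uppA A n k) (1 / 20) (1 / 40) := by
  haveI : NeZero n := ⟨by omega⟩
  have hC := CN_pos_of (A := A) hn
  have hm1 : (1 : ℝ) ≤ Coef.m A := by exact_mod_cast Coef.m_pos (A := A)
  have hsg := Coef.sg_le (A := A)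
  have hsg' := Coef.sg_ge (A := A)
  have hep := Coef.ep_nonneg (A := A)
  have hep' := Coef.ep_le (A := A)
  have hk0 : (0 : ℝ) ≤ k := Nat.cast_nonneg k
  have hn' : (19 : ℝ) * (k + 1) ≤ n := by exact_mod_cast hn
  have hn1 : (19 : ℝ) ≤ n := by linarith
  have hE : 2 * Coef.ep A / n ≤ 2 / 19 := by
    rw [div_le_div_iff₀ (by linarith) (by norm_num)]
    nlinarith
  refine cl_casimirLE hC ?_ ?_
  · unfold kap
    rw [div_le_iff₀ (by linarith)]
    unfold CN
    have h1 : 19 * (k + 1 : ℝ) * Coef.m A ≤ n * Coef.m A :=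
      mul_le_mul_of_nonneg_right hn' (by linarith)
    nlinarith
  · unfold CN
    have h1 : 19 * (k + 1 : ℝ) * Coef.m A ≤ n * Coef.m A :=
      mul_le_mul_of_nonneg_right hn' (by linarith)
    nlinarith

end

/-- The quotients of products of real, complex and quaternionic Stiefel manifolds. -/
theorem einstein_stiefel_prodF {r : ℕ} {F : Fin r → Fld} {n k : Fin r → ℕ}
    (hn : ∀ i, 19 * (k i + 1) ≤ n i) :
    AllQuotientsEinstein (lowersF F n k) (uppersF F n k) := by
  have hz : ∀ i, NeZero (n i) := fun i => ⟨by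
    have := hn i
    omega⟩
  have hg : ∀ i, CompactSemisimple (Gr (F i).T (Fin (n i) ⊕ Fin (k i))) := fun i => by
    haveI := hz i
    exact CN_compact (A := (F i).T) (CN_pos_of (hn i))
  haveI : ∀ i, Module.Finite ℝ (Gr (F i).T (Fin (n i) ⊕ Fin (k i))) := fun i =>
    cl_finite (A := (F i).T) (ι := Fin (n i) ⊕ Fin (k i))
  have h1 : ∀ i, SymPair (lowG (F i).T (n i) (k i)) (uppG (F i).T (n i) (k i)) := fun i => by
    haveI := hz i
    exact symPairA (CN_pos_of (hn i))
  have h2 : ∀ i, CasimirLE (lowG (F i).T (n i) (k i)) (uppG (F i).T (n i) (k i)) (1 / 20)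
      (1 / 40) := fun i => casimir_cl (hn i)
  exact einstein_all (compact_pi hg) (SymPair.pi h1) (CasimirLE.pi hg h2)

theorem large_quotients (A : Type) [Ring A] [StarRing A] [Algebra ℝ A] [Cen A] [Coef A] :
    LargeQuotientsEinstein A := by
  intro k h
  obtain ⟨n0, hn0⟩ := cl_all (A := A) k h
  refine ⟨n0, fun n hn => ?_⟩
  have h1 := hn0 n hn
  have e : corner n h = (LieSubalgebra.map (lowHomA A n k)
      (h : LieSubalgebra ℝ (cl A (Fin k)))).toSubmodule := by
    ext x
    constructor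
    · rintro ⟨y, hy, hxy⟩
      exact ⟨y, hy, Subtype.ext hxy.symm⟩
    · rintro ⟨y, hy, hyx⟩
      exact ⟨y, hy, (congrArg Subtype.val hyx).symm⟩
  have e2 : adNorm (corner n h) = nrmAuts (LieSubalgebra.map (lowHomA A n k)
      (h : LieSubalgebra ℝ (cl A (Fin k)))) := by
    rw [e]
    rfl
  rw [e2, e]
  exact h1

end Pool.Agent.EinS
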