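import Pool.Agent.EinS.ClCas

/-!
# Invariant bilinear forms on the classical Lie algebras
-/

namespace Pool.Agent.EinS

open Matrix Pool.Agent.EStab

attribute [local instance 100] LieRing.ofAssociativeRing

variable {A : Type} [Ring A] [StarRing A] [Algebra ℝ A] [Cen A] [Coef A]
variable {n : ℕ}

/-- The elementary skew-Hermitian matrices. -/
noncomputable def Ez (i j : Fin n) (z : A) (h : i ≠ j) : cl A (Fin n) :=
  ⟨Matrix.single i j z - Matrix.single j i (star z), by
    refine ⟨?_, ?_⟩
    · rw [Matrix.conjTranspose_sub, Matrix.conjTranspose_single, Matrix.conjTranspose_single,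
        star_star, neg_sub]
    · rw [Matrix.trace_sub, Matrix.trace_single_eq_of_ne _ _ _ h,
        Matrix.trace_single_eq_of_ne _ _ _ h.symm, sub_zero, map_zero]⟩

theorem sms (i j r s : Fin n) (z w : A) :
    Matrix.single i j z * Matrix.single r s w =
      if j = r then Matrix.single i s (z * w) else 0 := by
  split_ifs with h
  · rw [h, Matrix.single_mul_single_same]
  · rw [Matrix.single_mul_single_of_ne _ _ _ _ h]

theorem Ez_swap {i j : Fin n} (z : A) (h : i ≠ j) :
    Ez i j z h = -Ez j i (star z) h.symm := by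
  apply Subtype.ext
  change Matrix.single i j z - Matrix.single j i (star z) =
    -(Matrix.single j i (star z) - Matrix.single i j (star (star z)))
  rw [star_star, neg_sub]

theorem Ez_lie {i j m : Fin n} (z w : A) (hij : i ≠ j) (hjm : j ≠ m) (him : i ≠ m) :
    ⁅Ez i j z hij, Ez j m w hjm⁆ = Ez i m (z * w) him := by
  apply Subtype.ext
  rw [cl_lie]
  change (Matrix.single i j z - Matrix.single j i (star z)) *
    (Matrix.single j m w - Matrix.single m j (star w)) -
    (Matrix.single j m w - Matrix.single m j (star w)) *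
    (Matrix.single i j z - Matrix.single j i (star z)) =
    Matrix.single i m (z * w) - Matrix.single m i (star (z * w))
  simp only [Matrix.sub_mul, Matrix.mul_sub, sms, if_true, hij, hjm, him, hij.symm, hjm.symm,
    him.symm, if_false, star_mul]
  abel

theorem Ez_lie_zero {i j r s : Fin n} (z w : A) (hij : i ≠ j) (hrs : r ≠ s) (hir : i ≠ r)
    (his : i ≠ s) (hjr : j ≠ r) (hjs : j ≠ s) :
    ⁅Ez i j z hij, Ez r s w hrs⁆ = 0 := by
  apply Subtype.ext
  rw [cl_lie]
  change (Matrix.single i j z - Matrix.single j i (star z)) *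
    (Matrix.single r s w - Matrix.single s r (star w)) -
    (Matrix.single r s w - Matrix.single s r (star w)) *
    (Matrix.single i j z - Matrix.single j i (star z)) = 0
  simp only [Matrix.sub_mul, Matrix.mul_sub, sms, hir, his, hjr, hjs, hir.symm, his.symm,
    hjr.symm, hjs.symm, if_false, sub_zero]

theorem Ez_lie_same {i j : Fin n} (z w : A) (h : i ≠ j) :
    (⁅Ez i j z h, Ez i j w h⁆ : cl A (Fin n)).1 =
      Matrix.single i i (w * star z - z * star w) +
        Matrix.single j j (star w * z - star z * w) := by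
  rw [cl_lie]
  change (Matrix.single i j z - Matrix.single j i (star z)) *
    (Matrix.single i j w - Matrix.single j i (star w)) -
    (Matrix.single i j w - Matrix.single j i (star w)) *
    (Matrix.single i j z - Matrix.single j i (star z)) = _
  simp only [Matrix.sub_mul, Matrix.mul_sub, sms, if_true, h, h.symm, if_false]
  have e1 : ∀ (a : Fin n) (x y : A), Matrix.single a a (x - y) =
      Matrix.single a a x - (Matrix.single a a y : Matrix (Fin n) (Fin n) A) := by
    intro a x y
    exact map_sub (Matrix.singleAddMonoidHom a a) x y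
  rw [e1, e1]
  abel

theorem Ez_add (i j : Fin n) (z w : A) (h : i ≠ j) : Ez i j (z + w) h = Ez i j z h + Ez i j w h := by
  apply Subtype.ext
  change Matrix.single i j (z + w) - Matrix.single j i (star (z + w)) =
    (Matrix.single i j z - Matrix.single j i (star z)) +
      (Matrix.single i j w - Matrix.single j i (star w))
  rw [star_add, Matrix.single_add, Matrix.single_add]
  abel

theorem Ez_smul (i j : Fin n) (c : ℝ) (z : A) (h : i ≠ j) :
    Ez i j (c • z) h = c • Ez i j z h := by
  apply Subtype.ext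
  change Matrix.single i j (c • z) - Matrix.single j i (star (c • z)) =
    c • (Matrix.single i j z - Matrix.single j i (star z))
  rw [Cen.star_smul', smul_sub, Matrix.smul_single, Matrix.smul_single]

/-! ### The algebra is generated by the elementary matrices -/

/-- The span of the brackets with the elementary matrices. -/
noncomputable def SE (A : Type) [Ring A] [StarRing A] [Algebra ℝ A] [Cen A] [Coef A] (n : ℕ) :
    Submodule ℝ (cl A (Fin n)) :=
  Submodule.span ℝ {x | ∃ (i j : Fin n) (z : A) (h : i ≠ j) (y : cl A (Fin n)),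
    x = ⁅Ez i j z h, y⁆}

/-- The same as matrices. -/
noncomputable def SM (A : Type) [Ring A] [StarRing A] [Algebra ℝ A] [Cen A] [Coef A] (n : ℕ) :
    Submodule ℝ (Matrix (Fin n) (Fin n) A) :=
  (SE A n).map (cl A (Fin n)).toSubmodule.subtype

theorem mem_SM {x : cl A (Fin n)} : x.1 ∈ SM A n ↔ x ∈ SE A n := by
  constructor
  · rintro ⟨y, hy, hyx⟩
    have h : y = x := Subtype.ext hyx
    rw [← h]
    exact hy
  · intro h
    exact ⟨x, h, rfl⟩

theorem single_mem_SM (hn : 3 ≤ n) {i j : Fin n} (h : i ≠ j) (z : A) :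
    Matrix.single i j z - Matrix.single j i (star z) ∈ SM A n := by
  obtain ⟨m, hm⟩ : ∃ m : Fin n, m ≠ i ∧ m ≠ j := by
    have h : ({i, j} : Finset (Fin n)).card < Fintype.card (Fin n) := by
      have := Finset.card_le_two (a := i) (b := j)
      rw [Fintype.card_fin]
      omega
    obtain ⟨m, hm⟩ := Finset.exists_mem_notMem_of_card_lt_card
      (s := {i, j}) (t := Finset.univ) (by rw [Finset.card_univ]; exact h)
    have h2 := hm.2
    simp only [Finset.mem_insert, Finset.mem_singleton, not_or] at h2
    exact ⟨m, h2.1, h2.2⟩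
  have h1 : Ez i j z h ∈ SE A n := by
    have h2 := Ez_lie z 1 hm.1.symm hm.2 h
    rw [mul_one] at h2
    rw [← h2]
    exact Submodule.subset_span ⟨_, _, _, _, _, rfl⟩
  exact mem_SM.2 h1

theorem diag_mem_SM {i j : Fin n} (h : i ≠ j) {q : A} (hq : star q = -q) :
    (Matrix.single i i q - Matrix.single j j q : Matrix (Fin n) (Fin n) A) ∈ SM A n := by
  have h1 : ⁅Ez i j (-((1 / 2 : ℝ) • q)) h, Ez i j (1 : A) h⁆ ∈ SE A n :=
    Submodule.subset_span ⟨_, _, _, _, _, rfl⟩
  have h2 := mem_SM.2 h1
  rw [Ez_lie_same] at h2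
  have e1 : (1 : A) * star (-((1 / 2 : ℝ) • q)) - -((1 / 2 : ℝ) • q) * star 1 = q := by
    rw [star_one, one_mul, mul_one, star_neg, Cen.star_smul', hq, smul_neg, neg_neg,
      sub_neg_eq_add, ← add_smul]
    norm_num
  have e2 : star (1 : A) * -((1 / 2 : ℝ) • q) - star (-((1 / 2 : ℝ) • q)) * 1 = -q := by
    rw [star_one, one_mul, mul_one, star_neg, Cen.star_smul', hq, smul_neg, neg_neg,
      ← neg_add', ← add_smul]
    norm_num
  rw [e1, e2] at h2
  have e3 : Matrix.single j j (-q) = -(Matrix.single j j q : Matrix (Fin n) (Fin n) A) :=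
    map_neg (Matrix.singleAddMonoidHom j j) q
  rw [e3, ← sub_eq_add_neg] at h2
  exact h2

theorem corner_mem_SM {i j : Fin n} (h : i ≠ j) {q : A} (hq : star q = -q)
    (hc : Cen.cen q = 0) : (Matrix.single i i q : Matrix (Fin n) (Fin n) A) ∈ SM A n := by
  refine Submodule.span_induction
    (p := fun q _ => (Matrix.single i i q : Matrix (Fin n) (Fin n) A) ∈ SM A n) ?_ ?_ ?_ ?_
    (Coef.skew_span q hq hc)
  · rintro x ⟨z, w, hz, hw, rfl⟩
    have h1 : ⁅Ez i j z h, Ez i j w h⁆ ∈ SE A n :=
      Submodule.subset_span ⟨_, _, _, _, _, rfl⟩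
    have h2 := mem_SM.2 h1
    rw [Ez_lie_same, hz, hw] at h2
    have e1 : w * -z - z * -w = z * w - w * z := by noncomm_ring
    have e2 : -w * z - -z * w = z * w - w * z := by noncomm_ring
    rw [e1, e2] at h2
    have hs : star (z * w - w * z) = -(z * w - w * z) := by
      rw [star_sub, star_mul, star_mul, hz, hw]
      noncomm_ring
    have h3 := diag_mem_SM h hs
    have h4 := Submodule.smul_mem _ (1 / 2 : ℝ) (Submodule.add_mem _ h2 h3)
    have e3 : (1 / 2 : ℝ) • ((Matrix.single i i (z * w - w * z) +
        Matrix.single j j (z * w - w * z)) + (Matrix.single i i (z * w - w * z) -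
        Matrix.single j j (z * w - w * z))) =
        (Matrix.single i i (z * w - w * z) : Matrix (Fin n) (Fin n) A) := by
      module
    rw [e3] at h4
    exact h4
  · rw [Matrix.single_zero]
    exact Submodule.zero_mem _
  · intro x y _ _ hx hy
    rw [Matrix.single_add]
    exact Submodule.add_mem _ hx hy
  · intro c x _ hx
    rw [← Matrix.smul_single]
    exact Submodule.smul_mem _ _ hx

theorem off_sum (x : cl A (Fin n)) :
    ∑ i : Fin n, ∑ j : Fin n, (if i = j then (0 : Matrix (Fin n) (Fin n) A) else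
      (1 / 2 : ℝ) • (Matrix.single i j (x.1 i j) - Matrix.single j i (star (x.1 i j)))) =
      x.1 - ∑ i : Fin n, Matrix.single i i (x.1 i i) := by
  have e2 : ∀ i : Fin n, ∑ j : Fin n, (if i = j then (0 : Matrix (Fin n) (Fin n) A) else
      (1 / 2 : ℝ) • (Matrix.single i j (x.1 i j) - Matrix.single j i (star (x.1 i j)))) =
      ∑ j : Fin n, ((1 / 2 : ℝ) • (Matrix.single i j (x.1 i j) +
        Matrix.single j i (x.1 j i)) -
        (if i = j then (Matrix.single i j (x.1 i j) : Matrix (Fin n) (Fin n) A) else 0)) := by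
    intro i
    refine Finset.sum_congr rfl fun j _ => ?_
    by_cases h : i = j
    · subst h
      rw [if_pos rfl, if_pos rfl, ← two_smul ℝ (Matrix.single i i (x.1 i i)), smul_smul]
      norm_num
    · rw [if_neg h, if_neg h, sub_zero, cl_skew' x i j]
      have : Matrix.single j i (-star (x.1 i j)) =
          -(Matrix.single j i (star (x.1 i j)) : Matrix (Fin n) (Fin n) A) :=
        map_neg (Matrix.singleAddMonoidHom j i) _
      rw [this, ← sub_eq_add_neg]
  simp only [e2, Finset.sum_sub_distrib, Finset.sum_ite_eq, Finset.mem_univ, if_true,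
    ← Finset.smul_sum, Finset.sum_add_distrib]
  have e3 : ∑ i : Fin n, ∑ j : Fin n, (Matrix.single i j (x.1 i j) :
      Matrix (Fin n) (Fin n) A) = x.1 := (Matrix.matrix_eq_sum_single x.1).symm
  have e4 : ∑ i : Fin n, ∑ j : Fin n, (Matrix.single j i (x.1 j i) :
      Matrix (Fin n) (Fin n) A) = x.1 := by
    rw [Finset.sum_comm]
    exact e3
  rw [e3, e4]
  module

theorem single_diag (i j : Fin n) (z : A) (v : Fin n → A) :
    Matrix.single i j z * Matrix.diagonal v = Matrix.single i j (z * v j) := by
  ext p q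
  rw [Matrix.mul_diagonal, Matrix.single_apply, Matrix.single_apply]
  split_ifs with h
  · rw [h.2]
  · rw [zero_mul]

theorem diag_single (i j : Fin n) (z : A) (v : Fin n → A) :
    Matrix.diagonal v * Matrix.single i j z = Matrix.single i j (v i * z) := by
  ext p q
  rw [Matrix.diagonal_mul, Matrix.single_apply, Matrix.single_apply]
  split_ifs with h
  · rw [h.1]
  · rw [mul_zero]

theorem SE_top (hn : 3 ≤ n) (x : cl A (Fin n)) : x ∈ SE A n := by
  rw [← mem_SM]
  let i0 : Fin n := ⟨0, by omega⟩
  let i1 : Fin n := ⟨1, by omega⟩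
  have h01 : i0 ≠ i1 := by
    intro h
    have := congrArg Fin.val h
    simp [i0, i1] at this
  have hself : ∀ i, star (x.1 i i) = -x.1 i i := fun i => cl_skew x i i
  -- the decomposition
  have e : x.1 = ∑ i : Fin n, ((∑ j : Fin n, if i = j then (0 : Matrix (Fin n) (Fin n) A) else
      (1 / 2 : ℝ) • (Matrix.single i j (x.1 i j) - Matrix.single j i (star (x.1 i j)))) +
      (Matrix.single i i (x.1 i i) - Matrix.single i0 i0 (x.1 i i))) +
      Matrix.single i0 i0 (trace x.1) := by
    have e1 : ∑ i : Fin n, (Matrix.single i0 i0 (x.1 i i) : Matrix (Fin n) (Fin n) A) =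
        Matrix.single i0 i0 (trace x.1) := by
      unfold trace
      exact (map_sum (Matrix.singleAddMonoidHom i0 i0) (fun i => x.1 i i) Finset.univ).symm
    rw [Finset.sum_add_distrib, Finset.sum_sub_distrib, e1, off_sum]
    abel
  rw [e]
  refine Submodule.add_mem _ (Submodule.sum_mem _ fun i _ => Submodule.add_mem _
    (Submodule.sum_mem _ fun j _ => ?_) ?_) ?_
  · by_cases h : i = j
    · rw [if_pos h]
      exact Submodule.zero_mem _
    · rw [if_neg h]
      exact Submodule.smul_mem _ _ (single_mem_SM hn h _)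
  · by_cases h : i = i0
    · rw [h, sub_self]
      exact Submodule.zero_mem _
    · exact diag_mem_SM h (hself i)
  · refine corner_mem_SM h01 ?_ x.2.2
    rw [← trace_conjT, x.2.1, Matrix.trace_neg]

/-! ### Invariant forms -/

section forms

variable {F : LinearMap.BilinForm ℝ (cl A (Fin n))}

theorem form_zero1 (hn : 5 ≤ n) (hi : ∀ x y z, F ⁅x, y⁆ z = F x ⁅y, z⁆) {i j s t : Fin n}
    (z w : A) (hij : i ≠ j) (hst : s ≠ t) (hjs : j ≠ s) (hjt : j ≠ t) :
    F (Ez i j z hij) (Ez s t w hst) = 0 := by
  obtain ⟨r, r1, r2, r3, r4⟩ : ∃ m : Fin n, m ≠ i ∧ m ≠ j ∧ m ≠ s ∧ m ≠ t := by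
    have h : ({i, j, s, t} : Finset (Fin n)).card < Fintype.card (Fin n) := by
      have := Finset.card_le_four (a := i) (b := j) (c := s) (d := t)
      rw [Fintype.card_fin]
      omega
    obtain ⟨m, hm⟩ := Finset.exists_mem_notMem_of_card_lt_card
      (s := {i, j, s, t}) (t := Finset.univ) (by rw [Finset.card_univ]; exact h)
    have h2 := hm.2
    simp only [Finset.mem_insert, Finset.mem_singleton, not_or] at h2
    exact ⟨m, h2.1, h2.2.1, h2.2.2.1, h2.2.2.2⟩
  have h2 := Ez_lie z 1 r1.symm r2 hij
  rw [mul_one] at h2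
  rw [← h2, hi, Ez_lie_zero _ _ _ _ r3 r4 hjs hjt, map_zero]

theorem form_zero2 (hn : 5 ≤ n) (hi : ∀ x y z, F ⁅x, y⁆ z = F x ⁅y, z⁆) {i j s t : Fin n}
    (z w : A) (hij : i ≠ j) (hst : s ≠ t) (his : i ≠ s) (hit : i ≠ t) :
    F (Ez i j z hij) (Ez s t w hst) = 0 := by
  rw [Ez_swap z hij, map_neg, LinearMap.neg_apply, form_zero1 hn hi _ _ _ _ his hit, neg_zero]

theorem form_move (hi : ∀ x y z, F ⁅x, y⁆ z = F x ⁅y, z⁆) {i j m : Fin n} (z u w : A)
    (hij : i ≠ j) (him : i ≠ m) (hmj : m ≠ j) :
    F (Ez i j (z * u) hij) (Ez i j w hij) = F (Ez i m z him) (Ez i m (w * star u) him) := by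
  rw [← Ez_lie z u him hmj hij, hi]
  congr 1
  rw [Ez_swap w hij, lie_neg, Ez_lie u (star w) hmj hij.symm him.symm, Ez_swap _ him.symm,
    neg_neg, star_mul, star_star]

theorem forms_vanish (hn : 5 ≤ n) (hs : ∀ x y, F x y = F y x)
    (hi : ∀ x y z, F ⁅x, y⁆ z = F x ⁅y, z⁆) {i0 i1 : Fin n} (h01 : i0 ≠ i1)
    (h0 : F (Ez i0 i1 1 h01) (Ez i0 i1 1 h01) = 0) (x y : cl A (Fin n)) : F x y = 0 := by
  -- `F (E_ij z) (E_ij w)` does not depend on `j`
  have e1 : ∀ (i j m : Fin n) (z w : A) (hij : i ≠ j) (him : i ≠ m),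
      F (Ez i j z hij) (Ez i j w hij) = F (Ez i m z him) (Ez i m w him) := by
    intro i j m z w hij him
    by_cases hmj : m = j
    · subst hmj
      rfl
    · have h := form_move hi z 1 w hij him hmj
      rw [mul_one, star_one, mul_one] at h
      exact h
  -- moving a factor
  have e2 : ∀ (i j : Fin n) (z u w : A) (hij : i ≠ j),
      F (Ez i j (z * u) hij) (Ez i j w hij) = F (Ez i j z hij) (Ez i j (w * star u) hij) := by
    intro i j z u w hij
    obtain ⟨m, hm1, hm2⟩ : ∃ m : Fin n, m ≠ i ∧ m ≠ j := by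
      have h : ({i, j} : Finset (Fin n)).card < Fintype.card (Fin n) := by
        have := Finset.card_le_two (a := i) (b := j)
        rw [Fintype.card_fin]
        omega
      obtain ⟨m, hm⟩ := Finset.exists_mem_notMem_of_card_lt_card
        (s := {i, j}) (t := Finset.univ) (by rw [Finset.card_univ]; exact h)
      have h2 := hm.2
      simp only [Finset.mem_insert, Finset.mem_singleton, not_or] at h2
      exact ⟨m, h2.1, h2.2⟩
    rw [form_move hi z u w hij hm1.symm hm2, e1 i m j _ _ hm1.symm hij]
  -- the reduction to one variable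
  have e3 : ∀ (i j : Fin n) (z w : A) (hij : i ≠ j),
      F (Ez i j z hij) (Ez i j w hij) = F (Ez i j 1 hij) (Ez i j (w * star z) hij) := by
    intro i j z w hij
    have h := e2 i j 1 z w hij
    rwa [one_mul] at h
  have e4 : ∀ (i j : Fin n) (x : A) (hij : i ≠ j),
      F (Ez i j 1 hij) (Ez i j (star x) hij) = F (Ez i j 1 hij) (Ez i j x hij) := by
    intro i j x hij
    have h := e3 i j x 1 hij
    rw [one_mul] at h
    rw [← h, hs]
  have e5 : ∀ (i j : Fin n) (x : A) (hij : i ≠ j),
      F (Ez i j 1 hij) (Ez i j x hij) = rl x * F (Ez i j 1 hij) (Ez i j 1 hij) := by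
    intro i j x hij
    have h1 : Ez i j (x + star x) hij = (2 * rl x) • Ez i j 1 hij := by
      rw [Coef.add_star, Ez_smul]
    rw [Ez_add] at h1
    have h2 := congrArg (F (Ez i j 1 hij)) h1
    rw [map_add, map_smul, e4, smul_eq_mul] at h2
    linarith
  -- all values at one vanish
  have e6 : ∀ (i j : Fin n) (hij : i ≠ j), F (Ez i j 1 hij) (Ez i j 1 hij) =
      F (Ez j i 1 hij.symm) (Ez j i 1 hij.symm) := by
    intro i j hij
    rw [Ez_swap 1 hij, map_neg, map_neg, LinearMap.neg_apply, neg_neg, star_one]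
  have e7 : ∀ (i j : Fin n) (hij : i ≠ j), F (Ez i j 1 hij) (Ez i j 1 hij) = 0 := by
    intro i j hij
    by_cases h : i = i0
    · subst h
      rw [e1 i j i1 1 1 hij h01, h0]
    · by_cases h' : j = i0
      · subst h'
        rw [e6, e1 j i i1 1 1 hij.symm h01, h0]
      · rw [e1 i j i0 1 1 hij h, e6, e1 i0 i i1 1 1 (Ne.symm h) h01, h0]
  have e8 : ∀ (i j : Fin n) (z w : A) (hij : i ≠ j),
      F (Ez i j z hij) (Ez i j w hij) = 0 := by
    intro i j z w hij
    rw [e3, e5, e7, mul_zero]
  -- vanishing on pairs of elementary matrices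
  have e9 : ∀ (i j s t : Fin n) (z w : A) (hij : i ≠ j) (hst : s ≠ t),
      F (Ez i j z hij) (Ez s t w hst) = 0 := by
    intro i j s t z w hij hst
    by_cases hjs : j = s
    · subst hjs
      by_cases hit : i = t
      · subst hit
        rw [Ez_swap w hst, map_neg, e8, neg_zero]
      · exact form_zero2 hn hi z w hij hst hij hit
    · by_cases hjt : j = t
      · subst hjt
        by_cases his : i = s
        · subst his
          exact e8 i j z w hij
        · exact form_zero2 hn hi z w hij hst his hij
      · exact form_zero1 hn hi z w hij hst hjs hjt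
  -- diagonal matrices
  have e10 : ∀ (i j : Fin n) (z : A) (hij : i ≠ j) (d : cl A (Fin n)),
      (∀ p q, p ≠ q → d.1 p q = 0) → F (Ez i j z hij) d = 0 := by
    intro i j z hij d hd
    obtain ⟨m, hm1, hm2⟩ : ∃ m : Fin n, m ≠ i ∧ m ≠ j := by
      have h : ({i, j} : Finset (Fin n)).card < Fintype.card (Fin n) := by
        have := Finset.card_le_two (a := i) (b := j)
        rw [Fintype.card_fin]
        omega
      obtain ⟨m, hm⟩ := Finset.exists_mem_notMem_of_card_lt_card
        (s := {i, j}) (t := Finset.univ) (by rw [Finset.card_univ]; exact h)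
      have h2 := hm.2
      simp only [Finset.mem_insert, Finset.mem_singleton, not_or] at h2
      exact ⟨m, h2.1, h2.2⟩
    have h2 := Ez_lie z 1 hm1.symm hm2 hij
    rw [mul_one] at h2
    have hdd : d.1 = Matrix.diagonal (fun p => d.1 p p) := by
      ext p q
      rw [Matrix.diagonal_apply]
      split_ifs with h
      · rw [h]
      · exact hd p q h
    have h3 : ⁅Ez m j (1 : A) hm2, d⁆ = Ez m j (d.1 j j - d.1 m m) hm2 := by
      apply Subtype.ext
      rw [cl_lie, hdd]
      change (Matrix.single m j (1 : A) - Matrix.single j m (star 1)) * _ -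
        _ * (Matrix.single m j (1 : A) - Matrix.single j m (star 1)) =
        Matrix.single m j ((Matrix.diagonal fun p => d.1 p p) j j -
          (Matrix.diagonal fun p => d.1 p p) m m) -
        Matrix.single j m (star ((Matrix.diagonal fun p => d.1 p p) j j -
          (Matrix.diagonal fun p => d.1 p p) m m))
      rw [Matrix.diagonal_apply_eq, Matrix.diagonal_apply_eq, star_one, star_sub, cl_skew d j j,
        cl_skew d m m]
      have es : ∀ (a b : Fin n) (u v : A), Matrix.single a b (u - v) =
          Matrix.single a b u - (Matrix.single a b v : Matrix (Fin n) (Fin n) A) :=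
        fun a b u v => map_sub (Matrix.singleAddMonoidHom a b) u v
      have en : ∀ (a b : Fin n) (u : A), Matrix.single a b (-u) =
          -(Matrix.single a b u : Matrix (Fin n) (Fin n) A) :=
        fun a b u => map_neg (Matrix.singleAddMonoidHom a b) u
      rw [Matrix.sub_mul, Matrix.mul_sub, single_diag, single_diag, diag_single, diag_single,
        one_mul, one_mul, mul_one, mul_one, es, es, en, en]
      abel
    rw [← h2, hi, h3, e9]
  -- all elements
  have e11 : ∀ (i j : Fin n) (z : A) (hij : i ≠ j) (x : cl A (Fin n)),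
      F (Ez i j z hij) x = 0 := by
    intro i j z hij x
    set y : cl A (Fin n) := ∑ p : Fin n, ∑ q : Fin n,
      (if h : p = q then 0 else (1 / 2 : ℝ) • Ez p q (x.1 p q) h) with hy
    have hFy : F (Ez i j z hij) y = 0 := by
      rw [hy, map_sum]
      refine Finset.sum_eq_zero fun p _ => ?_
      rw [map_sum]
      refine Finset.sum_eq_zero fun q _ => ?_
      split_ifs with h
      · rw [map_zero]
      · rw [map_smul, e9, smul_zero]
    have hy1 : y.1 = x.1 - ∑ i : Fin n, Matrix.single i i (x.1 i i) := by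
      rw [← off_sum, hy]
      have e1 := map_sum (cl A (Fin n)).toSubmodule.subtype (fun p => ∑ q : Fin n,
        (if h : p = q then 0 else (1 / 2 : ℝ) • Ez p q (x.1 p q) h)) Finset.univ
      refine e1.trans ?_
      refine Finset.sum_congr rfl fun p _ => ?_
      rw [map_sum]
      refine Finset.sum_congr rfl fun q _ => ?_
      split_ifs with h
      · rfl
      · rfl
    have hxy : ∀ p q, p ≠ q → (x - y).1 p q = 0 := by
      intro a b hab
      have e1 : (x - y).1 = ∑ i : Fin n, Matrix.single i i (x.1 i i) := by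
        change x.1 - y.1 = _
        rw [hy1]
        abel
      rw [e1, Matrix.sum_apply]
      refine Finset.sum_eq_zero fun i _ => ?_
      rw [Matrix.single_apply, if_neg]
      rintro ⟨h1, h2⟩
      exact hab (h1.symm.trans h2)
    have h3 : x = y + (x - y) := by abel
    rw [h3, map_add, hFy, e10 i j z hij _ hxy, add_zero]
  -- conclusion
  have hx := SE_top (by omega) x
  refine Submodule.span_induction (p := fun x _ => F x y = 0) ?_ ?_ ?_ ?_ hx
  · rintro x ⟨i, j, z, h, w, rfl⟩
    rw [hi, e11]
  · rw [map_zero, LinearMap.zero_apply]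
  · intro x x' _ _ hx hx'
    rw [map_add, LinearMap.add_apply, hx, hx', add_zero]
  · intro c x _ hx
    rw [map_smul, LinearMap.smul_apply, hx, smul_zero]

end forms

end Pool.Agent.EinS
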