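import Pool.Agent.EinS.Cen

/-!
# The real, complex and quaternionic numbers as coefficients
-/

namespace Pool.Agent.EinS

open Quaternion

/-- The properties of `ℝ`, `ℂ` and `ℍ` which are used. -/
class Coef (A : Type) [Ring A] [StarRing A] [Algebra ℝ A] [Cen A] where
  /-- the real part -/
  re : A →ₗ[ℝ] ℝ
  /-- the dimension -/
  m : ℕ
  /-- an orthonormal basis -/
  b : Fin m → A
  /-- the sum of the squares of the basis -/
  sg : ℝ
  /-- the dimension of the imaginary part of the centre -/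
  ep : ℝ
  re_one : re 1 = 1
  re_comm : ∀ x y, re (x * y) = re (y * x)
  re_star : ∀ x, re (star x) = re x
  add_star : ∀ x, x + star x = (2 * re x) • (1 : A)
  pos : ∀ x, x ≠ 0 → 0 < re (x * star x)
  orth : ∀ i j, re (b i * star (b j)) = if i = j then 1 else 0
  exp : ∀ x, x = ∑ i, re (x * star (b i)) • b i
  sum1 : ∀ x, ∑ i, b i * x * star (b i) = (m : ℝ) • Cen.cen x
  sum2 : ∀ x, ∑ i, star (b i) * x * star (b i) = sg • star x
  cen_star : ∀ x : A, Cen.cen (star x) = star (Cen.cen x)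
  cen_cen : ∀ x : A, Cen.cen (Cen.cen x) = (Cen.cen x : A)
  re_cen : ∀ x y, re (Cen.cen x * y) = re (Cen.cen x * Cen.cen y)
  sum3 : ∀ y, ∑ i, re (Cen.cen (b i * star y - y * star (b i)) * (y * star (b i))) =
    2 * ep * re (y * star y)
  skew_span : ∀ q : A, star q = -q → Cen.cen q = 0 → q ∈ Submodule.span ℝ
    {x : A | ∃ z w : A, star z = -z ∧ star w = -w ∧ x = z * w - w * z}
  m_pos : 1 ≤ m
  sg_ge : -(2 * sg) ≤ m
  sg_le : sg ≤ 1
  ep_nonneg : 0 ≤ ep
  ep_le : ep ≤ 1
  alt : 2 * sg ≤ m ∨ ∀ x : A, star x = x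

theorem cen_real (x : ℝ) : Cen.cen x = x := rfl

theorem cen_complex (x : ℂ) : Cen.cen x = x := rfl

theorem cen_quat (x : ℍ[ℝ]) : Cen.cen x = (⟨x.re, 0, 0, 0⟩ : ℍ[ℝ]) := rfl

noncomputable instance coefReal : Coef ℝ where
  re := LinearMap.id
  m := 1
  b := fun _ => 1
  sg := 1
  ep := 0
  re_one := rfl
  re_comm x y := mul_comm x y
  re_star x := by simp
  add_star x := by simp; ring
  pos x hx := by
    simp only [star_trivial, LinearMap.id_coe, id_eq]
    exact mul_self_pos.2 hx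
  orth i j := by
    rw [Subsingleton.elim i j]
    simp
  exp x := by simp
  sum1 x := by simp [cen_real]
  sum2 x := by simp
  cen_star x := rfl
  cen_cen x := rfl
  re_cen x y := rfl
  sum3 y := by simp
  skew_span q hq _ := by
    have h0 : q = 0 := by
      have h1 : q = -q := hq
      linarith
    rw [h0]
    exact Submodule.zero_mem _
  m_pos := le_rfl
  sg_ge := by norm_num
  sg_le := le_rfl
  ep_nonneg := le_rfl
  ep_le := by norm_num
  alt := Or.inr fun x => by simp

noncomputable instance coefComplex : Coef ℂ where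
  re := Complex.reLm
  m := 2
  b := ![1, Complex.I]
  sg := 0
  ep := 1
  re_one := by simp
  re_comm x y := by rw [mul_comm]
  re_star x := by simp
  add_star x := by
    apply Complex.ext <;> simp
    ring
  pos x hx := by
    have h : (x * star x).re = Complex.normSq x := by
      rw [Complex.normSq_apply]
      simp
    change 0 < (x * star x).re
    rw [h]
    exact Complex.normSq_pos.2 hx
  orth i j := by
    fin_cases i <;> fin_cases j <;> simp
  exp x := by
    apply Complex.ext <;> simp [Fin.sum_univ_two]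
  sum1 x := by
    rw [cen_complex]
    apply Complex.ext <;> simp [Fin.sum_univ_two] <;> ring
  sum2 x := by
    apply Complex.ext <;> simp [Fin.sum_univ_two]
  cen_star x := rfl
  cen_cen x := rfl
  re_cen x y := rfl
  sum3 y := by
    simp only [cen_complex]
    simp [Fin.sum_univ_two]
    ring
  skew_span q _ hq := by
    have h0 : q = 0 := hq
    rw [h0]
    exact Submodule.zero_mem _
  m_pos := by norm_num
  sg_ge := by norm_num
  sg_le := by norm_num
  ep_nonneg := by norm_num
  ep_le := le_rfl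
  alt := Or.inl (by norm_num)

/-- The real part of a quaternion. -/
def quRe : ℍ[ℝ] →ₗ[ℝ] ℝ where
  toFun x := x.re
  map_add' _ _ := rfl
  map_smul' _ _ := rfl

noncomputable instance coefQuat : Coef ℍ[ℝ] where
  re := quRe
  m := 4
  b := ![⟨1, 0, 0, 0⟩, ⟨0, 1, 0, 0⟩, ⟨0, 0, 1, 0⟩, ⟨0, 0, 0, 1⟩]
  sg := -2
  ep := 0
  re_one := rfl
  re_comm x y := by
    change (x * y).re = (y * x).re
    simp
    ring
  re_star x := by
    change (star x).re = x.re
    simp
  add_star x := by
    apply Quaternion.ext <;> simp [quRe]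
    ring
  pos x hx := by
    change 0 < (x * star x).re
    rw [← Quaternion.normSq_def]
    exact lt_of_le_of_ne Quaternion.normSq_nonneg (Ne.symm (Quaternion.normSq_ne_zero.2 hx))
  orth i j := by
    fin_cases i <;> fin_cases j <;> simp [quRe]
  exp x := by
    apply Quaternion.ext <;> simp [Fin.sum_univ_four, quRe]
  sum1 x := by
    rw [cen_quat]
    apply Quaternion.ext <;> simp [Fin.sum_univ_four] <;> ring
  sum2 x := by
    apply Quaternion.ext <;> simp [Fin.sum_univ_four] <;> ring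
  cen_star x := by
    rw [cen_quat, cen_quat]
    apply Quaternion.ext <;> simp
  cen_cen x := by
    rw [cen_quat, cen_quat]
  re_cen x y := by
    rw [cen_quat, cen_quat]
    simp [quRe]
  sum3 y := by
    simp only [cen_quat]
    simp [Fin.sum_univ_four, quRe]
  skew_span q hq _ := by
    have hre : q.re = 0 := by
      have h1 := congrArg (fun x : ℍ[ℝ] => x.re) hq
      simp at h1
      linarith
    have e : q = (q.imI / 2) • ((⟨0, 0, 1, 0⟩ : ℍ[ℝ]) * (⟨0, 0, 0, 1⟩ : ℍ[ℝ]) -
          (⟨0, 0, 0, 1⟩ : ℍ[ℝ]) * (⟨0, 0, 1, 0⟩ : ℍ[ℝ])) +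
        (q.imJ / 2) • ((⟨0, 0, 0, 1⟩ : ℍ[ℝ]) * (⟨0, 1, 0, 0⟩ : ℍ[ℝ]) -
          (⟨0, 1, 0, 0⟩ : ℍ[ℝ]) * (⟨0, 0, 0, 1⟩ : ℍ[ℝ])) +
        (q.imK / 2) • ((⟨0, 1, 0, 0⟩ : ℍ[ℝ]) * (⟨0, 0, 1, 0⟩ : ℍ[ℝ]) -
          (⟨0, 0, 1, 0⟩ : ℍ[ℝ]) * (⟨0, 1, 0, 0⟩ : ℍ[ℝ])) := by
      apply Quaternion.ext <;> simp [hre]
      all_goals ring
    rw [e]
    refine Submodule.add_mem _ (Submodule.add_mem _ ?_ ?_) ?_
    all_goals
      refine Submodule.smul_mem _ _ (Submodule.subset_span ⟨_, _, ?_, ?_, rfl⟩)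
      all_goals apply Quaternion.ext <;> simp
  m_pos := by norm_num
  sg_ge := by norm_num
  sg_le := by norm_num
  ep_nonneg := le_rfl
  ep_le := by norm_num
  alt := Or.inl (by norm_num)

end Pool.Agent.EinS
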