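import Pool.Agent.EStab.Defs

/-!
# Orthonormal frames for minus the Killing form
-/

namespace Pool.Agent.EinS

open Matrix Pool.Agent.EStab

section

variable (L : Type*) [LieRing L] [LieAlgebra ℝ L]

/-- Minus the Killing form. -/
noncomputable def Qf : LinearMap.BilinForm ℝ L := -(killingForm ℝ L)

end

variable {L : Type*} [LieRing L] [LieAlgebra ℝ L]

theorem Qf_apply (x y : L) : Qf L x y = -(killingForm ℝ L x y) := rfl

theorem Qf_symm (x y : L) : Qf L x y = Qf L y x := by
  rw [Qf_apply, Qf_apply, LieModule.traceForm_comm]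

theorem Qf_lie (x y z : L) : Qf L ⁅x, y⁆ z = Qf L x ⁅y, z⁆ := by
  rw [Qf_apply, Qf_apply, LieModule.traceForm_apply_lie_apply]

theorem Qf_lie' (x y z : L) : Qf L ⁅x, y⁆ z = -Qf L y ⁅x, z⁆ := by
  rw [← lie_skew, map_neg, LinearMap.neg_apply, Qf_lie]

theorem Qf_pos (hg : CompactSemisimple L) {x : L} (hx : x ≠ 0) : 0 < Qf L x x := by
  rw [Qf_apply]
  have := hg x hx
  linarith

theorem Qf_nonneg (hg : CompactSemisimple L) (x : L) : 0 ≤ Qf L x x := by
  by_cases hx : x = 0
  · rw [hx, map_zero]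
  · exact (Qf_pos hg hx).le

theorem Qf_eq_zero (hg : CompactSemisimple L) {x : L} (h : Qf L x x = 0) : x = 0 := by
  by_contra hx
  exact absurd h (Qf_pos hg hx).ne'

/-- `e` is an orthonormal basis of `W` with respect to minus the Killing form. -/
structure IsFrame {ι : Type*} [Fintype ι] [DecidableEq ι] (W : Submodule ℝ L) (e : ι → L) :
    Prop where
  mem : ∀ i, e i ∈ W
  orth : ∀ i j, Qf L (e i) (e j) = if i = j then 1 else 0
  exp : ∀ x ∈ W, x = ∑ i, Qf L x (e i) • e i

/-- The orthogonal complement. -/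
def perp (W : Submodule ℝ L) : Submodule ℝ L where
  carrier := {x | ∀ y ∈ W, Qf L x y = 0}
  add_mem' := fun {x x'} hx hx' y hy => by
    rw [map_add, LinearMap.add_apply, hx y hy, hx' y hy, add_zero]
  zero_mem' := fun y _ => by rw [map_zero, LinearMap.zero_apply]
  smul_mem' := fun c x hx y hy => by
    rw [map_smul, LinearMap.smul_apply, hx y hy, smul_zero]

theorem mem_perp {W : Submodule ℝ L} {x : L} : x ∈ perp W ↔ ∀ y ∈ W, Qf L x y = 0 := Iff.rfl

theorem exists_frame [Module.Finite ℝ L] (hg : CompactSemisimple L) (W : Submodule ℝ L) :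
    ∃ (n : ℕ) (e : Fin n → L), IsFrame W e := by
  classical
  have hsymm : LinearMap.IsSymm ((Qf L).restrict W) := ⟨fun x y => Qf_symm _ _⟩
  obtain ⟨v, hv⟩ := LinearMap.BilinForm.exists_orthogonal_basis hsymm
  have hpos : ∀ i, 0 < Qf L (v i : L) (v i : L) := fun i => Qf_pos hg (by
    intro h
    exact v.ne_zero i (Subtype.ext h))
  have hvo : ∀ i j, i ≠ j → Qf L (v i : L) (v j : L) = 0 := fun i j hij => hv hij
  set w : Fin (Module.finrank ℝ W) → ℝ := fun i => (Real.sqrt (Qf L (v i : L) (v i : L)))⁻¹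
    with hw
  have hw2 : ∀ i, w i * (w i * Qf L (v i : L) (v i : L)) = 1 := by
    intro i
    have h1 := Real.mul_self_sqrt (hpos i).le
    have h2 : Real.sqrt (Qf L (v i : L) (v i : L)) ≠ 0 := Real.sqrt_ne_zero'.2 (hpos i)
    rw [hw]
    dsimp only
    rw [← mul_assoc, ← mul_inv, h1, inv_mul_cancel₀ (hpos i).ne']
  refine ⟨Module.finrank ℝ W, fun i => w i • (v i : L), ?_, ?_, ?_⟩
  · intro i
    exact W.smul_mem _ (v i).2
  · intro i j
    simp only [map_smul, LinearMap.smul_apply, smul_eq_mul]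
    split_ifs with hij
    · rw [← hij]
      exact hw2 i
    · rw [hvo i j hij, mul_zero, mul_zero]
  · intro x hx
    have h1 : x = ∑ i, (v.repr ⟨x, hx⟩ i) • (v i : L) := by
      have h2 := congrArg (fun y : W => (y : L)) (v.sum_repr ⟨x, hx⟩)
      simp only [Submodule.coe_sum, Submodule.coe_smul] at h2
      exact h2.symm
    have h3 : ∀ i, Qf L x (v i : L) = v.repr ⟨x, hx⟩ i * Qf L (v i : L) (v i : L) := by
      intro i
      conv_lhs => rw [h1]
      rw [map_sum, LinearMap.sum_apply, Finset.sum_eq_single i]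
      · rw [map_smul, LinearMap.smul_apply, smul_eq_mul]
      · intro j _ hj
        rw [map_smul, LinearMap.smul_apply, hvo j i hj, smul_zero]
      · intro h
        exact absurd (Finset.mem_univ i) h
    conv_lhs => rw [h1]
    refine Finset.sum_congr rfl fun i _ => ?_
    rw [map_smul, smul_eq_mul, smul_smul, h3 i]
    congr 1
    have := hw2 i
    calc v.repr ⟨x, hx⟩ i = v.repr ⟨x, hx⟩ i * (w i * (w i * Qf L (v i : L) (v i : L))) := by
          rw [this, mul_one]
      _ = _ := by ring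

section Frame

variable {ι κ : Type*} [Fintype ι] [DecidableEq ι] [Fintype κ] [DecidableEq κ]

theorem sum_ite (c : ι → ℝ) (j : ι) : ∑ i, c i * (if i = j then (1 : ℝ) else 0) = c j := by
  simp

theorem Qf_sum (e : ι → L) (c : ι → ℝ) (y : L) :
    Qf L (∑ i, c i • e i) y = ∑ i, c i * Qf L (e i) y := by
  rw [map_sum, LinearMap.sum_apply]
  refine Finset.sum_congr rfl fun i _ => ?_
  rw [map_smul, LinearMap.smul_apply, smul_eq_mul]

theorem Qf_sum' (e : ι → L) (c : ι → ℝ) (y : L) :
    Qf L y (∑ i, c i • e i) = ∑ i, c i * Qf L y (e i) := by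
  rw [Qf_symm, Qf_sum]
  refine Finset.sum_congr rfl fun i _ => ?_
  rw [Qf_symm]

theorem IsFrame.coord {W : Submodule ℝ L} {e : ι → L} (h : IsFrame W e) (c : ι → ℝ) (j : ι) :
    Qf L (∑ i, c i • e i) (e j) = c j := by
  rw [Qf_sum]
  simp only [h.orth]
  exact sum_ite c j

theorem IsFrame.parseval {W : Submodule ℝ L} {e : ι → L} (h : IsFrame W e) {x : L} (hx : x ∈ W)
    (y : L) : Qf L x y = ∑ i, Qf L x (e i) * Qf L y (e i) := by
  conv_lhs => rw [h.exp x hx]
  rw [Qf_sum]
  refine Finset.sum_congr rfl fun i _ => ?_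
  rw [Qf_symm y]

/-- Orthonormal families (not nec. complete) satisfy Bessel's inequality. -/
theorem bessel_fam (hg : CompactSemisimple L) {e : ι → L}
    (h : ∀ i j, Qf L (e i) (e j) = if i = j then 1 else 0) (y : L) :
    ∑ i, Qf L y (e i) ^ 2 ≤ Qf L y y := by
  set z := ∑ i, Qf L y (e i) • e i with hz
  have hco : ∀ j, Qf L z (e j) = Qf L y (e j) := by
    intro j
    rw [hz, Qf_sum]
    simp only [h]
    exact sum_ite (fun i => Qf L y (e i)) j
  have h1 := Qf_nonneg hg (y - z)
  have hyz : Qf L y z = ∑ i, Qf L y (e i) ^ 2 := by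
    conv_lhs => rw [hz]
    rw [Qf_sum']
    refine Finset.sum_congr rfl fun i _ => ?_
    ring
  have hzz : Qf L z z = ∑ i, Qf L y (e i) ^ 2 := by
    conv_lhs =>
      enter [2]
      rw [hz]
    rw [Qf_sum']
    refine Finset.sum_congr rfl fun i _ => ?_
    rw [hco]
    ring
  have h2 : Qf L (y - z) (y - z) = Qf L y y - Qf L y z - Qf L z y + Qf L z z := by
    simp only [map_sub, LinearMap.sub_apply]
    ring
  rw [h2, Qf_symm z y, hyz, hzz] at h1
  linarith

theorem IsFrame.bessel (hg : CompactSemisimple L) {W : Submodule ℝ L} {e : ι → L}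
    (h : IsFrame W e) (y : L) : ∑ i, Qf L y (e i) ^ 2 ≤ Qf L y y :=
  bessel_fam hg h.orth y

theorem IsFrame.sub_mem_perp {W : Submodule ℝ L} {e : ι → L} (h : IsFrame W e) (x : L) :
    x - ∑ i, Qf L x (e i) • e i ∈ perp W := by
  intro y hy
  rw [map_sub, LinearMap.sub_apply, Qf_sum, Qf_symm x y, h.parseval hy x]
  rw [sub_eq_zero]
  refine Finset.sum_congr rfl fun i _ => ?_
  rw [Qf_symm (e i) y, mul_comm]

theorem IsFrame.sum {W W' : Submodule ℝ L} {e : ι → L} {f : κ → L} (h : IsFrame W e)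
    (h' : IsFrame W' f) (ho : ∀ x ∈ W, ∀ y ∈ W', Qf L x y = 0) :
    IsFrame (W ⊔ W') (Sum.elim e f) := by
  refine ⟨?_, ?_, ?_⟩
  · rintro (i | i)
    · exact Submodule.mem_sup_left (h.mem i)
    · exact Submodule.mem_sup_right (h'.mem i)
  · rintro (i | i) (j | j)
    · simp only [Sum.elim_inl, h.orth, Sum.inl.injEq]
    · simp only [Sum.elim_inl, Sum.elim_inr, ho _ (h.mem i) _ (h'.mem j), reduceCtorEq, if_false]
    · simp only [Sum.elim_inl, Sum.elim_inr, reduceCtorEq, if_false]
      rw [Qf_symm, ho _ (h.mem j) _ (h'.mem i)]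
    · simp only [Sum.elim_inr, h'.orth, Sum.inr.injEq]
  · intro x hx
    obtain ⟨y, hy, z, hz, rfl⟩ := Submodule.mem_sup.1 hx
    rw [Fintype.sum_sum_type]
    simp only [Sum.elim_inl, Sum.elim_inr]
    have h1 : ∀ i, Qf L (y + z) (e i) = Qf L y (e i) := by
      intro i
      rw [map_add, LinearMap.add_apply, Qf_symm z, ho _ (h.mem i) _ hz, add_zero]
    have h2 : ∀ i, Qf L (y + z) (f i) = Qf L z (f i) := by
      intro i
      rw [map_add, LinearMap.add_apply, ho _ hy _ (h'.mem i), zero_add]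
    simp only [h1, h2]
    rw [← h.exp y hy, ← h'.exp z hz]

theorem IsFrame.full {W : Submodule ℝ L} {e : ι → L} {f : κ → L} (h : IsFrame W e)
    (h' : IsFrame (perp W) f) : IsFrame (⊤ : Submodule ℝ L) (Sum.elim e f) := by
  have h1 : W ⊔ perp W = ⊤ := by
    rw [eq_top_iff]
    intro x _
    have h2 := h.sub_mem_perp x
    have h3 : x = (∑ i, Qf L x (e i) • e i) + (x - ∑ i, Qf L x (e i) • e i) := by abel
    rw [h3]
    exact Submodule.add_mem_sup (Submodule.sum_mem _ fun i _ => W.smul_mem _ (h.mem i)) h2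
  rw [← h1]
  exact h.sum h' fun x hx y hy => by
    rw [Qf_symm]
    exact hy x hx

/-- A frame of the whole Lie algebra as a basis. -/
noncomputable def IsFrame.basis {e : ι → L} (h : IsFrame (⊤ : Submodule ℝ L) e) :
    Module.Basis ι ℝ L :=
  Module.Basis.ofEquivFun
    { toFun := fun x i => Qf L x (e i)
      invFun := fun c => ∑ i, c i • e i
      map_add' := fun x y => by
        funext i
        rw [map_add, LinearMap.add_apply]
        rfl
      map_smul' := fun c x => by
        funext i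
        rw [map_smul, LinearMap.smul_apply]
        rfl
      left_inv := fun x => (h.exp x Submodule.mem_top).symm
      right_inv := fun c => by
        funext j
        exact h.coord c j }

theorem IsFrame.basis_repr {e : ι → L} (h : IsFrame (⊤ : Submodule ℝ L) e) (x : L) (i : ι) :
    h.basis.repr x i = Qf L x (e i) := by
  rw [← Module.Basis.equivFun_apply]
  unfold IsFrame.basis
  rw [Module.Basis.equivFun_ofEquivFun]
  rfl

theorem IsFrame.basis_apply {e : ι → L} (h : IsFrame (⊤ : Submodule ℝ L) e) (i : ι) :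
    h.basis i = e i := by
  apply h.basis.repr.injective
  ext j
  rw [h.basis_repr, h.basis_repr, ← h.basis_repr, Module.Basis.repr_self, h.orth,
    Finsupp.single_apply]

theorem IsFrame.trace_eq {e : ι → L} (h : IsFrame (⊤ : Submodule ℝ L) e) (f : L →ₗ[ℝ] L) :
    LinearMap.trace ℝ L f = ∑ i, Qf L (f (e i)) (e i) := by
  rw [LinearMap.trace_eq_matrix_trace ℝ h.basis f]
  unfold Matrix.trace
  refine Finset.sum_congr rfl fun i _ => ?_
  rw [Matrix.diag_apply, LinearMap.toMatrix_apply, h.basis_repr, h.basis_apply]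

theorem IsFrame.killing {e : ι → L} (h : IsFrame (⊤ : Submodule ℝ L) e) (x y : L) :
    Qf L x y = ∑ i, Qf L ⁅x, e i⁆ ⁅y, e i⁆ := by
  rw [Qf_apply, killingForm_apply_apply, h.trace_eq, ← Finset.sum_neg_distrib]
  refine Finset.sum_congr rfl fun i _ => ?_
  change -(Qf L ⁅x, ⁅y, e i⁆⁆ (e i)) = _
  rw [Qf_lie', neg_neg, Qf_symm]

end Frame

end Pool.Agent.EinS
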