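import Pool.Agent.EinS.ClDefs
import Pool.Agent.EinS.Coef
import Pool.Agent.EinS.Frame

/-!
# The classical Lie algebras `so(N)`, `su(N)`, `sp(N)` and their Killing forms
-/

namespace Pool.Agent.EinS

open Matrix Pool.Agent.EStab

attribute [local instance 100] LieRing.ofAssociativeRing

/-! ### The trace of a linear map -/

theorem trace_of_dual {V : Type*} [AddCommGroup V] [Module ℝ V] {β : Type*} [Fintype β]
    [DecidableEq β] (e : β → V) (φ : β → V →ₗ[ℝ] ℝ) (h1 : ∀ x, x = ∑ i, φ i x • e i)
    (h2 : ∀ i j, φ i (e j) = if i = j then 1 else 0) (f : V →ₗ[ℝ] V) :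
    LinearMap.trace ℝ V f = ∑ i, φ i (f (e i)) := by
  let B : Module.Basis β ℝ V := Module.Basis.ofEquivFun
    { toFun := fun x i => φ i x
      invFun := fun c => ∑ i, c i • e i
      map_add' := fun x y => by
        funext i
        rw [map_add]
        rfl
      map_smul' := fun c x => by
        funext i
        rw [map_smul]
        rfl
      left_inv := fun x => (h1 x).symm
      right_inv := fun c => by
        funext j
        change φ j (∑ i, c i • e i) = c j
        rw [map_sum]
        simp only [map_smul, h2, smul_eq_mul]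
        simp }
  have hr : ∀ x i, B.repr x i = φ i x := by
    intro x i
    rw [← Module.Basis.equivFun_apply]
    change (Module.Basis.ofEquivFun _).equivFun x i = _
    rw [Module.Basis.equivFun_ofEquivFun]
    rfl
  have ha : ∀ i, B i = e i := by
    intro i
    apply B.repr.injective
    ext j
    rw [Module.Basis.repr_self, hr, h2, Finsupp.single_apply]
    simp only [eq_comm]
  rw [LinearMap.trace_eq_matrix_trace ℝ B f]
  unfold Matrix.trace
  refine Finset.sum_congr rfl fun i _ => ?_
  rw [Matrix.diag_apply, LinearMap.toMatrix_apply, hr, ha]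

variable {A : Type} [Ring A] [StarRing A] [Algebra ℝ A] [Cen A] [Coef A]

/-! ### Elementary properties of the coefficients -/

/-- the real part -/
noncomputable abbrev rl (x : A) : ℝ := Coef.re x

/-- the projection to the centre -/
noncomputable abbrev ce (x : A) : A := Cen.cen x

theorem rl_mul_comm (x y : A) : rl (x * y) = rl (y * x) := Coef.re_comm x y

theorem rl_star (x : A) : rl (star x) = rl x := Coef.re_star x

theorem rl_star_mul (x y : A) : rl (x * star y) = rl (y * star x) := by
  rw [← rl_star, star_mul, star_star]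

theorem mul_star_self' (x : A) : x * star x = rl (x * star x) • (1 : A) := by
  have h := Coef.add_star (x * star x)
  rw [star_mul, star_star, ← two_smul ℝ, mul_smul] at h
  have e : (1 / 2 : ℝ) * 2 = 1 := by norm_num
  calc x * star x = (1 / 2 : ℝ) • ((2 : ℝ) • (x * star x)) := by rw [smul_smul, e, one_smul]
    _ = (1 / 2 : ℝ) • ((2 : ℝ) • (rl (x * star x) • (1 : A))) := by rw [h]
    _ = _ := by rw [smul_smul, e, one_smul]

theorem star_mul_self'' (x : A) : star x * x = rl (x * star x) • (1 : A) := by
  have h := mul_star_self' (star x)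
  rw [star_star, rl_mul_comm (star x) x] at h
  exact h

theorem b_mul_star (i : Fin (Coef.m A)) : (Coef.b i : A) * star (Coef.b i) = 1 := by
  rw [mul_star_self', rl, Coef.orth, if_pos rfl, one_smul]

theorem b_star_mul (i : Fin (Coef.m A)) : star (Coef.b i : A) * Coef.b i = 1 := by
  rw [star_mul_self'', rl, Coef.orth, if_pos rfl, one_smul]

theorem rl_smul (c : ℝ) (x : A) : rl (c • x) = c * rl x := by
  rw [rl, map_smul, smul_eq_mul]

theorem rl_sum {α : Type*} (s : Finset α) (f : α → A) : rl (∑ i ∈ s, f i) = ∑ i ∈ s, rl (f i) :=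
  map_sum _ _ _

theorem sq_nonneg' (x : A) : 0 ≤ rl (x * star x) := by
  by_cases h : x = 0
  · rw [h, zero_mul, rl, map_zero]
  · exact (Coef.pos x h).le

/-- Parseval for the coefficients. -/
theorem coef_parseval (x y : A) :
    rl (x * star y) = ∑ i : Fin (Coef.m A), rl (x * star (Coef.b i)) * rl (y * star (Coef.b i)) := by
  have h := Coef.exp x
  conv_lhs => rw [h]
  rw [Finset.sum_mul, rl_sum]
  refine Finset.sum_congr rfl fun i _ => ?_
  rw [smul_mul_assoc, rl_smul, rl_star_mul (Coef.b i)]

/-! ### The inner product of matrices -/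

section ip

variable {α β γ : Type*} [Fintype α] [Fintype β] [Fintype γ]

/-- The inner product. -/
noncomputable def ip (X Y : Matrix α β A) : ℝ := ∑ i, ∑ j, rl (X i j * star (Y i j))

theorem ip_comm (X Y : Matrix α β A) : ip X Y = ip Y X := by
  unfold ip
  refine Finset.sum_congr rfl fun i _ => Finset.sum_congr rfl fun j _ => ?_
  rw [rl_star_mul]

theorem ip_add (X X' Y : Matrix α β A) : ip (X + X') Y = ip X Y + ip X' Y := by
  unfold ip
  rw [← Finset.sum_add_distrib]
  refine Finset.sum_congr rfl fun i _ => ?_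
  rw [← Finset.sum_add_distrib]
  refine Finset.sum_congr rfl fun j _ => ?_
  rw [Matrix.add_apply, add_mul, rl, map_add]

theorem ip_neg (X Y : Matrix α β A) : ip (-X) Y = -ip X Y := by
  unfold ip
  rw [← Finset.sum_neg_distrib]
  refine Finset.sum_congr rfl fun i _ => ?_
  rw [← Finset.sum_neg_distrib]
  refine Finset.sum_congr rfl fun j _ => ?_
  rw [Matrix.neg_apply, neg_mul, rl, map_neg]

theorem ip_sub (X X' Y : Matrix α β A) : ip (X - X') Y = ip X Y - ip X' Y := by
  rw [sub_eq_add_neg, ip_add, ip_neg, sub_eq_add_neg]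

theorem ip_smul (c : ℝ) (X Y : Matrix α β A) : ip (c • X) Y = c * ip X Y := by
  unfold ip
  rw [Finset.mul_sum]
  refine Finset.sum_congr rfl fun i _ => ?_
  rw [Finset.mul_sum]
  refine Finset.sum_congr rfl fun j _ => ?_
  rw [Matrix.smul_apply, smul_mul_assoc, rl_smul]

theorem ip_self_nonneg (X : Matrix α β A) : 0 ≤ ip X X :=
  Finset.sum_nonneg fun _ _ => Finset.sum_nonneg fun _ _ => sq_nonneg' _

theorem ip_self_eq_zero {X : Matrix α β A} (h : ip X X = 0) : X = 0 := by
  unfold ip at h
  rw [Finset.sum_eq_zero_iff_of_nonneg (fun i _ => Finset.sum_nonneg fun j _ =>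
    sq_nonneg' _)] at h
  ext i j
  have h1 := h i (Finset.mem_univ i)
  rw [Finset.sum_eq_zero_iff_of_nonneg (fun j _ => sq_nonneg' _)] at h1
  have h2 := h1 j (Finset.mem_univ j)
  by_contra h3
  exact absurd h2 (Coef.pos _ h3).ne'

theorem ip_zero_left (Y : Matrix α β A) : ip 0 Y = 0 := by
  unfold ip
  refine Finset.sum_eq_zero fun i _ => Finset.sum_eq_zero fun j _ => ?_
  rw [Matrix.zero_apply, zero_mul, rl, map_zero]

/-- the coordinates of the inner product -/
theorem ip_coord (X Y : Matrix α β A) : ip X Y =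
    ∑ i, ∑ j, ∑ k : Fin (Coef.m A), rl (X i j * star (Coef.b k)) * rl (Y i j * star (Coef.b k)) := by
  unfold ip
  exact Finset.sum_congr rfl fun i _ => Finset.sum_congr rfl fun j _ => coef_parseval _ _

end ip

/-! ### The Lie algebra -/

variable {ι : Type} [Fintype ι] [DecidableEq ι]

/-- The central component to be removed. -/
noncomputable def cc (X : Matrix ι ι A) : A :=
  Cen.cen ((1 / (2 * (Fintype.card ι : ℝ))) • (trace X - star (trace X)))

theorem cc_comm (X : Matrix ι ι A) (y : A) : cc X * y = y * cc X := Cen.cen_comm _ _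

theorem star_cc (X : Matrix ι ι A) : star (cc X) = -cc X := by
  unfold cc
  rw [← Coef.cen_star, Cen.star_smul', star_sub, star_star, ← neg_sub (trace X), smul_neg,
    map_neg]

theorem cen_cc (X : Matrix ι ι A) : Cen.cen (cc X) = cc X := Coef.cen_cen _

theorem trace_diag_const (c : A) :
    trace (Matrix.diagonal (fun _ : ι => c)) = (Fintype.card ι : ℝ) • c := by
  rw [Matrix.trace_diagonal, Finset.sum_const, Finset.card_univ, ← Nat.cast_smul_eq_nsmul ℝ]

theorem trace_conjT (X : Matrix ι ι A) : trace Xᴴ = star (trace X) := by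
  rw [Matrix.trace_conjTranspose]

/-- The projection to the Lie algebra. -/
noncomputable def pr [Nonempty ι] : Matrix ι ι A →ₗ[ℝ] cl A ι where
  toFun X := ⟨(1 / 2 : ℝ) • (X - Xᴴ) - Matrix.diagonal (fun _ => cc X), by
    refine ⟨?_, ?_⟩
    · ext i j
      rw [Matrix.conjTranspose_apply, Matrix.neg_apply, Matrix.sub_apply, Matrix.sub_apply,
        Matrix.smul_apply, Matrix.smul_apply, Matrix.sub_apply, Matrix.sub_apply,
        Matrix.conjTranspose_apply, Matrix.conjTranspose_apply, star_sub, Cen.star_smul',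
        star_sub, star_star, Matrix.diagonal_apply, Matrix.diagonal_apply]
      by_cases h : i = j
      · rw [if_pos h, if_pos h.symm, star_cc, neg_sub, sub_neg_eq_add, ← neg_sub (X i j),
          smul_neg]
        abel
      · rw [if_neg h, if_neg (Ne.symm h), star_zero, sub_zero, sub_zero, ← neg_sub (X i j),
          smul_neg]
    · have hN : (Fintype.card ι : ℝ) ≠ 0 := by
        exact_mod_cast Fintype.card_ne_zero
      rw [Matrix.trace_sub, Matrix.trace_smul, Matrix.trace_sub, trace_conjT,
        trace_diag_const, map_sub, map_smul, map_smul, cen_cc]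
      unfold cc
      rw [map_smul, smul_smul, sub_eq_zero]
      congr 1
      field_simp⟩
  map_add' X Y := by
    apply Subtype.ext
    change (1 / 2 : ℝ) • (X + Y - (X + Y)ᴴ) - Matrix.diagonal (fun _ => cc (X + Y)) =
      ((1 / 2 : ℝ) • (X - Xᴴ) - Matrix.diagonal (fun _ => cc X)) +
      ((1 / 2 : ℝ) • (Y - Yᴴ) - Matrix.diagonal (fun _ => cc Y))
    have h : cc (X + Y) = cc X + cc Y := by
      unfold cc
      rw [← map_add, ← smul_add, Matrix.trace_add, star_add]
      congr 2
      abel
    rw [h, ← Matrix.diagonal_add, Matrix.conjTranspose_add, add_sub_add_comm, smul_add]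
    abel
  map_smul' t X := by
    apply Subtype.ext
    change (1 / 2 : ℝ) • (t • X - (t • X)ᴴ) - Matrix.diagonal (fun _ => cc (t • X)) =
      t • ((1 / 2 : ℝ) • (X - Xᴴ) - Matrix.diagonal (fun _ => cc X))
    have h : cc (t • X) = t • cc X := by
      unfold cc
      rw [← map_smul, Matrix.trace_smul, Cen.star_smul', ← smul_sub, smul_comm]
    have h2 : (t • X)ᴴ = t • Xᴴ := by
      ext i j
      rw [Matrix.conjTranspose_apply, Matrix.smul_apply, Matrix.smul_apply,
        Matrix.conjTranspose_apply, Cen.star_smul']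
    have h3 : Matrix.diagonal (fun _ : ι => t • cc X) =
        t • Matrix.diagonal (fun _ : ι => cc X) := by
      ext i j
      rw [Matrix.smul_apply, Matrix.diagonal_apply, Matrix.diagonal_apply]
      split_ifs
      · rfl
      · rw [smul_zero]
    rw [h, h2, h3, ← smul_sub, smul_comm, ← smul_sub]

theorem pr_apply [Nonempty ι] (X : Matrix ι ι A) :
    (pr X : cl A ι).1 = (1 / 2 : ℝ) • (X - Xᴴ) - Matrix.diagonal (fun _ => cc X) := rfl

theorem pr_id [Nonempty ι] (x : cl A ι) : pr x.1 = x := by
  apply Subtype.ext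
  rw [pr_apply, x.2.1, sub_neg_eq_add, ← two_smul ℝ x.1, smul_smul]
  have h : cc x.1 = 0 := by
    unfold cc
    rw [← trace_conjT, x.2.1, Matrix.trace_neg, sub_neg_eq_add, ← two_smul ℝ, smul_smul,
      map_smul, cl_tr, smul_zero]
  have h2 : Matrix.diagonal (fun _ : ι => (0 : A)) = 0 := Matrix.diagonal_zero
  rw [h, h2, sub_zero]
  norm_num

/-- The coordinates of a matrix. -/
noncomputable def mco (i : ι × ι × Fin (Coef.m A)) : Matrix ι ι A →ₗ[ℝ] ℝ where
  toFun X := rl (X i.1 i.2.1 * star (Coef.b i.2.2))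
  map_add' X Y := by
    rw [Matrix.add_apply, add_mul, rl, map_add]
  map_smul' c X := by
    rw [Matrix.smul_apply, smul_mul_assoc, rl_smul]
    rfl

theorem mco_apply (i : ι × ι × Fin (Coef.m A)) (X : Matrix ι ι A) :
    mco i X = rl (X i.1 i.2.1 * star (Coef.b i.2.2)) := rfl

theorem trace_mat (f : Matrix ι ι A →ₗ[ℝ] Matrix ι ι A) :
    LinearMap.trace ℝ _ f = ∑ i : ι, ∑ j : ι, ∑ k : Fin (Coef.m A),
      rl ((f (Matrix.single i j (Coef.b k))) i j * star (Coef.b k)) := by
  rw [trace_of_dual (fun i : ι × ι × Fin (Coef.m A) =>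
    Matrix.single i.1 i.2.1 (Coef.b i.2.2)) mco ?_ ?_ f, Fintype.sum_prod_type]
  · refine Finset.sum_congr rfl fun i _ => ?_
    rw [Fintype.sum_prod_type]
    rfl
  · intro X
    rw [Fintype.sum_prod_type]
    conv_lhs => rw [Matrix.matrix_eq_sum_single X]
    refine Finset.sum_congr rfl fun i _ => ?_
    rw [Fintype.sum_prod_type]
    refine Finset.sum_congr rfl fun j _ => ?_
    conv_lhs => rw [Coef.exp (X i j)]
    change (Matrix.singleAddMonoidHom i j) _ = _
    rw [map_sum]
    refine Finset.sum_congr rfl fun k _ => ?_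
    change Matrix.single i j _ = _ • Matrix.single i j _
    rw [Matrix.smul_single]
    rfl
  · intro i j
    change rl ((Matrix.single j.1 j.2.1 (Coef.b j.2.2) : Matrix ι ι A) i.1 i.2.1 *
      star (Coef.b i.2.2)) = _
    rw [Matrix.single_apply]
    by_cases h1 : j.1 = i.1 ∧ j.2.1 = i.2.1
    · rw [if_pos h1, rl, Coef.orth]
      by_cases h2 : j.2.2 = i.2.2
      · have h3 : i = j := Prod.ext h1.1.symm (Prod.ext h1.2.symm h2.symm)
        rw [if_pos h2, if_pos h3]
      · have h3 : i ≠ j := fun h => h2 (by rw [h])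
        rw [if_neg h2, if_neg h3]
    · have h3 : i ≠ j := fun h => h1 (by rw [h]; exact ⟨rfl, rfl⟩)
      rw [if_neg h1, if_neg h3, zero_mul, rl, map_zero]

theorem trace_cl [Nonempty ι] (f : cl A ι →ₗ[ℝ] cl A ι) :
    LinearMap.trace ℝ _ f = ∑ i : ι, ∑ j : ι, ∑ k : Fin (Coef.m A),
      rl ((f (pr (Matrix.single i j (Coef.b k)))).1 i j * star (Coef.b k)) := by
  let inc : cl A ι →ₗ[ℝ] Matrix ι ι A :=
    { toFun := fun x => x.1
      map_add' := fun _ _ => rfl
      map_smul' := fun _ _ => rfl }
  haveI : Module.Finite ℝ A := Module.Finite.of_basis (Module.Basis.ofEquivFun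
    { toFun := fun (x : A) (i : Fin (Coef.m A)) => rl (x * star (Coef.b i))
      invFun := fun c => ∑ i, c i • Coef.b i
      map_add' := fun x y => by
        funext i
        rw [add_mul, rl, map_add]
        rfl
      map_smul' := fun c x => by
        funext i
        rw [smul_mul_assoc, rl_smul]
        rfl
      left_inv := fun x => (Coef.exp x).symm
      right_inv := fun c => by
        funext j
        change rl ((∑ i, c i • Coef.b i) * star (Coef.b j)) = c j
        rw [Finset.sum_mul, rl_sum]
        simp only [smul_mul_assoc, rl_smul, rl, Coef.orth]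
        simp })
  have h1 : f = (f ∘ₗ pr) ∘ₗ inc := by
    ext x : 1
    change f x = f (pr x.1)
    rw [pr_id]
  have h2 : LinearMap.trace ℝ _ f = LinearMap.trace ℝ _ (inc ∘ₗ (f ∘ₗ pr)) := by
    conv_lhs => rw [h1]
    exact LinearMap.trace_comp_comm' inc (f ∘ₗ pr)
  rw [h2, trace_mat]
  rfl

end Pool.Agent.EinS
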