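import Pool.Agent.EinS.ClKil

/-!
# The Killing forms of `so(N)`, `su(N)`, `sp(N)`
-/

namespace Pool.Agent.EinS

open Matrix Pool.Agent.EStab

attribute [local instance 100] LieRing.ofAssociativeRing

variable {A : Type} [Ring A] [StarRing A] [Algebra ℝ A] [Cen A] [Coef A]
variable {ι : Type} [Fintype ι] [DecidableEq ι]

theorem entry_single (P R : Matrix ι ι A) (a b i j : ι) (z : A) :
    (P * (Matrix.single a b z * R)) i j = P i a * (z * R b j) := by
  rw [Matrix.mul_apply, Finset.sum_eq_single a]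
  · rw [Matrix.single_mul_apply_same]
  · intro k _ hk
    rw [Matrix.single_mul_apply_of_ne _ _ _ _ _ hk, mul_zero]
  · intro h
    exact absurd (Finset.mem_univ a) h

theorem entry_br (x y : Matrix ι ι A) (a b i j : ι) (z : A) :
    (x * (y * Matrix.single a b z - Matrix.single a b z * y) -
      (y * Matrix.single a b z - Matrix.single a b z * y) * x) i j =
      (x * y) i a * (z * (1 : Matrix ι ι A) b j) - x i a * (z * y b j) - y i a * (z * x b j) +
        (1 : Matrix ι ι A) i a * (z * (y * x) b j) := by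
  have e : x * (y * Matrix.single a b z - Matrix.single a b z * y) -
      (y * Matrix.single a b z - Matrix.single a b z * y) * x =
      (x * y) * (Matrix.single a b z * 1) - x * (Matrix.single a b z * y) -
        y * (Matrix.single a b z * x) + 1 * (Matrix.single a b z * (y * x)) := by
    noncomm_ring
  rw [e]
  simp only [Matrix.add_apply, Matrix.sub_apply, entry_single]

theorem lie_diag (y : Matrix ι ι A) (X : Matrix ι ι A) :
    y * Matrix.diagonal (fun _ => cc X) - Matrix.diagonal (fun _ => cc X) * y = 0 := by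
  rw [sub_eq_zero]
  ext i j
  rw [Matrix.mul_diagonal, Matrix.diagonal_mul, cc_comm]

theorem lie_lie_pr [Nonempty ι] (x y : cl A ι) (X : Matrix ι ι A) :
    (⁅x, ⁅y, (pr X : cl A ι)⁆⁆ : cl A ι).1 = (1 / 2 : ℝ) •
      ((x.1 * (y.1 * X - X * y.1) - (y.1 * X - X * y.1) * x.1) -
        (x.1 * (y.1 * Xᴴ - Xᴴ * y.1) - (y.1 * Xᴴ - Xᴴ * y.1) * x.1)) := by
  rw [cl_lie, cl_lie, pr_apply]
  have h1 : y.1 * ((1 / 2 : ℝ) • (X - Xᴴ) - Matrix.diagonal (fun _ => cc X)) -
      ((1 / 2 : ℝ) • (X - Xᴴ) - Matrix.diagonal (fun _ => cc X)) * y.1 =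
      (1 / 2 : ℝ) • (y.1 * (X - Xᴴ) - (X - Xᴴ) * y.1) := by
    have h2 := lie_diag y.1 X
    calc _ = (y.1 * ((1 / 2 : ℝ) • (X - Xᴴ)) - ((1 / 2 : ℝ) • (X - Xᴴ)) * y.1) -
          (y.1 * Matrix.diagonal (fun _ => cc X) - Matrix.diagonal (fun _ => cc X) * y.1) := by
          noncomm_ring
      _ = _ := by rw [h2, sub_zero, Matrix.mul_smul, Matrix.smul_mul, ← smul_sub]
  rw [h1, Matrix.mul_smul, Matrix.smul_mul, ← smul_sub]
  congr 1
  noncomm_ring

theorem sum_bbar (x : A) : ∑ k : Fin (Coef.m A), rl (x * star (Coef.b k) * star (Coef.b k)) =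
    Coef.sg A * rl x := by
  have h := Coef.sum2 (1 : A)
  rw [← rl_sum]
  have h2 : ∑ k : Fin (Coef.m A), x * star (Coef.b k) * star (Coef.b k) =
      x * ∑ k : Fin (Coef.m A), star (Coef.b k) * 1 * star (Coef.b k) := by
    rw [Finset.mul_sum]
    refine Finset.sum_congr rfl fun k _ => ?_
    rw [mul_one, mul_assoc]
  rw [h2, h, star_one, mul_smul_comm, mul_one, rl_smul]

theorem sum_bbar2 (x y : A) :
    ∑ k : Fin (Coef.m A), rl (x * (star (Coef.b k) * y) * star (Coef.b k)) =
      Coef.sg A * rl (x * star y) := by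
  have h := Coef.sum2 y
  rw [← rl_sum]
  have h2 : ∑ k : Fin (Coef.m A), x * (star (Coef.b k) * y) * star (Coef.b k) =
      x * ∑ k : Fin (Coef.m A), star (Coef.b k) * y * star (Coef.b k) := by
    rw [Finset.mul_sum]
    refine Finset.sum_congr rfl fun k _ => ?_
    rw [mul_assoc]
  rw [h2, h, mul_smul_comm, rl_smul]

theorem sum_bb (x y : A) :
    ∑ k : Fin (Coef.m A), rl (x * (Coef.b k * y) * star (Coef.b k)) =
      Coef.m A * rl (x * ce y) := by
  have h := Coef.sum1 y
  rw [← rl_sum]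
  have h2 : ∑ k : Fin (Coef.m A), x * (Coef.b k * y) * star (Coef.b k) =
      x * ∑ k : Fin (Coef.m A), Coef.b k * y * star (Coef.b k) := by
    rw [Finset.mul_sum]
    refine Finset.sum_congr rfl fun k _ => ?_
    rw [mul_assoc]
  rw [h2, h, mul_smul_comm, rl_smul]

theorem sum_b1 (x : A) : ∑ k : Fin (Coef.m A), rl (x * Coef.b k * star (Coef.b k)) =
    Coef.m A * rl x := by
  have h : ∀ k : Fin (Coef.m A), rl (x * Coef.b k * star (Coef.b k)) = rl x := by
    intro k
    rw [mul_assoc, b_mul_star, mul_one]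
  simp only [h]
  rw [Finset.sum_const, Finset.card_univ, Fintype.card_fin, nsmul_eq_mul]

theorem sum_b2 (x : A) : ∑ k : Fin (Coef.m A), rl (Coef.b k * x * star (Coef.b k)) =
    Coef.m A * rl x := by
  have h : ∀ k : Fin (Coef.m A), rl (Coef.b k * x * star (Coef.b k)) = rl x := by
    intro k
    rw [rl_mul_comm, ← mul_assoc, b_star_mul, one_mul]
  simp only [h]
  rw [Finset.sum_const, Finset.card_univ, Fintype.card_fin, nsmul_eq_mul]

theorem tr_mul_ip (x y : cl A ι) : rl (trace (x.1 * y.1)) = -ip x.1 y.1 := by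
  unfold trace ip
  rw [rl_sum, ← Finset.sum_neg_distrib]
  refine Finset.sum_congr rfl fun i _ => ?_
  rw [Matrix.diag_apply, Matrix.mul_apply, rl_sum, ← Finset.sum_neg_distrib]
  refine Finset.sum_congr rfl fun j _ => ?_
  rw [cl_skew' y i j, mul_neg, rl, map_neg]

theorem Qf_cl [Nonempty ι] (x y : cl A ι) :
    Qf (cl A ι) x y =
      ((Fintype.card ι : ℝ) * Coef.m A - 2 * Coef.sg A) * ip x.1 y.1 := by
  rw [Qf_apply, killingForm_apply_apply, trace_cl]
  have h1 : ∀ (i j : ι) (k : Fin (Coef.m A)),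
      rl ((((LieAlgebra.ad ℝ (cl A ι) x) ∘ₗ (LieAlgebra.ad ℝ (cl A ι) y))
        (pr (Matrix.single i j (Coef.b k)))).1 i j * star (Coef.b k)) =
      1 / 2 * (rl ((x.1 * y.1) i i * Coef.b k * star (Coef.b k)) -
        rl (x.1 i i * (Coef.b k * y.1 j j) * star (Coef.b k)) -
        rl (y.1 i i * (Coef.b k * x.1 j j) * star (Coef.b k)) +
        rl (Coef.b k * (y.1 * x.1) j j * star (Coef.b k)) -
        ((if i = j then rl ((x.1 * y.1) i i * star (Coef.b k) * star (Coef.b k)) else 0) -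
        rl (x.1 i j * (star (Coef.b k) * y.1 i j) * star (Coef.b k)) -
        rl (y.1 i j * (star (Coef.b k) * x.1 i j) * star (Coef.b k)) +
        (if i = j then rl (star (Coef.b k) * (y.1 * x.1) i i * star (Coef.b k)) else 0))) := by
    intro i j k
    have h2 : (((LieAlgebra.ad ℝ (cl A ι) x) ∘ₗ (LieAlgebra.ad ℝ (cl A ι) y))
        (pr (Matrix.single i j (Coef.b k)))) =
        (⁅x, ⁅y, (pr (Matrix.single i j (Coef.b k)) : cl A ι)⁆⁆ : cl A ι) := rfl
    rw [h2, lie_lie_pr, Matrix.smul_apply, smul_mul_assoc, rl_smul, Matrix.sub_apply,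
      Matrix.conjTranspose_single, entry_br, entry_br, sub_mul]
    congr 1
    have e1 : (1 : Matrix ι ι A) j j = 1 := Matrix.one_apply_eq j
    have e2 : (1 : Matrix ι ι A) i i = 1 := Matrix.one_apply_eq i
    rw [e1, e2, mul_one, one_mul]
    simp only [rl, map_sub, map_add, sub_mul, add_mul]
    by_cases hij : i = j
    · subst hij
      rw [if_pos rfl, if_pos rfl, e1, mul_one, one_mul]
    · rw [if_neg hij, if_neg hij]
      have e3 : (1 : Matrix ι ι A) i j = 0 := Matrix.one_apply_ne hij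
      rw [e3, mul_zero, mul_zero, zero_mul, zero_mul, map_zero, zero_mul, map_zero]
  simp only [h1]
  have h3 : ∀ i j : ι, ∑ k : Fin (Coef.m A), 1 / 2 *
      (rl ((x.1 * y.1) i i * Coef.b k * star (Coef.b k)) -
        rl (x.1 i i * (Coef.b k * y.1 j j) * star (Coef.b k)) -
        rl (y.1 i i * (Coef.b k * x.1 j j) * star (Coef.b k)) +
        rl (Coef.b k * (y.1 * x.1) j j * star (Coef.b k)) -
        ((if i = j then rl ((x.1 * y.1) i i * star (Coef.b k) * star (Coef.b k)) else 0) -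
        rl (x.1 i j * (star (Coef.b k) * y.1 i j) * star (Coef.b k)) -
        rl (y.1 i j * (star (Coef.b k) * x.1 i j) * star (Coef.b k)) +
        (if i = j then rl (star (Coef.b k) * (y.1 * x.1) i i * star (Coef.b k)) else 0))) =
      1 / 2 * (Coef.m A * rl ((x.1 * y.1) i i) - Coef.m A * rl (x.1 i i * ce (y.1 j j)) -
        Coef.m A * rl (y.1 i i * ce (x.1 j j)) + Coef.m A * rl ((y.1 * x.1) j j) -
        ((if i = j then Coef.sg A * rl ((x.1 * y.1) i i) else 0) -
          Coef.sg A * rl (x.1 i j * star (y.1 i j)) -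
          Coef.sg A * rl (y.1 i j * star (x.1 i j)) +
          (if i = j then Coef.sg A * rl ((y.1 * x.1) i i) else 0))) := by
    intro i j
    rw [← Finset.mul_sum]
    congr 1
    rw [Finset.sum_sub_distrib, Finset.sum_add_distrib, Finset.sum_sub_distrib,
      Finset.sum_sub_distrib, Finset.sum_add_distrib, Finset.sum_sub_distrib,
      Finset.sum_sub_distrib, sum_b1, sum_bb, sum_bb, sum_b2, sum_bbar2, sum_bbar2]
    congr 1
    congr 1
    · congr 1
      congr 1
      split_ifs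
      · exact sum_bbar _
      · exact Finset.sum_const_zero
    · split_ifs
      · have h4 : ∀ k : Fin (Coef.m A),
            rl (star (Coef.b k) * (y.1 * x.1) i i * star (Coef.b k)) =
            rl ((y.1 * x.1) i i * star (Coef.b k) * star (Coef.b k)) := by
          intro k
          rw [mul_assoc, rl_mul_comm]
        simp only [h4]
        exact sum_bbar _
      · exact Finset.sum_const_zero
  simp only [h3]
  simp only [← Finset.mul_sum, Finset.sum_sub_distrib, Finset.sum_add_distrib]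
  -- the individual sums
  have t1 : ∑ i : ι, ∑ _j : ι, rl ((x.1 * y.1) i i) =
      -((Fintype.card ι : ℝ) * ip x.1 y.1) := by
    rw [Finset.sum_comm, Finset.sum_const, Finset.card_univ, nsmul_eq_mul, ← rl_sum]
    have : rl (∑ i, (x.1 * y.1) i i) = -ip x.1 y.1 := tr_mul_ip x y
    rw [this]
    ring
  have t2 : ∑ _i : ι, ∑ j : ι, rl ((y.1 * x.1) j j) =
      -((Fintype.card ι : ℝ) * ip x.1 y.1) := by
    rw [Finset.sum_const, Finset.card_univ, nsmul_eq_mul, ← rl_sum]
    have : rl (∑ i, (y.1 * x.1) i i) = -ip y.1 x.1 := tr_mul_ip y x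
    rw [this, ip_comm]
    ring
  have t3 : ∀ u v : cl A ι, ∑ i : ι, ∑ j : ι, rl (u.1 i i * ce (v.1 j j)) = 0 := by
    intro u v
    have e1 : ∀ i : ι, ∑ j : ι, rl (u.1 i i * ce (v.1 j j)) =
        rl (u.1 i i * ce (trace v.1)) := by
      intro i
      rw [← rl_sum, ← Finset.mul_sum]
      congr 2
      unfold trace
      rw [ce, map_sum]
      rfl
    simp only [e1]
    refine Finset.sum_eq_zero fun i _ => ?_
    rw [ce, cl_tr, mul_zero, rl, map_zero]
  have t4 : ∑ i : ι, ∑ j : ι, (if i = j then Coef.sg A * rl ((x.1 * y.1) i i) else 0) =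
      -(Coef.sg A * ip x.1 y.1) := by
    simp only [Finset.sum_ite_eq, Finset.mem_univ, if_true]
    rw [← Finset.mul_sum, ← rl_sum]
    have : rl (∑ i, (x.1 * y.1) i i) = -ip x.1 y.1 := tr_mul_ip x y
    rw [this]
    ring
  have t5 : ∑ i : ι, ∑ j : ι, (if i = j then Coef.sg A * rl ((y.1 * x.1) i i) else 0) =
      -(Coef.sg A * ip x.1 y.1) := by
    simp only [Finset.sum_ite_eq, Finset.mem_univ, if_true]
    rw [← Finset.mul_sum, ← rl_sum]
    have : rl (∑ i, (y.1 * x.1) i i) = -ip y.1 x.1 := tr_mul_ip y x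
    rw [this, ip_comm]
    ring
  have t6 : ∑ i : ι, ∑ j : ι, rl (x.1 i j * star (y.1 i j)) = ip x.1 y.1 := rfl
  have t7 : ∑ i : ι, ∑ j : ι, rl (y.1 i j * star (x.1 i j)) = ip x.1 y.1 := ip_comm _ _
  rw [t1, t2, t3, t3, t4, t5, t6, t7]
  ring

theorem cl_compact [Nonempty ι]
    (h : 2 * Coef.sg A < (Fintype.card ι : ℝ) * Coef.m A) : CompactSemisimple (cl A ι) := by
  intro x hx
  have h1 := Qf_cl x x
  rw [Qf_apply] at h1
  have h3 := ip_self_nonneg x.1
  have h4 : ip x.1 x.1 ≠ 0 := by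
    intro h0
    exact hx (Subtype.ext (ip_self_eq_zero h0))
  have h6 : 0 < ip x.1 x.1 := lt_of_le_of_ne h3 (Ne.symm h4)
  have h7 : 0 < (Fintype.card ι : ℝ) * Coef.m A - 2 * Coef.sg A := by linarith
  have := mul_pos h7 h6
  linarith

end Pool.Agent.EinS
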