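import Pool.Agent.EinS.ClUp

/-!
# The Casimir operator of a subalgebra of the lower block
-/

namespace Pool.Agent.EinS

open Matrix Pool.Agent.EStab

attribute [local instance 100] LieRing.ofAssociativeRing

section bound

variable {α β : Type*} [Fintype α] [Fintype β]

/-- A positive definite sum of squares. -/
theorem exists_bound' (φ : α → ((β → ℝ) →ₗ[ℝ] ℝ))
    (hφ : ∀ w : β → ℝ, (∀ i, φ i w = 0) → w = 0) :
    ∃ c : ℝ, 0 < c ∧ ∀ w : β → ℝ, c * ∑ j, w j ^ 2 ≤ ∑ i, (φ i w) ^ 2 := by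
  classical
  set G : (β → ℝ) → ℝ := fun v => ∑ i, (φ i v) ^ 2 with hG
  have hG0 : ∀ v, 0 ≤ G v := fun v => Finset.sum_nonneg fun i _ => sq_nonneg _
  have hGz : ∀ v, G v = 0 → v = 0 := by
    intro v hv
    apply hφ v
    intro i
    rw [hG] at hv
    dsimp only at hv
    rw [Finset.sum_eq_zero_iff_of_nonneg (fun i _ => sq_nonneg _)] at hv
    exact pow_eq_zero_iff (two_ne_zero) |>.1 (hv i (Finset.mem_univ i))
  have hGs : ∀ (t : ℝ) v, G (t • v) = t ^ 2 * G v := by
    intro t v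
    rw [hG]
    dsimp only
    rw [Finset.mul_sum]
    refine Finset.sum_congr rfl fun i _ => ?_
    rw [map_smul, smul_eq_mul, mul_pow]
  have hGc : Continuous G := by
    rw [hG]
    exact continuous_finset_sum _ fun i _ =>
      ((φ i).continuous_of_finiteDimensional).pow 2
  set K : Set (β → ℝ) := {v | ∑ j, v j ^ 2 = 1} with hK
  have hKc : IsCompact K := by
    have h1 := isCompact_univ_pi (fun _ : β =>
      (isCompact_Icc : IsCompact (Set.Icc (-1 : ℝ) 1)))
    refine h1.of_isClosed_subset ?_ ?_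
    · exact isClosed_eq (continuous_finset_sum _ fun j _ => (continuous_apply j).pow 2)
        continuous_const
    · intro v hv j _
      have h2 : v j ^ 2 ≤ ∑ j, v j ^ 2 :=
        Finset.single_le_sum (f := fun j => v j ^ 2) (fun j _ => sq_nonneg _)
          (Finset.mem_univ j)
      have h3 : ∑ j, v j ^ 2 = 1 := hv
      rw [h3] at h2
      exact abs_le.1 ((sq_le_one_iff_abs_le_one _).1 h2)
  have hnorm : ∀ v : β → ℝ, ∑ j, v j ^ 2 ≠ 0 →
      (Real.sqrt (∑ j, v j ^ 2))⁻¹ • v ∈ K := by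
    intro v hv
    have h0 : 0 ≤ ∑ j, v j ^ 2 := Finset.sum_nonneg fun j _ => sq_nonneg _
    change ∑ j, ((Real.sqrt (∑ j, v j ^ 2))⁻¹ • v) j ^ 2 = 1
    simp only [Pi.smul_apply, smul_eq_mul, mul_pow]
    rw [← Finset.mul_sum, inv_pow, Real.sq_sqrt h0, inv_mul_cancel₀ hv]
  by_cases hne : K.Nonempty
  · obtain ⟨v0, hv0, hmin⟩ := hKc.exists_isMinOn hne hGc.continuousOn
    have hpos : 0 < G v0 := by
      rcases (hG0 v0).lt_or_eq with h | h
      · exact h
      · exfalso
        have h1 := hGz v0 h.symm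
        have h2 : ∑ j, v0 j ^ 2 = 1 := hv0
        rw [h1] at h2
        simp at h2
    refine ⟨G v0, hpos, fun v => ?_⟩
    by_cases hv : ∑ j, v j ^ 2 = 0
    · rw [hv, mul_zero]
      exact hG0 v
    · have h1 := hmin (hnorm v hv)
      have h0 : 0 ≤ ∑ j, v j ^ 2 := Finset.sum_nonneg fun j _ => sq_nonneg _
      change G v0 ≤ G _ at h1
      rw [hGs, inv_pow, Real.sq_sqrt h0] at h1
      have h2 : 0 < ∑ j, v j ^ 2 := lt_of_le_of_ne h0 (Ne.symm hv)
      change G v0 * ∑ j, v j ^ 2 ≤ G v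
      rwa [inv_mul_eq_div, le_div_iff₀ h2] at h1
  · refine ⟨1, one_pos, fun v => ?_⟩
    have hv : ∑ j, v j ^ 2 = 0 := by
      by_contra hv
      exact hne ⟨_, hnorm v hv⟩
    rw [hv, mul_zero]
    exact hG0 v

end bound

variable {A : Type} [Ring A] [StarRing A] [Algebra ℝ A] [Cen A] [Coef A]
variable {n k : ℕ}

theorem coef_finite (A : Type) [Ring A] [StarRing A] [Algebra ℝ A] [Cen A] [Coef A] :
    Module.Finite ℝ A := by
  classical
  refine ⟨⟨Finset.univ.image (Coef.b : Fin (Coef.m A) → A), ?_⟩⟩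
  rw [eq_top_iff]
  intro x _
  rw [Coef.exp x]
  refine Submodule.sum_mem _ fun i _ => Submodule.smul_mem _ _ (Submodule.subset_span ?_)
  simp

instance cl_finite {ι : Type} [Fintype ι] [DecidableEq ι] : Module.Finite ℝ (cl A ι) := by
  haveI := coef_finite A
  haveI : Module.Finite ℝ (Matrix ι ι A) := inferInstance
  exact inferInstanceAs (Module.Finite ℝ (cl A ι).toSubmodule)

/-- The coordinates of a row. -/
noncomputable def rowOf (w : Fin k × Fin (Coef.m A) → ℝ) : Matrix (Fin 1) (Fin k) A :=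
  of fun _ j => ∑ μ, w (j, μ) • Coef.b μ

theorem rl_b (i j : Fin (Coef.m A)) : rl ((Coef.b i : A) * star (Coef.b j)) =
    if i = j then 1 else 0 := Coef.orth i j

theorem rowOf_coord (w : Fin k × Fin (Coef.m A) → ℝ) (j : Fin k) (μ : Fin (Coef.m A)) :
    rl (rowOf w 0 j * star (Coef.b μ)) = w (j, μ) := by
  rw [rowOf, Matrix.of_apply, Finset.sum_mul, rl_sum]
  simp only [smul_mul_assoc, rl_smul, rl_b]
  simp

theorem ip_rowOf (w : Fin k × Fin (Coef.m A) → ℝ) : ip (rowOf w) (rowOf w) = ∑ j, w j ^ 2 := by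
  rw [ip_coord, Fintype.sum_prod_type]
  simp only [Finset.univ_unique, Fin.default_eq_zero, Finset.sum_singleton, rowOf_coord]
  refine Finset.sum_congr rfl fun j _ => Finset.sum_congr rfl fun μ _ => (sq _).symm

theorem rowOf_surj (v : Matrix (Fin 1) (Fin k) A) : ∃ w : Fin k × Fin (Coef.m A) → ℝ,
    rowOf w = v := by
  refine ⟨fun p => rl (v 0 p.1 * star (Coef.b p.2)), ?_⟩
  ext i j
  rw [Subsingleton.elim i 0]
  exact (Coef.exp (v 0 j)).symm

/-- A positive definite sum of squares of rows. -/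
theorem exists_boundA {d : ℕ} (g : Fin d → Matrix (Fin k) (Fin k) A)
    (hg : ∀ v : Matrix (Fin 1) (Fin k) A, (∀ i, v * g i = 0) → v = 0) :
    ∃ c : ℝ, 0 < c ∧ ∀ v : Matrix (Fin 1) (Fin k) A,
      c * ip v v ≤ ∑ i, ip (v * g i) (v * g i) := by
  let R : (Fin k × Fin (Coef.m A) → ℝ) →ₗ[ℝ] Matrix (Fin 1) (Fin k) A :=
    { toFun := rowOf
      map_add' := fun w w' => by
        ext i j
        rw [Matrix.add_apply, rowOf, rowOf, rowOf, Matrix.of_apply, Matrix.of_apply,
          Matrix.of_apply, ← Finset.sum_add_distrib]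
        exact Finset.sum_congr rfl fun μ _ => add_smul _ _ _
      map_smul' := fun c w => by
        ext i j
        rw [Matrix.smul_apply, rowOf, rowOf, Matrix.of_apply, Matrix.of_apply,
          Finset.smul_sum]
        exact Finset.sum_congr rfl fun μ _ => by
          rw [RingHom.id_apply, smul_smul]
          rfl }
  let φ : (Fin d × Fin k × Fin (Coef.m A)) → ((Fin k × Fin (Coef.m A) → ℝ) →ₗ[ℝ] ℝ) := fun p =>
    { toFun := fun w => rl ((R w * g p.1) 0 p.2.1 * star (Coef.b p.2.2))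
      map_add' := fun w w' => by
        rw [map_add, Matrix.add_mul, Matrix.add_apply, add_mul, rl, map_add]
      map_smul' := fun c w => by
        rw [map_smul, Matrix.smul_mul, Matrix.smul_apply, smul_mul_assoc, rl_smul]
        rfl }
  have hsum : ∀ w, ∑ i, ip (rowOf w * g i) (rowOf w * g i) = ∑ p, (φ p w) ^ 2 := by
    intro w
    rw [Fintype.sum_prod_type]
    refine Finset.sum_congr rfl fun i _ => ?_
    rw [ip_coord, Fintype.sum_prod_type]
    simp only [Finset.univ_unique, Fin.default_eq_zero, Finset.sum_singleton]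
    refine Finset.sum_congr rfl fun j _ => Finset.sum_congr rfl fun μ _ => (sq _).symm
  have hz : ∀ w, (∀ p, φ p w = 0) → w = 0 := by
    intro w hw
    have h1 : rowOf w = 0 := by
      apply hg
      intro i
      apply ip_self_eq_zero
      rw [ip_coord]
      simp only [Finset.univ_unique, Fin.default_eq_zero, Finset.sum_singleton]
      refine Finset.sum_eq_zero fun j _ => Finset.sum_eq_zero fun μ _ => ?_
      have h2 : rl ((rowOf w * g i) 0 j * star (Coef.b μ)) = 0 := hw (i, j, μ)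
      rw [h2, mul_zero]
    funext p
    have h2 := rowOf_coord w p.1 p.2
    rw [h1, Matrix.zero_apply, zero_mul, rl, map_zero] at h2
    exact h2.symm
  obtain ⟨c, hc, hcw⟩ := exists_bound' φ hz
  refine ⟨c, hc, fun v => ?_⟩
  obtain ⟨w, rfl⟩ := rowOf_surj v
  rw [ip_rowOf, hsum]
  exact hcw w

/-- Cauchy and Schwarz. -/
theorem ip_sum_smul {α β γ : Type*} [Fintype α] [Fintype β] [Fintype γ] (a : γ → ℝ)
    (u : γ → Matrix α β A) :
    ip (∑ s, a s • u s) (∑ s, a s • u s) ≤ (∑ s, a s ^ 2) * ∑ s, ip (u s) (u s) := by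
  have h1 : ∀ i j μ, rl ((∑ s, a s • u s) i j * star (Coef.b μ)) *
      rl ((∑ s, a s • u s) i j * star (Coef.b μ)) ≤
      (∑ s, a s ^ 2) * ∑ s, rl (u s i j * star (Coef.b μ)) * rl (u s i j * star (Coef.b μ)) := by
    intro i j μ
    have h2 : rl ((∑ s, a s • u s) i j * star (Coef.b μ)) =
        ∑ s, a s * rl (u s i j * star (Coef.b μ)) := by
      rw [Matrix.sum_apply, Finset.sum_mul, rl_sum]
      refine Finset.sum_congr rfl fun s _ => ?_
      rw [Matrix.smul_apply, smul_mul_assoc, rl_smul]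
    rw [h2, ← sq]
    refine (Finset.sum_mul_sq_le_sq_mul_sq Finset.univ _ _).trans (le_of_eq ?_)
    congr 1
    exact Finset.sum_congr rfl fun s _ => sq _
  rw [ip_coord]
  refine (Finset.sum_le_sum fun i _ => Finset.sum_le_sum fun j _ =>
    Finset.sum_le_sum fun μ _ => h1 i j μ).trans (le_of_eq ?_)
  simp only [← Finset.mul_sum]
  congr 1
  have h3 : ∀ s, ip (u s) (u s) = ∑ i, ∑ j, ∑ μ, rl (u s i j * star (Coef.b μ)) *
      rl (u s i j * star (Coef.b μ)) := fun s => ip_coord _ _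
  simp only [h3]
  symm
  rw [Finset.sum_comm]
  refine Finset.sum_congr rfl fun i _ => ?_
  rw [Finset.sum_comm]
  refine Finset.sum_congr rfl fun j _ => ?_
  rw [Finset.sum_comm]

/-! ### The embedding of the lower block -/

theorem lowHomA_val (x : cl A (Fin k)) : (lowHomA A n k x).1 = fromBlocks 0 0 0 x.1 := rfl

theorem lowHomA_mem (x : cl A (Fin k)) : lowHomA A n k x ∈ lowA A n k := by
  refine ⟨fun i r => rfl, 0, fun i j => ?_⟩
  rw [map_zero, ite_self]
  rfl

theorem map_le_lowA (h : LieSubalgebra ℝ (cl A (Fin k))) :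
    h.map (lowHomA A n k) ≤ lowA A n k := by
  rintro x ⟨y, _, rfl⟩
  exact lowHomA_mem y

/-- `h` annihilates no nonzero vector of `A^k`. -/
def NoFixedA (h : LieSubalgebra ℝ (cl A (Fin k))) : Prop :=
  ∀ v : Fin k → A, (∀ x ∈ h, x.1 *ᵥ v = 0) → v = 0

theorem mem_map_low {h : LieSubalgebra ℝ (cl A (Fin k))} {b : cl A (Fin n ⊕ Fin k)}
    (hb : b ∈ h.map (lowHomA A n k)) : ∃ B ∈ h, b = lowHomA A n k B := by
  obtain ⟨y, hy, rfl⟩ := hb
  exact ⟨y, hy, rfl⟩

theorem lie_lowHom_off (B : cl A (Fin k)) (Y : Matrix (Fin n) (Fin k) A) :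
    ⁅lowHomA A n k B, offA Y⁆ = offA (-(Y * B.1)) := by
  have h0 : (lowHomA A n k B).1 =
      fromBlocks (Matrix.diagonal (fun _ => ce (0 : A))) 0 0 B.1 := by
    rw [lowHomA_val, ce, map_zero, Matrix.diagonal_zero]
  rw [lie_low_off h0 B.2.1, ce, map_zero, Matrix.diagonal_zero, zero_sub, Matrix.mul_neg]

/-- Lower bound for the Casimir operator of `h` on `p`, uniform in `n`. -/
theorem exists_lambdaA (h : LieSubalgebra ℝ (cl A (Fin k))) (hf : NoFixedA h) :
    ∃ c : ℝ, 0 < c ∧ ∀ n : ℕ, 0 < CN A n k → NeZero n →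
      ∀ (m : ℕ) (b : Fin m → cl A (Fin n ⊕ Fin k)),
      IsFrame (h.map (lowHomA A n k)).toSubmodule b → ∀ v : Matrix (Fin 1) (Fin k) A,
        c / CN A n k * ip v v ≤
          ∑ i, ip (v * (b i).1.toBlocks₂₂) (v * (b i).1.toBlocks₂₂) := by
  set d := Module.finrank ℝ h.toSubmodule with hd
  let e := Module.finBasis ℝ h.toSubmodule
  have hfix : ∀ v : Matrix (Fin 1) (Fin k) A, (∀ i, v * (e i).1.1 = 0) → v = 0 := by
    intro v hv
    have hv' : (fun j => star (v 0 j)) = 0 := by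
      apply hf
      intro x hx
      have h1 : ∀ i, (e i).1.1 *ᵥ (fun j => star (v 0 j)) = 0 := by
        intro i
        funext j
        have h2 := congrFun (congrFun (hv i) 0) j
        rw [Matrix.mul_apply, Matrix.zero_apply] at h2
        have h3 : ∑ r, (e i).1.1 j r * star (v 0 r) = -star (∑ r, v 0 r * (e i).1.1 r j) := by
          rw [star_sum, ← Finset.sum_neg_distrib]
          refine Finset.sum_congr rfl fun r _ => ?_
          rw [star_mul, cl_skew, neg_mul, neg_neg]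
        change ∑ r, (e i).1.1 j r * star (v 0 r) = 0
        rw [h3, h2, star_zero, neg_zero]
      have h4 : x = ∑ i, e.repr ⟨x, hx⟩ i • (e i).1 := by
        have h5 := congrArg (fun y : h.toSubmodule => (y : cl A (Fin k))) (e.sum_repr ⟨x, hx⟩)
        simp only [Submodule.coe_sum, Submodule.coe_smul] at h5
        exact h5.symm
      let φ : cl A (Fin k) →ₗ[ℝ] (Fin k → A) :=
        { toFun := fun y => y.1 *ᵥ (fun j => star (v 0 j))
          map_add' := fun y z => Matrix.add_mulVec _ _ _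
          map_smul' := fun c y => Matrix.smul_mulVec _ _ _ }
      change φ x = 0
      rw [h4, map_sum]
      refine Finset.sum_eq_zero fun i _ => ?_
      rw [map_smul]
      change _ • ((e i).1.1 *ᵥ (fun j => star (v 0 j))) = 0
      rw [h1, smul_zero]
    ext i j
    rw [Subsingleton.elim i 0, Matrix.zero_apply]
    have h2 := congrFun hv' j
    exact star_eq_zero.1 h2
  obtain ⟨c, hc, hcv⟩ := exists_boundA (fun i => (e i).1.1) hfix
  set C : ℝ := 1 + ∑ i, ip (e i).1.1 (e i).1.1 with hC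
  have hC0 : 0 < C := by
    have : 0 ≤ ∑ i, ip (e i).1.1 (e i).1.1 :=
      Finset.sum_nonneg fun i _ => ip_self_nonneg _
    linarith
  refine ⟨c / C, div_pos hc hC0, fun n hM hn m b hb v => ?_⟩
  set V := ∑ i, ip (v * (b i).1.toBlocks₂₂) (v * (b i).1.toBlocks₂₂) with hV
  have hV0 : 0 ≤ V := Finset.sum_nonneg fun i _ => ip_self_nonneg _
  have key : ∀ i, ip (v * (e i).1.1) (v * (e i).1.1) ≤
      CN A n k * ip (e i).1.1 (e i).1.1 * V := by
    intro i
    set z := lowHomA A n k (e i).1 with hz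
    have hzm : z ∈ (h.map (lowHomA A n k)).toSubmodule := ⟨(e i).1, (e i).2, rfl⟩
    have hq : Qf _ z z = CN A n k * ip (e i).1.1 (e i).1.1 := by
      rw [Qf_A, hz, lowHomA_val, ip_blocks, ip_zero_left, ip_zero_left, ip_zero_left]
      ring
    have hpar : Qf _ z z = ∑ s, Qf _ z (b s) ^ 2 := by
      rw [hb.parseval hzm]
      exact Finset.sum_congr rfl fun s _ => (sq _).symm
    have hexp : v * (e i).1.1 = ∑ s, Qf _ z (b s) • (v * (b s).1.toBlocks₂₂) := by
      let φ : cl A (Fin n ⊕ Fin k) →ₗ[ℝ] Matrix (Fin 1) (Fin k) A :=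
        { toFun := fun y => v * y.1.toBlocks₂₂
          map_add' := fun y z => by
            rw [← Matrix.mul_add]
            rfl
          map_smul' := fun c y => by
            rw [← Matrix.mul_smul]
            rfl }
      have h1 := congrArg φ (hb.exp z hzm)
      rw [map_sum] at h1
      refine Eq.trans (b := φ z) rfl (h1.trans ?_)
      refine Finset.sum_congr rfl fun s _ => ?_
      rw [map_smul]
      rfl
    rw [hexp, ← hq, hpar]
    exact ip_sum_smul _ _
  have h4 : ∑ i, ip (v * (e i).1.1) (v * (e i).1.1) ≤ CN A n k * C * V := by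
    calc ∑ i, ip (v * (e i).1.1) (v * (e i).1.1)
        ≤ ∑ i, CN A n k * ip (e i).1.1 (e i).1.1 * V :=
          Finset.sum_le_sum fun i _ => key i
      _ = CN A n k * (∑ i, ip (e i).1.1 (e i).1.1) * V := by
          rw [← Finset.sum_mul, ← Finset.mul_sum]
      _ ≤ _ := by
          refine mul_le_mul_of_nonneg_right ?_ hV0
          refine mul_le_mul_of_nonneg_left ?_ hM.le
          rw [hC]
          linarith
  have h5 := (hcv v).trans h4
  rw [div_div, div_mul_eq_mul_div, div_le_iff₀ (by positivity)]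
  calc c * ip v v ≤ CN A n k * C * V := h5
    _ = _ := by ring

/-- The Casimir operator of `h` on `p`. -/
theorem casH_A [NeZero n] (hC : 0 < CN A n k) {h : LieSubalgebra ℝ (cl A (Fin k))} {c : ℝ}
    {m : ℕ} {b : Fin m → cl A (Fin n ⊕ Fin k)}
    (hb : IsFrame (h.map (lowHomA A n k)).toSubmodule b)
    (hc : ∀ v : Matrix (Fin 1) (Fin k) A, c / CN A n k * ip v v ≤
      ∑ i, ip (v * (b i).1.toBlocks₂₂) (v * (b i).1.toBlocks₂₂))
    {y : cl A (Fin n ⊕ Fin k)} (hy : y ∈ pp (lowA A n k) (uppA A n k)) :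
    c / CN A n k * Qf _ y y ≤ ∑ i, Qf _ ⁅b i, y⁆ ⁅b i, y⁆ := by
  have hy' := off_diagA hC (orth_iff.2 hy)
  set Y := y.1.toBlocks₁₂ with hY
  have h1 : ∀ i, Qf _ ⁅b i, y⁆ ⁅b i, y⁆ = (2 * CN A n k) *
      ip (Y * (b i).1.toBlocks₂₂) (Y * (b i).1.toBlocks₂₂) := by
    intro i
    obtain ⟨B, -, hB⟩ := mem_map_low (hb.mem i)
    rw [hy', hB, lie_lowHom_off, Qf_offA]
    have h3 : (offA (-(Y * B.1))).1.toBlocks₁₂ = -(Y * B.1) := rfl
    have h4 : (lowHomA A n k B).1.toBlocks₂₂ = B.1 := rfl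
    rw [h3, h4, ip_neg, ip_neg_right, neg_neg]
  have h6 : Qf _ y y = 2 * CN A n k * ip Y Y := by
    conv_lhs =>
      enter [2]
      rw [hy']
    rw [Qf_offA]
  simp only [h1]
  rw [← Finset.mul_sum, h6]
  have h7 : ∀ X : Matrix (Fin n) (Fin k) A,
      ip X X = ∑ a, ip (of fun (_ : Fin 1) j => X a j) (of fun (_ : Fin 1) j => X a j) := by
    intro X
    unfold ip
    refine Finset.sum_congr rfl fun a _ => ?_
    rw [Fin.sum_univ_one]
    rfl
  have h8 : c / CN A n k * ip Y Y ≤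
      ∑ i, ip (Y * (b i).1.toBlocks₂₂) (Y * (b i).1.toBlocks₂₂) := by
    have h9 : ∀ i, ip (Y * (b i).1.toBlocks₂₂) (Y * (b i).1.toBlocks₂₂) =
        ∑ a, ip ((of fun (_ : Fin 1) j => Y a j) * (b i).1.toBlocks₂₂)
          ((of fun (_ : Fin 1) j => Y a j) * (b i).1.toBlocks₂₂) := by
      intro i
      rw [h7]
      refine Finset.sum_congr rfl fun a _ => ?_
      congr 1
    simp only [h9]
    rw [h7 Y, Finset.mul_sum, Finset.sum_comm]
    exact Finset.sum_le_sum fun a _ => hc _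
  have h10 := mul_le_mul_of_nonneg_left h8 (show (0 : ℝ) ≤ 2 * CN A n k by positivity)
  calc c / CN A n k * (2 * CN A n k * ip Y Y) = 2 * CN A n k * (c / CN A n k * ip Y Y) := by ring
    _ ≤ _ := h10

end Pool.Agent.EinS
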