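import Pool.Agent.EinS.ClLam

/-!
# Einstein metrics on `SU(N)/H`, `Sp(N)/H` (and `SO(N)/H`) in the stable range
-/

namespace Pool.Agent.EinS

open Matrix Pool.Agent.EStab

attribute [local instance 100] LieRing.ofAssociativeRing

variable {A : Type} [Ring A] [StarRing A] [Algebra ℝ A] [Cen A] [Coef A]
variable {n k : ℕ}

theorem CN_compact [NeZero n] (hC : 0 < CN A n k) :
    CompactSemisimple (cl A (Fin n ⊕ Fin k)) := by
  refine cl_compact ?_
  unfold CN at hC
  rw [Fintype.card_sum, Fintype.card_fin, Fintype.card_fin, Nat.cast_add]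
  linarith

/-- The quantitative statement. -/
theorem cl_core (hk : 1 ≤ k) (hk2 : 2 * Coef.sg A ≤ k * Coef.m A)
    {h : LieSubalgebra ℝ (cl A (Fin k))} {c θ : ℝ} (t0 : 0 < θ)
    (t1 : θ ≤ 1) (t2 : θ * (k * Coef.m A - Coef.sg A + 1) ≤ 2 * c) (hn5 : 5 ≤ n)
    (hkn : 3750 * (k * Coef.m A - Coef.sg A + 1 : ℝ) ≤ θ ^ 2 * CN A n k)
    (hcv : ∀ (m : ℕ) (b : Fin m → cl A (Fin n ⊕ Fin k)),
      IsFrame (h.map (lowHomA A n k)).toSubmodule b → ∀ v : Matrix (Fin 1) (Fin k) A,
        c / CN A n k * ip v v ≤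
          ∑ i, ip (v * (b i).1.toBlocks₂₂) (v * (b i).1.toBlocks₂₂)) :
    HasEinsteinMetric (cl A (Fin n ⊕ Fin k)) (h.map (lowHomA A n k)).toSubmodule
      (pairAuts (lowA A n k) (uppA A n k) (h.map (lowHomA A n k))) := by
  haveI : NeZero n := ⟨by omega⟩
  have hm1 : (1 : ℝ) ≤ Coef.m A := by exact_mod_cast Coef.m_pos (A := A)
  have hk1 : (1 : ℝ) ≤ k := by exact_mod_cast hk
  have hn5' : (5 : ℝ) ≤ n := by exact_mod_cast hn5
  have hsg := Coef.sg_le (A := A)
  have hsg' := Coef.sg_ge (A := A)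
  have hep := Coef.ep_nonneg (A := A)
  have hep' := Coef.ep_le (A := A)
  have hkm : (1 : ℝ) ≤ k * Coef.m A := by nlinarith
  have hkm' : (Coef.m A : ℝ) ≤ k * Coef.m A := by nlinarith
  have hpos : (0 : ℝ) < k * Coef.m A - Coef.sg A + 1 := by linarith
  have hθ2 : 0 < θ ^ 2 := by positivity
  have hC : 0 < CN A n k := by
    by_contra hcon
    have : θ ^ 2 * CN A n k ≤ 0 := mul_nonpos_of_nonneg_of_nonpos hθ2.le (not_lt.1 hcon)
    linarith
  have hg := CN_compact (k := k) hC
  have he2 : 2 * Coef.ep A / n ≤ 1 := by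
    rw [div_le_one (by linarith)]
    linarith
  have he0 : 0 ≤ 2 * Coef.ep A / n := by positivity
  set E : ℝ := 2 * Coef.ep A / n with hE
  have hkap : kap A n k = (k * Coef.m A - Coef.sg A + E) / (2 * CN A n k) := rfl
  refine einstein_pair3 (κ := kap A n k) (θ := θ) ?_ t0 t1 ?_
  · refine ⟨hg, symPairA hC, map_le_lowA h, ?_, ?_, ?_, ?_, ?_, ?_, ?_, ?_⟩
    · intro m a ha x hx
      exact casL_A hC ha hx
    · intro m f hf x hx
      refine le_trans ?_ (low_A hC hf hx)
      refine mul_le_mul_of_nonneg_right ?_ (Qf_nonneg hg x)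
      rw [hkap, le_div_iff₀ hC]
      have e : (1 - 3 * ((k * Coef.m A - Coef.sg A + E) / (2 * CN A n k))) * CN A n k =
          CN A n k - 3 / 2 * (k * Coef.m A - Coef.sg A + E) := by
        field_simp
      rw [e]
      unfold CN
      linarith
    · intro m f hf x hx
      rw [small_A hC hf hx]
      refine mul_le_mul_of_nonneg_right ?_ (Qf_nonneg hg x)
      rw [hkap]
      have e : 4 * ((k * Coef.m A - Coef.sg A + E) / (2 * CN A n k)) =
          2 * (k * Coef.m A - Coef.sg A + E) / CN A n k := by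
        field_simp
        ring
      rw [e, div_le_div_iff_of_pos_right hC]
      linarith
    · intro m b hb x hx
      refine le_trans ?_ (casH_A hC hb (hcv m b hb) hx)
      refine mul_le_mul_of_nonneg_right ?_ (Qf_nonneg hg x)
      rw [hkap, ← mul_div_assoc, mul_comm (2 : ℝ), ← div_div, div_right_comm,
        div_le_div_iff_of_pos_right hC, div_le_iff₀ (by norm_num)]
      have : θ * (k * Coef.m A - Coef.sg A + E) ≤ θ * (k * Coef.m A - Coef.sg A + 1) :=
        mul_le_mul_of_nonneg_left (by linarith) t0.le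
      linarith
    · intro x hx
      exact perf_A (by omega) hx
    · intro F hs hi
      exact forms_A hn5 hg F hs hi
    · exact ne_A (by omega)
    · rw [hkap]
      exact div_nonneg (by linarith) (by linarith)
  · rw [hkap, ← mul_div_assoc, div_le_iff₀ (by linarith)]
    linarith

/-- For every subalgebra `h` of `su(k)`, `sp(k)` or `so(k)` which annihilates no nonzero vector and
every large `n`, the space `G(n + k)/H` has an invariant Einstein metric. -/
theorem cl_large (hk : 1 ≤ k) (hk2 : 2 * Coef.sg A ≤ k * Coef.m A)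
    {h : LieSubalgebra ℝ (cl A (Fin k))} (hf : NoFixedA h) :
    ∃ n0 : ℕ, ∀ n ≥ n0, HasEinsteinMetric (cl A (Fin n ⊕ Fin k))
      (h.map (lowHomA A n k)).toSubmodule
      (pairAuts (lowA A n k) (uppA A n k) (h.map (lowHomA A n k))) := by
  obtain ⟨c, hc, hcv⟩ := exists_lambdaA h hf
  have hm1 : (1 : ℝ) ≤ Coef.m A := by exact_mod_cast Coef.m_pos (A := A)
  have hk1 : (1 : ℝ) ≤ k := by exact_mod_cast hk
  have hsg := Coef.sg_le (A := A)
  have hkm : (1 : ℝ) ≤ k * Coef.m A := by nlinarith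
  set P : ℝ := k * Coef.m A - Coef.sg A + 1 with hP
  have hpos : 0 < P := by linarith
  set θ : ℝ := min 1 (2 * c / P) with hθ
  have t1 : θ ≤ 1 := min_le_left _ _
  have t2 : θ ≤ 2 * c / P := min_le_right _ _
  have t0 : 0 < θ := lt_min one_pos (div_pos (by linarith) hpos)
  rw [le_div_iff₀ hpos] at t2
  refine ⟨5 + ⌈3750 * P / θ ^ 2 + 2⌉₊, fun n hn => ?_⟩
  have hn5 : 5 ≤ n := by omega
  have hn1 : (5 : ℝ) + (3750 * P / θ ^ 2 + 2) ≤ n := by
    have h1 : ((5 + ⌈3750 * P / θ ^ 2 + 2⌉₊ : ℕ) : ℝ) ≤ n := by exact_mod_cast hn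
    have h2 := Nat.le_ceil (3750 * P / θ ^ 2 + 2)
    push_cast at h1
    linarith
  have hn0 : (0 : ℝ) ≤ n := Nat.cast_nonneg n
  have h1 : 3750 * P / θ ^ 2 ≤ CN A n k := by
    unfold CN
    nlinarith
  rw [div_le_iff₀ (by positivity), mul_comm (CN A n k)] at h1
  haveI : NeZero n := ⟨by omega⟩
  have hC : 0 < CN A n k := by
    by_contra hcon
    have : θ ^ 2 * CN A n k ≤ 0 :=
      mul_nonpos_of_nonneg_of_nonpos (by positivity) (not_lt.1 hcon)
    linarith
  exact cl_core hk hk2 t0 t1 t2 hn5 h1 (hcv n hC inferInstance)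

/-- The case of a subgroup `H × L` with `L` the group of the upper block. -/
theorem cl_casimirLE [NeZero n] {s t : ℝ} (hC : 0 < CN A n k) (hs : kap A n k ≤ t)
    (ht : CN A n k * (1 - s) ≤ n * Coef.m A) :
    CasimirLE (lowA A n k) (uppA A n k) s t := by
  have hg := CN_compact (k := k) hC
  refine casimirLE_of hg (symPairA hC) ?_ ?_
  · intro m a ha x hx
    rw [casL_A hC ha hx]
    exact mul_le_mul_of_nonneg_right (by linarith) (Qf_nonneg hg x)
  · intro m f hf x hx
    refine le_trans ?_ (low_A hC hf hx)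
    refine mul_le_mul_of_nonneg_right ?_ (Qf_nonneg hg x)
    rw [le_div_iff₀ hC]
    linarith

end Pool.Agent.EinS
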