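import Pool.Agent.EinS.Pair2

/-!
# Symmetric pairs: the Casimir operators from the action on `p`
-/

namespace Pool.Agent.EinS

open Matrix Pool.Agent.EStab

variable {L : Type*} [LieRing L] [LieAlgebra ℝ L]

/-- Frames of a symmetric pair. -/
structure Fr (k l : LieSubalgebra ℝ L) {α β γ : Type} [Fintype α] [DecidableEq α] [Fintype β]
    [DecidableEq β] [Fintype γ] [DecidableEq γ] (ek : α → L) (el : β → L) (f : γ → L) :
    Prop where
  compact : CompactSemisimple L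
  pair : SymPair k l
  fk : IsFrame k.toSubmodule ek
  fl : IsFrame l.toSubmodule el
  fp : IsFrame (pp k l) f

section

variable {k l : LieSubalgebra ℝ L} {α β γ : Type} [Fintype α] [DecidableEq α] [Fintype β]
  [DecidableEq β] [Fintype γ] [DecidableEq γ] {ek : α → L} {el : β → L} {f : γ → L}

theorem Fr.orth_kl (s : Fr k l ek el f) {x y : L} (hx : x ∈ k) (hy : y ∈ l) :
    Qf L x y = 0 := by
  rw [Qf_apply, s.pair.orth x hx y hy, neg_zero]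

theorem Fr.orth_kp (_s : Fr k l ek el f) {x y : L} (hx : x ∈ k) (hy : y ∈ pp k l) :
    Qf L x y = 0 := by
  rw [Qf_symm]
  exact hy x (Submodule.mem_sup_left hx)

theorem Fr.lie_kp (s : Fr k l ek el f) {x y : L} (hx : x ∈ k) (hy : y ∈ pp k l) :
    ⁅x, y⁆ ∈ pp k l := by
  intro z hz
  obtain ⟨u, hu, v, hv, rfl⟩ := Submodule.mem_sup.1 hz
  rw [Qf_lie', lie_add, s.pair.comm x hx v hv, add_zero, hy _ (Submodule.mem_sup_left ?_),
    neg_zero]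
  exact k.lie_mem hx hu

theorem Fr.lie_lp (s : Fr k l ek el f) {x y : L} (hx : x ∈ l) (hy : y ∈ pp k l) :
    ⁅x, y⁆ ∈ pp k l := by
  intro z hz
  obtain ⟨u, hu, v, hv, rfl⟩ := Submodule.mem_sup.1 hz
  have h0 : ⁅x, u⁆ = 0 := by
    rw [← lie_skew, s.pair.comm u hu x hx, neg_zero]
  rw [Qf_lie', lie_add, h0, zero_add, hy _ (Submodule.mem_sup_right ?_), neg_zero]
  exact l.lie_mem hx hv

theorem Fr.full (s : Fr k l ek el f) :
    IsFrame (⊤ : Submodule ℝ L) (Sum.elim (Sum.elim ek el) f) :=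
  (s.fk.sum s.fl fun _ hx _ hy => s.orth_kl hx hy).full s.fp

theorem Qf_flip (x y : L) : Qf L ⁅x, y⁆ ⁅x, y⁆ = Qf L ⁅y, x⁆ ⁅y, x⁆ := by
  rw [← lie_skew x y]
  simp only [map_neg, LinearMap.neg_apply, neg_neg]

/-- The Killing form on `k`. -/
theorem Fr.splitK (s : Fr k l ek el f) {x : L} (hx : x ∈ k) :
    Qf L x x = ∑ e, Qf L ⁅ek e, x⁆ ⁅ek e, x⁆ + ∑ i, Qf L ⁅x, f i⁆ ⁅x, f i⁆ := by
  rw [s.full.killing x x, Fintype.sum_sum_type, Fintype.sum_sum_type]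
  simp only [Sum.elim_inl, Sum.elim_inr]
  have h1 : ∑ e, Qf L ⁅x, el e⁆ ⁅x, el e⁆ = 0 := by
    refine Finset.sum_eq_zero fun e _ => ?_
    rw [s.pair.comm x hx _ (s.fl.mem e), map_zero]
  rw [h1, add_zero]
  congr 1
  exact Finset.sum_congr rfl fun e _ => Qf_flip _ _

/-- The two Casimir operators on `p`. -/
theorem Fr.casSum (s : Fr k l ek el f) {x : L} (hx : x ∈ pp k l) :
    ∑ e, Qf L ⁅ek e, x⁆ ⁅ek e, x⁆ + ∑ u, Qf L ⁅el u, x⁆ ⁅el u, x⁆ = 1 / 2 * Qf L x x := by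
  have h1 := s.full.killing x x
  rw [Fintype.sum_sum_type, Fintype.sum_sum_type] at h1
  simp only [Sum.elim_inl, Sum.elim_inr] at h1
  have h2 : ∑ i, Qf L ⁅x, f i⁆ ⁅x, f i⁆ = ∑ e, Qf L ⁅ek e, x⁆ ⁅ek e, x⁆ +
      ∑ u, Qf L ⁅el u, x⁆ ⁅el u, x⁆ := by
    have h3 : ∀ i, Qf L ⁅x, f i⁆ ⁅x, f i⁆ = ∑ e, Qf L ⁅ek e, x⁆ (f i) ^ 2 +
        ∑ u, Qf L ⁅el u, x⁆ (f i) ^ 2 := by
      intro i
      rw [s.full.parseval Submodule.mem_top, Fintype.sum_sum_type, Fintype.sum_sum_type]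
      simp only [Sum.elim_inl, Sum.elim_inr]
      have h4 : ∑ j, Qf L ⁅x, f i⁆ (f j) * Qf L ⁅x, f i⁆ (f j) = 0 := by
        refine Finset.sum_eq_zero fun j _ => ?_
        rw [Qf_apply, s.pair.symm _ _ _ (orth_iff.2 hx) (orth_iff.2 (s.fp.mem i))
          (orth_iff.2 (s.fp.mem j)), neg_zero, mul_zero]
      rw [h4, add_zero]
      congr 1
      · refine Finset.sum_congr rfl fun e _ => ?_
        rw [Qf_lie_cyc x]
        ring
      · refine Finset.sum_congr rfl fun u _ => ?_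
        rw [Qf_lie_cyc x]
        ring
    simp only [h3]
    rw [Finset.sum_add_distrib, Finset.sum_comm, Finset.sum_comm (s := Finset.univ)
      (t := Finset.univ) (f := fun i u => Qf L ⁅el u, x⁆ (f i) ^ 2)]
    congr 1
    · refine Finset.sum_congr rfl fun e _ => ?_
      rw [s.fp.parseval (s.lie_kp (s.fk.mem e) hx)]
      refine Finset.sum_congr rfl fun i _ => ?_
      ring
    · refine Finset.sum_congr rfl fun u _ => ?_
      rw [s.fp.parseval (s.lie_lp (s.fl.mem u) hx)]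
      refine Finset.sum_congr rfl fun i _ => ?_
      ring
  simp only [Qf_flip x] at h1
  simp only [Qf_flip x] at h2
  rw [h2] at h1
  linarith

end

/-- The hypotheses of the theorem on `G/(H × L)` in terms of the action on `p`. -/
theorem casimirLE_of [Module.Finite ℝ L] (hg : CompactSemisimple L) {k l : LieSubalgebra ℝ L}
    (hs : SymPair k l) {s t : ℝ}
    (hl : ∀ (n : ℕ) (a : Fin n → L), IsFrame l.toSubmodule a → ∀ x ∈ pp k l,
      (1 / 2 - t) * Qf L x x ≤ ∑ i, Qf L ⁅a i, x⁆ ⁅a i, x⁆)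
    (hk : ∀ (n : ℕ) (f : Fin n → L), IsFrame (pp k l) f → ∀ x ∈ k,
      (1 - s) * Qf L x x ≤ ∑ i, Qf L ⁅x, f i⁆ ⁅x, f i⁆) :
    CasimirLE k l s t := by
  intro n a ha ho
  obtain ⟨nk, ek, hek⟩ := exists_frame hg k.toSubmodule
  obtain ⟨nl, el, hel⟩ := exists_frame hg l.toSubmodule
  obtain ⟨np, f, hf⟩ := exists_frame hg (pp k l)
  have fr : Fr k l ek el f := ⟨hg, hs, hek, hel, hf⟩
  have ho' : ∀ i j, Qf L (a i) (a j) = if i = j then 1 else 0 := by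
    intro i j
    rw [Qf_apply, ho]
    split_ifs <;> norm_num
  have key := casimir_aux hg hek a ha (fun v => by
    have := bessel_fam hg ho' v
    simpa only [Qf_symm v] using this)
  refine ⟨fun x hx => ?_, fun x hx => ?_⟩
  · have h1 := fr.splitK hx
    have h2 := hk np f hf x hx
    have h4 := key x
    change ∑ i, Qf L ⁅a i, x⁆ ⁅a i, x⁆ ≤ s * Qf L x x
    linarith
  · have h1 := fr.casSum (orth_iff.1 hx)
    have h2 := hl nl el hel x (orth_iff.1 hx)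
    have h4 := key x
    change ∑ i, Qf L ⁅a i, x⁆ ⁅a i, x⁆ ≤ t * Qf L x x
    linarith

/-- The hypotheses of the theorem on `G/H` in terms of the action on `p`. -/
structure Hyp3 (k l h : LieSubalgebra ℝ L) (κ θ : ℝ) : Prop where
  compact : CompactSemisimple L
  pair : SymPair k l
  le : h ≤ k
  casL : ∀ (n : ℕ) (a : Fin n → L), IsFrame l.toSubmodule a →
    ∀ x ∈ pp k l, ∑ i, Qf L ⁅a i, x⁆ ⁅a i, x⁆ = (1 / 2 - κ) * Qf L x x
  lowK : ∀ (n : ℕ) (f : Fin n → L), IsFrame (pp k l) f →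
    ∀ x ∈ k, (1 - 3 * κ) * Qf L x x ≤ ∑ i, Qf L ⁅x, f i⁆ ⁅x, f i⁆
  small : ∀ (n : ℕ) (f : Fin n → L), IsFrame (pp k l) f →
    ∀ x ∈ l, ∑ i, Qf L ⁅x, f i⁆ ⁅x, f i⁆ ≤ 4 * κ * Qf L x x
  casH : ∀ (n : ℕ) (b : Fin n → L), IsFrame h.toSubmodule b →
    ∀ x ∈ pp k l, θ * κ * Qf L x x ≤ ∑ i, Qf L ⁅b i, x⁆ ⁅b i, x⁆
  perf : ∀ x ∈ l, x ∈ Submodule.span ℝ {z | ∃ u ∈ l, ∃ v ∈ l, ⁅u, v⁆ = z}
  forms : ∀ F : LinearMap.BilinForm ℝ L, (∀ x ∈ l, ∀ y ∈ l, F x y = F y x) →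
    (∀ x ∈ l, ∀ y ∈ l, ∀ z ∈ l, F ⁅x, y⁆ z = F x ⁅y, z⁆) →
    ∃ μ : ℝ, ∀ x ∈ l, ∀ y ∈ l, F x y = μ * Qf L x y
  ne : ∃ x ∈ l, x ≠ 0
  k0 : 0 ≤ κ

theorem Hyp3.hyp2 [Module.Finite ℝ L] {k l h : LieSubalgebra ℝ L} {κ θ : ℝ}
    (H : Hyp3 k l h κ θ) (k1 : κ ≤ 1 / 60) : Hyp2 k l h κ θ := by
  obtain ⟨nk, ek, hek⟩ := exists_frame H.compact k.toSubmodule
  obtain ⟨nl, el, hel⟩ := exists_frame H.compact l.toSubmodule
  obtain ⟨np, f, hf⟩ := exists_frame H.compact (pp k l)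
  refine ⟨H.compact, H.pair, H.le, ?_, ?_, H.casH, H.perf, H.forms, H.small, H.ne, H.k0, k1⟩
  · intro n a ha x hx
    have fr : Fr k l a el f := ⟨H.compact, H.pair, ha, hel, hf⟩
    have h1 := fr.splitK hx
    have h2 := H.lowK np f hf x hx
    linarith
  · intro ι _ _ a ha x hx
    have fr : Fr k l a el f := ⟨H.compact, H.pair, ha, hel, hf⟩
    have h1 := fr.casSum hx
    have h2 := H.casL nl el hel x hx
    linarith

/-- The metric near the bi-invariant one on `G/H`. -/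
theorem einstein_pair3 [Module.Finite ℝ L] {k l h : LieSubalgebra ℝ L} {κ θ : ℝ}
    (H : Hyp3 k l h κ θ) (t0 : 0 < θ) (t1 : θ ≤ 1) (kt : 7500 * κ ≤ θ ^ 2) :
    HasEinsteinMetric L h.toSubmodule (pairAuts k l h) := by
  have h1 : θ ^ 2 ≤ 1 := pow_le_one₀ t0.le t1
  exact einstein_pair2 (H.hyp2 (by linarith)) t0 t1 kt

end Pool.Agent.EinS
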