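import Pool.Agent.EinS.ClKil2
import Pool.Agent.EinS.Gen

/-!
# The symmetric pairs of the classical Grassmannians
-/

namespace Pool.Agent.EinS

open Matrix Pool.Agent.EStab

attribute [local instance 100] LieRing.ofAssociativeRing

variable {A : Type} [Ring A] [StarRing A] [Algebra ℝ A] [Cen A] [Coef A]
variable {n k : ℕ}

theorem ce_ce (x : A) : ce (ce x) = ce x := Coef.cen_cen x

theorem star_ce (x : A) : star (ce x) = ce (star x) := (Coef.cen_star x).symm

theorem ce_mul_comm' (x y : A) : ce x * y = y * ce x := Cen.cen_comm x y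

theorem rl_ce_mul (x y : A) : rl (ce x * y) = rl (ce x * ce y) := Coef.re_cen x y

theorem ip_blocks {α β γ δ : Type*} [Fintype α] [Fintype β] [Fintype γ] [Fintype δ]
    (X : Matrix α γ A) (Y : Matrix α δ A) (Z : Matrix β γ A) (W : Matrix β δ A)
    (X' : Matrix α γ A) (Y' : Matrix α δ A) (Z' : Matrix β γ A) (W' : Matrix β δ A) :
    ip (fromBlocks X Y Z W) (fromBlocks X' Y' Z' W') = ip X X' + ip Y Y' + ip Z Z' + ip W W' := by
  unfold ip
  rw [Fintype.sum_sum_type]
  simp only [Fintype.sum_sum_type, Finset.sum_add_distrib, fromBlocks_apply₁₁,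
    fromBlocks_apply₁₂, fromBlocks_apply₂₁, fromBlocks_apply₂₂]
  ring

theorem ip_zero_right {α β : Type*} [Fintype α] [Fintype β] (X : Matrix α β A) :
    ip X 0 = 0 := by
  rw [ip_comm, ip_zero_left]

theorem ip_conjT {α β : Type*} [Fintype α] [Fintype β] (X Y : Matrix α β A) :
    ip Xᴴ Yᴴ = ip X Y := by
  unfold ip
  rw [Finset.sum_comm]
  refine Finset.sum_congr rfl fun i _ => Finset.sum_congr rfl fun j _ => ?_
  rw [Matrix.conjTranspose_apply, Matrix.conjTranspose_apply, star_star, rl_mul_comm,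
    rl_star_mul]

theorem ip_neg_right {α β : Type*} [Fintype α] [Fintype β] (X Y : Matrix α β A) :
    ip X (-Y) = -ip X Y := by
  rw [ip_comm, ip_neg, ip_comm]

theorem ip_sub_right {α β : Type*} [Fintype α] [Fintype β] (X Y Z : Matrix α β A) :
    ip X (Y - Z) = ip X Y - ip X Z := by
  rw [ip_comm, ip_sub, ip_comm Y, ip_comm Z]

theorem ip_smul_right {α β : Type*} [Fintype α] [Fintype β] (c : ℝ) (X Y : Matrix α β A) :
    ip X (c • Y) = c * ip X Y := by
  rw [ip_comm, ip_smul, ip_comm]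

theorem ip_diag_left {α : Type*} [Fintype α] [DecidableEq α] (c : A) (X : Matrix α α A) :
    ip (Matrix.diagonal (fun _ => c)) X = rl (c * star (trace X)) := by
  unfold ip trace
  rw [star_sum, Finset.mul_sum, rl_sum]
  refine Finset.sum_congr rfl fun i _ => ?_
  rw [Finset.sum_eq_single i]
  · rw [Matrix.diagonal_apply_eq]
    rfl
  · intro j _ hj
    rw [Matrix.diagonal_apply_ne _ hj.symm, zero_mul, rl, map_zero]
  · intro h
    exact absurd (Finset.mem_univ i) h

/-- A central scalar is orthogonal to the matrices whose trace has no central component. -/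
theorem ip_diag_ce {α : Type*} [Fintype α] [DecidableEq α] (c : A) {X : Matrix α α A}
    (hX : ce (trace X) = 0) : ip (Matrix.diagonal (fun _ => ce c)) X = 0 := by
  rw [ip_diag_left, rl_ce_mul, ← star_ce, hX, star_zero, mul_zero, rl, map_zero]

/-! ### Elements in block form -/

theorem low_blocks {x : cl A (Fin n ⊕ Fin k)} (hx : x ∈ lowA A n k) :
    ∃ (c : A) (X : Matrix (Fin k) (Fin k) A),
      x.1 = fromBlocks (Matrix.diagonal (fun _ => ce c)) 0 0 X ∧ Xᴴ = -X ∧
      ce (trace X) = -((n : ℝ) • ce c) := by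
  obtain ⟨h1, c, hc⟩ := hx
  have h3 : x.1 = fromBlocks (Matrix.diagonal (fun _ => ce c)) 0 0 x.1.toBlocks₂₂ := by
    conv_lhs => rw [← Matrix.fromBlocks_toBlocks x.1]
    congr 1
    · ext i j
      rw [Matrix.diagonal_apply]
      exact hc i j
    · ext i r
      exact h1 i r
    · ext r i
      change x.1 (Sum.inr r) (Sum.inl i) = 0
      rw [cl_skew' x, h1, star_zero, neg_zero]
  refine ⟨c, x.1.toBlocks₂₂, h3, ?_, ?_⟩
  · ext r s
    rw [Matrix.conjTranspose_apply, Matrix.neg_apply]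
    exact cl_skew x _ _
  · have h4 := cl_tr x
    rw [h3, trFB, trace_diag_const, Fintype.card_fin, map_add, map_smul,
      Coef.cen_cen] at h4
    exact (neg_eq_of_add_eq_zero_right h4).symm

theorem upp_blocks {x : cl A (Fin n ⊕ Fin k)} (hx : x ∈ uppA A n k) :
    ∃ Y : cl A (Fin n), x.1 = fromBlocks Y.1 0 0 0 := by
  have h3 : x.1 = fromBlocks x.1.toBlocks₁₁ 0 0 0 := by
    conv_lhs => rw [← Matrix.fromBlocks_toBlocks x.1]
    congr 1
    · ext i r
      change x.1 (Sum.inl i) (Sum.inr r) = 0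
      rw [cl_skew' x, hx r, star_zero, neg_zero]
    · ext r i
      exact hx r _
    · ext r i
      exact hx r _
  refine ⟨⟨x.1.toBlocks₁₁, ?_, ?_⟩, h3⟩
  · ext r s
    rw [Matrix.conjTranspose_apply, Matrix.neg_apply]
    exact cl_skew x _ _
  · have h4 := cl_tr x
    rw [h3, trFB, Matrix.trace_zero, add_zero] at h4
    exact h4

/-- The embedding of the upper block. -/
noncomputable def upEl (k : ℕ) (Y : cl A (Fin n)) : cl A (Fin n ⊕ Fin k) :=
  ⟨fromBlocks Y.1 0 0 0, by
    refine ⟨?_, ?_⟩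
    · rw [Matrix.fromBlocks_conjTranspose, Matrix.fromBlocks_neg, Y.2.1]
      simp only [Matrix.conjTranspose_zero, neg_zero]
    · rw [trFB, Matrix.trace_zero, add_zero]
      exact Y.2.2⟩

theorem upEl_mem (Y : cl A (Fin n)) : upEl k Y ∈ uppA A n k := by
  intro r p
  rcases p with p | p <;> rfl

/-- The off-diagonal elements. -/
noncomputable def offA {n k : ℕ} (W : Matrix (Fin n) (Fin k) A) : cl A (Fin n ⊕ Fin k) :=
  ⟨fromBlocks 0 W (-Wᴴ) 0, by
    refine ⟨?_, ?_⟩
    · rw [Matrix.fromBlocks_conjTranspose, Matrix.fromBlocks_neg]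
      simp only [Matrix.conjTranspose_zero, neg_zero, Matrix.conjTranspose_neg,
        Matrix.conjTranspose_conjTranspose, neg_neg]
    · rw [trFB, Matrix.trace_zero, Matrix.trace_zero, add_zero, map_zero]⟩

/-- The element of `K` with lower block `X`. -/
noncomputable def lowEl [NeZero n] (X : Matrix (Fin k) (Fin k) A) (hX : Xᴴ = -X) :
    cl A (Fin n ⊕ Fin k) :=
  ⟨fromBlocks (Matrix.diagonal (fun _ => ce (-((1 / (n : ℝ)) • trace X)))) 0 0 X, by
    refine ⟨?_, ?_⟩
    · rw [Matrix.fromBlocks_conjTranspose, Matrix.fromBlocks_neg, hX]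
      simp only [Matrix.conjTranspose_zero, neg_zero]
      congr 1
      rw [Matrix.diagonal_conjTranspose]
      ext i j
      rw [Matrix.neg_apply, Matrix.diagonal_apply, Matrix.diagonal_apply]
      split_ifs
      · change star (ce _) = -ce _
        rw [star_ce, star_neg, Cen.star_smul', ← trace_conjT, hX, Matrix.trace_neg, smul_neg,
          neg_neg, ce, ce, map_neg, neg_neg]
      · rw [neg_zero]
    · rw [trFB, trace_diag_const, map_add, map_smul, Coef.cen_cen, map_neg,
        map_smul, Fintype.card_fin, smul_neg, smul_smul, mul_one_div, div_self, one_smul,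
        neg_add_cancel]
      exact_mod_cast NeZero.ne n⟩

theorem lowEl_mem [NeZero n] (X : Matrix (Fin k) (Fin k) A) (hX : Xᴴ = -X) :
    (lowEl X hX : cl A (Fin n ⊕ Fin k)) ∈ lowA A n k := by
  refine ⟨fun i r => rfl, -((1 / (n : ℝ)) • trace X), fun i j => ?_⟩
  change (Matrix.diagonal (fun _ => ce (-((1 / (n : ℝ)) • trace X))) :
    Matrix (Fin n) (Fin n) A) i j = _
  rw [Matrix.diagonal_apply]

section

variable [NeZero n]

/-- The normalisation of the Killing form. -/
noncomputable def CN (A : Type) [Ring A] [StarRing A] [Algebra ℝ A] [Cen A] [Coef A] (n k : ℕ) : ℝ :=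
  (n + k : ℝ) * Coef.m A - 2 * Coef.sg A

theorem Qf_A (x y : cl A (Fin n ⊕ Fin k)) :
    Qf _ x y = CN A n k * ip x.1 y.1 := by
  rw [Qf_cl]
  unfold CN
  rw [Fintype.card_sum, Fintype.card_fin, Fintype.card_fin, Nat.cast_add]

theorem Qf_offA (x : cl A (Fin n ⊕ Fin k)) (W : Matrix (Fin n) (Fin k) A) :
    Qf _ x (offA W) = 2 * CN A n k * ip x.1.toBlocks₁₂ W := by
  rw [Qf_A]
  have h1 : ip x.1 (offA W).1 = ip x.1.toBlocks₁₂ W + ip x.1.toBlocks₂₁ (-Wᴴ) := by
    conv_lhs => rw [← Matrix.fromBlocks_toBlocks x.1]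
    change ip (fromBlocks _ _ _ _) (fromBlocks 0 W (-Wᴴ) 0) = _
    rw [ip_blocks, ip_zero_right, ip_zero_right, zero_add, add_zero]
  have h2 : x.1.toBlocks₂₁ = -(x.1.toBlocks₁₂)ᴴ := by
    ext r i
    exact cl_skew' x _ _
  rw [h1, h2, ip_neg, ip_neg_right, neg_neg, ip_conjT]
  ring

theorem Qf_up (x : cl A (Fin n ⊕ Fin k)) (Y : cl A (Fin n)) :
    Qf _ x (upEl k Y) = CN A n k * ip x.1.toBlocks₁₁ Y.1 := by
  rw [Qf_A]
  congr 1
  conv_lhs => rw [← Matrix.fromBlocks_toBlocks x.1]
  change ip (fromBlocks _ _ _ _) (fromBlocks Y.1 0 0 0) = _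
  rw [ip_blocks, ip_zero_right, ip_zero_right, ip_zero_right, add_zero, add_zero, add_zero]

theorem pos_of_add {a b : ℝ} (ha : 0 ≤ a) (hb : 0 ≤ b) (h : a + b = 0) : b = 0 := by
  linarith

/-- Elements orthogonal to both blocks are off-diagonal. -/
theorem off_diagA (hC : 0 < CN A n k) {x : cl A (Fin n ⊕ Fin k)}
    (hx : Orth (lowA A n k) (uppA A n k) x) : x = offA x.1.toBlocks₁₂ := by
  have hn : (0 : ℝ) < n := by
    exact_mod_cast Nat.pos_of_ne_zero (NeZero.ne n)
  set X11 := x.1.toBlocks₁₁ with h11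
  set X12 := x.1.toBlocks₁₂ with h12
  set X22 := x.1.toBlocks₂₂ with h22
  have hx11 : X11ᴴ = -X11 := by
    ext i j
    rw [Matrix.conjTranspose_apply, Matrix.neg_apply]
    exact cl_skew x _ _
  have hx22 : X22ᴴ = -X22 := by
    ext i j
    rw [Matrix.conjTranspose_apply, Matrix.neg_apply]
    exact cl_skew x _ _
  have hb : x.1 = fromBlocks X11 X12 (-X12ᴴ) X22 := by
    conv_lhs => rw [← Matrix.fromBlocks_toBlocks x.1]
    congr 1
    ext r i
    exact cl_skew' x _ _
  have htr : ce (trace X11) = -ce (trace X22) := by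
    have h4 := cl_tr x
    rw [hb, trFB, map_add] at h4
    exact eq_neg_of_add_eq_zero_left h4
  -- the lower block
  have e1 := hx.1 _ (lowEl_mem (n := n) X22 hx22)
  have e2 := Qf_A x (lowEl X22 hx22)
  rw [Qf_apply, e1, neg_zero] at e2
  have e3 : ip x.1 (lowEl X22 hx22 : cl A (Fin n ⊕ Fin k)).1 = 0 := by
    rcases mul_eq_zero.1 e2.symm with h | h
    · exact absurd h hC.ne'
    · exact h
  have e4 : ip x.1 (lowEl X22 hx22 : cl A (Fin n ⊕ Fin k)).1 =
      (n : ℝ) * rl (ce ((1 / (n : ℝ)) • trace X22) * star (ce ((1 / (n : ℝ)) • trace X22))) +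
        ip X22 X22 := by
    rw [hb]
    change ip (fromBlocks _ _ _ _) (fromBlocks (Matrix.diagonal (fun _ =>
      ce (-((1 / (n : ℝ)) • trace X22)))) 0 0 X22) = _
    rw [ip_blocks, ip_zero_right, ip_zero_right, add_zero, add_zero, ip_comm, ip_diag_left,
      rl_ce_mul, ← star_ce, htr, star_neg]
    congr 1
    have e5 : ce (trace X22) = (n : ℝ) • ce ((1 / (n : ℝ)) • trace X22) := by
      rw [ce, ce, map_smul, smul_smul, mul_one_div, div_self hn.ne', one_smul]
    rw [e5, Cen.star_smul', ce, map_neg, neg_mul_neg, mul_smul_comm, rl_smul]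
  have e5 : ip X22 X22 = 0 := by
    rw [e4] at e3
    exact pos_of_add (mul_nonneg hn.le (sq_nonneg' _)) (ip_self_nonneg _) e3
  have e6 : X22 = 0 := ip_self_eq_zero e5
  -- the upper block
  have e7 : ce (trace X11) = 0 := by
    rw [htr, e6, Matrix.trace_zero, ce, map_zero, neg_zero]
  have g1 := hx.2 _ (upEl_mem (k := k) (⟨X11, hx11, e7⟩ : cl A (Fin n)))
  have g2 := Qf_up x (⟨X11, hx11, e7⟩ : cl A (Fin n))
  rw [Qf_apply, g1, neg_zero] at g2
  have g3 : ip X11 X11 = 0 := by
    rcases mul_eq_zero.1 g2.symm with h | h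
    · exact absurd h hC.ne'
    · exact h
  have g4 : X11 = 0 := ip_self_eq_zero g3
  apply Subtype.ext
  rw [hb, e6, g4]
  rfl

theorem offA_orth (W : Matrix (Fin n) (Fin k) A) : Orth (lowA A n k) (uppA A n k) (offA W) := by
  constructor
  · intro y hy
    obtain ⟨c, X, hb, -, -⟩ := low_blocks hy
    have h1 := Qf_A (offA W) y
    rw [Qf_apply, hb] at h1
    have h2 : ip (offA W).1 (fromBlocks (Matrix.diagonal (fun _ => ce c)) 0 0 X) = 0 := by
      change ip (fromBlocks 0 W (-Wᴴ) 0) _ = 0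
      rw [ip_blocks, ip_zero_left, ip_zero_left, ip_zero_right, ip_zero_right]
      norm_num
    rw [h2, mul_zero] at h1
    linarith
  · intro y hy
    obtain ⟨Y, hb⟩ := upp_blocks hy
    have h1 := Qf_A (offA W) y
    rw [Qf_apply, hb] at h1
    have h2 : ip (offA W).1 (fromBlocks Y.1 0 0 0) = 0 := by
      change ip (fromBlocks 0 W (-Wᴴ) 0) _ = 0
      rw [ip_blocks, ip_zero_left, ip_zero_left, ip_zero_right, ip_zero_right]
      norm_num
    rw [h2, mul_zero] at h1
    linarith

theorem symPairA (hC : 0 < CN A n k) : SymPair (lowA A n k) (uppA A n k) := by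
  refine ⟨fun x hx y hy => ?_, fun x hx y hy => ?_, fun x y z hx hy hz => ?_⟩
  · obtain ⟨c, X, hb, -, -⟩ := low_blocks hx
    obtain ⟨Y, hy'⟩ := upp_blocks hy
    apply Subtype.ext
    rw [cl_lie, hb, hy', fromBlocks_multiply, fromBlocks_multiply]
    simp only [Matrix.mul_zero, Matrix.zero_mul, add_zero]
    have h1 : Matrix.diagonal (fun _ => ce c) * Y.1 = Y.1 * Matrix.diagonal (fun _ => ce c) := by
      ext i j
      rw [Matrix.mul_diagonal, Matrix.diagonal_mul, ce_mul_comm']
    rw [h1, sub_self]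
    rfl
  · obtain ⟨c, X, hb, -, -⟩ := low_blocks hx
    obtain ⟨Y, hy'⟩ := upp_blocks hy
    have h1 := Qf_A x y
    rw [Qf_apply, hb, hy', ip_blocks, ip_zero_left, ip_zero_left, ip_zero_right,
      ip_diag_ce c Y.2.2] at h1
    norm_num at h1
    exact h1
  · have hx' := off_diagA hC hx
    have hy' := off_diagA hC hy
    have hz' := off_diagA hC hz
    set X := x.1.toBlocks₁₂
    set Y := y.1.toBlocks₁₂
    set Z := z.1.toBlocks₁₂
    have h1 := Qf_A ⁅x, y⁆ z
    rw [Qf_apply, cl_lie, hx', hy', hz'] at h1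
    have h2 : ip ((offA X).1 * (offA Y).1 - (offA Y).1 * (offA X).1) (offA Z).1 = 0 := by
      change ip (fromBlocks 0 X (-Xᴴ) 0 * fromBlocks 0 Y (-Yᴴ) 0 -
        fromBlocks 0 Y (-Yᴴ) 0 * fromBlocks 0 X (-Xᴴ) 0) (fromBlocks 0 Z (-Zᴴ) 0) = 0
      rw [fromBlocks_multiply, fromBlocks_multiply]
      simp only [Matrix.mul_zero, Matrix.zero_mul, add_zero, zero_add]
      rw [sub_eq_add_neg, fromBlocks_neg, fromBlocks_add]
      simp only [neg_zero, add_zero]
      rw [ip_blocks, ip_zero_left, ip_zero_left, ip_zero_right, ip_zero_right]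
      norm_num
    rw [← hx', ← hy', ← hz'] at h2
    rw [← hx', ← hy', ← hz', h2, mul_zero] at h1
    linarith

end

end Pool.Agent.EinS
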