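import Pool.Agent.EinS.ClForm

/-!
# The upper block: perfectness and invariant forms
-/

namespace Pool.Agent.EinS

open Matrix Pool.Agent.EStab

attribute [local instance 100] LieRing.ofAssociativeRing

variable {A : Type} [Ring A] [StarRing A] [Algebra ℝ A] [Cen A] [Coef A]
variable {n k : ℕ}

/-- The embedding of the upper block as a linear map. -/
noncomputable def upL (A : Type) [Ring A] [StarRing A] [Algebra ℝ A] [Cen A] [Coef A] (n k : ℕ) :
    cl A (Fin n) →ₗ[ℝ] cl A (Fin n ⊕ Fin k) where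
  toFun x := upEl k x
  map_add' x y := by
    apply Subtype.ext
    change fromBlocks (x.1 + y.1) 0 0 0 = fromBlocks x.1 0 0 0 + fromBlocks y.1 0 0 0
    rw [fromBlocks_add]
    simp only [add_zero]
  map_smul' c x := by
    apply Subtype.ext
    change fromBlocks (c • x.1) 0 0 0 = c • fromBlocks x.1 0 0 0
    rw [fromBlocks_smul]
    simp only [smul_zero]

theorem upL_apply (x : cl A (Fin n)) : upL A n k x = upEl k x := rfl

theorem upL_lie (x y : cl A (Fin n)) : upL A n k ⁅x, y⁆ = ⁅upL A n k x, upL A n k y⁆ := by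
  apply Subtype.ext
  change fromBlocks (x.1 * y.1 - y.1 * x.1) 0 0 0 =
    fromBlocks x.1 0 0 0 * fromBlocks y.1 0 0 0 - fromBlocks y.1 0 0 0 * fromBlocks x.1 0 0 0
  rw [fromBlocks_multiply, fromBlocks_multiply]
  simp only [Matrix.mul_zero, Matrix.zero_mul, add_zero]
  rw [sub_eq_add_neg (fromBlocks _ _ _ _), fromBlocks_neg, fromBlocks_add]
  simp only [neg_zero, add_zero]
  rw [← sub_eq_add_neg]

theorem upL_surj {x : cl A (Fin n ⊕ Fin k)} (hx : x ∈ uppA A n k) :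
    ∃ Y : cl A (Fin n), x = upL A n k Y := by
  obtain ⟨Y, hY⟩ := upp_blocks hx
  exact ⟨Y, Subtype.ext hY⟩

theorem upL_mem (x : cl A (Fin n)) : upL A n k x ∈ uppA A n k := upEl_mem x

theorem perf_A (hn : 3 ≤ n) {x : cl A (Fin n ⊕ Fin k)} (hx : x ∈ uppA A n k) :
    x ∈ Submodule.span ℝ {z | ∃ u ∈ uppA A n k, ∃ v ∈ uppA A n k, ⁅u, v⁆ = z} := by
  obtain ⟨Y, rfl⟩ := upL_surj hx
  refine Submodule.span_induction
    (p := fun y _ => upL A n k y ∈ Submodule.span ℝ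
      {z | ∃ u ∈ uppA A n k, ∃ v ∈ uppA A n k, ⁅u, v⁆ = z}) ?_ ?_ ?_ ?_ (SE_top hn Y)
  · rintro x ⟨i, j, z, h, y, rfl⟩
    exact Submodule.subset_span ⟨_, upL_mem _, _, upL_mem _, (upL_lie _ _).symm⟩
  · rw [map_zero]
    exact Submodule.zero_mem _
  · intro x y _ _ hx hy
    rw [map_add]
    exact Submodule.add_mem _ hx hy
  · intro c x _ hx
    rw [map_smul]
    exact Submodule.smul_mem _ _ hx

theorem Ez_ne {i j : Fin n} (h : i ≠ j) : Ez i j (1 : A) h ≠ 0 := by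
  intro h0
  have h1 := congrArg (fun y : cl A (Fin n) => y.1 i j) h0
  change (Matrix.single i j (1 : A) - Matrix.single j i (star 1) :
    Matrix (Fin n) (Fin n) A) i j = 0 at h1
  rw [Matrix.sub_apply, Matrix.single_apply_same, Matrix.single_apply_of_ne, sub_zero] at h1
  · have h2 := congrArg Coef.re h1
    rw [Coef.re_one, map_zero] at h2
    exact one_ne_zero h2
  · rintro ⟨h2, -⟩
    exact h h2.symm

theorem upL_inj {x : cl A (Fin n)} (h : upL A n k x = 0) : x = 0 := by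
  apply Subtype.ext
  have h1 := congrArg (fun y : cl A (Fin n ⊕ Fin k) => y.1.toBlocks₁₁) h
  exact h1

theorem forms_A (hn : 5 ≤ n) (hg : CompactSemisimple (cl A (Fin n ⊕ Fin k)))
    (F : LinearMap.BilinForm ℝ (cl A (Fin n ⊕ Fin k)))
    (hs : ∀ x ∈ uppA A n k, ∀ y ∈ uppA A n k, F x y = F y x)
    (hi : ∀ x ∈ uppA A n k, ∀ y ∈ uppA A n k, ∀ z ∈ uppA A n k, F ⁅x, y⁆ z = F x ⁅y, z⁆) :
    ∃ μ : ℝ, ∀ x ∈ uppA A n k, ∀ y ∈ uppA A n k, F x y = μ * Qf _ x y := by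
  have h01 : (⟨0, by omega⟩ : Fin n) ≠ ⟨1, by omega⟩ := by
    intro h
    have := congrArg Fin.val h
    simp at this
  set e := upL A n k (Ez (⟨0, by omega⟩ : Fin n) ⟨1, by omega⟩ (1 : A) h01) with he
  have he0 : e ≠ 0 := fun h => Ez_ne h01 (upL_inj h)
  have hq : Qf _ e e ≠ 0 := by
    intro h
    exact he0 (Qf_eq_zero hg h)
  set μ := F e e / Qf _ e e with hμ
  let G : LinearMap.BilinForm ℝ (cl A (Fin n)) :=
    (F - μ • Qf (cl A (Fin n ⊕ Fin k))).compl₁₂ (upL A n k) (upL A n k)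
  have hG : ∀ x y, G x y = F (upL A n k x) (upL A n k y) -
      μ * Qf _ (upL A n k x) (upL A n k y) := fun x y => rfl
  have hGs : ∀ x y, G x y = G y x := by
    intro x y
    rw [hG, hG, hs _ (upL_mem _) _ (upL_mem _), Qf_symm]
  have hGi : ∀ x y z, G ⁅x, y⁆ z = G x ⁅y, z⁆ := by
    intro x y z
    rw [hG, hG, upL_lie, upL_lie, hi _ (upL_mem _) _ (upL_mem _) _ (upL_mem _)]
    congr 2
    exact Qf_lie _ _ _
  have h0 : G (Ez (⟨0, by omega⟩ : Fin n) ⟨1, by omega⟩ (1 : A) h01)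
      (Ez (⟨0, by omega⟩ : Fin n) ⟨1, by omega⟩ (1 : A) h01) = 0 := by
    rw [hG, hμ, ← he, div_mul_cancel₀ _ hq, sub_self]
  refine ⟨μ, fun x hx y hy => ?_⟩
  obtain ⟨X, rfl⟩ := upL_surj hx
  obtain ⟨Y, rfl⟩ := upL_surj hy
  have h1 := forms_vanish hn hGs hGi h01 h0 X Y
  rw [hG] at h1
  linarith

theorem ne_A (hn : 2 ≤ n) : ∃ x ∈ uppA A n k, x ≠ 0 := by
  have h01 : (⟨0, by omega⟩ : Fin n) ≠ ⟨1, by omega⟩ := by
    intro h
    have := congrArg Fin.val h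
    simp at this
  exact ⟨_, upL_mem (Ez (⟨0, by omega⟩ : Fin n) ⟨1, by omega⟩ (1 : A) h01),
    fun h => Ez_ne h01 (upL_inj h)⟩

end Pool.Agent.EinS
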