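import Pool.Agent.EinS.So4

/-!
# Transport of Einstein metrics and conjugation by orthogonal matrices
-/

namespace Pool.Agent.EinS

open Matrix Pool.Agent.EStab LieAlgebra.Orthogonal

section

variable {L : Type*} [LieRing L] [LieAlgebra ℝ L] {L' : Type*} [LieRing L'] [LieAlgebra ℝ L']

theorem hasEinstein_equiv (e : L ≃ₗ⁅ℝ⁆ L') {W : Submodule ℝ L} {W' : Submodule ℝ L'}
    {Γ : Set (L →ₗ[ℝ] L)} {Γ' : Set (L' →ₗ[ℝ] L')}
    (hW : ∀ x, e x ∈ W' ↔ x ∈ W)
    (hΓ : ∀ γ' ∈ Γ', ∃ γ ∈ Γ, ∀ x, γ' (e x) = e (γ x))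
    (h : HasEinsteinMetric L W Γ) : HasEinsteinMetric L' W' Γ' := by
  obtain ⟨m, π, β, D, X, c, h1, h2, h3, h4, h5, h6, h7, h8, h9, h10, h11⟩ := h
  set m' : Submodule ℝ L' := m.comap (e.symm : L' →ₗ[ℝ] L) with hm'
  have hm : ∀ x, x ∈ m' ↔ e.symm x ∈ m := fun x => Iff.rfl
  have hWs : ∀ x, x ∈ W' ↔ e.symm x ∈ W := fun x => by
    rw [← hW, LieEquiv.apply_symm_apply]
  set π' : L' →ₗ[ℝ] L' := (e : L →ₗ[ℝ] L') ∘ₗ π ∘ₗ (e.symm : L' →ₗ[ℝ] L) with hπ'
  have hπ : ∀ x, π' x = e (π (e.symm x)) := fun x => rfl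
  set β' : LinearMap.BilinForm ℝ L' :=
    LinearMap.mk₂ ℝ (fun x y => β (e.symm x) (e.symm y))
      (fun x y z => by rw [map_add, map_add, LinearMap.add_apply])
      (fun t x y => by rw [map_smul, map_smul, LinearMap.smul_apply])
      (fun x y z => by rw [map_add, map_add])
      (fun t x y => by rw [map_smul, map_smul]) with hβ'
  have hβ : ∀ x y, β' x y = β (e.symm x) (e.symm y) := fun x y => rfl
  have hs : ∀ x, e.symm (e x) = x := fun x => e.symm_apply_apply x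
  refine ⟨m', π', β', D, fun i => e (X i), c, ?_, ?_, ?_, ?_, ?_, ?_, ?_, ?_, ?_, h10, ?_⟩
  · constructor
    · rw [Submodule.disjoint_def]
      intro x hx hx'
      have h0 := (Submodule.disjoint_def.1 h1.1) (e.symm x) ((hWs x).1 hx) ((hm x).1 hx')
      have h0' := congrArg e h0
      rw [LieEquiv.apply_symm_apply, map_zero] at h0'
      exact h0'
    · rw [codisjoint_iff, eq_top_iff]
      intro x _
      have h0 : e.symm x ∈ W ⊔ m := by
        rw [codisjoint_iff.1 h1.2]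
        exact Submodule.mem_top
      obtain ⟨u, hu, v, hv, huv⟩ := Submodule.mem_sup.1 h0
      have h0' : x = e u + e v := by
        rw [← map_add, huv, LieEquiv.apply_symm_apply]
      rw [h0']
      refine Submodule.add_mem_sup ((hW u).2 hu) ?_
      rw [hm, hs]
      exact hv
  · intro y hy
    rw [hπ, h2 _ ((hWs y).1 hy), map_zero]
  · intro x hx
    rw [hπ, h3 _ ((hm x).1 hx), LieEquiv.apply_symm_apply]
  · intro y hy x hx
    rw [hm, LieEquiv.map_lie]
    exact h4 _ ((hWs y).1 hy) _ ((hm x).1 hx)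
  · intro γ' hγ' x hx
    obtain ⟨γ, hγ, hc⟩ := hΓ γ' hγ'
    have h0 := hc (e.symm x)
    rw [LieEquiv.apply_symm_apply] at h0
    rw [h0, hm, hs]
    exact h5 γ hγ _ ((hm x).1 hx)
  · intro γ' hγ' x hx y hy
    obtain ⟨γ, hγ, hc⟩ := hΓ γ' hγ'
    have h0 := hc (e.symm x)
    have h0' := hc (e.symm y)
    rw [LieEquiv.apply_symm_apply] at h0 h0'
    rw [h0, h0', hβ, hβ, hs, hs]
    exact h6 γ hγ _ ((hm x).1 hx) _ ((hm y).1 hy)
  · intro x y
    rw [hβ, hβ, h7]
  · apply le_antisymm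
    · rw [Submodule.span_le]
      rintro x ⟨i, rfl⟩
      change e (X i) ∈ m'
      rw [hm, hs, ← h8]
      exact Submodule.subset_span ⟨i, rfl⟩
    · intro x hx
      have h0 : e.symm x ∈ Submodule.span ℝ (Set.range X) := by
        rw [h8]
        exact hx
      have h0' : ∀ z ∈ Submodule.span ℝ (Set.range X),
          e z ∈ Submodule.span ℝ (Set.range fun i => e (X i)) := by
        intro z hz
        refine Submodule.span_induction (p := fun z _ =>
          e z ∈ Submodule.span ℝ (Set.range fun i => e (X i))) ?_ ?_ ?_ ?_ hz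
        · rintro z ⟨i, rfl⟩
          exact Submodule.subset_span ⟨i, rfl⟩
        · rw [map_zero]
          exact Submodule.zero_mem _
        · intro y z _ _ hy hz
          rw [map_add]
          exact Submodule.add_mem _ hy hz
        · intro t y _ hy
          rw [map_smul]
          exact Submodule.smul_mem _ _ hy
      have h0'' := h0' _ h0
      rwa [LieEquiv.apply_symm_apply] at h0''
  · intro i j
    rw [hβ, hs, hs]
    exact h9 i j
  · intro x hx
    have h0 := h11 _ ((hm x).1 hx)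
    rw [hβ, ← h0]
    unfold ricci
    have e1 : ∀ i, β' (π' ⁅x, e (X i)⁆) (π' ⁅x, e (X i)⁆) =
        β (π ⁅e.symm x, X i⁆) (π ⁅e.symm x, X i⁆) := by
      intro i
      rw [hβ, hπ, hs, LieEquiv.map_lie, hs]
    have e2 : ∀ i j, β' (π' ⁅e (X i), e (X j)⁆) x = β (π ⁅X i, X j⁆) (e.symm x) := by
      intro i j
      rw [hβ, hπ, hs, LieEquiv.map_lie, hs, hs]
    have e3 : killingForm ℝ L' x x = killingForm ℝ L (e.symm x) (e.symm x) := by
      conv_lhs => rw [← e.apply_symm_apply x]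
      exact LieAlgebra.killingForm_of_equiv_apply e _ _
    simp only [e1, e2, e3]

end

section

variable {ι κ : Type} [Fintype ι] [DecidableEq ι] [Fintype κ] [DecidableEq κ]

/-- Conjugation by an orthogonal matrix. -/
noncomputable def soConj (T : Matrix ι κ ℝ) (h1 : T * Tᵀ = 1) (h2 : Tᵀ * T = 1) :
    so κ ℝ ≃ₗ⁅ℝ⁆ so ι ℝ where
  toFun x := ⟨T * x.1 * Tᵀ, by
    rw [mem_so, Matrix.transpose_mul, Matrix.transpose_mul, Matrix.transpose_transpose,
      (mem_so _ _ _).1 x.2, Matrix.neg_mul, Matrix.mul_neg, Matrix.mul_assoc]⟩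
  map_add' x y := by
    apply Subtype.ext
    change T * (x.1 + y.1) * Tᵀ = T * x.1 * Tᵀ + T * y.1 * Tᵀ
    rw [Matrix.mul_add, Matrix.add_mul]
  map_smul' c x := by
    apply Subtype.ext
    change T * (c • x.1) * Tᵀ = c • (T * x.1 * Tᵀ)
    rw [Matrix.mul_smul, Matrix.smul_mul]
  map_lie' := by
    intro x y
    apply Subtype.ext
    change T * (x.1 * y.1 - y.1 * x.1) * Tᵀ =
      T * x.1 * Tᵀ * (T * y.1 * Tᵀ) - T * y.1 * Tᵀ * (T * x.1 * Tᵀ)
    have h3 : ∀ x y : Matrix κ κ ℝ, T * x * Tᵀ * (T * y * Tᵀ) = T * (x * y) * Tᵀ := by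
      intro x y
      calc T * x * Tᵀ * (T * y * Tᵀ) = T * x * (Tᵀ * T) * y * Tᵀ := by
            simp only [Matrix.mul_assoc]
        _ = _ := by rw [h2, Matrix.mul_one]; simp only [Matrix.mul_assoc]
    rw [h3, h3, Matrix.mul_sub, Matrix.sub_mul]
  invFun x := ⟨Tᵀ * x.1 * T, by
    rw [mem_so, Matrix.transpose_mul, Matrix.transpose_mul, Matrix.transpose_transpose,
      (mem_so _ _ _).1 x.2, Matrix.neg_mul, Matrix.mul_neg, Matrix.mul_assoc]⟩
  left_inv x := by
    apply Subtype.ext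
    change Tᵀ * (T * x.1 * Tᵀ) * T = x.1
    calc Tᵀ * (T * x.1 * Tᵀ) * T = (Tᵀ * T) * x.1 * (Tᵀ * T) := by
          simp only [Matrix.mul_assoc]
      _ = _ := by rw [h2, Matrix.one_mul, Matrix.mul_one]
  right_inv x := by
    apply Subtype.ext
    change T * (Tᵀ * x.1 * T) * Tᵀ = x.1
    calc T * (Tᵀ * x.1 * T) * Tᵀ = (T * Tᵀ) * x.1 * (T * Tᵀ) := by
          simp only [Matrix.mul_assoc]
      _ = _ := by rw [h1, Matrix.one_mul, Matrix.mul_one]

theorem soConj_apply (T : Matrix ι κ ℝ) (h1 : T * Tᵀ = 1) (h2 : Tᵀ * T = 1) (x : so κ ℝ) :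
    (soConj T h1 h2 x).1 = T * x.1 * Tᵀ := rfl

/-- The automorphisms `Ad(g)`, `g` an orthogonal matrix which normalises `W`. -/
def normAuts (W : LieSubalgebra ℝ (so ι ℝ)) : Set (so ι ℝ →ₗ[ℝ] so ι ℝ) :=
  {γ | ∃ g : Matrix ι ι ℝ, g * gᵀ = 1 ∧ (∀ x, (γ x).1 = g * x.1 * gᵀ) ∧
    W.toSubmodule.map γ = W.toSubmodule}

end

end Pool.Agent.EinS
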