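import Pool.Agent.EinS.Fix2

/-!
# The fixed point map near the bi-invariant metric: estimates, second part
-/

namespace Pool.Agent.EinS

open Matrix

variable {m q p l : Type*} [Fintype m] [DecidableEq m] [Fintype q] [DecidableEq q] [Fintype p]
  [DecidableEq p] [Fintype l] [DecidableEq l]

theorem Phi1x_up {N : q → Matrix p p ℝ} {S : q → Matrix q q ℝ} {θ κ s x : ℝ}
    (h : Small2 N S θ κ) (hp : Par θ κ s x) {B : Matrix p p ℝ} {P : Matrix q q ℝ}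
    (hB : Btw (1 / 2) (1 / 2 + s) B) (hP : Btw (2 - 20 * s) (2 + 11 * s) P) (y : p → ℝ) :
    y ⬝ᵥ ((Phi1 N B P - (x * (1 / 2 - κ)) • B⁻¹) *ᵥ y) ≤ (1 / 2 + s) * (y ⬝ᵥ y) := by
  obtain ⟨s0, s1, t1, k0, k1, x0, x1⟩ := hp
  have s2 : s ≤ 1 / 50 := by linarith
  have hb0 : (0 : ℝ) < 1 / 2 + s := by linarith
  have hp0 : (0 : ℝ) < 2 - 20 * s := by linarith
  have hp1 : (0 : ℝ) < 2 + 11 * s := by linarith
  have hR := hB.inv (by norm_num) hb0
  have hD := hP.inv hp0 hp1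
  rw [Matrix.sub_mulVec, dotProduct_sub, Phi1_quad hB.symm hR.symm, Matrix.smul_mulVec,
    dotProduct_smul, smul_eq_mul]
  set Y := y ⬝ᵥ y with hY
  have hY0 : 0 ≤ Y := dot_self_nonneg y
  have u1 := (trace_quad (by positivity) (by positivity) (by positivity) hD hR (rw' N y)).1
  have u2 := (trace_quad hp0.le hp1.le (by norm_num) hP hB (rw' N y)).1
  have u3 := (trace_quad hp0.le hp1.le (by positivity) hP hR (rw' N (B *ᵥ y))).2
  have c0 := trace_self_nonneg (rw' N y)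
  have c := h.cas (B *ᵥ y)
  have b := hB.norm_le (by norm_num) hb0 y
  set T1 := trace (P⁻¹ * (rw' N y * B⁻¹ * (rw' N y)ᵀ)) with hT1
  set T2 := trace (P * (rw' N y * B * (rw' N y)ᵀ)) with hT2
  set T3 := trace (P * (rw' N (B *ᵥ y) * B⁻¹ * (rw' N (B *ᵥ y))ᵀ)) with hT3
  have g1 : 0 ≤ T1 := le_trans (by positivity) u1
  have g2 : 0 ≤ T2 := le_trans (by positivity) u2
  have g3 : T3 ≤ 2 * (2 + 11 * s) * (κ * ((1 / 2 + s) ^ 2 * Y)) := by
    have h1 : (1 - θ) * κ * ((B *ᵥ y) ⬝ᵥ (B *ᵥ y)) ≤ κ * ((1 / 2 + s) ^ 2 * Y) := by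
      have h2 : (1 - θ) * κ ≤ κ := by nlinarith
      calc _ ≤ κ * ((B *ᵥ y) ⬝ᵥ (B *ᵥ y)) :=
            mul_le_mul_of_nonneg_right h2 (dot_self_nonneg _)
        _ ≤ _ := mul_le_mul_of_nonneg_left b k0
    calc T3 ≤ (2 + 11 * s) * (1 / (1 / 2)) *
          trace (rw' N (B *ᵥ y) * (rw' N (B *ᵥ y))ᵀ) := u3
      _ ≤ (2 + 11 * s) * (1 / (1 / 2)) * (κ * ((1 / 2 + s) ^ 2 * Y)) :=
          mul_le_mul_of_nonneg_left (le_trans c h1) (by positivity)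
      _ = _ := by ring
  have hR3 := hR.lo y
  have hs3 : (0 : ℝ) ≤ s ^ 3 := by positivity
  have hs3' : s ^ 3 ≤ s ^ 2 / 50 := by nlinarith [sq_nonneg s]
  have hs2' : s ^ 2 ≤ s / 50 := by nlinarith
  have hk : (0 : ℝ) ≤ 1 / 2 - κ := by nlinarith
  have hx0 : (0 : ℝ) ≤ 1 / 2 - 8 * s ^ 3 := by nlinarith
  have g4 : (1 / 2 - 8 * s ^ 3) * (1 / 2 - κ) * (1 / (1 / 2 + s) * Y) ≤
      x * (1 / 2 - κ) * (y ⬝ᵥ (B⁻¹ *ᵥ y)) := by
    calc (1 / 2 - 8 * s ^ 3) * (1 / 2 - κ) * (1 / (1 / 2 + s) * Y) ≤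
          x * (1 / 2 - κ) * (1 / (1 / 2 + s) * Y) :=
          mul_le_mul_of_nonneg_right (mul_le_mul_of_nonneg_right x0 hk) (by positivity)
      _ ≤ _ := mul_le_mul_of_nonneg_left hR3 (mul_nonneg (le_trans hx0 x0) hk)
  -- scalar inequality
  have key : 1 - (1 / 2 - 8 * s ^ 3) * (1 / 2 - κ) * (1 / (1 / 2 + s)) +
      2 * (2 + 11 * s) * (κ * (1 / 2 + s) ^ 2) ≤ 1 / 2 + s := by
    have h2 : 2 * (2 + 11 * s) * (κ * (1 / 2 + s) ^ 2) * (1 / 2 + s) ≤ 63 / 100 * κ := by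
      have h3 : 2 * (2 + 11 * s) * (1 / 2 + s) ^ 3 ≤ 63 / 100 := by
        have h4 : (1 / 2 + s) ^ 3 ≤ (1 / 2 + 1 / 50 : ℝ) ^ 3 :=
          pow_le_pow_left₀ hb0.le (by linarith) 3
        have h5 : (0 : ℝ) ≤ (1 / 2 + s) ^ 3 := by positivity
        calc 2 * (2 + 11 * s) * (1 / 2 + s) ^ 3 ≤ 2 * (2 + 11 * (1 / 50)) *
              (1 / 2 + 1 / 50 : ℝ) ^ 3 := by
              exact mul_le_mul (by linarith) h4 h5 (by norm_num)
          _ ≤ _ := by norm_num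
      calc 2 * (2 + 11 * s) * (κ * (1 / 2 + s) ^ 2) * (1 / 2 + s) =
            κ * (2 * (2 + 11 * s) * (1 / 2 + s) ^ 3) := by ring
        _ ≤ κ * (63 / 100) := mul_le_mul_of_nonneg_left h3 k0
        _ = _ := by ring
    have h6 : (1 - (1 / 2 - 8 * s ^ 3) * (1 / 2 - κ) * (1 / (1 / 2 + s)) +
        2 * (2 + 11 * s) * (κ * (1 / 2 + s) ^ 2)) * (1 / 2 + s) ≤
        (1 / 2 + s) * (1 / 2 + s) := by
      have h7 : (1 - (1 / 2 - 8 * s ^ 3) * (1 / 2 - κ) * (1 / (1 / 2 + s)) +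
        2 * (2 + 11 * s) * (κ * (1 / 2 + s) ^ 2)) * (1 / 2 + s) =
        (1 / 2 + s) - (1 / 2 - 8 * s ^ 3) * (1 / 2 - κ) +
        2 * (2 + 11 * s) * (κ * (1 / 2 + s) ^ 2) * (1 / 2 + s) := by
        field_simp
      rw [h7]
      have h8 : 0 ≤ s ^ 3 * κ := by positivity
      nlinarith
    exact le_of_mul_le_mul_right h6 hb0
  have key2 : (1 - (1 / 2 - 8 * s ^ 3) * (1 / 2 - κ) * (1 / (1 / 2 + s)) +
      2 * (2 + 11 * s) * (κ * (1 / 2 + s) ^ 2)) * Y ≤ (1 / 2 + s) * Y :=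
    mul_le_mul_of_nonneg_right key hY0
  have e : (1 - (1 / 2 - 8 * s ^ 3) * (1 / 2 - κ) * (1 / (1 / 2 + s)) +
      2 * (2 + 11 * s) * (κ * (1 / 2 + s) ^ 2)) * Y =
      Y - (1 / 2 - 8 * s ^ 3) * (1 / 2 - κ) * (1 / (1 / 2 + s) * Y) +
      2 * (2 + 11 * s) * (κ * ((1 / 2 + s) ^ 2 * Y)) := by ring
  rw [e] at key2
  linarith

theorem Phi1x_btw {N : q → Matrix p p ℝ} {S : q → Matrix q q ℝ} {θ κ s x : ℝ}
    (h : Small2 N S θ κ) (hp : Par θ κ s x) {B : Matrix p p ℝ} {P : Matrix q q ℝ}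
    (hB : Btw (1 / 2) (1 / 2 + s) B) (hP : Btw (2 - 20 * s) (2 + 11 * s) P) :
    Btw (1 / 2) (1 / 2 + s) (Phi1 N B P - (x * (1 / 2 - κ)) • B⁻¹) := by
  refine ⟨?_, fun y => Phi1x_lo h hp hB hP y, fun y => Phi1x_up h hp hB hP y⟩
  obtain ⟨s0, s1, t1, k0, k1, x0, x1⟩ := hp
  have hR := hB.inv (by norm_num) (by linarith : (0 : ℝ) < 1 / 2 + s)
  have hD := hP.inv (by linarith : (0 : ℝ) < 2 - 20 * s) (by linarith : (0 : ℝ) < 2 + 11 * s)
  unfold Matrix.IsSymm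
  rw [Matrix.transpose_sub, Matrix.transpose_smul, hR.symm.eq,
    (Phi1_symm hB.symm hR.symm hP.symm hD.symm).eq]

theorem Phi2_btw2 {N : q → Matrix p p ℝ} {S : q → Matrix q q ℝ} {θ κ s x : ℝ}
    (h : Small2 N S θ κ) (hp : Par θ κ s x) {B : Matrix p p ℝ} {P : Matrix q q ℝ}
    (hB : Btw (1 / 2) (1 / 2 + s) B) (hP : Btw (2 - 20 * s) (2 + 11 * s) P) :
    Btw (2 - 20 * s) (2 + 11 * s) (Phi2 N S B P) := by
  obtain ⟨s0, s1, t1, k0, k1, x0, x1⟩ := hp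
  have s2 : s ≤ 1 / 50 := by linarith
  have hb0 : (0 : ℝ) < 1 / 2 + s := by linarith
  have hp0 : (0 : ℝ) < 2 - 20 * s := by linarith
  have hp1 : (0 : ℝ) < 2 + 11 * s := by linarith
  have hR := hB.inv (by norm_num) hb0
  have hD := hP.inv hp0 hp1
  have hs2' : s ^ 2 ≤ s / 50 := by nlinarith
  have hk1 : κ ≤ s / 150 := by linarith
  refine ⟨Phi2_symm hB.symm hR.symm hP.symm hD.symm, fun z => ?_, fun z => ?_⟩
  · rw [Phi2_quad hP.symm]
    have u1 := (trace_quad (by positivity) (by positivity) (by positivity) hR hR (lc N z)).1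
    have u2 := (trace_quad (by positivity) (by positivity) (by norm_num) hR hB
      (lc N (P *ᵥ z))).2
    have u3 := (trace_quad hp0.le hp1.le (by positivity) hP hD (lc S (P *ᵥ z))).2
    have u4 := (trace_quad hp0.le hp1.le hp0.le hP hP (lc S z)).1
    have c1 := h.lo z
    have c2 := h.lo (P *ᵥ z)
    have c2' := h.up (P *ᵥ z)
    have c3 := h.str (P *ᵥ z)
    have b := hP.norm_le hp0 hp1 z
    have w0 := dot_self_nonneg z
    have w2 := dot_self_nonneg (P *ᵥ z)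
    have w3 := trace_self_nonneg (lc S (P *ᵥ z))
    have w4 := trace_self_nonneg (lc S z)
    set Z := z ⬝ᵥ z with hZ
    set V := (P *ᵥ z) ⬝ᵥ (P *ᵥ z) with hV
    set n := trace (lc N (P *ᵥ z) * (lc N (P *ᵥ z))ᵀ) with hn
    set σ := trace (lc S (P *ᵥ z) * (lc S (P *ᵥ z))ᵀ) with hσ
    have g1 : (2 - 8 * s - 2 * s ^ 2) * Z ≤
        1 / 2 * trace (B⁻¹ * (lc N z * B⁻¹ * (lc N z)ᵀ)) := by
      have h1 : (4 - 16 * s) * trace (lc N z * (lc N z)ᵀ) ≤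
          1 / (1 / 2 + s) * (1 / (1 / 2 + s)) * trace (lc N z * (lc N z)ᵀ) := by
        refine mul_le_mul_of_nonneg_right ?_ (trace_self_nonneg _)
        rw [one_div_mul_one_div_rev, le_div_iff₀ (by positivity)]
        nlinarith [sq_nonneg s]
      have h2 : (4 - 16 * s) * ((1 - 3 * κ) * Z) ≤ (4 - 16 * s) * trace (lc N z * (lc N z)ᵀ) :=
        mul_le_mul_of_nonneg_left c1 (by linarith)
      have h3 : (4 - 16 * s - 4 * s ^ 2) * Z ≤ (4 - 16 * s) * ((1 - 3 * κ) * Z) := by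
        have h4 : 4 - 16 * s - 4 * s ^ 2 ≤ (4 - 16 * s) * (1 - 3 * κ) := by nlinarith
        calc _ ≤ (4 - 16 * s) * (1 - 3 * κ) * Z := mul_le_mul_of_nonneg_right h4 w0
          _ = _ := by ring
      linarith
    have g2 : trace (B⁻¹ * (lc N (P *ᵥ z) * B * (lc N (P *ᵥ z))ᵀ)) ≤ (1 + 2 * s) * n := by
      refine le_trans u2 (le_of_eq ?_)
      ring
    have g3 : trace (P * (lc S (P *ᵥ z) * P⁻¹ * (lc S (P *ᵥ z))ᵀ)) ≤ 7 / 5 * σ := by
      refine le_trans u3 (mul_le_mul_of_nonneg_right ?_ w3)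
      rw [mul_one_div, div_le_iff₀ hp0]
      linarith
    have g4 : 0 ≤ 1 / 2 * trace (P * (lc S z * P * (lc S z)ᵀ)) := by
      have : 0 ≤ trace (P * (lc S z * P * (lc S z)ᵀ)) := le_trans (by positivity) u4
      linarith
    have g5 : -((2 * s + 6 / 5 * κ) * V) ≤ V - (1 + 2 * s) * n - 7 / 5 * σ := by
      have h1 : (2 / 5 - 2 * s) * ((1 - 3 * κ) * V) ≤ (2 / 5 - 2 * s) * n :=
        mul_le_mul_of_nonneg_left c2 (by linarith)
      have h2 : 0 ≤ s * κ * V := by positivity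
      nlinarith
    have g6 : (2 * s + 6 / 5 * κ) * V ≤ (2 * s + 6 / 5 * κ) * ((2 + 11 * s) ^ 2 * Z) :=
      mul_le_mul_of_nonneg_left b (by positivity)
    have g7 : (2 * s + 6 / 5 * κ) * ((2 + 11 * s) ^ 2 * Z) ≤ 11 * s * Z := by
      have h1 : (2 + 11 * s) ^ 2 ≤ (2 + 11 * (1 / 50) : ℝ) ^ 2 :=
        pow_le_pow_left₀ hp1.le (by linarith) 2
      have h2 : (2 * s + 6 / 5 * κ) * (2 + 11 * s) ^ 2 ≤ 11 * s := by
        calc (2 * s + 6 / 5 * κ) * (2 + 11 * s) ^ 2 ≤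
              (2 * s + 6 / 5 * κ) * (2 + 11 * (1 / 50) : ℝ) ^ 2 :=
              mul_le_mul_of_nonneg_left h1 (by positivity)
          _ ≤ (2 * s + 6 / 5 * (s / 150)) * (2 + 11 * (1 / 50) : ℝ) ^ 2 :=
              mul_le_mul_of_nonneg_right (by linarith) (by positivity)
          _ ≤ _ := by nlinarith
      calc _ = (2 * s + 6 / 5 * κ) * (2 + 11 * s) ^ 2 * Z := by ring
        _ ≤ _ := mul_le_mul_of_nonneg_right h2 w0
    have g8 : 2 * s ^ 2 * Z ≤ s / 25 * Z := mul_le_mul_of_nonneg_right (by linarith) w0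
    have g9 : 0 ≤ s * Z := by positivity
    linarith
  · rw [Phi2_quad hP.symm]
    have u1 := (trace_quad (by positivity) (by positivity) (by positivity) hR hR (lc N z)).2
    have u2 := (trace_quad (by positivity) (by positivity) (by norm_num) hR hB
      (lc N (P *ᵥ z))).1
    have u3 := (trace_quad hp0.le hp1.le (by positivity) hP hD (lc S (P *ᵥ z))).1
    have u4 := (trace_quad hp0.le hp1.le hp0.le hP hP (lc S z)).2
    have c1 := h.up z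
    have c1' := h.lo z
    have c2 := h.lo (P *ᵥ z)
    have c3 := h.str z
    have b := hP.norm_le hp0 hp1 z
    have w0 := dot_self_nonneg z
    have w2 := dot_self_nonneg (P *ᵥ z)
    have w3 := trace_self_nonneg (lc S (P *ᵥ z))
    have w4 := trace_self_nonneg (lc S z)
    set Z := z ⬝ᵥ z with hZ
    set V := (P *ᵥ z) ⬝ᵥ (P *ᵥ z) with hV
    set n := trace (lc N (P *ᵥ z) * (lc N (P *ᵥ z))ᵀ) with hn
    set σ := trace (lc S z * (lc S z)ᵀ) with hσ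
    have g1 : 1 / 2 * trace (B⁻¹ * (lc N z * B⁻¹ * (lc N z)ᵀ)) ≤ 2 * Z := by
      have : (1 : ℝ) / (1 / 2) = 2 := by norm_num
      rw [this] at u1
      linarith
    have g2 : (1 - 3 * κ) * (1 - 2 * s) * V ≤
        trace (B⁻¹ * (lc N (P *ᵥ z) * B * (lc N (P *ᵥ z))ᵀ)) := by
      have h1 : (1 - 2 * s) * n ≤ 1 / (1 / 2 + s) * (1 / 2) * n := by
        refine mul_le_mul_of_nonneg_right ?_ (trace_self_nonneg _)
        rw [one_div_mul_eq_div, le_div_iff₀ hb0]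
        nlinarith [sq_nonneg s]
      have h2 : (1 - 2 * s) * ((1 - 3 * κ) * V) ≤ (1 - 2 * s) * n :=
        mul_le_mul_of_nonneg_left c2 (by linarith)
      linarith
    have g3 : 0 ≤ trace (P * (lc S (P *ᵥ z) * P⁻¹ * (lc S (P *ᵥ z))ᵀ)) :=
      le_trans (by positivity) u3
    have g5 : V - (1 - 3 * κ) * (1 - 2 * s) * V ≤ (2 * s + 3 * κ) * V := by
      have : 0 ≤ s * κ * V := by positivity
      nlinarith
    have g6 : (2 * s + 3 * κ) * V ≤ (2 * s + 3 * κ) * ((2 + 11 * s) ^ 2 * Z) :=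
      mul_le_mul_of_nonneg_left b (by positivity)
    have hσ1 : σ ≤ 3 * κ * Z := by linarith
    have g4 : 1 / 2 * trace (P * (lc S z * P * (lc S z)ᵀ)) ≤ 3 / 2 * κ * ((2 + 11 * s) ^ 2 * Z) := by
      have h1 : (2 + 11 * s) * (2 + 11 * s) * σ ≤ (2 + 11 * s) * (2 + 11 * s) * (3 * κ * Z) :=
        mul_le_mul_of_nonneg_left hσ1 (by positivity)
      nlinarith
    have g7 : (2 * s + 9 / 2 * κ) * ((2 + 11 * s) ^ 2 * Z) ≤ 11 * s * Z := by
      have h1 : (2 + 11 * s) ^ 2 ≤ (2 + 11 * (1 / 50) : ℝ) ^ 2 :=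
        pow_le_pow_left₀ hp1.le (by linarith) 2
      have h2 : (2 * s + 9 / 2 * κ) * (2 + 11 * s) ^ 2 ≤ 11 * s := by
        calc (2 * s + 9 / 2 * κ) * (2 + 11 * s) ^ 2 ≤
              (2 * s + 9 / 2 * κ) * (2 + 11 * (1 / 50) : ℝ) ^ 2 :=
              mul_le_mul_of_nonneg_left h1 (by positivity)
          _ ≤ (2 * s + 9 / 2 * (s / 150)) * (2 + 11 * (1 / 50) : ℝ) ^ 2 :=
              mul_le_mul_of_nonneg_right (by linarith) (by positivity)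
          _ ≤ _ := by nlinarith
      calc _ = (2 * s + 9 / 2 * κ) * (2 + 11 * s) ^ 2 * Z := by ring
        _ ≤ _ := mul_le_mul_of_nonneg_right h2 w0
    linarith

/-- The scalar equation. -/
theorem x_btw {θ κ s x α μ : ℝ} (hp : Par θ κ s x) (ha : α ≤ 1) (ha' : 1 - α ≤ 4 * κ)
    (hm : 1 / (1 / 2 + s) * (1 / (1 / 2 + s)) * (1 - α) ≤ μ) (hm' : μ ≤ 4 * (1 - α)) :
    1 / 2 - 8 * s ^ 3 ≤ 1 / 2 * α + 1 / 2 * x ^ 2 * μ ∧
      1 / 2 * α + 1 / 2 * x ^ 2 * μ ≤ 1 / 2 := by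
  obtain ⟨s0, s1, t1, k0, k1, x0, x1⟩ := hp
  have s2 : s ≤ 1 / 50 := by linarith
  have hs3 : (0 : ℝ) ≤ s ^ 3 := by positivity
  have hs3' : s ^ 3 ≤ s ^ 2 / 50 := by nlinarith [sq_nonneg s]
  have hs2' : s ^ 2 ≤ s / 50 := by nlinarith
  have hx : (0 : ℝ) ≤ x := by nlinarith
  have ha0 : 0 ≤ 1 - α := by linarith
  have hm1 : (4 - 16 * s) * (1 - α) ≤ μ := by
    refine le_trans (mul_le_mul_of_nonneg_right ?_ ha0) hm
    rw [one_div_mul_one_div_rev, le_div_iff₀ (by positivity)]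
    nlinarith [sq_nonneg s]
  have hm0 : 0 ≤ μ := le_trans (mul_nonneg (by linarith) ha0) hm1
  constructor
  · have h1 : (1 / 2 - 8 * s ^ 3) ^ 2 ≤ x ^ 2 := pow_le_pow_left₀ (by nlinarith) x0 2
    have h2 : 1 / 4 - 8 * s ^ 3 ≤ x ^ 2 := by nlinarith [sq_nonneg (s ^ 3)]
    have h3 : (1 / 4 - 8 * s ^ 3) * ((4 - 16 * s) * (1 - α)) ≤ x ^ 2 * μ :=
      mul_le_mul h2 hm1 (mul_nonneg (by linarith) ha0) (sq_nonneg x)
    have h4 : (1 - 4 * s - 32 * s ^ 3) * (1 - α) ≤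
        (1 / 4 - 8 * s ^ 3) * ((4 - 16 * s) * (1 - α)) := by
      have h5 : 1 - 4 * s - 32 * s ^ 3 ≤ (1 / 4 - 8 * s ^ 3) * (4 - 16 * s) := by nlinarith
      calc _ ≤ (1 / 4 - 8 * s ^ 3) * (4 - 16 * s) * (1 - α) :=
            mul_le_mul_of_nonneg_right h5 ha0
        _ = _ := by ring
    have h6 : (4 * s + 32 * s ^ 3) * (1 - α) ≤ (4 * s + 32 * s ^ 3) * (2 * s ^ 2) :=
      mul_le_mul_of_nonneg_left (by linarith) (by positivity)
    have h7 : (4 * s + 32 * s ^ 3) * (2 * s ^ 2) ≤ 16 * s ^ 3 := by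
      have h8 : s ^ 5 ≤ s ^ 3 / 2500 := by
        have : s ^ 5 = s ^ 3 * s ^ 2 := by ring
        rw [this]
        nlinarith
      nlinarith
    linarith
  · have h1 : x ^ 2 ≤ (1 / 2) ^ 2 := pow_le_pow_left₀ hx x1 2
    have h2 : x ^ 2 * μ ≤ 1 / 4 * (4 * (1 - α)) := by
      refine mul_le_mul (by linarith) hm' hm0 (by norm_num)
    linarith

end Pool.Agent.EinS
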