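import Pool.Agent.EinS.Pair

/-!
# The metric of a matrix and its Ricci curvature
-/

namespace Pool.Agent.EinS

open Matrix Pool.Agent.EStab

variable {L : Type*} [LieRing L] [LieAlgebra ℝ L] {ι : Type*} [Fintype ι] [DecidableEq ι]

/-- Coordinates. -/
noncomputable def co (e : ι → L) : L →ₗ[ℝ] (ι → ℝ) where
  toFun z := fun x => Qf L z (e x)
  map_add' z w := by
    funext x
    rw [map_add, LinearMap.add_apply]
    rfl
  map_smul' c z := by
    funext x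
    rw [map_smul, LinearMap.smul_apply]
    rfl

theorem co_apply (e : ι → L) (z : L) (x : ι) : co e z x = Qf L z (e x) := rfl

/-- Projection. -/
noncomputable def prj (e : ι → L) : L →ₗ[ℝ] L where
  toFun z := ∑ x, Qf L z (e x) • e x
  map_add' z w := by
    rw [← Finset.sum_add_distrib]
    refine Finset.sum_congr rfl fun x _ => ?_
    rw [map_add, LinearMap.add_apply, add_smul]
  map_smul' c z := by
    rw [RingHom.id_apply, Finset.smul_sum]
    refine Finset.sum_congr rfl fun x _ => ?_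
    rw [map_smul, LinearMap.smul_apply, smul_smul, smul_eq_mul]

theorem prj_apply (e : ι → L) (z : L) : prj e z = ∑ x, Qf L z (e x) • e x := rfl

/-- The metric. -/
noncomputable def bet (e : ι → L) (G : Matrix ι ι ℝ) : LinearMap.BilinForm ℝ L :=
  LinearMap.mk₂ ℝ (fun z w => co e z ⬝ᵥ (G *ᵥ co e w))
    (fun z z' w => by rw [map_add, add_dotProduct])
    (fun c z w => by rw [map_smul, smul_dotProduct])
    (fun z w w' => by rw [map_add, Matrix.mulVec_add, dotProduct_add])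
    (fun c z w => by rw [map_smul, Matrix.mulVec_smul, dotProduct_smul])

theorem bet_apply (e : ι → L) (G : Matrix ι ι ℝ) (z w : L) :
    bet e G z w = co e z ⬝ᵥ (G *ᵥ co e w) := rfl

theorem bet_symm (e : ι → L) {G : Matrix ι ι ℝ} (hG : G.IsSymm) (z w : L) :
    bet e G z w = bet e G w z := by
  rw [bet_apply, bet_apply, Matrix.dotProduct_mulVec, ← Matrix.mulVec_transpose, hG.eq,
    dotProduct_comm]

theorem co_prj {W : Submodule ℝ L} {e : ι → L} (he : IsFrame W e) (z : L) :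
    co e (prj e z) = co e z := by
  funext x
  rw [co_apply, prj_apply, he.coord]
  rfl

theorem co_comb {W : Submodule ℝ L} {e : ι → L} (he : IsFrame W e) (c : ι → ℝ) :
    co e (∑ x, c x • e x) = c := by
  funext x
  rw [co_apply, he.coord]

/-- The matrix of a bracket. -/
noncomputable def CF (e : ι → L) : ι → Matrix ι ι ℝ :=
  fun x => of fun y z => Qf L ⁅e x, e y⁆ (e z)

theorem lc_CF (e : ι → L) (c : ι → ℝ) (y z : ι) :
    lc (CF e) c y z = Qf L ⁅∑ x, c x • e x, e y⁆ (e z) := by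
  unfold lc CF
  rw [Matrix.sum_apply, sum_lie, map_sum, LinearMap.sum_apply]
  refine Finset.sum_congr rfl fun s _ => ?_
  rw [smul_lie, map_smul, LinearMap.smul_apply, smul_eq_mul, Matrix.smul_apply, smul_eq_mul]
  rfl

/-- The new frame. -/
noncomputable def XE (e : ι → L) (E : Matrix ι ι ℝ) (i : ι) : L := ∑ y, E y i • e y

theorem co_lie_XE (e : ι → L) (E : Matrix ι ι ℝ) (c : ι → ℝ) (i z : ι) :
    co e ⁅∑ x, c x • e x, XE e E i⁆ z = (Eᵀ * lc (CF e) c) i z := by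
  rw [co_apply, XE, lie_sum, map_sum, LinearMap.sum_apply, Matrix.mul_apply]
  refine Finset.sum_congr rfl fun y _ => ?_
  rw [lie_smul, map_smul, LinearMap.smul_apply, smul_eq_mul, lc_CF, Matrix.transpose_apply]

theorem quad_row (M : Matrix ι ι ℝ) (G : Matrix ι ι ℝ) (i : ι) (v : ι → ℝ)
    (hv : ∀ z, v z = M i z) : v ⬝ᵥ (G *ᵥ v) = (M * G * Mᵀ) i i := by
  rw [Matrix.mul_assoc, Matrix.mul_apply]
  unfold dotProduct
  refine Finset.sum_congr rfl fun z _ => ?_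
  rw [hv, Matrix.mul_apply]
  unfold mulVec dotProduct
  congr 1
  refine Finset.sum_congr rfl fun w _ => ?_
  rw [hv, Matrix.transpose_apply]

theorem orthonormal_frame {G Gi E : Matrix ι ι ℝ} (hE : Eᵀ * G * E = 1) (hGi : G * Gi = 1) :
    E * Eᵀ = Gi := by
  have h1 : E * (Eᵀ * G) = 1 := mul_eq_one_comm.1 hE
  calc E * Eᵀ = E * Eᵀ * (G * Gi) := by rw [hGi, Matrix.mul_one]
    _ = E * (Eᵀ * G) * Gi := by simp only [Matrix.mul_assoc]
    _ = Gi := by rw [h1, Matrix.one_mul]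

theorem ricci_first {e : ι → L} {G Gi E : Matrix ι ι ℝ} (hE : Eᵀ * G * E = 1)
    (hGi : G * Gi = 1) (c : ι → ℝ) :
    ∑ i, co e ⁅∑ x, c x • e x, XE e E i⁆ ⬝ᵥ (G *ᵥ co e ⁅∑ x, c x • e x, XE e E i⁆) =
      c ⬝ᵥ (UU (CF e) G Gi *ᵥ c) := by
  rw [UU_quad]
  have h1 : ∀ i, co e ⁅∑ x, c x • e x, XE e E i⁆ ⬝ᵥ (G *ᵥ co e ⁅∑ x, c x • e x, XE e E i⁆) =
      ((Eᵀ * lc (CF e) c) * G * (Eᵀ * lc (CF e) c)ᵀ) i i := fun i =>
    quad_row _ G i _ (co_lie_XE e E c i)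
  simp only [h1]
  change trace ((Eᵀ * lc (CF e) c) * G * (Eᵀ * lc (CF e) c)ᵀ) = _
  rw [← orthonormal_frame hE hGi, Matrix.transpose_mul, Matrix.transpose_transpose]
  calc trace (Eᵀ * lc (CF e) c * G * ((lc (CF e) c)ᵀ * E))
      = trace (Eᵀ * (lc (CF e) c * G * (lc (CF e) c)ᵀ * E)) := by
        simp only [Matrix.mul_assoc]
    _ = trace ((lc (CF e) c * G * (lc (CF e) c)ᵀ * E) * Eᵀ) := Matrix.trace_mul_comm _ _
    _ = trace (E * (Eᵀ * (lc (CF e) c * G * (lc (CF e) c)ᵀ))) := by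
        rw [Matrix.mul_assoc, Matrix.trace_mul_comm]
        simp only [Matrix.mul_assoc]
    _ = _ := by simp only [Matrix.mul_assoc]

theorem Qf_lie_cyc (x y z : L) : Qf L ⁅x, y⁆ z = Qf L ⁅z, x⁆ y := by
  rw [Qf_symm, ← Qf_lie]

theorem ricci_second {W : Submodule ℝ L} {e : ι → L} (he : IsFrame W e) {G Gi E : Matrix ι ι ℝ}
    (hE : Eᵀ * G * E = 1) (hG : G.IsSymm) (hGi : G * Gi = 1) (c : ι → ℝ) :
    ∑ i, ∑ j, (co e ⁅XE e E i, XE e E j⁆ ⬝ᵥ (G *ᵥ c)) ^ 2 =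
      c ⬝ᵥ ((G * UU (CF e) Gi Gi * G) *ᵥ c) := by
  have h0 : c ⬝ᵥ ((G * UU (CF e) Gi Gi * G) *ᵥ c) =
      (G *ᵥ c) ⬝ᵥ (UU (CF e) Gi Gi *ᵥ (G *ᵥ c)) := by
    rw [Matrix.mul_assoc, ← Matrix.mulVec_mulVec, ← Matrix.mulVec_mulVec,
      Matrix.dotProduct_mulVec, ← Matrix.mulVec_transpose, hG.eq]
  rw [h0, UU_quad]
  set η := G *ᵥ c with hη
  have h1 : ∀ i j, co e ⁅XE e E i, XE e E j⁆ ⬝ᵥ η = (Eᵀ * lc (CF e) η * E) i j := by
    intro i j
    have h2 : co e ⁅XE e E i, XE e E j⁆ ⬝ᵥ η =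
        Qf L ⁅∑ x, η x • e x, XE e E i⁆ (XE e E j) := by
      rw [← Qf_lie_cyc, Qf_sum']
      unfold dotProduct
      refine Finset.sum_congr rfl fun x _ => ?_
      rw [co_apply, mul_comm]
    have h4 : XE e E j = ∑ z, E z j • e z := rfl
    rw [h2, h4, Qf_sum', Matrix.mul_apply]
    refine Finset.sum_congr rfl fun z _ => ?_
    rw [mul_comm]
    congr 1
    exact co_lie_XE e E η i z
  simp only [h1]
  have h3 := trace_mul_transpose' (Eᵀ * lc (CF e) η * E)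
  rw [← h3, ← orthonormal_frame hE hGi, Matrix.transpose_mul, Matrix.transpose_mul,
    Matrix.transpose_transpose]
  calc trace (Eᵀ * lc (CF e) η * E * (Eᵀ * ((lc (CF e) η)ᵀ * E)))
      = trace (Eᵀ * (lc (CF e) η * (E * Eᵀ) * (lc (CF e) η)ᵀ * E)) := by
        simp only [Matrix.mul_assoc]
    _ = trace ((lc (CF e) η * (E * Eᵀ) * (lc (CF e) η)ᵀ * E) * Eᵀ) := Matrix.trace_mul_comm _ _
    _ = trace (E * (Eᵀ * (lc (CF e) η * (E * Eᵀ) * (lc (CF e) η)ᵀ))) := by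
        rw [Matrix.mul_assoc, Matrix.trace_mul_comm]
        simp only [Matrix.mul_assoc]
    _ = _ := by simp only [Matrix.mul_assoc]

theorem ricci_eval {D : ℕ} (eqv : Fin D ≃ ι) {W : Submodule ℝ L} {e : ι → L}
    (he : IsFrame W e) {G Gi E : Matrix ι ι ℝ}
    (hE : Eᵀ * G * E = 1) (hG : G.IsSymm) (hGi : G * Gi = 1) {x : L} (hx : x ∈ W) :
    ricci (prj e) (bet e G) (fun i => XE e E (eqv i)) x =
      co e x ⬝ᵥ (RicM (CF e) G Gi *ᵥ co e x) := by
  set c := co e x with hc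
  have hxe : x = ∑ y, c y • e y := he.exp x hx
  have h1 : ∑ i, bet e G (prj e ⁅x, XE e E (eqv i)⁆) (prj e ⁅x, XE e E (eqv i)⁆) =
      c ⬝ᵥ (UU (CF e) G Gi *ᵥ c) := by
    rw [← ricci_first hE hGi c, ← hxe]
    rw [← Equiv.sum_comp eqv]
    refine Finset.sum_congr rfl fun i _ => ?_
    rw [bet_apply, co_prj he]
  have h2 : ∑ i, ∑ j, (bet e G (prj e ⁅XE e E (eqv i), XE e E (eqv j)⁆) x) ^ 2 =
      c ⬝ᵥ ((G * UU (CF e) Gi Gi * G) *ᵥ c) := by
    rw [← ricci_second he hE hG hGi c]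
    rw [← Equiv.sum_comp eqv]
    refine Finset.sum_congr rfl fun i _ => ?_
    rw [← Equiv.sum_comp eqv]
    refine Finset.sum_congr rfl fun j _ => ?_
    rw [bet_apply, co_prj he, ← hc]
  have h3 : killingForm ℝ L x x = -(c ⬝ᵥ c) := by
    have h4 := he.parseval hx x
    rw [Qf_apply] at h4
    have h5 : c ⬝ᵥ c = ∑ i, Qf L x (e i) * Qf L x (e i) := rfl
    rw [h5, ← h4, neg_neg]
  unfold ricci RicM
  rw [h1, h2, h3, Matrix.add_mulVec, Matrix.sub_mulVec, Matrix.smul_mulVec,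
    Matrix.smul_mulVec, Matrix.smul_mulVec, Matrix.one_mulVec, dotProduct_add,
    dotProduct_sub, dotProduct_smul, dotProduct_smul, dotProduct_smul, smul_eq_mul,
    smul_eq_mul, smul_eq_mul]
  ring

end Pool.Agent.EinS
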