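import Pool.Agent.EinS.Phi
import Pool.Agent.Lib.Brouwer

/-!
# Existence of a fixed point, invariant under all symmetries
-/

namespace Pool.Agent.EinS

open Matrix

variable {m q p : Type*} [Fintype m] [DecidableEq m] [Fintype q] [DecidableEq q] [Fintype p]
  [DecidableEq p]

/-- A symmetry of the structure constants. -/
structure Sym (N : q → Matrix p p ℝ) (S : q → Matrix q q ℝ) (u : Matrix q q ℝ)
    (v : Matrix p p ℝ) : Prop where
  u1 : u * uᵀ = 1
  v1 : v * vᵀ = 1
  hN : ∀ a, v * N a * vᵀ = ∑ b, u b a • N b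
  hS : ∀ a, u * S a * uᵀ = ∑ b, u b a • S b

theorem conj_inv {v B : Matrix m m ℝ} (hv : v * vᵀ = 1) (h : v * B * vᵀ = B) :
    v * B⁻¹ * vᵀ = B⁻¹ := by
  have hv' : vᵀ * v = 1 := mul_eq_one_comm.1 hv
  have hvi : v⁻¹ = vᵀ := Matrix.inv_eq_right_inv hv
  have hvti : vᵀ⁻¹ = v := Matrix.inv_eq_right_inv hv'
  conv_rhs => rw [← h]
  rw [Matrix.mul_inv_rev, Matrix.mul_inv_rev, hvi, hvti, Matrix.mul_assoc]

theorem TT_inv {F : q → Matrix p p ℝ} {A : Matrix q q ℝ} {C : Matrix p p ℝ} {u : Matrix q q ℝ}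
    {v : Matrix p p ℝ} (hv : vᵀ * v = 1) (hF : ∀ a, v * F a * vᵀ = ∑ b, u b a • F b)
    (hA : u * A * uᵀ = A) (hC : v * C * vᵀ = C) : v * TT F A C * vᵀ = TT F A C := by
  have h1 : ∀ a b, v * (F a * C * (F b)ᵀ) * vᵀ =
      (v * F a * vᵀ) * C * (v * F b * vᵀ)ᵀ := by
    intro a b
    conv_rhs => rw [← hC]
    rw [Matrix.transpose_mul, Matrix.transpose_mul, Matrix.transpose_transpose]
    calc v * (F a * C * (F b)ᵀ) * vᵀ = v * F a * (1 * C * 1) * (F b)ᵀ * vᵀ := by
          simp only [Matrix.one_mul, Matrix.mul_one, Matrix.mul_assoc]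
      _ = v * F a * ((vᵀ * v) * C * (vᵀ * v)) * (F b)ᵀ * vᵀ := by rw [hv]
      _ = _ := by simp only [Matrix.mul_assoc]
  have h2 : v * TT F A C * vᵀ = ∑ a, ∑ b, A a b •
      ((∑ c, u c a • F c) * C * (∑ d, u d b • F d)ᵀ) := by
    unfold TT
    rw [Matrix.mul_sum, Matrix.sum_mul]
    refine Finset.sum_congr rfl fun a _ => ?_
    rw [Matrix.mul_sum, Matrix.sum_mul]
    refine Finset.sum_congr rfl fun b _ => ?_
    rw [Matrix.mul_smul, Matrix.smul_mul, h1, hF, hF]
  rw [h2]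
  have h3 : ∀ a b, ((∑ c, u c a • F c) * C * (∑ d, u d b • F d)ᵀ) =
      ∑ c, ∑ d, (u c a * u d b) • (F c * C * (F d)ᵀ) := by
    intro a b
    rw [Matrix.transpose_sum, Finset.sum_mul, Finset.sum_mul]
    refine Finset.sum_congr rfl fun c _ => ?_
    rw [Finset.mul_sum]
    refine Finset.sum_congr rfl fun d _ => ?_
    rw [Matrix.transpose_smul, Matrix.mul_smul, Matrix.smul_mul, Matrix.smul_mul, smul_smul,
      mul_comm (u c a)]
  simp only [h3]
  have h4 : ∀ c d, ∑ a, ∑ b, u c a * A a b * u d b = A c d := by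
    intro c d
    conv_rhs => rw [← hA]
    rw [Matrix.mul_apply, Finset.sum_comm]
    refine Finset.sum_congr rfl fun b _ => ?_
    rw [Matrix.transpose_apply, Matrix.mul_apply, Finset.sum_mul]
  unfold TT
  simp only [Finset.smul_sum, smul_smul]
  calc ∑ a, ∑ b, ∑ c, ∑ d, (A a b * (u c a * u d b)) • (F c * C * (F d)ᵀ)
      = ∑ c, ∑ d, ∑ a, ∑ b, (A a b * (u c a * u d b)) • (F c * C * (F d)ᵀ) := by
        rw [Finset.sum_congr rfl fun a _ => Finset.sum_comm, Finset.sum_comm]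
        refine Finset.sum_congr rfl fun c _ => ?_
        rw [Finset.sum_congr rfl fun a _ => Finset.sum_comm, Finset.sum_comm]
    _ = ∑ c, ∑ d, A c d • (F c * C * (F d)ᵀ) := by
        refine Finset.sum_congr rfl fun c _ => Finset.sum_congr rfl fun d _ => ?_
        rw [← h4 c d]
        simp only [Finset.sum_smul]
        refine Finset.sum_congr rfl fun a _ => Finset.sum_congr rfl fun b _ => ?_
        congr 1
        ring

theorem UU_inv {F : q → Matrix m m ℝ} {A C : Matrix m m ℝ} {u : Matrix q q ℝ}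
    {v : Matrix m m ℝ} (hv : v * vᵀ = 1) (hu : u * uᵀ = 1)
    (hF : ∀ a, v * F a * vᵀ = ∑ b, u b a • F b)
    (hA : v * A * vᵀ = A) (hC : v * C * vᵀ = C) : u * UU F A C * uᵀ = UU F A C := by
  have hv' : vᵀ * v = 1 := mul_eq_one_comm.1 hv
  have hF' : ∀ a, ∑ b, u a b • F b = vᵀ * F a * v := by
    intro a
    have h1 : ∑ c, u a c • (v * F c * vᵀ) = F a := by
      simp only [hF, Finset.smul_sum, smul_smul]
      rw [Finset.sum_comm]
      have h2 : ∀ b, ∑ c, (u a c * u b c) • F b = (if a = b then (1 : ℝ) else 0) • F b := by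
        intro b
        rw [← Finset.sum_smul]
        congr 1
        have h3 := congrFun (congrFun hu a) b
        rw [Matrix.mul_apply, Matrix.one_apply] at h3
        rw [← h3]
        rfl
      simp only [h2]
      simp
    have h4 : ∑ c, u a c • (v * F c * vᵀ) = v * (∑ c, u a c • F c) * vᵀ := by
      rw [Matrix.mul_sum, Matrix.sum_mul]
      refine Finset.sum_congr rfl fun c _ => ?_
      rw [Matrix.mul_smul, Matrix.smul_mul]
    rw [h4] at h1
    rw [← h1]
    calc ∑ b, u a b • F b = 1 * (∑ b, u a b • F b) * 1 := by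
          rw [Matrix.one_mul, Matrix.mul_one]
      _ = (vᵀ * v) * (∑ b, u a b • F b) * (vᵀ * v) := by rw [hv']
      _ = vᵀ * (v * (∑ c, u a c • F c) * vᵀ) * v := by simp only [Matrix.mul_assoc]
  have hA' : v * A = A * v := by
    calc v * A = v * A * (vᵀ * v) := by rw [hv', Matrix.mul_one]
      _ = (v * A * vᵀ) * v := by simp only [Matrix.mul_assoc]
      _ = A * v := by rw [hA]
  have hC' : v * C = C * v := by
    calc v * C = v * C * (vᵀ * v) := by rw [hv', Matrix.mul_one]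
      _ = (v * C * vᵀ) * v := by simp only [Matrix.mul_assoc]
      _ = C * v := by rw [hC]
  ext a b
  rw [Matrix.mul_apply]
  simp only [Matrix.mul_apply, Matrix.transpose_apply, Finset.sum_mul]
  have h5 : ∀ c d, u a c * UU F A C c d * u b d =
      trace ((u a c • F c) * A * (u b d • F d)ᵀ * C) := by
    intro c d
    change u a c * trace (F c * A * (F d)ᵀ * C) * u b d = _
    rw [Matrix.transpose_smul, Matrix.mul_smul, Matrix.smul_mul, Matrix.smul_mul,
      Matrix.smul_mul, Matrix.smul_mul, Matrix.trace_smul, Matrix.trace_smul, smul_eq_mul,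
      smul_eq_mul]
    ring
  simp only [h5]
  have h6 : ∑ d, ∑ c, trace ((u a c • F c) * A * (u b d • F d)ᵀ * C) =
      trace ((∑ c, u a c • F c) * A * (∑ d, u b d • F d)ᵀ * C) := by
    rw [Matrix.transpose_sum, Finset.sum_mul, Matrix.mul_sum, Matrix.sum_mul, Matrix.trace_sum]
    refine Finset.sum_congr rfl fun d _ => ?_
    rw [Matrix.sum_mul, Matrix.sum_mul, Matrix.trace_sum]
  rw [h6, hF', hF', Matrix.transpose_mul, Matrix.transpose_mul, Matrix.transpose_transpose]
  change _ = trace (F a * A * (F b)ᵀ * C)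
  calc trace (vᵀ * F a * v * A * (vᵀ * ((F b)ᵀ * v)) * C)
      = trace (vᵀ * (F a * (v * A) * vᵀ * (F b)ᵀ * (v * C))) := by
        simp only [Matrix.mul_assoc]
    _ = trace (F a * (v * A) * vᵀ * (F b)ᵀ * (v * C) * vᵀ) := by
        rw [Matrix.trace_mul_comm]
    _ = trace (F a * A * (v * vᵀ) * (F b)ᵀ * C * (v * vᵀ)) := by
        rw [hA', hC']
        simp only [Matrix.mul_assoc]
    _ = trace (F a * A * (F b)ᵀ * C) := by
        rw [hv, Matrix.mul_one, Matrix.mul_one]

theorem Phi1_inv {N : q → Matrix p p ℝ} {S : q → Matrix q q ℝ} {u : Matrix q q ℝ}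
    {v : Matrix p p ℝ} (h : Sym N S u v) {B : Matrix p p ℝ} {P : Matrix q q ℝ}
    (hB : v * B * vᵀ = B) (hP : u * P * uᵀ = P) : v * Phi1 N B P * vᵀ = Phi1 N B P := by
  have hv' : vᵀ * v = 1 := mul_eq_one_comm.1 h.v1
  have hR := conj_inv h.v1 hB
  have hD := conj_inv h.u1 hP
  have hB' : v * B = B * v := by
    calc v * B = v * B * (vᵀ * v) := by rw [hv', Matrix.mul_one]
      _ = (v * B * vᵀ) * v := by simp only [Matrix.mul_assoc]
      _ = B * v := by rw [hB]
  have hB'' : B * vᵀ = vᵀ * B := by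
    calc B * vᵀ = (vᵀ * v) * B * vᵀ := by rw [hv', Matrix.one_mul]
      _ = vᵀ * (v * B * vᵀ) := by simp only [Matrix.mul_assoc]
      _ = vᵀ * B := by rw [hB]
  unfold Phi1
  rw [Matrix.mul_add, Matrix.mul_sub, Matrix.mul_sub, Matrix.add_mul, Matrix.sub_mul,
    Matrix.sub_mul, Matrix.mul_one, h.v1, TT_inv hv' h.hN hD hR, TT_inv hv' h.hN hP hB]
  congr 1
  calc v * (B * TT N P B⁻¹ * B) * vᵀ = (v * B) * TT N P B⁻¹ * (B * vᵀ) := by
        simp only [Matrix.mul_assoc]
    _ = B * (v * TT N P B⁻¹ * vᵀ) * B := by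
        rw [hB', hB'']
        simp only [Matrix.mul_assoc]
    _ = B * TT N P B⁻¹ * B := by rw [TT_inv hv' h.hN hP hR]

theorem Phi2_inv {N : q → Matrix p p ℝ} {S : q → Matrix q q ℝ} {u : Matrix q q ℝ}
    {v : Matrix p p ℝ} (h : Sym N S u v) {B : Matrix p p ℝ} {P : Matrix q q ℝ}
    (hB : v * B * vᵀ = B) (hP : u * P * uᵀ = P) : u * Phi2 N S B P * uᵀ = Phi2 N S B P := by
  have hu' : uᵀ * u = 1 := mul_eq_one_comm.1 h.u1
  have hR := conj_inv h.v1 hB
  have hD := conj_inv h.u1 hP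
  have hP' : u * P = P * u := by
    calc u * P = u * P * (uᵀ * u) := by rw [hu', Matrix.mul_one]
      _ = (u * P * uᵀ) * u := by simp only [Matrix.mul_assoc]
      _ = P * u := by rw [hP]
  have hP'' : P * uᵀ = uᵀ * P := by
    calc P * uᵀ = (uᵀ * u) * P * uᵀ := by rw [hu', Matrix.one_mul]
      _ = uᵀ * (u * P * uᵀ) := by simp only [Matrix.mul_assoc]
      _ = uᵀ * P := by rw [hP]
  unfold Phi2
  rw [Matrix.mul_add, Matrix.mul_add, Matrix.add_mul, Matrix.add_mul, Matrix.mul_smul,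
    Matrix.mul_smul, Matrix.smul_mul, Matrix.smul_mul, UU_inv h.v1 h.u1 h.hN hR hR,
    UU_inv h.u1 h.u1 h.hS hP hP]
  congr 2
  calc u * (P * (1 - UU N B B⁻¹ - UU S P⁻¹ P) * P) * uᵀ
      = (u * P) * (1 - UU N B B⁻¹ - UU S P⁻¹ P) * (P * uᵀ) := by
        simp only [Matrix.mul_assoc]
    _ = P * (u * (1 - UU N B B⁻¹ - UU S P⁻¹ P) * uᵀ) * P := by
        rw [hP', hP'']
        simp only [Matrix.mul_assoc]
    _ = P * (1 - UU N B B⁻¹ - UU S P⁻¹ P) * P := by
        rw [Matrix.mul_sub, Matrix.mul_sub, Matrix.sub_mul, Matrix.sub_mul, Matrix.mul_one,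
          h.u1, UU_inv h.v1 h.u1 h.hN hB hR, UU_inv h.u1 h.u1 h.hS hD hP]

/-- The invariant pairs of matrices in the box. -/
def Box (N : q → Matrix p p ℝ) (S : q → Matrix q q ℝ) : Set (Matrix p p ℝ × Matrix q q ℝ) :=
  {z | Btw (9107 / 10000) (102 / 100) z.1 ∧ Btw (383 / 1000) (69 / 100) z.2 ∧
    ∀ u v, Sym N S u v → v * z.1 * vᵀ = z.1 ∧ u * z.2 * uᵀ = z.2}

theorem quad_add (A C : Matrix m m ℝ) (s t : ℝ) (x : m → ℝ) :
    x ⬝ᵥ ((s • A + t • C) *ᵥ x) = s * (x ⬝ᵥ (A *ᵥ x)) + t * (x ⬝ᵥ (C *ᵥ x)) := by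
  rw [Matrix.add_mulVec, dotProduct_add, Matrix.smul_mulVec, Matrix.smul_mulVec,
    dotProduct_smul, dotProduct_smul, smul_eq_mul, smul_eq_mul]

theorem Btw.convex {a b : ℝ} {A C : Matrix m m ℝ} (hA : Btw a b A) (hC : Btw a b C) {s t : ℝ}
    (hs : 0 ≤ s) (ht : 0 ≤ t) (hst : s + t = 1) : Btw a b (s • A + t • C) := by
  refine ⟨?_, fun x => ?_, fun x => ?_⟩
  · unfold Matrix.IsSymm
    rw [Matrix.transpose_add, Matrix.transpose_smul, Matrix.transpose_smul, hA.symm.eq,
      hC.symm.eq]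
  · rw [quad_add]
    have h1 := mul_le_mul_of_nonneg_left (hA.lo x) hs
    have h2 := mul_le_mul_of_nonneg_left (hC.lo x) ht
    calc a * (x ⬝ᵥ x) = (s + t) * (a * (x ⬝ᵥ x)) := by rw [hst, one_mul]
      _ = s * (a * (x ⬝ᵥ x)) + t * (a * (x ⬝ᵥ x)) := by ring
      _ ≤ _ := add_le_add h1 h2
  · rw [quad_add]
    have h1 := mul_le_mul_of_nonneg_left (hA.up x) hs
    have h2 := mul_le_mul_of_nonneg_left (hC.up x) ht
    calc _ ≤ s * (b * (x ⬝ᵥ x)) + t * (b * (x ⬝ᵥ x)) := add_le_add h1 h2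
      _ = (s + t) * (b * (x ⬝ᵥ x)) := by ring
      _ = b * (x ⬝ᵥ x) := by rw [hst, one_mul]

theorem Btw.entry {a b : ℝ} (ha : 0 ≤ a) (hb : 0 ≤ b) {A : Matrix m m ℝ} (hA : Btw a b A)
    (i j : m) : |A i j| ≤ b := by
  have hq : ∀ x : m → ℝ, 0 ≤ x ⬝ᵥ (A *ᵥ x) := fun x =>
    le_trans (mul_nonneg ha (dot_self_nonneg x)) (hA.lo x)
  have e1 : ∀ i j, (Pi.single i (1 : ℝ) : m → ℝ) ⬝ᵥ (A *ᵥ (Pi.single j (1 : ℝ))) = A i j := by
    intro i j
    rw [Matrix.mulVec_single_one, single_one_dotProduct]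
    rfl
  have e2 : ∀ i j, (Pi.single i (1 : ℝ) : m → ℝ) ⬝ᵥ (Pi.single j (1 : ℝ)) =
      if i = j then 1 else 0 := by
    intro i j
    rw [single_one_dotProduct, Pi.single_apply]
  have hsym : A j i = A i j := hA.symm.apply i j
  have hii : ∀ i, 0 ≤ A i i ∧ A i i ≤ b := by
    intro i
    have h1 := hq (Pi.single i 1)
    have h2 := hA.up (Pi.single i 1)
    rw [e1] at h1 h2
    rw [e2, if_pos rfl, mul_one] at h2
    exact ⟨h1, h2⟩
  by_cases hij : i = j
  · subst hij
    rw [abs_of_nonneg (hii i).1]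
    exact (hii i).2
  · have p1 := hq (Pi.single i 1 + Pi.single j 1)
    have p2 := hA.up (Pi.single i 1 + Pi.single j 1)
    have m2 := hA.up (Pi.single i 1 - Pi.single j 1)
    simp only [Matrix.mulVec_add, Matrix.mulVec_sub, dotProduct_add, add_dotProduct,
      dotProduct_sub, sub_dotProduct, e1, e2, if_true, if_neg hij, if_neg (Ne.symm hij),
      hsym] at p1 p2 m2
    have h1 := hii i
    have h2 := hii j
    rw [abs_le]
    constructor
    · linarith
    · linarith

theorem isClosed_btw (a b : ℝ) : IsClosed {A : Matrix m m ℝ | Btw a b A} := by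
  have h1 : {A : Matrix m m ℝ | Btw a b A} = {A | Aᵀ = A} ∩
      ((⋂ x : m → ℝ, {A | a * (x ⬝ᵥ x) ≤ x ⬝ᵥ (A *ᵥ x)}) ∩
        ⋂ x : m → ℝ, {A | x ⬝ᵥ (A *ᵥ x) ≤ b * (x ⬝ᵥ x)}) := by
    ext A
    simp only [Set.mem_setOf_eq, Set.mem_inter_iff, Set.mem_iInter]
    exact ⟨fun h => ⟨h.symm, h.lo, h.up⟩, fun h => ⟨h.1, h.2.1, h.2.2⟩⟩
  rw [h1]
  have hc : ∀ x : m → ℝ, Continuous fun A : Matrix m m ℝ => x ⬝ᵥ (A *ᵥ x) := fun x =>
    Continuous.dotProduct continuous_const (Continuous.matrix_mulVec continuous_id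
      continuous_const)
  refine IsClosed.inter (isClosed_eq (Continuous.matrix_transpose continuous_id)
    continuous_id) (IsClosed.inter ?_ ?_)
  · exact isClosed_iInter fun x => isClosed_le continuous_const (hc x)
  · exact isClosed_iInter fun x => isClosed_le (hc x) continuous_const

theorem continuousOn_inv {a b : ℝ} (ha : 0 < a) :
    ContinuousOn (fun A : Matrix m m ℝ => A⁻¹) {A | Btw a b A} := by
  have h1 : ∀ A : Matrix m m ℝ, A⁻¹ = (A.det)⁻¹ • A.adjugate := by
    intro A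
    rw [Matrix.inv_def, Ring.inverse_eq_inv']
  simp only [h1]
  refine ContinuousOn.smul (ContinuousOn.inv₀ (Continuous.continuousOn
    (Continuous.matrix_det continuous_id)) fun A hA => ?_)
    (Continuous.continuousOn (Continuous.matrix_adjugate continuous_id))
  exact Btw.det_ne ha hA

theorem isCompact_entries (k : Type*) [Fintype k] : IsCompact {A : Matrix k k ℝ |
    ∀ i j, A i j ∈ Set.Icc (-2 : ℝ) 2} := by
  have := isCompact_univ_pi (fun _ : k => isCompact_univ_pi (fun _ : k =>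
    (isCompact_Icc : IsCompact (Set.Icc (-2 : ℝ) 2))))
  refine this.of_isClosed_subset ?_ ?_
  · have h2 : {A : Matrix k k ℝ | ∀ i j, A i j ∈ Set.Icc (-2 : ℝ) 2} =
        ⋂ i, ⋂ j, {A | A i j ∈ Set.Icc (-2 : ℝ) 2} := by
      ext A; simp
    rw [h2]
    exact isClosed_iInter fun i => isClosed_iInter fun j =>
      isClosed_Icc.preimage (Continuous.matrix_elem continuous_id i j)
  · intro A hA i _ j _
    exact hA i j

theorem continuousOn_mul' {X k l n : Type*} [TopologicalSpace X] [Fintype l]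
    {f : X → Matrix k l ℝ} {g : X → Matrix l n ℝ} {K : Set X} (hf : ContinuousOn f K)
    (hg : ContinuousOn g K) : ContinuousOn (fun z => f z * g z) K := by
  rw [continuousOn_iff_continuous_restrict] at hf hg ⊢
  exact Continuous.matrix_mul hf hg

theorem continuousOn_tr {X k : Type*} [TopologicalSpace X] [Fintype k]
    {f : X → Matrix k k ℝ} {K : Set X} (hf : ContinuousOn f K) :
    ContinuousOn (fun z => trace (f z)) K := by
  rw [continuousOn_iff_continuous_restrict] at hf ⊢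
  exact Continuous.matrix_trace hf

theorem continuousOn_TT {X : Type*} [TopologicalSpace X] (F : q → Matrix p p ℝ)
    {f : X → Matrix q q ℝ} {g : X → Matrix p p ℝ} {K : Set X} (hf : ContinuousOn f K)
    (hg : ContinuousOn g K) : ContinuousOn (fun z => TT F (f z) (g z)) K := by
  unfold TT
  refine continuousOn_finset_sum _ fun a _ => continuousOn_finset_sum _ fun b _ => ?_
  have h1 : ContinuousOn (fun z => f z a b) K :=
    (Continuous.matrix_elem continuous_id a b).comp_continuousOn hf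
  have h2 : ContinuousOn (fun z => F a * g z * (F b)ᵀ) K :=
    continuousOn_mul' (continuousOn_mul' continuousOn_const hg) continuousOn_const
  exact h1.smul h2

theorem continuousOn_UU {X : Type*} [TopologicalSpace X] (F : q → Matrix m m ℝ)
    {f : X → Matrix m m ℝ} {g : X → Matrix m m ℝ} {K : Set X} (hf : ContinuousOn f K)
    (hg : ContinuousOn g K) : ContinuousOn (fun z => UU F (f z) (g z)) K := by
  refine continuousOn_pi.2 fun a => continuousOn_pi.2 fun b => ?_
  change ContinuousOn (fun z => trace (F a * f z * (F b)ᵀ * g z)) K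
  exact continuousOn_tr (continuousOn_mul' (continuousOn_mul' (continuousOn_mul'
    continuousOn_const hf) continuousOn_const) hg)

theorem isCompact_box (N : q → Matrix p p ℝ) (S : q → Matrix q q ℝ) : IsCompact (Box N S) := by
  have hK : IsCompact {z : Matrix p p ℝ × Matrix q q ℝ |
      (∀ i j, z.1 i j ∈ Set.Icc (-2 : ℝ) 2) ∧ ∀ i j, z.2 i j ∈ Set.Icc (-2 : ℝ) 2} :=
    (isCompact_entries p).prod (isCompact_entries q)
  refine hK.of_isClosed_subset ?_ ?_
  · have h2 : Box N S = (Prod.fst ⁻¹' {A | Btw (9107 / 10000) (102 / 100) A}) ∩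
        ((Prod.snd ⁻¹' {A | Btw (383 / 1000) (69 / 100) A}) ∩
        ⋂ u : Matrix q q ℝ, ⋂ v : Matrix p p ℝ, ⋂ _ : Sym N S u v,
          ({z : Matrix p p ℝ × Matrix q q ℝ | v * z.1 * vᵀ = z.1} ∩
            {z | u * z.2 * uᵀ = z.2})) := by
      ext z
      simp only [Box, Set.mem_setOf_eq, Set.mem_inter_iff, Set.mem_preimage, Set.mem_iInter]
    rw [h2]
    refine IsClosed.inter ((isClosed_btw _ _).preimage continuous_fst)
      (IsClosed.inter ((isClosed_btw _ _).preimage continuous_snd) ?_)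
    refine isClosed_iInter fun u => isClosed_iInter fun v => isClosed_iInter fun _ => ?_
    refine IsClosed.inter (isClosed_eq ?_ continuous_fst) (isClosed_eq ?_ continuous_snd)
    · exact Continuous.matrix_mul (Continuous.matrix_mul continuous_const continuous_fst)
        continuous_const
    · exact Continuous.matrix_mul (Continuous.matrix_mul continuous_const continuous_snd)
        continuous_const
  · rintro z ⟨h1, h2, -⟩
    refine ⟨fun i j => ?_, fun i j => ?_⟩
    · have := h1.entry (by norm_num) (by norm_num) i j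
      rw [abs_le] at this
      constructor <;> linarith
    · have := h2.entry (by norm_num) (by norm_num) i j
      rw [abs_le] at this
      constructor <;> linarith

theorem btw_smul_one {a b c : ℝ} (h1 : a ≤ c) (h2 : c ≤ b) :
    Btw a b (c • (1 : Matrix m m ℝ)) := by
  refine ⟨?_, fun x => ?_, fun x => ?_⟩
  · unfold Matrix.IsSymm
    rw [Matrix.transpose_smul, Matrix.transpose_one]
  · rw [Matrix.smul_mulVec, Matrix.one_mulVec, dotProduct_smul, smul_eq_mul]
    exact mul_le_mul_of_nonneg_right h1 (dot_self_nonneg x)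
  · rw [Matrix.smul_mulVec, Matrix.one_mulVec, dotProduct_smul, smul_eq_mul]
    exact mul_le_mul_of_nonneg_right h2 (dot_self_nonneg x)

theorem exists_fixed {N : q → Matrix p p ℝ} {S : q → Matrix q q ℝ} (h : Small N S) :
    ∃ (B : Matrix p p ℝ) (P : Matrix q q ℝ), Btw (9107 / 10000) (102 / 100) B ∧
      Btw (383 / 1000) (69 / 100) P ∧
      (∀ u v, Sym N S u v → v * B * vᵀ = B ∧ u * P * uᵀ = P) ∧
      Phi1 N B P = B ∧ Phi2 N S B P = P := by
  have hconv : Convex ℝ (Box N S) := by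
    rintro z ⟨z1, z2, z3⟩ w ⟨w1, w2, w3⟩ s t hs ht hst
    refine ⟨z1.convex w1 hs ht hst, z2.convex w2 hs ht hst, fun u v huv => ⟨?_, ?_⟩⟩
    · change v * (s • z.1 + t • w.1) * vᵀ = s • z.1 + t • w.1
      rw [Matrix.mul_add, Matrix.add_mul, Matrix.mul_smul, Matrix.mul_smul, Matrix.smul_mul,
        Matrix.smul_mul, (z3 u v huv).1, (w3 u v huv).1]
    · change u * (s • z.2 + t • w.2) * uᵀ = s • z.2 + t • w.2
      rw [Matrix.mul_add, Matrix.add_mul, Matrix.mul_smul, Matrix.mul_smul, Matrix.smul_mul,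
        Matrix.smul_mul, (z3 u v huv).2, (w3 u v huv).2]
  have hne : (Box N S).Nonempty := by
    refine ⟨((1 : ℝ) • 1, (1 / 2 : ℝ) • 1), btw_smul_one (by norm_num) (by norm_num),
      btw_smul_one (by norm_num) (by norm_num), fun u v huv => ⟨?_, ?_⟩⟩
    · change v * ((1 : ℝ) • 1) * vᵀ = (1 : ℝ) • 1
      rw [Matrix.mul_smul, Matrix.smul_mul, Matrix.mul_one, huv.v1]
    · change u * ((1 / 2 : ℝ) • 1) * uᵀ = (1 / 2 : ℝ) • 1
      rw [Matrix.mul_smul, Matrix.smul_mul, Matrix.mul_one, huv.u1]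
  have hR : ContinuousOn (fun z : Matrix p p ℝ × Matrix q q ℝ => z.1⁻¹) (Box N S) :=
    (continuousOn_inv (a := 9107 / 10000) (b := 102 / 100) (by norm_num)).comp
      continuous_fst.continuousOn fun z hz => hz.1
  have hD : ContinuousOn (fun z : Matrix p p ℝ × Matrix q q ℝ => z.2⁻¹) (Box N S) :=
    (continuousOn_inv (a := 383 / 1000) (b := 69 / 100) (by norm_num)).comp
      continuous_snd.continuousOn fun z hz => hz.2.1
  have hB : ContinuousOn (fun z : Matrix p p ℝ × Matrix q q ℝ => z.1) (Box N S) :=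
    continuous_fst.continuousOn
  have hP : ContinuousOn (fun z : Matrix p p ℝ × Matrix q q ℝ => z.2) (Box N S) :=
    continuous_snd.continuousOn
  have h1 : ContinuousOn (fun z : Matrix p p ℝ × Matrix q q ℝ => Phi1 N z.1 z.2)
      (Box N S) := by
    unfold Phi1
    exact ((continuousOn_const.sub (continuousOn_TT N hD hR)).sub
      (continuousOn_TT N hP hB)).add
      (continuousOn_mul' (continuousOn_mul' hB (continuousOn_TT N hP hR)) hB)
  have h2 : ContinuousOn (fun z : Matrix p p ℝ × Matrix q q ℝ => Phi2 N S z.1 z.2)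
      (Box N S) := by
    unfold Phi2
    have c1 : ContinuousOn (fun z : Matrix p p ℝ × Matrix q q ℝ =>
        (1 / 2 : ℝ) • UU N z.1⁻¹ z.1⁻¹) (Box N S) :=
      ContinuousOn.const_smul (continuousOn_UU N hR hR) (1 / 2 : ℝ)
    have c2 : ContinuousOn (fun z : Matrix p p ℝ × Matrix q q ℝ =>
        (1 / 2 : ℝ) • UU S z.2 z.2) (Box N S) :=
      ContinuousOn.const_smul (continuousOn_UU S hP hP) (1 / 2 : ℝ)
    exact (c1.add (continuousOn_mul' (continuousOn_mul' hP ((continuousOn_const.sub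
        (continuousOn_UU N hB hR)).sub (continuousOn_UU S hD hP))) hP)).add c2
  obtain ⟨z, ⟨z1, z2, z3⟩, hz⟩ := Pool.Lib.brouwer_fixed_point_convex
    (isCompact_box N S) hconv hne
    (f := fun z => (Phi1 N z.1 z.2, Phi2 N S z.1 z.2)) (h1.prodMk h2) (fun z hz =>
      ⟨Phi1_btw h hz.1 hz.2.1, Phi2_btw h hz.1 hz.2.1, fun u v huv =>
        ⟨Phi1_inv huv (hz.2.2 u v huv).1 (hz.2.2 u v huv).2,
          Phi2_inv huv (hz.2.2 u v huv).1 (hz.2.2 u v huv).2⟩⟩)
  exact ⟨z.1, z.2, z1, z2, z3, congrArg Prod.fst hz, congrArg Prod.snd hz⟩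

end Pool.Agent.EinS
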