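import Pool.Agent.EinS.Fix

/-!
# The fixed point map near the bi-invariant metric: estimates

`B` is close to `1/2` from above, `P` is close to `2`, `x` is close to `1/2` from below.
-/

namespace Pool.Agent.EinS

open Matrix

variable {m q p l : Type*} [Fintype m] [DecidableEq m] [Fintype q] [DecidableEq q] [Fintype p]
  [DecidableEq p] [Fintype l] [DecidableEq l]

theorem Phi1_quad {N : q → Matrix p p ℝ} {B : Matrix p p ℝ} {P : Matrix q q ℝ}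
    (hB : B.IsSymm) (hR : B⁻¹.IsSymm) (y : p → ℝ) : y ⬝ᵥ (Phi1 N B P *ᵥ y) =
      y ⬝ᵥ y - trace (P⁻¹ * (rw' N y * B⁻¹ * (rw' N y)ᵀ)) -
        trace (P * (rw' N y * B * (rw' N y)ᵀ)) +
        trace (P * (rw' N (B *ᵥ y) * B⁻¹ * (rw' N (B *ᵥ y))ᵀ)) := by
  rw [← TT_quad N P⁻¹ hR, ← TT_quad N P hB, ← TT_quad N P hR]
  unfold Phi1
  rw [Matrix.add_mulVec, Matrix.sub_mulVec, Matrix.sub_mulVec, Matrix.one_mulVec,
    dotProduct_add, dotProduct_sub, dotProduct_sub, ← Matrix.mulVec_mulVec,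
    ← Matrix.mulVec_mulVec]
  congr 1
  rw [Matrix.dotProduct_mulVec, ← Matrix.mulVec_transpose, hB.eq]

theorem Phi1_symm {N : q → Matrix p p ℝ} {B : Matrix p p ℝ} {P : Matrix q q ℝ}
    (hB : B.IsSymm) (hR : B⁻¹.IsSymm) (hP : P.IsSymm) (hD : P⁻¹.IsSymm) :
    (Phi1 N B P).IsSymm := by
  unfold Phi1 Matrix.IsSymm
  rw [Matrix.transpose_add, Matrix.transpose_sub, Matrix.transpose_sub, Matrix.transpose_one,
    (TT_symm N hD hR).eq, (TT_symm N hP hB).eq, Matrix.transpose_mul,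
    Matrix.transpose_mul, (TT_symm N hP hR).eq, hB.eq, Matrix.mul_assoc]

theorem Phi2_quad {N : q → Matrix p p ℝ} {S : q → Matrix q q ℝ} {B : Matrix p p ℝ}
    {P : Matrix q q ℝ} (hP : P.IsSymm) (x : q → ℝ) : x ⬝ᵥ (Phi2 N S B P *ᵥ x) =
      1 / 2 * trace (B⁻¹ * (lc N x * B⁻¹ * (lc N x)ᵀ)) +
        ((P *ᵥ x) ⬝ᵥ (P *ᵥ x) - trace (B⁻¹ * (lc N (P *ᵥ x) * B * (lc N (P *ᵥ x))ᵀ)) -
          trace (P * (lc S (P *ᵥ x) * P⁻¹ * (lc S (P *ᵥ x))ᵀ))) +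
        1 / 2 * trace (P * (lc S x * P * (lc S x)ᵀ)) := by
  rw [← UU_quad, ← UU_quad, ← UU_quad, ← UU_quad]
  unfold Phi2
  rw [Matrix.add_mulVec, Matrix.add_mulVec, dotProduct_add, dotProduct_add,
    Matrix.smul_mulVec, Matrix.smul_mulVec, dotProduct_smul, dotProduct_smul, smul_eq_mul,
    smul_eq_mul]
  congr 2
  rw [← Matrix.mulVec_mulVec, ← Matrix.mulVec_mulVec, Matrix.dotProduct_mulVec,
    ← Matrix.mulVec_transpose, hP.eq, Matrix.sub_mulVec, Matrix.sub_mulVec,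
    Matrix.one_mulVec, dotProduct_sub, dotProduct_sub]

theorem Phi2_symm {N : q → Matrix p p ℝ} {S : q → Matrix q q ℝ} {B : Matrix p p ℝ}
    {P : Matrix q q ℝ} (hB : B.IsSymm) (hR : B⁻¹.IsSymm) (hP : P.IsSymm) (hD : P⁻¹.IsSymm) :
    (Phi2 N S B P).IsSymm := by
  unfold Phi2 Matrix.IsSymm
  rw [Matrix.transpose_add, Matrix.transpose_add, Matrix.transpose_smul,
    Matrix.transpose_smul, (UU_symm N hR hR).eq, (UU_symm S hP hP).eq,
    Matrix.transpose_mul, Matrix.transpose_mul, Matrix.transpose_sub, Matrix.transpose_sub,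
    Matrix.transpose_one, (UU_symm N hB hR).eq, (UU_symm S hD hP).eq,
    hP.eq, Matrix.mul_assoc]

/-- The structure constants, second version. -/
structure Small2 (N : q → Matrix p p ℝ) (S : q → Matrix q q ℝ) (θ κ : ℝ) : Prop where
  cas : ∀ y : p → ℝ, trace (rw' N y * (rw' N y)ᵀ) ≤ (1 - θ) * κ * (y ⬝ᵥ y)
  up : ∀ x : q → ℝ, trace (lc N x * (lc N x)ᵀ) ≤ x ⬝ᵥ x
  lo : ∀ x : q → ℝ, (1 - 3 * κ) * (x ⬝ᵥ x) ≤ trace (lc N x * (lc N x)ᵀ)
  str : ∀ x : q → ℝ, trace (lc S x * (lc S x)ᵀ) ≤ x ⬝ᵥ x - trace (lc N x * (lc N x)ᵀ)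

theorem rw_add (N : q → Matrix p p ℝ) (y z : p → ℝ) : rw' N (y + z) = rw' N y + rw' N z := by
  ext a j
  change ((N a)ᵀ *ᵥ (y + z)) j = ((N a)ᵀ *ᵥ y) j + ((N a)ᵀ *ᵥ z) j
  rw [Matrix.mulVec_add]
  rfl

theorem rw_smul (N : q → Matrix p p ℝ) (c : ℝ) (y : p → ℝ) : rw' N (c • y) = c • rw' N y := by
  ext a j
  change ((N a)ᵀ *ᵥ (c • y)) j = c * ((N a)ᵀ *ᵥ y) j
  rw [Matrix.mulVec_smul]
  rfl

/-- `tr (½W + V)(½W + V)ᵀ ≥ ¼ w - (s/2) w - (1/(2s)) v`. -/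
theorem trace_half_add {m n : Type*} [Fintype m] [Fintype n] (W V : Matrix m n ℝ) {s : ℝ}
    (hs : 0 < s) :
    1 / 4 * trace (W * Wᵀ) - s / 2 * trace (W * Wᵀ) - 1 / (2 * s) * trace (V * Vᵀ) ≤
      trace (((1 / 2 : ℝ) • W + V) * ((1 / 2 : ℝ) • W + V)ᵀ) := by
  have h1 := trace_self_nonneg (s • W + V)
  have h2 := trace_self_nonneg V
  have e1 : trace ((s • W + V) * (s • W + V)ᵀ) =
      s ^ 2 * trace (W * Wᵀ) + 2 * s * trace (W * Vᵀ) + trace (V * Vᵀ) := by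
    rw [Matrix.transpose_add, Matrix.transpose_smul, Matrix.add_mul, Matrix.mul_add,
      Matrix.mul_add, Matrix.trace_add, Matrix.trace_add, Matrix.trace_add]
    simp only [Matrix.smul_mul, Matrix.mul_smul, Matrix.trace_smul, smul_eq_mul]
    have : trace (V * Wᵀ) = trace (W * Vᵀ) := by
      rw [← Matrix.trace_transpose, Matrix.transpose_mul, Matrix.transpose_transpose]
    rw [this]
    ring
  have e2 : trace (((1 / 2 : ℝ) • W + V) * ((1 / 2 : ℝ) • W + V)ᵀ) =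
      1 / 4 * trace (W * Wᵀ) + trace (W * Vᵀ) + trace (V * Vᵀ) := by
    rw [Matrix.transpose_add, Matrix.transpose_smul, Matrix.add_mul, Matrix.mul_add,
      Matrix.mul_add, Matrix.trace_add, Matrix.trace_add, Matrix.trace_add]
    simp only [Matrix.smul_mul, Matrix.mul_smul, Matrix.trace_smul, smul_eq_mul]
    have : trace (V * Wᵀ) = trace (W * Vᵀ) := by
      rw [← Matrix.trace_transpose, Matrix.transpose_mul, Matrix.transpose_transpose]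
    rw [this]
    ring
  rw [e1] at h1
  rw [e2]
  have h3 : 0 ≤ (s ^ 2 * trace (W * Wᵀ) + 2 * s * trace (W * Vᵀ) + trace (V * Vᵀ)) / (2 * s) :=
    div_nonneg h1 (by linarith)
  have h4 : (s ^ 2 * trace (W * Wᵀ) + 2 * s * trace (W * Vᵀ) + trace (V * Vᵀ)) / (2 * s) =
      s / 2 * trace (W * Wᵀ) + trace (W * Vᵀ) + 1 / (2 * s) * trace (V * Vᵀ) := by
    field_simp
  linarith

theorem Btw.shift {n : Type*} [Fintype n] [DecidableEq n] {a b c : ℝ} {A : Matrix n n ℝ}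
    (hA : Btw a b A) : Btw (a - c) (b - c) (A - c • 1) := by
  refine ⟨?_, fun x => ?_, fun x => ?_⟩
  · unfold Matrix.IsSymm
    rw [Matrix.transpose_sub, Matrix.transpose_smul, Matrix.transpose_one, hA.symm.eq]
  · rw [Matrix.sub_mulVec, dotProduct_sub, Matrix.smul_mulVec, Matrix.one_mulVec,
      dotProduct_smul, smul_eq_mul]
    have := hA.lo x
    linarith
  · rw [Matrix.sub_mulVec, dotProduct_sub, Matrix.smul_mulVec, Matrix.one_mulVec,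
      dotProduct_smul, smul_eq_mul]
    have := hA.up x
    linarith

/-- For `0 ≤ A ≤ b`, `|Ax|² ≤ b² |x|²`. -/
theorem Btw.norm_le' {n : Type*} [Fintype n] [DecidableEq n] {b : ℝ}
    {A : Matrix n n ℝ} (hA : Btw 0 b A) (hb : 0 ≤ b) (x : n → ℝ) :
    (A *ᵥ x) ⬝ᵥ (A *ᵥ x) ≤ b ^ 2 * (x ⬝ᵥ x) := by
  obtain ⟨Y, hY⟩ := exists_factor hA.symm (fun x => by
    have := hA.lo x
    linarith)
  have hform : ∀ u v : n → ℝ, u ⬝ᵥ (A *ᵥ v) = (Y *ᵥ u) ⬝ᵥ (Y *ᵥ v) := by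
    intro u v
    rw [hY, ← Matrix.mulVec_mulVec, Matrix.dotProduct_mulVec, ← Matrix.mulVec_transpose,
      Matrix.transpose_transpose]
  have cs : ∀ u v : n → ℝ, (u ⬝ᵥ v) ^ 2 ≤ (u ⬝ᵥ u) * (v ⬝ᵥ v) := by
    intro u v
    have := Finset.sum_mul_sq_le_sq_mul_sq Finset.univ u v
    unfold dotProduct
    simpa only [pow_two] using this
  have h1 := cs (Y *ᵥ (A *ᵥ x)) (Y *ᵥ x)
  rw [← hform, ← hform, ← hform] at h1
  have h2 := hA.up (A *ᵥ x)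
  have h3 := hA.up x
  have h5 := dot_self_nonneg (A *ᵥ x)
  have h6 : (A *ᵥ x) ⬝ᵥ (A *ᵥ x) = (A *ᵥ x) ⬝ᵥ (A *ᵥ x) := rfl
  have h7 : 0 ≤ x ⬝ᵥ (A *ᵥ x) := by
    have := hA.lo x
    linarith
  have h9 := dot_self_nonneg x
  set u := (A *ᵥ x) ⬝ᵥ (A *ᵥ x) with hu
  set t := x ⬝ᵥ (A *ᵥ x) with ht
  set r := x ⬝ᵥ x with hr
  have h8 : u ^ 2 ≤ b * u * t := le_trans h1 (mul_le_mul_of_nonneg_right h2 h7)
  have h10 : u ≤ b * t := by
    rcases h5.eq_or_lt with h | h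
    · rw [← h]; positivity
    · have : u * u ≤ u * (b * t) := by nlinarith
      exact le_of_mul_le_mul_left this h
  calc u ≤ b * t := h10
    _ ≤ b * (b * r) := mul_le_mul_of_nonneg_left h3 hb
    _ = b ^ 2 * r := by ring

/-- numerical parameters -/
structure Par (θ κ s x : ℝ) : Prop where
  s0 : 0 < s
  s1 : 50 * s ≤ θ
  t1 : θ ≤ 1
  k0 : 0 ≤ κ
  k1 : 3 * κ ≤ s ^ 2
  x0 : 1 / 2 - 8 * s ^ 3 ≤ x
  x1 : x ≤ 1 / 2

theorem Phi1x_lo {N : q → Matrix p p ℝ} {S : q → Matrix q q ℝ} {θ κ s x : ℝ}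
    (h : Small2 N S θ κ) (hp : Par θ κ s x) {B : Matrix p p ℝ} {P : Matrix q q ℝ}
    (hB : Btw (1 / 2) (1 / 2 + s) B) (hP : Btw (2 - 20 * s) (2 + 11 * s) P) (y : p → ℝ) :
    1 / 2 * (y ⬝ᵥ y) ≤ y ⬝ᵥ ((Phi1 N B P - (x * (1 / 2 - κ)) • B⁻¹) *ᵥ y) := by
  obtain ⟨s0, s1, t1, k0, k1, x0, x1⟩ := hp
  have s2 : s ≤ 1 / 50 := by linarith
  have hb0 : (0 : ℝ) < 1 / 2 + s := by linarith
  have hp0 : (0 : ℝ) < 2 - 20 * s := by linarith
  have hp1 : (0 : ℝ) < 2 + 11 * s := by linarith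
  have hR := hB.inv (by norm_num) hb0
  have hD := hP.inv hp0 hp1
  rw [Matrix.sub_mulVec, dotProduct_sub, Phi1_quad hB.symm hR.symm, Matrix.smul_mulVec,
    dotProduct_smul, smul_eq_mul]
  set Y := y ⬝ᵥ y with hY
  have hY0 : 0 ≤ Y := dot_self_nonneg y
  have u1 := (trace_quad (by positivity) (by positivity) (by positivity) hD hR (rw' N y)).2
  have u2 := (trace_quad hp0.le hp1.le (by norm_num) hP hB (rw' N y)).2
  have u3 := (trace_quad hp0.le hp1.le (by positivity) hP hR (rw' N (B *ᵥ y))).1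
  have c := h.cas y
  have c0 := trace_self_nonneg (rw' N y)
  -- `B y = ½ y + b y`
  have hb := hB.shift (c := 1 / 2)
  have hb' : Btw 0 s (B - (1 / 2 : ℝ) • 1) := by
    have e1 : (1 / 2 : ℝ) - 1 / 2 = 0 := by norm_num
    have e2 : (1 / 2 : ℝ) + s - 1 / 2 = s := by ring
    rw [e1, e2] at hb
    exact hb
  have hn := hb'.norm_le' s0.le y
  have cb := h.cas ((B - (1 / 2 : ℝ) • 1) *ᵥ y)
  have hBy : B *ᵥ y = (1 / 2 : ℝ) • y + (B - (1 / 2 : ℝ) • 1) *ᵥ y := by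
    rw [Matrix.sub_mulVec, Matrix.smul_mulVec, Matrix.one_mulVec]
    abel
  have hW : rw' N (B *ᵥ y) = (1 / 2 : ℝ) • rw' N y + rw' N ((B - (1 / 2 : ℝ) • 1) *ᵥ y) := by
    rw [hBy, rw_add, rw_smul]
  have hT := trace_half_add (rw' N y) (rw' N ((B - (1 / 2 : ℝ) • 1) *ᵥ y)) s0
  rw [← hW] at hT
  set w := trace (rw' N y * (rw' N y)ᵀ) with hw
  set w' := trace (rw' N (B *ᵥ y) * (rw' N (B *ᵥ y))ᵀ) with hw'
  set v := trace (rw' N ((B - (1 / 2 : ℝ) • 1) *ᵥ y) *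
    (rw' N ((B - (1 / 2 : ℝ) • 1) *ᵥ y))ᵀ) with hv
  set T1 := trace (P⁻¹ * (rw' N y * B⁻¹ * (rw' N y)ᵀ)) with hT1
  set T2 := trace (P * (rw' N y * B * (rw' N y)ᵀ)) with hT2
  set T3 := trace (P * (rw' N (B *ᵥ y) * B⁻¹ * (rw' N (B *ᵥ y))ᵀ)) with hT3
  have hv1 : v ≤ κ * s ^ 2 * Y := by
    have h1 : (1 - θ) * κ * ((B - (1 / 2 : ℝ) • 1) *ᵥ y ⬝ᵥ (B - (1 / 2 : ℝ) • 1) *ᵥ y) ≤
        κ * (s ^ 2 * Y) := by
      have h2 : (1 - θ) * κ ≤ κ := by nlinarith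
      have h3 := dot_self_nonneg ((B - (1 / 2 : ℝ) • 1) *ᵥ y)
      calc _ ≤ κ * ((B - (1 / 2 : ℝ) • 1) *ᵥ y ⬝ᵥ (B - (1 / 2 : ℝ) • 1) *ᵥ y) :=
            mul_le_mul_of_nonneg_right h2 h3
        _ ≤ _ := mul_le_mul_of_nonneg_left hn k0
    linarith
  have hv2 : 1 / (2 * s) * v ≤ κ * s / 2 * Y := by
    have h1 : 1 / (2 * s) * v ≤ 1 / (2 * s) * (κ * s ^ 2 * Y) :=
      mul_le_mul_of_nonneg_left hv1 (by positivity)
    have h2 : 1 / (2 * s) * (κ * s ^ 2 * Y) = κ * s / 2 * Y := by field_simp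
    linarith
  have hwk : w ≤ κ * Y := by
    have h2 : (1 - θ) * κ * Y ≤ κ * Y := by
      have h3 : (1 - θ) * κ ≤ κ := by nlinarith
      exact mul_le_mul_of_nonneg_right h3 hY0
    linarith
  -- `w' ≥ ¼ w - s κ Y`
  have hw1 : 1 / 4 * w - s * κ * Y ≤ w' := by
    have h2 : s / 2 * w ≤ s / 2 * (κ * Y) := mul_le_mul_of_nonneg_left hwk (by linarith)
    nlinarith
  -- bounds for the inverse
  have hR2 := hR.up y
  have hx2 : x * (1 / 2 - κ) * (y ⬝ᵥ (B⁻¹ *ᵥ y)) ≤ (1 / 2 - κ) * Y := by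
    have hk : (0 : ℝ) ≤ 1 / 2 - κ := by nlinarith
    have hR3 := hR.lo y
    have h0 : 0 ≤ y ⬝ᵥ (B⁻¹ *ᵥ y) := le_trans (by positivity) hR3
    have h1 : y ⬝ᵥ (B⁻¹ *ᵥ y) ≤ 2 * Y := by
      have : (1 : ℝ) / (1 / 2) = 2 := by norm_num
      rw [this] at hR2
      exact hR2
    calc x * (1 / 2 - κ) * (y ⬝ᵥ (B⁻¹ *ᵥ y)) ≤
          1 / 2 * (1 / 2 - κ) * (y ⬝ᵥ (B⁻¹ *ᵥ y)) := by
          exact mul_le_mul_of_nonneg_right (mul_le_mul_of_nonneg_right x1 hk) h0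
      _ ≤ 1 / 2 * (1 / 2 - κ) * (2 * Y) := by
          exact mul_le_mul_of_nonneg_left h1 (by positivity)
      _ = _ := by ring
  -- the coefficients
  have e1 : T1 ≤ (1 + 25 / 2 * s) * w := by
    refine le_trans u1 (mul_le_mul_of_nonneg_right ?_ c0)
    rw [div_mul_div_comm, div_le_iff₀ (by nlinarith)]
    nlinarith
  have e2 : T2 ≤ (1 + 15 / 2 * s + 11 * s ^ 2) * w := by
    refine le_trans u2 (le_of_eq ?_)
    ring
  have e3 : (4 - 48 * s) * w' ≤ T3 := by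
    refine le_trans (mul_le_mul_of_nonneg_right ?_ (trace_self_nonneg _)) u3
    rw [mul_one_div, le_div_iff₀ hb0]
    nlinarith
  have e4 : (4 - 48 * s) * (1 / 4 * w - s * κ * Y) ≤ (4 - 48 * s) * w' :=
    mul_le_mul_of_nonneg_left hw1 (by linarith)
  have e5 : (1 - 12 * s) * w - 4 * (s * κ * Y) ≤ (4 - 48 * s) * (1 / 4 * w - s * κ * Y) := by
    have : 0 ≤ s * κ * Y := by positivity
    nlinarith
  -- total
  have e6 : (1 + 25 / 2 * s) * w + (1 + 15 / 2 * s + 11 * s ^ 2) * w - (1 - 12 * s) * w ≤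
      (1 + 33 * s) * w := by
    have : 11 * s ^ 2 * w ≤ s * w := mul_le_mul_of_nonneg_right (by nlinarith) c0
    nlinarith
  have e7 : (1 + 33 * s) * w ≤ (1 + 33 * s) * ((1 - θ) * κ * Y) :=
    mul_le_mul_of_nonneg_left c (by linarith)
  have e8 : (1 + 33 * s) * ((1 - θ) * κ * Y) + 4 * (s * κ * Y) ≤ κ * Y := by
    have h1 : 0 ≤ κ * Y := by positivity
    have h2 : (1 + 33 * s) * (1 - θ) + 4 * s ≤ 1 := by nlinarith
    nlinarith
  linarith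

end Pool.Agent.EinS
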