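import Pool.Agent.EinS.Fix

/-!
# The Ricci tensor in an orthonormal frame
-/

namespace Pool.Agent.EinS

open Matrix

variable {m q p : Type*} [Fintype m] [DecidableEq m] [Fintype q] [DecidableEq q] [Fintype p]
  [DecidableEq p]

/-- The Ricci matrix of the metric `G` (with inverse `Gi`) in a `Q`-orthonormal frame with structure
constants `C`. -/
noncomputable def RicM (C : m → Matrix m m ℝ) (G Gi : Matrix m m ℝ) : Matrix m m ℝ :=
  (1 / 2 : ℝ) • 1 - (1 / 2 : ℝ) • UU C G Gi + (1 / 4 : ℝ) • (G * UU C Gi Gi * G)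

/-- `(Y_i)_{sj} = N_s i j` -/
noncomputable def YY (N : q → Matrix p p ℝ) (i : p) : Matrix q p ℝ := of fun s j => N s i j

/-- All structure constants. -/
noncomputable def CC (N : q → Matrix p p ℝ) (S : q → Matrix q q ℝ) :
    q ⊕ p → Matrix (q ⊕ p) (q ⊕ p) ℝ :=
  Sum.elim (fun a => fromBlocks (S a) 0 0 (N a)) (fun i => fromBlocks 0 (-YY N i) (YY N i)ᵀ 0)

theorem trace_YY1 (N : q → Matrix p p ℝ) {A : Matrix q q ℝ} (hA : A.IsSymm) (E : Matrix p p ℝ)
    (i j : p) : trace (YY N i * E * (YY N j)ᵀ * A) = TT N A E i j := by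
  have h1 : TT N A E i j = ∑ a, ∑ b, A a b * (N a * E * (N b)ᵀ) i j := by
    unfold TT
    rw [Matrix.sum_apply]
    refine Finset.sum_congr rfl fun a _ => ?_
    rw [Matrix.sum_apply]
    refine Finset.sum_congr rfl fun b _ => ?_
    rw [Matrix.smul_apply, smul_eq_mul]
  rw [h1]
  unfold trace
  refine Finset.sum_congr rfl fun a _ => ?_
  rw [Matrix.diag_apply, Matrix.mul_apply]
  refine Finset.sum_congr rfl fun b _ => ?_
  rw [mul_comm, hA.apply]
  congr 1

theorem trace_YY2 (N : q → Matrix p p ℝ) (A : Matrix q q ℝ) {E : Matrix p p ℝ} (hE : E.IsSymm)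
    (i j : p) : trace ((YY N i)ᵀ * A * YY N j * E) = TT N A E i j := by
  have h1 : TT N A E i j = ∑ a, ∑ b, A a b * (N a * E * (N b)ᵀ) i j := by
    unfold TT
    rw [Matrix.sum_apply]
    refine Finset.sum_congr rfl fun a _ => ?_
    rw [Matrix.sum_apply]
    refine Finset.sum_congr rfl fun b _ => ?_
    rw [Matrix.smul_apply, smul_eq_mul]
  have h2 : trace ((YY N i)ᵀ * A * YY N j * E) = trace (A * (YY N j * E * (YY N i)ᵀ)) := by
    rw [Matrix.mul_assoc, Matrix.mul_assoc, Matrix.trace_mul_comm]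
    simp only [Matrix.mul_assoc]
  rw [h1, h2]
  unfold trace
  refine Finset.sum_congr rfl fun a _ => ?_
  rw [Matrix.diag_apply, Matrix.mul_apply]
  refine Finset.sum_congr rfl fun b _ => ?_
  congr 1
  have h3 : (N a * E * (N b)ᵀ) i j = (N b * E * (N a)ᵀ) j i := by
    have h4 : (N b * E * (N a)ᵀ)ᵀ = N a * E * (N b)ᵀ := by
      rw [Matrix.transpose_mul, Matrix.transpose_mul, Matrix.transpose_transpose, hE.eq,
        Matrix.mul_assoc]
    rw [← h4, Matrix.transpose_apply]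
  rw [h3]
  rfl

theorem trace_fb (A : Matrix q q ℝ) (A' : Matrix q p ℝ) (E' : Matrix p q ℝ)
    (E : Matrix p p ℝ) : trace (fromBlocks A A' E' E) = trace A + trace E := by
  unfold trace
  rw [Fintype.sum_sum_type]
  rfl

theorem UU_CC (N : q → Matrix p p ℝ) (S : q → Matrix q q ℝ) (A A' : Matrix q q ℝ)
    (E E' : Matrix p p ℝ) (hA' : A'.IsSymm) (hE' : E'.IsSymm) :
    UU (CC N S) (fromBlocks A 0 0 E) (fromBlocks A' 0 0 E') =
      fromBlocks (UU S A A' + UU N E E') 0 0 (TT N A' E + TT N A E') := by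
  ext x y
  change trace (CC N S x * fromBlocks A 0 0 E * (CC N S y)ᵀ * fromBlocks A' 0 0 E') = _
  rcases x with a | i <;> rcases y with b | j
  · simp only [CC, Sum.elim_inl, fromBlocks_transpose, fromBlocks_multiply, Matrix.mul_zero,
      Matrix.zero_mul, add_zero, zero_add, Matrix.transpose_zero, trace_fb,
      fromBlocks_apply₁₁]
    rfl
  · simp only [CC, Sum.elim_inl, Sum.elim_inr, fromBlocks_transpose, fromBlocks_multiply,
      Matrix.mul_zero, Matrix.zero_mul, add_zero, zero_add, Matrix.transpose_zero,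
      trace_fb, fromBlocks_apply₁₂, Matrix.trace_zero]
    rfl
  · simp only [CC, Sum.elim_inl, Sum.elim_inr, fromBlocks_transpose, fromBlocks_multiply,
      Matrix.mul_zero, Matrix.zero_mul, add_zero, zero_add, Matrix.transpose_zero,
      trace_fb, fromBlocks_apply₂₁, Matrix.trace_zero]
    rfl
  · simp only [CC, Sum.elim_inr, fromBlocks_transpose, fromBlocks_multiply, Matrix.mul_zero,
      Matrix.zero_mul, add_zero, zero_add, Matrix.transpose_zero, trace_fb,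
      fromBlocks_apply₂₂, Matrix.transpose_transpose, Matrix.transpose_neg, Matrix.neg_mul,
      Matrix.mul_neg, neg_neg]
    rw [trace_YY1 N hA', trace_YY2 N A hE']
    rfl

theorem RicM_eq {N : q → Matrix p p ℝ} {S : q → Matrix q q ℝ} {B : Matrix p p ℝ}
    {P : Matrix q q ℝ} {a b c d : ℝ} (ha : 0 < a) (hb : 0 < b) (hc : 0 < c) (hd : 0 < d)
    (hB : Btw a b B) (hP : Btw c d P) (h1 : Phi1 N B P = B) (h2 : Phi2 N S B P = P) :
    RicM (CC N S) (fromBlocks P⁻¹ 0 0 B) (fromBlocks P 0 0 B⁻¹) =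
      (1 / 2 : ℝ) • fromBlocks P⁻¹ 0 0 B := by
  have hR := hB.inv ha hb
  have hPD : P⁻¹ * P = 1 := Matrix.nonsing_inv_mul _ (isUnit_iff_ne_zero.2 (hP.det_ne hc))
  have hDP : P * P⁻¹ = 1 := Matrix.mul_nonsing_inv _ (isUnit_iff_ne_zero.2 (hP.det_ne hc))
  unfold RicM
  rw [UU_CC N S _ _ _ _ hP.symm hR.symm, UU_CC N S _ _ _ _ hP.symm hR.symm,
    fromBlocks_multiply, fromBlocks_multiply, ← fromBlocks_one]
  simp only [Matrix.mul_zero, Matrix.zero_mul, add_zero, zero_add, fromBlocks_smul,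
    smul_zero]
  have e2 : P⁻¹ = (1 / 2 : ℝ) • (P⁻¹ * UU N B⁻¹ B⁻¹ * P⁻¹) +
      (1 - UU N B B⁻¹ - UU S P⁻¹ P) + (1 / 2 : ℝ) • (P⁻¹ * UU S P P * P⁻¹) := by
    calc P⁻¹ = P⁻¹ * P * P⁻¹ := by rw [hPD, Matrix.one_mul]
      _ = P⁻¹ * Phi2 N S B P * P⁻¹ := by rw [h2]
      _ = _ := by
        unfold Phi2
        rw [Matrix.mul_add, Matrix.mul_add, Matrix.add_mul, Matrix.add_mul, Matrix.mul_smul,
          Matrix.mul_smul, Matrix.smul_mul, Matrix.smul_mul]
        congr 2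
        calc P⁻¹ * (P * (1 - UU N B B⁻¹ - UU S P⁻¹ P) * P) * P⁻¹
            = (P⁻¹ * P) * (1 - UU N B B⁻¹ - UU S P⁻¹ P) * (P * P⁻¹) := by
              simp only [Matrix.mul_assoc]
          _ = _ := by rw [hPD, hDP, Matrix.one_mul, Matrix.mul_one]
  have e1 : B = 1 - TT N P⁻¹ B⁻¹ - TT N P B + B * TT N P B⁻¹ * B := by
    conv_lhs => rw [← h1]
    rfl
  have f1 : (1 / 2 : ℝ) • (1 : Matrix q q ℝ) - (1 / 2 : ℝ) • (UU S P⁻¹ P + UU N B B⁻¹) +
      (1 / 4 : ℝ) • (P⁻¹ * (UU S P P + UU N B⁻¹ B⁻¹) * P⁻¹) = (1 / 2 : ℝ) • P⁻¹ := by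
    conv_rhs => rw [e2]
    rw [Matrix.mul_add, Matrix.add_mul]
    module
  have f2 : (1 / 2 : ℝ) • (1 : Matrix p p ℝ) - (1 / 2 : ℝ) • (TT N P B + TT N P⁻¹ B⁻¹) +
      (1 / 4 : ℝ) • (B * (TT N P B⁻¹ + TT N P B⁻¹) * B) = (1 / 2 : ℝ) • B := by
    conv_rhs => rw [e1]
    rw [Matrix.mul_add, Matrix.add_mul]
    module
  ext x y
  rcases x with x | x <;> rcases y with y | y
  · have := congrFun (congrFun f1 x) y
    simpa using this
  · simp
  · simp
  · have := congrFun (congrFun f2 x) y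
    simpa using this

end Pool.Agent.EinS
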