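import Pool.Agent.EinS.Box2
import Pool.Agent.EinS.Ric

/-!
# Adding the second factor to the isotropy complement
-/

namespace Pool.Agent.EinS

open Matrix

variable {m q p l : Type*} [Fintype m] [DecidableEq m] [Fintype q] [DecidableEq q] [Fintype p]
  [DecidableEq p] [Fintype l] [DecidableEq l]

/-- The action of `q ⊕ l` on `p`. -/
def hN (N : q → Matrix p p ℝ) (M : l → Matrix p p ℝ) : q ⊕ l → Matrix p p ℝ := Sum.elim N M

/-- The structure constants of `q ⊕ l`. -/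
def hS (S : q → Matrix q q ℝ) (Λ : l → Matrix l l ℝ) : q ⊕ l → Matrix (q ⊕ l) (q ⊕ l) ℝ :=
  Sum.elim (fun a => fromBlocks (S a) 0 0 0) (fun u => fromBlocks 0 0 0 (Λ u))

/-- The metric on `q ⊕ l`. -/
noncomputable def hP (l : Type*) [DecidableEq l] (P : Matrix q q ℝ) (y : ℝ) :
    Matrix (q ⊕ l) (q ⊕ l) ℝ :=
  fromBlocks P 0 0 (y • (1 : Matrix l l ℝ))

theorem TT_hN (N : q → Matrix p p ℝ) (M : l → Matrix p p ℝ) (P : Matrix q q ℝ) (y : ℝ)
    (C : Matrix p p ℝ) :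
    TT (hN N M) (hP l P y) C = TT N P C + y • ∑ u, M u * C * (M u)ᵀ := by
  unfold TT
  rw [Fintype.sum_sum_type]
  congr 1
  · refine Finset.sum_congr rfl fun a _ => ?_
    rw [Fintype.sum_sum_type]
    have h0 : ∑ u : l, (hP l P y) (Sum.inl a) (Sum.inr u) •
        (hN N M (Sum.inl a) * C * (hN N M (Sum.inr u))ᵀ) = 0 := by
      refine Finset.sum_eq_zero fun u _ => ?_
      change (0 : ℝ) • _ = _
      rw [zero_smul]
    rw [h0, add_zero]
    rfl
  · rw [Finset.smul_sum]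
    refine Finset.sum_congr rfl fun u _ => ?_
    rw [Fintype.sum_sum_type]
    have h0 : ∑ a : q, (hP l P y) (Sum.inr u) (Sum.inl a) •
        (hN N M (Sum.inr u) * C * (hN N M (Sum.inl a))ᵀ) = 0 := by
      refine Finset.sum_eq_zero fun a _ => ?_
      change (0 : ℝ) • _ = _
      rw [zero_smul]
    rw [h0, zero_add, Finset.sum_eq_single u]
    · change ((y • (1 : Matrix l l ℝ)) u u) • _ = _
      rw [Matrix.smul_apply, Matrix.one_apply_eq, smul_eq_mul, mul_one]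
      rfl
    · intro v _ hv
      change ((y • (1 : Matrix l l ℝ)) u v) • _ = _
      rw [Matrix.smul_apply, Matrix.one_apply_ne hv.symm, smul_zero, zero_smul]
    · intro h
      exact absurd (Finset.mem_univ u) h

variable {N : q → Matrix p p ℝ} {S : q → Matrix q q ℝ} {M : l → Matrix p p ℝ}
  {Λ : l → Matrix l l ℝ} {κ α : ℝ}

theorem sum_MCM (hL : LData N M Λ κ α) {C : Matrix p p ℝ} (hC : ∀ u, C * M u = M u * C) :
    ∑ u, M u * C * (M u)ᵀ = (1 / 2 - κ) • C := by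
  have h1 : ∀ u, M u * C * (M u)ᵀ = C * (M u * (M u)ᵀ) := by
    intro u
    rw [← hC, Matrix.mul_assoc]
  simp only [h1]
  rw [← Finset.mul_sum, hL.casM, Matrix.mul_smul, Matrix.mul_one]

theorem hP_inv {P : Matrix q q ℝ} (hd : P.det ≠ 0) {y : ℝ} (hy : y ≠ 0) :
    (hP l P y)⁻¹ = hP l P⁻¹ y⁻¹ := by
  apply Matrix.inv_eq_right_inv
  unfold hP
  rw [fromBlocks_multiply, Matrix.mul_nonsing_inv _ (isUnit_iff_ne_zero.2 hd)]
  simp only [Matrix.mul_zero, Matrix.zero_mul, add_zero, zero_add]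
  rw [Matrix.smul_mul, Matrix.one_mul, smul_smul, mul_inv_cancel₀ hy, one_smul]
  exact fromBlocks_one

theorem Phi1_hat (hL : LData N M Λ κ α) {B : Matrix p p ℝ} {P : Matrix q q ℝ} {y : ℝ}
    (hBd : B.det ≠ 0) (hPd : P.det ≠ 0) (hy : y ≠ 0) (hB : ∀ u, B * M u = M u * B) :
    Phi1 (hN N M) B (hP l P y) = Phi1 N B P - (y⁻¹ * (1 / 2 - κ)) • B⁻¹ := by
  unfold Phi1
  rw [hP_inv hPd hy, TT_hN, TT_hN, TT_hN, sum_MCM hL hB,
    sum_MCM hL fun u => comm_inv hBd (hB u)]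
  have h1 : B * (TT N P B⁻¹ + y • (1 / 2 - κ) • B⁻¹) * B =
      B * TT N P B⁻¹ * B + (y * (1 / 2 - κ)) • B := by
    rw [Matrix.mul_add, Matrix.add_mul, smul_smul, Matrix.mul_smul, Matrix.smul_mul,
      Matrix.mul_nonsing_inv _ (isUnit_iff_ne_zero.2 hBd), Matrix.one_mul]
  rw [h1, smul_smul, smul_smul]
  module

theorem comm_mul' {A X Y : Matrix p p ℝ} (hX : X * A = A * X) (hY : Y * A = A * Y) :
    X * Y * A = A * (X * Y) := by
  rw [Matrix.mul_assoc, hY, ← Matrix.mul_assoc, hX, Matrix.mul_assoc]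

theorem UU_hN (hL : LData N M Λ κ α) {A C : Matrix p p ℝ} (hA : ∀ u, A * M u = M u * A)
    (hC : ∀ u, C * M u = M u * C) {μ : ℝ}
    (hμ : ∀ u v, trace (M u * (M v)ᵀ * (A * C)) = if u = v then μ else 0) :
    UU (hN N M) A C = hP l (UU N A C) μ := by
  ext x y
  rcases x with a | u <;> rcases y with b | v
  · rfl
  · change trace (N a * A * (M v)ᵀ * C) = 0
    have h1 : N a * A * (M v)ᵀ * C = -((N a * (A * C)) * M v) := by
      rw [hL.skewM, Matrix.mul_neg, Matrix.neg_mul]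
      congr 1
      calc N a * A * M v * C = N a * A * (M v * C) := by simp only [Matrix.mul_assoc]
        _ = N a * A * (C * M v) := by rw [hC]
        _ = _ := by simp only [Matrix.mul_assoc]
    rw [h1, Matrix.trace_neg, hL.cross _ (fun w => comm_mul' (hL.comm a w)
      (comm_mul' (hA w) (hC w))), neg_zero]
  · change trace (M u * A * (N b)ᵀ * C) = 0
    have h1 : trace (M u * A * (N b)ᵀ * C) = -trace ((A * N b * C) * M u) := by
      rw [hL.skewN, Matrix.mul_neg, Matrix.neg_mul, Matrix.trace_neg]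
      congr 1
      rw [Matrix.trace_mul_comm (A * N b * C)]
      simp only [Matrix.mul_assoc]
    rw [h1, hL.cross _ (fun w => comm_mul' (comm_mul' (hA w) (hL.comm b w)) (hC w)), neg_zero]
  · change trace (M u * A * (M v)ᵀ * C) = (μ • (1 : Matrix l l ℝ)) u v
    have h1 : M u * A * (M v)ᵀ * C = M u * (M v)ᵀ * (A * C) := by
      rw [hL.skewM, Matrix.mul_neg, Matrix.neg_mul, Matrix.mul_neg, Matrix.neg_mul]
      congr 1
      calc M u * A * M v * C = M u * (A * M v) * C := by simp only [Matrix.mul_assoc]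
        _ = M u * (M v * A) * C := by rw [hA]
        _ = _ := by simp only [Matrix.mul_assoc]
    rw [h1, hμ, Matrix.smul_apply, Matrix.one_apply, smul_eq_mul]
    split_ifs <;> ring

theorem UU_hS (hL : LData N M Λ κ α) (A C : Matrix q q ℝ) (y z : ℝ) :
    UU (hS S Λ) (hP l A y) (hP l C z) = hP l (UU S A C) (y * z * α) := by
  ext a b
  change trace (hS S Λ a * hP l A y * (hS S Λ b)ᵀ * hP l C z) = _
  rcases a with a | u <;> rcases b with b | v
  · simp only [hS, hP, Sum.elim_inl, fromBlocks_transpose, fromBlocks_multiply, Matrix.mul_zero,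
      Matrix.zero_mul, add_zero, zero_add, Matrix.transpose_zero, trace_fb, Matrix.trace_zero,
      fromBlocks_apply₁₁]
    rfl
  · simp only [hS, hP, Sum.elim_inl, Sum.elim_inr, fromBlocks_transpose, fromBlocks_multiply,
      Matrix.mul_zero, Matrix.zero_mul, add_zero, zero_add, Matrix.transpose_zero,
      trace_fb, Matrix.trace_zero, fromBlocks_apply₁₂]
    rfl
  · simp only [hS, hP, Sum.elim_inl, Sum.elim_inr, fromBlocks_transpose, fromBlocks_multiply,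
      Matrix.mul_zero, Matrix.zero_mul, add_zero, zero_add, Matrix.transpose_zero,
      trace_fb, Matrix.trace_zero, fromBlocks_apply₂₁]
    rfl
  · simp only [hS, hP, Sum.elim_inr, fromBlocks_transpose, fromBlocks_multiply, Matrix.mul_zero,
      Matrix.zero_mul, add_zero, zero_add, Matrix.transpose_zero, trace_fb, Matrix.trace_zero,
      fromBlocks_apply₂₂]
    have h1 : trace (Λ u * y • (1 : Matrix l l ℝ) * (Λ v)ᵀ * z • (1 : Matrix l l ℝ)) =
        z * (y * trace (Λ u * (Λ v)ᵀ)) := by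
      rw [Matrix.mul_smul, Matrix.trace_smul, Matrix.mul_one, Matrix.mul_smul,
        Matrix.smul_mul, Matrix.trace_smul, Matrix.mul_one, smul_eq_mul, smul_eq_mul]
    refine h1.trans ?_
    rw [hL.trL]
    change _ = ((y * z * α) • (1 : Matrix l l ℝ)) u v
    rw [Matrix.smul_apply, Matrix.one_apply, smul_eq_mul]
    split_ifs <;> ring

theorem muF_eq [Nonempty l] {B : Matrix p p ℝ} (hR : ∀ u, B⁻¹ * M u = M u * B⁻¹)
    (hM : ∀ u, (M u)ᵀ = -M u) {μ : ℝ}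
    (hμ : ∀ u v, trace (M u * (M v)ᵀ * (B⁻¹ * B⁻¹)) = if u = v then μ else 0) :
    muF M B = μ := by
  have h1 : ∀ u, trace (B⁻¹ * (M u * B⁻¹ * (M u)ᵀ)) = μ := by
    intro u
    have h2 := hμ u u
    rw [if_pos rfl] at h2
    rw [← h2]
    congr 1
    have h3 : (M u)ᵀ * B⁻¹ = B⁻¹ * (M u)ᵀ := by
      rw [hM, Matrix.mul_neg, Matrix.neg_mul, hR]
    calc B⁻¹ * (M u * B⁻¹ * (M u)ᵀ) = (B⁻¹ * M u) * (B⁻¹ * (M u)ᵀ) := by
          simp only [Matrix.mul_assoc]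
      _ = (M u * B⁻¹) * ((M u)ᵀ * B⁻¹) := by rw [hR, h3]
      _ = M u * (B⁻¹ * (M u)ᵀ) * B⁻¹ := by simp only [Matrix.mul_assoc]
      _ = M u * ((M u)ᵀ * B⁻¹) * B⁻¹ := by rw [h3]
      _ = _ := by simp only [Matrix.mul_assoc]
  unfold muF
  simp only [h1]
  rw [Finset.sum_const, Finset.card_univ, nsmul_eq_mul, ← mul_assoc, one_div,
    inv_mul_cancel₀, one_mul]
  exact_mod_cast Fintype.card_ne_zero

theorem Phi2_hat [Nonempty l] (hL : LData N M Λ κ α) {B : Matrix p p ℝ} {P : Matrix q q ℝ}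
    {x : ℝ} (hBd : B.det ≠ 0) (hPd : P.det ≠ 0) (hBs : (B⁻¹).IsSymm) (hx : x ≠ 0)
    (hB : ∀ u, B * M u = M u * B) (h2 : Phi2 N S B P = P)
    (h3 : 1 / 2 * α + 1 / 2 * x ^ 2 * muF M B = x) :
    Phi2 (hN N M) (hS S Λ) B (hP l P x⁻¹) = hP l P x⁻¹ := by
  have hR : ∀ u, B⁻¹ * M u = M u * B⁻¹ := fun u => comm_inv hBd (hB u)
  have hs : (B⁻¹ * B⁻¹).IsSymm := by
    unfold Matrix.IsSymm
    rw [Matrix.transpose_mul, hBs.eq]
  obtain ⟨μ, hμ⟩ := hL.homog (B⁻¹ * B⁻¹) hs fun u => comm_mul' (hR u) (hR u)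
  have hmu := muF_eq hR hL.skewM hμ
  have hone : ∀ u v, trace (M u * (M v)ᵀ * (B * B⁻¹)) = if u = v then 1 - α else 0 := by
    intro u v
    rw [Matrix.mul_nonsing_inv _ (isUnit_iff_ne_zero.2 hBd), Matrix.mul_one]
    exact hL.trM u v
  unfold Phi2
  rw [hP_inv hPd (inv_ne_zero hx), inv_inv, UU_hN hL hR hR hμ, UU_hN hL hB hR hone,
    UU_hS hL, UU_hS hL]
  have e1 : (1 : Matrix (q ⊕ l) (q ⊕ l) ℝ) = hP l 1 1 := by
    unfold hP
    rw [one_smul]
    exact fromBlocks_one.symm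
  have e2 : ∀ (A C : Matrix q q ℝ) (a c : ℝ), hP l A a - hP l C c = hP l (A - C) (a - c) := by
    intro A C a c
    unfold hP
    rw [sub_eq_add_neg, fromBlocks_neg, fromBlocks_add]
    simp only [neg_zero, add_zero]
    rw [← sub_eq_add_neg, ← sub_eq_add_neg, sub_smul]
  have e3 : ∀ (A C : Matrix q q ℝ) (a c : ℝ), hP l A a * hP l C c = hP l (A * C) (a * c) := by
    intro A C a c
    unfold hP
    rw [fromBlocks_multiply]
    simp only [Matrix.mul_zero, Matrix.zero_mul, add_zero, zero_add]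
    rw [Matrix.smul_mul, Matrix.one_mul, smul_smul]
  have e4 : ∀ (A : Matrix q q ℝ) (a c : ℝ), c • hP l A a = hP l (c • A) (c * a) := by
    intro A a c
    unfold hP
    rw [fromBlocks_smul, smul_zero, smul_zero, smul_smul]
  have e5 : ∀ (A C : Matrix q q ℝ) (a c : ℝ), hP l A a + hP l C c = hP l (A + C) (a + c) := by
    intro A C a c
    unfold hP
    rw [fromBlocks_add]
    simp only [add_zero]
    rw [add_smul]
  rw [e1, e2, e2, e3, e3, e4, e4, e5, e5]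
  have h4 : (1 / 2 : ℝ) • UU N B⁻¹ B⁻¹ + P * (1 - UU N B B⁻¹ - UU S P⁻¹ P) * P +
      (1 / 2 : ℝ) • UU S P P = P := h2
  rw [h4]
  congr 1
  rw [hmu] at h3
  have h5 : x⁻¹ * x = 1 := inv_mul_cancel₀ hx
  have h6 : μ = x⁻¹ ^ 2 * (2 * x - α) := by
    have : x⁻¹ ^ 2 * (2 * x - α) = (x⁻¹ * x) ^ 2 * μ := by
      calc x⁻¹ ^ 2 * (2 * x - α) =
          x⁻¹ ^ 2 * (2 * (1 / 2 * α + 1 / 2 * x ^ 2 * μ) - α) := by rw [h3]
        _ = _ := by ring
    rw [this, h5]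
    ring
  rw [h6]
  field_simp
  ring

theorem hP_btw {P : Matrix q q ℝ} {c d y : ℝ} (hPb : Btw c d P) (h1 : c ≤ y) (h2 : y ≤ d) :
    Btw c d (hP l P y) := by
  have hq : ∀ x : q ⊕ l → ℝ, x ⬝ᵥ (hP l P y *ᵥ x) =
      (x ∘ Sum.inl) ⬝ᵥ (P *ᵥ (x ∘ Sum.inl)) + y * ((x ∘ Sum.inr) ⬝ᵥ (x ∘ Sum.inr)) := by
    intro x
    unfold hP
    rw [Matrix.fromBlocks_mulVec, Matrix.zero_mulVec, Matrix.zero_mulVec, add_zero, zero_add,
      Matrix.smul_mulVec, Matrix.one_mulVec, ← smul_eq_mul, ← dotProduct_smul]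
    unfold dotProduct
    rw [Fintype.sum_sum_type]
    rfl
  have hn : ∀ x : q ⊕ l → ℝ, x ⬝ᵥ x =
      (x ∘ Sum.inl) ⬝ᵥ (x ∘ Sum.inl) + (x ∘ Sum.inr) ⬝ᵥ (x ∘ Sum.inr) := by
    intro x
    unfold dotProduct
    rw [Fintype.sum_sum_type]
    rfl
  refine ⟨?_, fun x => ?_, fun x => ?_⟩
  · unfold hP Matrix.IsSymm
    rw [fromBlocks_transpose, hPb.symm.eq, Matrix.transpose_zero, Matrix.transpose_zero,
      Matrix.transpose_smul, Matrix.transpose_one]
  · rw [hq, hn]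
    have := hPb.lo (x ∘ Sum.inl)
    have h0 := dot_self_nonneg (x ∘ Sum.inr)
    nlinarith
  · rw [hq, hn]
    have := hPb.up (x ∘ Sum.inl)
    have h0 := dot_self_nonneg (x ∘ Sum.inr)
    nlinarith

/-- The Einstein metric in coordinates. -/
theorem exists_hat [Nonempty l] {θ s : ℝ} (h : Small2 N S θ κ)
    (hL : LData N M Λ κ α) (s0 : 0 < s) (s1 : 50 * s ≤ θ) (t1 : θ ≤ 1) (k0 : 0 ≤ κ)
    (k1 : 3 * κ ≤ s ^ 2) (ha : α ≤ 1) (ha' : 1 - α ≤ 4 * κ) :
    ∃ (B : Matrix p p ℝ) (P : Matrix q q ℝ) (y : ℝ), Btw (1 / 2) (1 / 2 + s) B ∧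
      Btw (2 - 20 * s) 3 P ∧ Btw (2 - 20 * s) 3 (hP l P y) ∧
      (∀ u v, Sym N S u v → v * B * vᵀ = B ∧ u * P * uᵀ = P) ∧
      RicM (CC (hN N M) (hS S Λ)) (fromBlocks (hP l P y)⁻¹ 0 0 B)
        (fromBlocks (hP l P y) 0 0 B⁻¹) = (1 / 2 : ℝ) • fromBlocks (hP l P y)⁻¹ 0 0 B := by
  obtain ⟨B, P, x, hB, hPb, hx, hc, hinv, e1, e2, e3⟩ :=
    exists_fixed2 h hL s0 s1 t1 k0 k1 ha ha'
  have s2 : s ≤ 1 / 50 := by linarith
  have s3 : s ^ 3 ≤ 1 / 100000 := by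
    have : s ^ 3 ≤ (1 / 50) ^ 3 := pow_le_pow_left₀ s0.le s2 3
    linarith [this, (by norm_num : ((1 : ℝ) / 50) ^ 3 ≤ 1 / 100000)]
  have hx0 : 2 / 5 ≤ x := by
    have := hx.1
    linarith
  have hx1 : x ≤ 1 / 2 := hx.2
  have hxp : 0 < x := by linarith
  have hxi : 2 ≤ x⁻¹ := by
    rw [le_inv_comm₀ (by norm_num) hxp]
    linarith
  have hxi' : x⁻¹ ≤ 3 := by
    rw [inv_le_comm₀ hxp (by norm_num)]
    linarith
  have hBd := hB.det_ne (by norm_num)
  have hPd := hPb.det_ne (by linarith)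
  have hP3 : Btw (2 - 20 * s) 3 P := ⟨hPb.symm, hPb.lo, fun z => by
    have h1 := hPb.up z
    have h2 := dot_self_nonneg z
    nlinarith⟩
  have hPh : Btw (2 - 20 * s) 3 (hP l P x⁻¹) := hP_btw hP3 (by linarith) hxi'
  have hBi := hB.inv (by norm_num) (by linarith)
  refine ⟨B, P, x⁻¹, hB, hP3, hPh, hinv, ?_⟩
  refine RicM_eq (a := 1 / 2) (b := 1 / 2 + s) (c := 2 - 20 * s) (d := 3) (by norm_num)
    (by linarith) (by linarith) (by norm_num) hB hPh ?_ ?_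
  · rw [Phi1_hat hL hBd hPd (inv_ne_zero hxp.ne') hc, inv_inv]
    exact e1
  · exact Phi2_hat hL hBd hPd hBi.symm hxp.ne' hc e2 e3

end Pool.Agent.EinS
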