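import Pool.Agent.EinS.Asm
import Pool.Agent.EinS.Hat
import Pool.Agent.EinS.Prod

/-!
# Symmetric pairs, second version: the isotropy algebra is contained in `k`
-/

namespace Pool.Agent.EinS

open Matrix Pool.Agent.EStab

variable {L : Type*} [LieRing L] [LieAlgebra ℝ L]

/-- The tangent space of the symmetric space. -/
abbrev pp (k l : LieSubalgebra ℝ L) : Submodule ℝ L := perp (k.toSubmodule ⊔ l.toSubmodule)

/-- The hypotheses. -/
structure Hyp2 (k l h : LieSubalgebra ℝ L) (κ θ : ℝ) : Prop where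
  compact : CompactSemisimple L
  pair : SymPair k l
  le : h ≤ k
  casK : ∀ (n : ℕ) (a : Fin n → L), IsFrame k.toSubmodule a →
    ∀ x ∈ k, ∑ i, Qf L ⁅a i, x⁆ ⁅a i, x⁆ ≤ 3 * κ * Qf L x x
  casP : ∀ (ι : Type) [Fintype ι] [DecidableEq ι] (a : ι → L), IsFrame k.toSubmodule a →
    ∀ x ∈ pp k l, ∑ i, Qf L ⁅a i, x⁆ ⁅a i, x⁆ = κ * Qf L x x
  casH : ∀ (n : ℕ) (b : Fin n → L), IsFrame h.toSubmodule b →
    ∀ x ∈ pp k l, θ * κ * Qf L x x ≤ ∑ i, Qf L ⁅b i, x⁆ ⁅b i, x⁆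
  perf : ∀ x ∈ l, x ∈ Submodule.span ℝ {z | ∃ u ∈ l, ∃ v ∈ l, ⁅u, v⁆ = z}
  forms : ∀ F : LinearMap.BilinForm ℝ L, (∀ x ∈ l, ∀ y ∈ l, F x y = F y x) →
    (∀ x ∈ l, ∀ y ∈ l, ∀ z ∈ l, F ⁅x, y⁆ z = F x ⁅y, z⁆) →
    ∃ μ : ℝ, ∀ x ∈ l, ∀ y ∈ l, F x y = μ * Qf L x y
  small : ∀ (n : ℕ) (f : Fin n → L), IsFrame (pp k l) f →
    ∀ x ∈ l, ∑ i, Qf L ⁅x, f i⁆ ⁅x, f i⁆ ≤ 4 * κ * Qf L x x
  ne : ∃ x ∈ l, x ≠ 0
  k0 : 0 ≤ κ
  k1 : κ ≤ 1 / 60

theorem Hyp2.casimirLE [Module.Finite ℝ L] {k l h : LieSubalgebra ℝ L} {κ θ : ℝ}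
    (H : Hyp2 k l h κ θ) : CasimirLE k l (1 / 20) (1 / 40) := by
  intro n a ha ho
  obtain ⟨nk, ek, hek⟩ := exists_frame H.compact k.toSubmodule
  have ho' : ∀ i j, Qf L (a i) (a j) = if i = j then 1 else 0 := by
    intro i j
    rw [Qf_apply, ho]
    split_ifs <;> norm_num
  have key := casimir_aux H.compact hek a ha (fun v => by
    have := bessel_fam H.compact ho' v
    simpa only [Qf_symm v] using this)
  refine ⟨fun x hx => ?_, fun x hx => ?_⟩
  · have h1 := H.casK nk ek hek x hx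
    have h2 := Qf_nonneg H.compact x
    have h3 := H.k1
    have h4 := key x
    change ∑ i, Qf L ⁅a i, x⁆ ⁅a i, x⁆ ≤ 1 / 20 * Qf L x x
    nlinarith
  · have h1 := H.casP _ ek hek x (orth_iff.1 hx)
    have h2 := Qf_nonneg H.compact x
    have h3 := H.k1
    have h4 := key x
    change ∑ i, Qf L ⁅a i, x⁆ ⁅a i, x⁆ ≤ 1 / 40 * Qf L x x
    nlinarith

/-- The frames. -/
structure Setup2 (k l h : LieSubalgebra ℝ L) (κ θ : ℝ) {nk nl nq np nh : ℕ} (ek : Fin nk → L)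
    (el : Fin nl → L) (a : Fin nq → L) (f : Fin np → L) (b : Fin nh → L) : Prop where
  st : Setup k l h ek el a f
  H : Hyp2 k l h κ θ
  fh : IsFrame h.toSubmodule b

theorem exists_setup2 [Module.Finite ℝ L] {k l h : LieSubalgebra ℝ L} {κ θ : ℝ}
    (H : Hyp2 k l h κ θ) :
    ∃ (nk nl nq np nh : ℕ) (ek : Fin nk → L) (el : Fin nl → L) (a : Fin nq → L)
      (f : Fin np → L) (b : Fin nh → L), Setup2 k l h κ θ ek el a f b := by
  obtain ⟨nk, nl, nq, np, ek, el, a, f, st⟩ := exists_setup H.compact H.pair H.casimirLE H.le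
  obtain ⟨nh, b, hb⟩ := exists_frame H.compact h.toSubmodule
  exact ⟨nk, nl, nq, np, nh, ek, el, a, f, b, st, H, hb⟩

section

variable {k l h : LieSubalgebra ℝ L} {κ θ : ℝ} {nk nl nq np nh : ℕ} {ek : Fin nk → L}
  {el : Fin nl → L} {a : Fin nq → L} {f : Fin np → L} {b : Fin nh → L}

theorem Setup2.k_eq (s : Setup2 k l h κ θ ek el a f b) :
    h.toSubmodule ⊔ (k.toSubmodule ⊓ perp h.toSubmodule) = k.toSubmodule := by
  apply le_antisymm
  · exact sup_le s.H.le inf_le_left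
  · intro x hx
    have h1 := s.fh.sub_mem_perp x
    have h3 : x = (∑ i, Qf L x (b i) • b i) + (x - ∑ i, Qf L x (b i) • b i) := by abel
    have h4 : ∑ i, Qf L x (b i) • b i ∈ h.toSubmodule := frame_mem s.fh _
    rw [h3]
    refine Submodule.add_mem_sup h4 ⟨?_, h1⟩
    exact k.toSubmodule.sub_mem hx (s.H.le h4)

theorem Setup2.fk' (s : Setup2 k l h κ θ ek el a f b) :
    IsFrame k.toSubmodule (Sum.elim b a) := by
  have h1 := s.fh.sum s.st.fq fun x hx y hy => by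
    rw [Qf_symm]
    exact hy.2 x hx
  rwa [s.k_eq] at h1

theorem Setup2.small2 (s : Setup2 k l h κ θ ek el a f b) :
    Small2 (NN' a f) (SS' a) θ κ := by
  refine ⟨?_, ?_, ?_, ?_⟩
  · intro y
    set Y := ∑ i, y i • f i with hY
    have hYm : Y ∈ perp (k.toSubmodule ⊔ l.toSubmodule) := frame_mem s.st.fp y
    rw [trace_mul_transpose', ← frame_norm s.st.fp y]
    have h1 : ∀ t, ∑ j, rw' (NN' a f) y t j ^ 2 = Qf L ⁅a t, Y⁆ ⁅a t, Y⁆ := by
      intro t
      rw [s.st.fp.parseval (s.st.lie_kp (s.st.mem_k t) hYm)]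
      refine Finset.sum_congr rfl fun j _ => ?_
      rw [Setup.rw_eq, ← hY, sq]
    simp only [h1]
    rw [← hY]
    have h2 := s.H.casP _ (Sum.elim b a) s.fk' Y hYm
    rw [Fintype.sum_sum_type] at h2
    simp only [Sum.elim_inl, Sum.elim_inr] at h2
    have h3 := s.H.casH _ b s.fh Y hYm
    nlinarith
  · exact s.st.small.up
  · intro x
    rw [s.st.trN x, ← frame_norm s.st.fq x]
    set X := ∑ t, x t • a t with hX
    have h1 := s.st.split (frame_mem s.st.fq x).1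
    have h2 := s.H.casK nk ek s.st.fk X (frame_mem s.st.fq x).1
    have h3 : ∑ i, Qf L ⁅ek i, X⁆ ⁅ek i, X⁆ = ∑ e, Qf L ⁅X, ek e⁆ ⁅X, ek e⁆ := by
      refine Finset.sum_congr rfl fun e _ => ?_
      rw [← lie_skew X (ek e)]
      simp only [map_neg, LinearMap.neg_apply, neg_neg]
    rw [h3] at h2
    rw [← hX] at h1
    linarith
  · exact s.st.small.str

/-! ### The matrices of the action on `p` -/

/-- Elements which preserve `p`. -/
theorem Setup2.lie_pp (s : Setup2 k l h κ θ ek el a f b) {x y : L}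
    (hx : x ∈ k ∨ x ∈ l) (hy : y ∈ pp k l) : ⁅x, y⁆ ∈ pp k l := by
  rcases hx with hx | hx
  · exact s.st.lie_kp hx hy
  · exact s.st.lie_lp hx hy

theorem adm_add {ι : Type*} [Fintype ι] [DecidableEq ι] (e : ι → L) (x y : L) :
    adm e (x + y) = adm e x + adm e y := by
  ext i j
  change Qf L ⁅x + y, e i⁆ (e j) = Qf L ⁅x, e i⁆ (e j) + Qf L ⁅y, e i⁆ (e j)
  rw [add_lie, map_add, LinearMap.add_apply]

theorem adm_smul {ι : Type*} [Fintype ι] [DecidableEq ι] (e : ι → L) (c : ℝ) (x : L) :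
    adm e (c • x) = c • adm e x := by
  ext i j
  change Qf L ⁅c • x, e i⁆ (e j) = c * Qf L ⁅x, e i⁆ (e j)
  rw [smul_lie, map_smul, LinearMap.smul_apply, smul_eq_mul]

theorem adm_zero {ι : Type*} [Fintype ι] [DecidableEq ι] (e : ι → L) :
    adm e (0 : L) = 0 := by
  ext i j
  change Qf L ⁅0, e i⁆ (e j) = 0
  rw [zero_lie, map_zero, LinearMap.zero_apply]

theorem adm_skew {ι : Type*} [Fintype ι] [DecidableEq ι] (e : ι → L) (x : L) :
    (adm e x)ᵀ = -adm e x := by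
  ext i j
  change Qf L ⁅x, e j⁆ (e i) = -Qf L ⁅x, e i⁆ (e j)
  rw [Qf_lie', Qf_symm]

theorem Setup2.adm_mul (s : Setup2 k l h κ θ ek el a f b) {x y : L}
    (hx : x ∈ k ∨ x ∈ l) :
    adm f x * adm f y = of fun i j => Qf L ⁅y, ⁅x, f i⁆⁆ (f j) := by
  ext i j
  rw [Matrix.mul_apply, Matrix.of_apply, Qf_lie',
    s.st.fp.parseval (s.lie_pp hx (s.st.fp.mem i)), ← Finset.sum_neg_distrib]
  refine Finset.sum_congr rfl fun r _ => ?_
  change Qf L ⁅x, f i⁆ (f r) * Qf L ⁅y, f r⁆ (f j) = _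
  rw [Qf_lie' y, Qf_symm (f r)]
  ring

theorem Setup2.adm_lie (s : Setup2 k l h κ θ ek el a f b) {x y : L}
    (hx : x ∈ k ∨ x ∈ l) (hy : y ∈ k ∨ y ∈ l) :
    adm f ⁅x, y⁆ = adm f y * adm f x - adm f x * adm f y := by
  rw [s.adm_mul hx, s.adm_mul hy]
  ext i j
  change Qf L ⁅⁅x, y⁆, f i⁆ (f j) = Qf L ⁅x, ⁅y, f i⁆⁆ (f j) - Qf L ⁅y, ⁅x, f i⁆⁆ (f j)
  rw [lie_lie, map_sub, LinearMap.sub_apply]

theorem Setup2.comm_kl (s : Setup2 k l h κ θ ek el a f b) {x y : L} (hx : x ∈ k) (hy : y ∈ l) :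
    adm f x * adm f y = adm f y * adm f x := by
  have h1 := s.adm_lie (Or.inl hx) (Or.inr hy)
  rw [s.st.pair.comm x hx y hy, adm_zero] at h1
  exact (sub_eq_zero.1 h1.symm).symm

theorem Setup2.tr_adm (s : Setup2 k l h κ θ ek el a f b) {x y : L}
    (hx : x ∈ k ∨ x ∈ l) :
    trace (adm f x * (adm f y)ᵀ) = ∑ i, Qf L ⁅x, f i⁆ ⁅y, f i⁆ := by
  rw [adm_skew, Matrix.mul_neg, Matrix.trace_neg, s.adm_mul hx]
  unfold trace
  rw [← Finset.sum_neg_distrib]
  refine Finset.sum_congr rfl fun i _ => ?_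
  rw [Matrix.diag_apply, Matrix.of_apply, Qf_lie', neg_neg]

theorem Setup2.mem_l (s : Setup2 k l h κ θ ek el a f b) (u : Fin nl) : el u ∈ l :=
  s.st.fl.mem u

/-- The Casimir operator of `l` on `p`. -/
theorem Setup2.casL (s : Setup2 k l h κ θ ek el a f b) {x : L} (hx : x ∈ pp k l) :
    ∑ u, Qf L ⁅el u, x⁆ ⁅el u, x⁆ = (1 / 2 - κ) * Qf L x x := by
  have h1 := s.st.full.killing x x
  rw [Fintype.sum_sum_type, Fintype.sum_sum_type] at h1
  simp only [Sum.elim_inl, Sum.elim_inr] at h1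
  have hk : ∀ y : L, Qf L ⁅x, y⁆ ⁅x, y⁆ = Qf L ⁅y, x⁆ ⁅y, x⁆ := by
    intro y
    rw [← lie_skew x y]
    simp only [map_neg, LinearMap.neg_apply, neg_neg]
  have h2 : ∑ i, Qf L ⁅x, f i⁆ ⁅x, f i⁆ = ∑ e, Qf L ⁅ek e, x⁆ ⁅ek e, x⁆ +
      ∑ u, Qf L ⁅el u, x⁆ ⁅el u, x⁆ := by
    have h3 : ∀ i, Qf L ⁅x, f i⁆ ⁅x, f i⁆ = ∑ e, Qf L ⁅ek e, x⁆ (f i) ^ 2 +
        ∑ u, Qf L ⁅el u, x⁆ (f i) ^ 2 := by
      intro i
      rw [s.st.full.parseval Submodule.mem_top, Fintype.sum_sum_type, Fintype.sum_sum_type]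
      simp only [Sum.elim_inl, Sum.elim_inr]
      have h4 : ∑ j, Qf L ⁅x, f i⁆ (f j) * Qf L ⁅x, f i⁆ (f j) = 0 := by
        refine Finset.sum_eq_zero fun j _ => ?_
        rw [Qf_apply, s.st.pair.symm _ _ _ (orth_iff.2 hx) (orth_iff.2 (s.st.fp.mem i))
          (orth_iff.2 (s.st.fp.mem j)), neg_zero, mul_zero]
      rw [h4, add_zero]
      congr 1
      · refine Finset.sum_congr rfl fun e _ => ?_
        rw [Qf_lie_cyc x]
        ring
      · refine Finset.sum_congr rfl fun u _ => ?_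
        rw [Qf_lie_cyc x]
        ring
    simp only [h3]
    rw [Finset.sum_add_distrib, Finset.sum_comm, Finset.sum_comm (s := Finset.univ)
      (t := Finset.univ) (f := fun i u => Qf L ⁅el u, x⁆ (f i) ^ 2)]
    congr 1
    · refine Finset.sum_congr rfl fun e _ => ?_
      rw [s.st.fp.parseval (s.st.lie_kp (s.st.fk.mem e) hx)]
      refine Finset.sum_congr rfl fun i _ => ?_
      ring
    · refine Finset.sum_congr rfl fun u _ => ?_
      rw [s.st.fp.parseval (s.st.lie_lp (s.mem_l u) hx)]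
      refine Finset.sum_congr rfl fun i _ => ?_
      ring
  simp only [hk] at h1
  simp only [hk] at h2
  rw [h2, s.H.casP _ ek s.st.fk x hx] at h1
  linarith

theorem Setup2.casL' (s : Setup2 k l h κ θ ek el a f b) {x y : L} (hx : x ∈ pp k l)
    (hy : y ∈ pp k l) :
    ∑ u, Qf L ⁅el u, x⁆ ⁅el u, y⁆ = (1 / 2 - κ) * Qf L x y := by
  have h1 := s.casL hx
  have h2 := s.casL hy
  have h3 := s.casL (Submodule.add_mem _ hx hy)
  have h4 : ∑ u, Qf L ⁅el u, x + y⁆ ⁅el u, x + y⁆ = ∑ u, Qf L ⁅el u, x⁆ ⁅el u, x⁆ +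
      ∑ u, Qf L ⁅el u, y⁆ ⁅el u, y⁆ + 2 * ∑ u, Qf L ⁅el u, x⁆ ⁅el u, y⁆ := by
    rw [Finset.mul_sum, ← Finset.sum_add_distrib, ← Finset.sum_add_distrib]
    refine Finset.sum_congr rfl fun u _ => ?_
    simp only [lie_add, map_add, LinearMap.add_apply]
    rw [Qf_symm ⁅el u, y⁆ ⁅el u, x⁆]
    ring
  have h5 : Qf L (x + y) (x + y) = Qf L x x + Qf L y y + 2 * Qf L x y := by
    simp only [map_add, LinearMap.add_apply]
    rw [Qf_symm y x]
    ring
  rw [h4, h5, h1, h2] at h3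
  linarith

/-- The bilinear form `tr (ad x ad y X)`. -/
noncomputable def FX (f : Fin np → L) (X : Matrix (Fin np) (Fin np) ℝ) :
    LinearMap.BilinForm ℝ L :=
  LinearMap.mk₂ ℝ (fun x y => trace (adm f x * (adm f y)ᵀ * X))
    (fun x x' y => by rw [adm_add, Matrix.add_mul, Matrix.add_mul, Matrix.trace_add])
    (fun c x y => by
      rw [adm_smul, Matrix.smul_mul, Matrix.smul_mul, Matrix.trace_smul])
    (fun x y y' => by
      rw [adm_add, Matrix.transpose_add, Matrix.mul_add, Matrix.add_mul, Matrix.trace_add])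
    (fun c x y => by
      rw [adm_smul, Matrix.transpose_smul, Matrix.mul_smul, Matrix.smul_mul,
        Matrix.trace_smul])

theorem FX_apply (f : Fin np → L) (X : Matrix (Fin np) (Fin np) ℝ) (x y : L) :
    FX f X x y = trace (adm f x * (adm f y)ᵀ * X) := rfl

theorem Setup2.commX (s : Setup2 k l h κ θ ek el a f b) {X : Matrix (Fin np) (Fin np) ℝ}
    (hX : ∀ u, X * NN' el f u = NN' el f u * X) {x : L} (hx : x ∈ l) :
    X * adm f x = adm f x * X := by
  have h1 := s.st.fl.exp x hx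
  rw [h1, adm_sum, Finset.sum_mul, Finset.mul_sum]
  refine Finset.sum_congr rfl fun u _ => ?_
  rw [Matrix.mul_smul, Matrix.smul_mul]
  congr 1
  exact hX u

theorem Setup2.homog (s : Setup2 k l h κ θ ek el a f b) {X : Matrix (Fin np) (Fin np) ℝ}
    (hXs : X.IsSymm) (hX : ∀ u, X * NN' el f u = NN' el f u * X) :
    ∃ μ : ℝ, ∀ u v, trace (NN' el f u * (NN' el f v)ᵀ * X) = if u = v then μ else 0 := by
  obtain ⟨μ, hμ⟩ := s.H.forms (FX f X) (fun x hx y hy => by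
    rw [FX_apply, FX_apply, adm_skew, adm_skew, Matrix.mul_neg, Matrix.mul_neg,
      Matrix.neg_mul, Matrix.neg_mul, Matrix.trace_neg, Matrix.trace_neg]
    congr 1
    rw [← Matrix.trace_transpose, Matrix.transpose_mul, Matrix.transpose_mul, adm_skew,
      adm_skew, hXs.eq, Matrix.mul_neg, Matrix.neg_mul, neg_neg,
      Matrix.trace_mul_comm]) (fun x hx y hy z hz => by
    rw [FX_apply, FX_apply, adm_skew, adm_skew, Matrix.mul_neg, Matrix.mul_neg,
      Matrix.neg_mul, Matrix.neg_mul, Matrix.trace_neg, Matrix.trace_neg,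
      s.adm_lie (Or.inr hx) (Or.inr hy), s.adm_lie (Or.inr hy) (Or.inr hz)]
    congr 1
    rw [Matrix.sub_mul, Matrix.sub_mul, Matrix.mul_sub, Matrix.sub_mul, Matrix.trace_sub,
      Matrix.trace_sub]
    have e1 : trace (adm f y * adm f x * adm f z * X) =
        trace (adm f x * (adm f z * adm f y) * X) := by
      calc trace (adm f y * adm f x * adm f z * X)
          = trace (adm f y * (adm f x * adm f z * X)) := by simp only [Matrix.mul_assoc]
        _ = trace ((adm f x * adm f z * X) * adm f y) := Matrix.trace_mul_comm _ _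
        _ = trace (adm f x * adm f z * (X * adm f y)) := by simp only [Matrix.mul_assoc]
        _ = trace (adm f x * adm f z * (adm f y * X)) := by rw [s.commX hX hy]
        _ = _ := by simp only [Matrix.mul_assoc]
    rw [e1]
    simp only [Matrix.mul_assoc])
  refine ⟨μ, fun u v => ?_⟩
  have h1 := hμ (el u) (s.mem_l u) (el v) (s.mem_l v)
  rw [s.st.fl.orth] at h1
  refine h1.trans ?_
  split_ifs <;> ring

theorem Setup2.cross (s : Setup2 k l h κ θ ek el a f b) {X : Matrix (Fin np) (Fin np) ℝ}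
    (hX : ∀ u, X * NN' el f u = NN' el f u * X) (u : Fin nl) :
    trace (X * NN' el f u) = 0 := by
  have h1 : ∀ x ∈ l, trace (X * adm f x) = 0 := by
    intro x hx
    refine Submodule.span_induction (p := fun x _ => trace (X * adm f x) = 0) ?_ ?_ ?_ ?_
      (s.H.perf x hx)
    · rintro z ⟨y, hy, w, hw, rfl⟩
      rw [s.adm_lie (Or.inr hy) (Or.inr hw), Matrix.mul_sub, Matrix.trace_sub, sub_eq_zero]
      calc trace (X * (adm f w * adm f y)) = trace ((X * adm f w) * adm f y) := by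
            rw [Matrix.mul_assoc]
        _ = trace (adm f y * (X * adm f w)) := Matrix.trace_mul_comm _ _
        _ = trace ((adm f y * X) * adm f w) := by rw [Matrix.mul_assoc]
        _ = trace ((X * adm f y) * adm f w) := by rw [s.commX hX hy]
        _ = _ := by rw [Matrix.mul_assoc]
    · rw [adm_zero, Matrix.mul_zero, Matrix.trace_zero]
    · intro y z _ _ hy hz
      rw [adm_add, Matrix.mul_add, Matrix.trace_add, hy, hz, add_zero]
    · intro c y _ hy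
      rw [adm_smul, Matrix.mul_smul, Matrix.trace_smul, hy, smul_zero]
  exact h1 _ (s.mem_l u)

theorem Setup2.nonempty (s : Setup2 k l h κ θ ek el a f b) : Nonempty (Fin nl) := by
  by_contra h0
  rw [not_nonempty_iff] at h0
  obtain ⟨x, hx, hx0⟩ := s.H.ne
  apply hx0
  rw [s.st.fl.exp x hx]
  exact Finset.sum_of_isEmpty _

/-- All the data of the factor `l`. -/
theorem Setup2.lData (s : Setup2 k l h κ θ ek el a f b) :
    ∃ α : ℝ, LData (NN' a f) (NN' el f) (SS' el) κ α ∧ α ≤ 1 ∧ 1 - α ≤ 4 * κ := by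
  obtain ⟨μ, hμ⟩ := s.homog (X := 1) Matrix.isSymm_one fun u => by
    rw [Matrix.mul_one, Matrix.one_mul]
  have hμ' : ∀ u v, trace (NN' el f u * (NN' el f v)ᵀ) = if u = v then μ else 0 := by
    intro u v
    rw [← hμ, Matrix.mul_one]
  have htr : ∀ u v, trace (NN' el f u * (NN' el f v)ᵀ) =
      ∑ i, Qf L ⁅el u, f i⁆ ⁅el v, f i⁆ := fun u v => s.tr_adm (Or.inr (s.mem_l u))
  obtain ⟨u0⟩ := s.nonempty
  have h0 := htr u0 u0
  rw [hμ', if_pos rfl] at h0
  refine ⟨1 - μ, ⟨?_, ?_, ?_, ?_, ?_, ?_, ?_, ?_⟩, ?_, ?_⟩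
  · intro t u
    exact s.comm_kl (s.st.mem_k t) (s.mem_l u)
  · intro t
    exact adm_skew f (a t)
  · intro u
    exact adm_skew f (el u)
  · ext i j
    rw [Matrix.sum_apply, Matrix.smul_apply, smul_eq_mul, Matrix.one_apply]
    have h1 : ∀ u, (NN' el f u * (NN' el f u)ᵀ) i j = Qf L ⁅el u, f i⁆ ⁅el u, f j⁆ := by
      intro u
      rw [s.st.fp.parseval (s.st.lie_lp (s.mem_l u) (s.st.fp.mem i)), Matrix.mul_apply]
      rfl
    simp only [h1]
    rw [s.casL' (s.st.fp.mem i) (s.st.fp.mem j), s.st.fp.orth]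
  · intro u v
    rw [hμ', sub_sub_cancel]
  · intro u v
    have h1 : trace (SS' el u * (SS' el v)ᵀ) = ∑ w, Qf L ⁅el u, el w⁆ ⁅el v, el w⁆ := by
      unfold trace
      refine Finset.sum_congr rfl fun w _ => ?_
      rw [Matrix.diag_apply, s.st.fl.parseval (l.lie_mem (s.mem_l u) (s.mem_l w)),
        Matrix.mul_apply]
      rfl
    have h2 := s.st.full.killing (el u) (el v)
    rw [Fintype.sum_sum_type, Fintype.sum_sum_type] at h2
    simp only [Sum.elim_inl, Sum.elim_inr] at h2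
    have h3 : ∑ e, Qf L ⁅el u, ek e⁆ ⁅el v, ek e⁆ = 0 := by
      refine Finset.sum_eq_zero fun e _ => ?_
      rw [← lie_skew, s.st.pair.comm _ (s.st.fk.mem e) _ (s.mem_l u), neg_zero, map_zero,
        LinearMap.zero_apply]
    rw [h3, zero_add, ← htr, hμ', s.st.fl.orth, ← h1] at h2
    split_ifs at h2 ⊢ <;> linarith
  · intro X hX u
    exact s.cross hX u
  · intro X hXs hX
    exact s.homog hXs hX
  · have : 0 ≤ ∑ i, Qf L ⁅el u0, f i⁆ ⁅el u0, f i⁆ :=
      Finset.sum_nonneg fun i _ => Qf_nonneg s.H.compact _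
    linarith
  · have h1 := s.H.small np f s.st.fp (el u0) (s.mem_l u0)
    rw [s.st.fl.orth, if_pos rfl, ← h0] at h1
    linarith

end

end Pool.Agent.EinS
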