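import Pool.Agent.EinS.Eval

/-!
# Automorphisms
-/

namespace Pool.Agent.EinS

open Matrix Pool.Agent.EStab

variable {L : Type*} [LieRing L] [LieAlgebra ℝ L] {ι : Type*} [Fintype ι] [DecidableEq ι]

theorem Qf_equiv (δ : L ≃ₗ⁅ℝ⁆ L) (x y : L) : Qf L (δ x) (δ y) = Qf L x y := by
  rw [Qf_apply, Qf_apply, LieAlgebra.killingForm_of_equiv_apply]

theorem Qf_equiv' (δ : L ≃ₗ⁅ℝ⁆ L) (x y : L) : Qf L (δ x) y = Qf L x (δ.symm y) := by
  conv_lhs => rw [← δ.apply_symm_apply y]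
  exact Qf_equiv δ _ _

/-- `W` is preserved in both directions. -/
def Pres (δ : L ≃ₗ⁅ℝ⁆ L) (W : Submodule ℝ L) : Prop :=
  (∀ x ∈ W, δ x ∈ W) ∧ ∀ x ∈ W, δ.symm x ∈ W

theorem pres_of_map {δ : L ≃ₗ⁅ℝ⁆ L} {k : LieSubalgebra ℝ L}
    (h : k.map (δ : L →ₗ⁅ℝ⁆ L) = k) : Pres δ k.toSubmodule := by
  refine ⟨fun x hx => ?_, fun x hx => ?_⟩
  · have h1 : δ x ∈ k.map (δ : L →ₗ⁅ℝ⁆ L) := ⟨x, hx, rfl⟩
    rw [h] at h1
    exact h1
  · have h1 : x ∈ k.map (δ : L →ₗ⁅ℝ⁆ L) := by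
      rw [h]
      exact hx
    obtain ⟨y, hy, hyx⟩ := h1
    have h2 : δ y = x := hyx
    rw [← h2, LieEquiv.symm_apply_apply]
    exact hy

theorem Pres.perp {δ : L ≃ₗ⁅ℝ⁆ L} {W : Submodule ℝ L} (h : Pres δ W) : Pres δ (perp W) := by
  refine ⟨fun x hx y hy => ?_, fun x hx y hy => ?_⟩
  · rw [Qf_equiv']
    exact hx _ (h.2 y hy)
  · rw [Qf_symm, ← Qf_equiv', Qf_symm]
    exact hx _ (h.1 y hy)

theorem Pres.sup {δ : L ≃ₗ⁅ℝ⁆ L} {W V : Submodule ℝ L} (h : Pres δ W) (h' : Pres δ V) :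
    Pres δ (W ⊔ V) := by
  refine ⟨fun x hx => ?_, fun x hx => ?_⟩
  · obtain ⟨u, hu, v, hv, rfl⟩ := Submodule.mem_sup.1 hx
    rw [map_add]
    exact Submodule.add_mem_sup (h.1 u hu) (h'.1 v hv)
  · obtain ⟨u, hu, v, hv, rfl⟩ := Submodule.mem_sup.1 hx
    rw [map_add]
    exact Submodule.add_mem_sup (h.2 u hu) (h'.2 v hv)

theorem Pres.inf {δ : L ≃ₗ⁅ℝ⁆ L} {W V : Submodule ℝ L} (h : Pres δ W) (h' : Pres δ V) :
    Pres δ (W ⊓ V) :=
  ⟨fun x hx => ⟨h.1 x hx.1, h'.1 x hx.2⟩, fun x hx => ⟨h.2 x hx.1, h'.2 x hx.2⟩⟩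

/-- The matrix of an automorphism. -/
noncomputable def mat (δ : L ≃ₗ⁅ℝ⁆ L) (e : ι → L) : Matrix ι ι ℝ :=
  of fun j i => Qf L (δ (e i)) (e j)

theorem apply_frame {δ : L ≃ₗ⁅ℝ⁆ L} {W : Submodule ℝ L} {e : ι → L} (he : IsFrame W e)
    (hW : Pres δ W) (i : ι) : δ (e i) = ∑ j, mat δ e j i • e j :=
  he.exp _ (hW.1 _ (he.mem i))

theorem symm_apply_frame {δ : L ≃ₗ⁅ℝ⁆ L} {W : Submodule ℝ L} {e : ι → L} (he : IsFrame W e)
    (hW : Pres δ W) (j : ι) : δ.symm (e j) = ∑ i, mat δ e j i • e i := by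
  rw [he.exp _ (hW.2 _ (he.mem j))]
  refine Finset.sum_congr rfl fun i _ => ?_
  congr 1
  rw [Qf_symm, ← Qf_equiv']
  rfl

theorem mat_orth {δ : L ≃ₗ⁅ℝ⁆ L} {W : Submodule ℝ L} {e : ι → L} (he : IsFrame W e)
    (hW : Pres δ W) : mat δ e * (mat δ e)ᵀ = 1 := by
  rw [mul_eq_one_comm]
  ext i j
  rw [Matrix.mul_apply, Matrix.one_apply]
  have h1 := he.parseval (hW.1 _ (he.mem i)) (δ (e j))
  rw [Qf_equiv, he.orth] at h1
  rw [h1]
  rfl

theorem co_equiv {δ : L ≃ₗ⁅ℝ⁆ L} {W : Submodule ℝ L} {e : ι → L} (he : IsFrame W e)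
    (hW : Pres δ W) (x : L) : co e (δ x) = mat δ e *ᵥ co e x := by
  funext j
  rw [co_apply, Qf_equiv', symm_apply_frame he hW, Qf_sum']
  rfl

/-- The matrix of `ad x` compressed to a frame. -/
noncomputable def adm (e : ι → L) (x : L) : Matrix ι ι ℝ := of fun i j => Qf L ⁅x, e i⁆ (e j)

theorem adm_equiv {δ : L ≃ₗ⁅ℝ⁆ L} {W : Submodule ℝ L} {e : ι → L} (he : IsFrame W e)
    (hW : Pres δ W) (x : L) : mat δ e * adm e x * (mat δ e)ᵀ = adm e (δ x) := by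
  ext j j'
  have h1 : adm e (δ x) j j' = Qf L ⁅x, δ.symm (e j)⁆ (δ.symm (e j')) := by
    change Qf L ⁅δ x, e j⁆ (e j') = _
    conv_lhs => rw [← δ.apply_symm_apply (e j), ← LieEquiv.map_lie]
    rw [Qf_equiv']
  rw [h1, symm_apply_frame he hW j', Qf_sum', Matrix.mul_apply]
  refine Finset.sum_congr rfl fun i' _ => ?_
  rw [mul_comm, Matrix.transpose_apply, symm_apply_frame he hW j, Matrix.mul_apply, lie_sum,
    map_sum, LinearMap.sum_apply]
  congr 1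
  refine Finset.sum_congr rfl fun i _ => ?_
  rw [lie_smul, map_smul, LinearMap.smul_apply, smul_eq_mul]
  rfl

theorem adm_sum {κ : Type*} [Fintype κ] (e : ι → L) (c : κ → ℝ) (x : κ → L) :
    adm e (∑ s, c s • x s) = ∑ s, c s • adm e (x s) := by
  ext i j
  rw [Matrix.sum_apply]
  change Qf L ⁅∑ s, c s • x s, e i⁆ (e j) = _
  rw [sum_lie, map_sum, LinearMap.sum_apply]
  refine Finset.sum_congr rfl fun s _ => ?_
  rw [smul_lie, map_smul, LinearMap.smul_apply, smul_eq_mul, Matrix.smul_apply, smul_eq_mul]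
  rfl

section

variable {k l h : LieSubalgebra ℝ L} {nk nl nq np : ℕ} {ek : Fin nk → L} {el : Fin nl → L}
  {a : Fin nq → L} {f : Fin np → L}

theorem Setup.sym (st : Setup k l h ek el a f) {δ : L ≃ₗ⁅ℝ⁆ L} (hk : Pres δ k.toSubmodule)
    (hl : Pres δ l.toSubmodule) (hh : Pres δ h.toSubmodule) :
    Sym (NN' a f) (SS' a) (mat δ a) (mat δ f) := by
  have hq : Pres δ (k.toSubmodule ⊓ EinS.perp h.toSubmodule) := hk.inf hh.perp
  have hp : Pres δ (EinS.perp (k.toSubmodule ⊔ l.toSubmodule)) := (hk.sup hl).perp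
  refine ⟨mat_orth st.fq hq, mat_orth st.fp hp, fun s => ?_, fun s => ?_⟩
  · change mat δ f * adm f (a s) * (mat δ f)ᵀ = _
    rw [adm_equiv st.fp hp, apply_frame st.fq hq, adm_sum]
    rfl
  · change mat δ a * adm a (a s) * (mat δ a)ᵀ = _
    rw [adm_equiv st.fq hq, apply_frame st.fq hq, adm_sum]
    rfl

theorem Setup.mat_em (st : Setup k l h ek el a f) {δ : L ≃ₗ⁅ℝ⁆ L}
    (hk : Pres δ k.toSubmodule)
    (hl : Pres δ l.toSubmodule) (hh : Pres δ h.toSubmodule) :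
    mat δ (em a f) = fromBlocks (mat δ a) 0 0 (mat δ f) := by
  have hq : Pres δ (k.toSubmodule ⊓ EinS.perp h.toSubmodule) := hk.inf hh.perp
  have hp : Pres δ (EinS.perp (k.toSubmodule ⊔ l.toSubmodule)) := (hk.sup hl).perp
  ext x y
  rcases x with s | i <;> rcases y with t | j
  · rfl
  · change Qf L (δ (f j)) (a s) = 0
    rw [Qf_symm]
    exact st.orth_kp (st.mem_k s) (hp.1 _ (st.fp.mem j))
  · change Qf L (δ (a t)) (f i) = 0
    exact st.orth_kp (hk.1 _ (st.mem_k t)) (st.fp.mem i)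
  · rfl

theorem Setup.m_eq (st : Setup k l h ek el a f) :
    (k.toSubmodule ⊓ perp h.toSubmodule) ⊔ perp (k.toSubmodule ⊔ l.toSubmodule) =
      perp (h.toSubmodule ⊔ l.toSubmodule) := by
  apply le_antisymm
  · refine sup_le ?_ ?_
    · rintro x ⟨hx, hx'⟩ y hy
      obtain ⟨u, hu, v, hv, rfl⟩ := Submodule.mem_sup.1 hy
      rw [map_add, hx' u hu, st.orth_kl hx hv, add_zero]
    · intro x hx y hy
      obtain ⟨u, hu, v, hv, rfl⟩ := Submodule.mem_sup.1 hy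
      exact hx _ (Submodule.add_mem_sup (st.le hu) hv)
  · intro x hx
    have h1 := st.fk.sub_mem_perp x
    have h0 : ∑ i, Qf L x (ek i) • ek i ∈ k.toSubmodule := frame_mem st.fk _
    set y := ∑ i, Qf L x (ek i) • ek i with hy
    have hxy : x = y + (x - y) := by abel
    have h5 : ∀ z, Qf L (x - y) z = Qf L x z - Qf L y z := by
      intro z
      rw [map_sub, LinearMap.sub_apply]
    rw [hxy]
    refine Submodule.add_mem_sup ⟨h0, fun z hz => ?_⟩ fun z hz => ?_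
    · have h2 := hx z (Submodule.mem_sup_left hz)
      have h3 := h1 z (st.le hz)
      rw [h5] at h3
      linarith
    · obtain ⟨u, hu, v, hv, rfl⟩ := Submodule.mem_sup.1 hz
      have h2 := hx v (Submodule.mem_sup_right hv)
      have h3 := h1 u hu
      rw [map_add, h3, h5, h2, st.orth_kl h0 hv]
      norm_num

theorem Setup.fm (st : Setup k l h ek el a f) :
    IsFrame (perp (h.toSubmodule ⊔ l.toSubmodule)) (em a f) := by
  rw [← st.m_eq]
  exact st.fq.sum st.fp fun x hx y hy => st.orth_kp hx.1 hy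

theorem Setup.CF_eq (st : Setup k l h ek el a f) : CF (em a f) = CC (NN' a f) (SS' a) := by
  funext x
  ext y z
  exact st.structure x y z

end

end Pool.Agent.EinS
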