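import Pool.Agent.EinS.Inv

/-!
# The general theorem
-/

namespace Pool.Agent.EinS

open Matrix Pool.Agent.EStab

variable {L : Type*} [LieRing L] [LieAlgebra ℝ L]

theorem exists_orthonormal {ι : Type*} [Fintype ι] [DecidableEq ι] {G : Matrix ι ι ℝ}
    (hG : G.IsSymm) (h0 : ∀ x : ι → ℝ, 0 ≤ x ⬝ᵥ (G *ᵥ x)) (hd : G.det ≠ 0) :
    ∃ E : Matrix ι ι ℝ, Eᵀ * G * E = 1 := by
  obtain ⟨Y, hY⟩ := exists_factor hG h0
  have hYd : Y.det ≠ 0 := by
    intro h
    apply hd
    rw [hY, Matrix.det_mul, h, mul_zero]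
  have h1 : Y * Y⁻¹ = 1 := Matrix.mul_nonsing_inv _ (isUnit_iff_ne_zero.2 hYd)
  refine ⟨Y⁻¹, ?_⟩
  calc (Y⁻¹)ᵀ * G * Y⁻¹ = (Y * Y⁻¹)ᵀ * (Y * Y⁻¹) := by
        rw [hY, Matrix.transpose_mul]
        simp only [Matrix.mul_assoc]
    _ = 1 := by rw [h1, Matrix.transpose_one, Matrix.one_mul]

theorem fromBlocks_quad {q p : Type*} [Fintype q] [Fintype p] (A : Matrix q q ℝ)
    (B : Matrix p p ℝ) (x : q ⊕ p → ℝ) :
    x ⬝ᵥ (fromBlocks A 0 0 B *ᵥ x) =
      (x ∘ Sum.inl) ⬝ᵥ (A *ᵥ (x ∘ Sum.inl)) + (x ∘ Sum.inr) ⬝ᵥ (B *ᵥ (x ∘ Sum.inr)) := by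
  rw [Matrix.fromBlocks_mulVec, Matrix.zero_mulVec, Matrix.zero_mulVec, add_zero, zero_add]
  unfold dotProduct
  rw [Fintype.sum_sum_type]
  rfl

theorem einstein_pair [Module.Finite ℝ L] (hg : CompactSemisimple L) {k l : LieSubalgebra ℝ L}
    (hs : SymPair k l) (hc : CasimirLE k l (1 / 20) (1 / 40)) {h : LieSubalgebra ℝ L}
    (hk : h ≤ k) :
    HasEinsteinMetric L (h.toSubmodule ⊔ l.toSubmodule) (pairAuts k l h) := by
  classical
  obtain ⟨nk, nl, nq, np, ek, el, a, f, st⟩ := exists_setup hg hs hc hk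
  obtain ⟨B, P, hB, hP, hinv, e1, e2⟩ := exists_fixed st.small
  have hPd : P.det ≠ 0 := hP.det_ne (by norm_num)
  have hBd : B.det ≠ 0 := hB.det_ne (by norm_num)
  have hPi := hP.inv (by norm_num) (by norm_num)
  set G : Matrix (Fin nq ⊕ Fin np) (Fin nq ⊕ Fin np) ℝ := fromBlocks P⁻¹ 0 0 B with hG
  set Gi : Matrix (Fin nq ⊕ Fin np) (Fin nq ⊕ Fin np) ℝ := fromBlocks P 0 0 B⁻¹ with hGi
  have hGs : G.IsSymm := by
    rw [hG, Matrix.IsSymm, Matrix.fromBlocks_transpose, hPi.symm.eq, hB.symm.eq,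
      Matrix.transpose_zero, Matrix.transpose_zero]
  have hGG : G * Gi = 1 := by
    rw [hG, hGi, Matrix.fromBlocks_multiply, Matrix.nonsing_inv_mul _ (isUnit_iff_ne_zero.2 hPd),
      Matrix.mul_nonsing_inv _ (isUnit_iff_ne_zero.2 hBd)]
    simp only [Matrix.mul_zero, Matrix.zero_mul, add_zero, zero_add]
    exact Matrix.fromBlocks_one
  have hGd : G.det ≠ 0 := by
    intro h0
    have h1 := congrArg Matrix.det hGG
    rw [Matrix.det_mul, h0, zero_mul, Matrix.det_one] at h1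
    exact one_ne_zero h1.symm
  have hG0 : ∀ x, 0 ≤ x ⬝ᵥ (G *ᵥ x) := by
    intro x
    rw [hG, fromBlocks_quad]
    have h1 := hPi.lo (x ∘ Sum.inl)
    have h2 := hB.lo (x ∘ Sum.inr)
    have h3 := dot_self_nonneg (x ∘ Sum.inl)
    have h4 := dot_self_nonneg (x ∘ Sum.inr)
    have h5 : (0 : ℝ) ≤ 1 / (69 / 100) * ((x ∘ Sum.inl) ⬝ᵥ (x ∘ Sum.inl)) := by positivity
    have h6 : (0 : ℝ) ≤ 9107 / 10000 * ((x ∘ Sum.inr) ⬝ᵥ (x ∘ Sum.inr)) := by positivity
    linarith
  obtain ⟨E, hE⟩ := exists_orthonormal hGs hG0 hGd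
  have hEd : E.det ≠ 0 := by
    intro h0
    have h1 := congrArg Matrix.det hE
    rw [Matrix.det_mul, h0, mul_zero, Matrix.det_one] at h1
    exact one_ne_zero h1.symm
  have hEE : E * E⁻¹ = 1 := Matrix.mul_nonsing_inv _ (isUnit_iff_ne_zero.2 hEd)
  set e := em a f with he
  have hfm : IsFrame (perp (h.toSubmodule ⊔ l.toSubmodule)) e := st.fm
  set W := h.toSubmodule ⊔ l.toSubmodule with hW
  refine ⟨perp W, prj e, bet e G, nq + np, fun i => XE e E (finSumFinEquiv.symm i), 1 / 2,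
    ?_, ?_, ?_, ?_, ?_, ?_, ?_, ?_, ?_, ?_, ?_⟩
  · -- complement
    obtain ⟨n, w, hw⟩ := exists_frame hg W
    constructor
    · rw [Submodule.disjoint_def]
      intro x hx hx'
      exact Qf_eq_zero hg (hx' x hx)
    · rw [codisjoint_iff, eq_top_iff]
      intro x _
      have h3 : x = (∑ i, Qf L x (w i) • w i) + (x - ∑ i, Qf L x (w i) • w i) := by abel
      rw [h3]
      exact Submodule.add_mem_sup (frame_mem hw _) (hw.sub_mem_perp x)
  · intro y hy
    rw [prj_apply]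
    refine Finset.sum_eq_zero fun x _ => ?_
    rw [Qf_symm, hfm.mem x y hy, zero_smul]
  · intro x hx
    exact (hfm.exp x hx).symm
  · intro y hy x hx z hz
    obtain ⟨u, hu, v, hv, rfl⟩ := Submodule.mem_sup.1 hy
    obtain ⟨u', hu', v', hv', rfl⟩ := Submodule.mem_sup.1 hz
    have h1 : ⁅u, v'⁆ = 0 := hs.comm u (hk hu) v' hv'
    have h2 : ⁅v, u'⁆ = 0 := by
      rw [← lie_skew, hs.comm u' (hk hu') v hv, neg_zero]
    rw [Qf_lie', add_lie, lie_add, lie_add, h1, h2, add_zero, zero_add,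
      hx _ (Submodule.add_mem_sup (h.lie_mem hu hu') (l.lie_mem hv hv')), neg_zero]
  · rintro γ ⟨δ, h1, h2, h3, hγ⟩ x hx
    rw [hγ]
    exact ((pres_of_map h3).sup (pres_of_map h2)).perp.1 x hx
  · rintro γ ⟨δ, h1, h2, h3, hγ⟩ x hx y hy
    have hWp : Pres δ (perp W) := ((pres_of_map h3).sup (pres_of_map h2)).perp
    rw [hγ, hγ, bet_apply, bet_apply, co_equiv hfm hWp, co_equiv hfm hWp]
    have hsym := st.sym (pres_of_map h1) (pres_of_map h2) (pres_of_map h3)
    obtain ⟨i1, i2⟩ := hinv _ _ hsym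
    have i3 := conj_inv hsym.u1 i2
    have hM := mat_orth hfm hWp
    have hM' : (mat δ e)ᵀ * mat δ e = 1 := mul_eq_one_comm.1 hM
    have hMG : mat δ e * G * (mat δ e)ᵀ = G := by
      rw [he, st.mat_em (pres_of_map h1) (pres_of_map h2) (pres_of_map h3), hG,
        Matrix.fromBlocks_transpose, Matrix.fromBlocks_multiply, Matrix.fromBlocks_multiply]
      simp only [Matrix.mul_zero, Matrix.zero_mul, add_zero, zero_add, Matrix.transpose_zero]
      rw [i1, i3]
    have hMG' : (mat δ e)ᵀ * (G * mat δ e) = G := by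
      calc (mat δ e)ᵀ * (G * mat δ e)
          = (mat δ e)ᵀ * (mat δ e * G * (mat δ e)ᵀ * mat δ e) := by rw [hMG]
        _ = ((mat δ e)ᵀ * mat δ e) * G * ((mat δ e)ᵀ * mat δ e) := by
            simp only [Matrix.mul_assoc]
        _ = G := by rw [hM', Matrix.one_mul, Matrix.mul_one]
    have h5 : ∀ c d : Fin nq ⊕ Fin np → ℝ, (mat δ e *ᵥ c) ⬝ᵥ (G *ᵥ (mat δ e *ᵥ d)) =
        c ⬝ᵥ (G *ᵥ d) := by
      intro c d
      rw [Matrix.mulVec_mulVec]
      have h6 : (mat δ e *ᵥ c) ⬝ᵥ ((G * mat δ e) *ᵥ d) =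
          c ⬝ᵥ ((mat δ e)ᵀ *ᵥ ((G * mat δ e) *ᵥ d)) := by
        rw [Matrix.dotProduct_mulVec c, ← Matrix.mulVec_transpose, Matrix.transpose_transpose]
      rw [h6, Matrix.mulVec_mulVec, hMG']
    exact h5 _ _
  · intro x y
    exact bet_symm e hGs x y
  · apply le_antisymm
    · rw [Submodule.span_le]
      rintro x ⟨i, rfl⟩
      exact Submodule.sum_mem _ fun y _ => Submodule.smul_mem _ _ (hfm.mem y)
    · intro x hx
      rw [hfm.exp x hx]
      refine Submodule.sum_mem _ fun y _ => Submodule.smul_mem _ _ ?_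
      have h1 : e y = ∑ i, E⁻¹ i y • XE e E i := by
        have h2 : ∀ i, XE e E i = ∑ z, E z i • e z := fun i => rfl
        simp only [h2, Finset.smul_sum, smul_smul]
        rw [Finset.sum_comm]
        have h3 : ∀ z, ∑ i, (E⁻¹ i y * E z i) • e z = (E * E⁻¹) z y • e z := by
          intro z
          rw [← Finset.sum_smul, Matrix.mul_apply]
          congr 1
          refine Finset.sum_congr rfl fun i _ => ?_
          rw [mul_comm]
        simp only [h3, hEE, Matrix.one_apply, ite_smul, one_smul, zero_smul]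
        simp
      rw [h1]
      refine Submodule.sum_mem _ fun i _ => Submodule.smul_mem _ _ (Submodule.subset_span ?_)
      exact ⟨finSumFinEquiv i, by simp⟩
  · intro i j
    have hX : ∀ i, co e (XE e E i) = fun z => E z i := fun i => co_comb hfm fun z => E z i
    have h1 : ∀ i j, bet e G (XE e E i) (XE e E j) = (Eᵀ * G * E) i j := by
      intro i j
      rw [bet_apply, hX, hX, Matrix.mul_assoc, Matrix.mul_apply]
      unfold dotProduct
      refine Finset.sum_congr rfl fun z _ => ?_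
      rw [Matrix.transpose_apply, Matrix.mul_apply]
      rfl
    rw [h1, hE, Matrix.one_apply]
    simp only [EmbeddingLike.apply_eq_iff_eq]
  · norm_num
  · intro x hx
    rw [ricci_eval finSumFinEquiv.symm hfm hE hGs hGG hx, he, st.CF_eq,
      RicM_eq (by norm_num) (by norm_num) (by norm_num) (by norm_num) hB hP e1 e2,
      Matrix.smul_mulVec, dotProduct_smul, smul_eq_mul, ← hG, bet_apply]

end Pool.Agent.EinS
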