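import Pool.Agent.EinS.Frame
import Pool.Agent.EinS.Defs
import Pool.Agent.EinS.Ric

/-!
# Structure constants of a symmetric pair
-/

namespace Pool.Agent.EinS

open Matrix Pool.Agent.EStab

variable {L : Type*} [LieRing L] [LieAlgebra ℝ L]

theorem orth_iff {k l : LieSubalgebra ℝ L} {x : L} :
    Orth k l x ↔ x ∈ perp (k.toSubmodule ⊔ l.toSubmodule) := by
  constructor
  · intro h y hy
    obtain ⟨u, hu, v, hv, rfl⟩ := Submodule.mem_sup.1 hy
    have h1 := h.1 u hu
    have h2 := h.2 v hv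
    rw [map_add, Qf_apply, Qf_apply, h1, h2]
    norm_num
  · intro h
    refine ⟨fun y hy => ?_, fun y hy => ?_⟩
    · have := h y (Submodule.mem_sup_left hy)
      rw [Qf_apply] at this
      linarith
    · have := h y (Submodule.mem_sup_right hy)
      rw [Qf_apply] at this
      linarith

/-- The data: frames of `k`, `l`, `q = k ∩ h^⊥` and `p`. -/
structure Setup (k l h : LieSubalgebra ℝ L) {nk nl nq np : ℕ} (ek : Fin nk → L) (el : Fin nl → L)
    (a : Fin nq → L) (f : Fin np → L) : Prop where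
  compact : CompactSemisimple L
  pair : SymPair k l
  cas : CasimirLE k l (1 / 20) (1 / 40)
  le : h ≤ k
  fk : IsFrame k.toSubmodule ek
  fl : IsFrame l.toSubmodule el
  fq : IsFrame (k.toSubmodule ⊓ perp h.toSubmodule) a
  fp : IsFrame (perp (k.toSubmodule ⊔ l.toSubmodule)) f

theorem exists_setup [Module.Finite ℝ L] (hg : CompactSemisimple L) {k l : LieSubalgebra ℝ L}
    (hs : SymPair k l) (hc : CasimirLE k l (1 / 20) (1 / 40)) {h : LieSubalgebra ℝ L}
    (hk : h ≤ k) :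
    ∃ (nk nl nq np : ℕ) (ek : Fin nk → L) (el : Fin nl → L) (a : Fin nq → L) (f : Fin np → L),
      Setup k l h ek el a f := by
  obtain ⟨nk, ek, h1⟩ := exists_frame hg k.toSubmodule
  obtain ⟨nl, el, h2⟩ := exists_frame hg l.toSubmodule
  obtain ⟨nq, a, h3⟩ := exists_frame hg (k.toSubmodule ⊓ perp h.toSubmodule)
  obtain ⟨np, f, h4⟩ := exists_frame hg (perp (k.toSubmodule ⊔ l.toSubmodule))
  exact ⟨nk, nl, nq, np, ek, el, a, f, hg, hs, hc, hk, h1, h2, h3, h4⟩

/-- The structure constants of `q` acting on `p`. -/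
noncomputable def NN' {nq np : ℕ} (a : Fin nq → L) (f : Fin np → L) :
    Fin nq → Matrix (Fin np) (Fin np) ℝ := fun s => of fun i j => Qf L ⁅a s, f i⁆ (f j)

/-- The structure constants of `q`. -/
noncomputable def SS' {nq : ℕ} (a : Fin nq → L) : Fin nq → Matrix (Fin nq) (Fin nq) ℝ :=
  fun s => of fun t r => Qf L ⁅a s, a t⁆ (a r)

theorem trace_mul_transpose' {m n : Type*} [Fintype m] [Fintype n] (M : Matrix m n ℝ) :
    trace (M * Mᵀ) = ∑ i, ∑ j, M i j ^ 2 := by
  unfold trace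
  refine Finset.sum_congr rfl fun i _ => ?_
  rw [Matrix.diag_apply, Matrix.mul_apply]
  refine Finset.sum_congr rfl fun j _ => ?_
  rw [Matrix.transpose_apply, sq]

section

variable {k l h : LieSubalgebra ℝ L} {nk nl nq np : ℕ} {ek : Fin nk → L} {el : Fin nl → L}
  {a : Fin nq → L} {f : Fin np → L}

theorem Setup.orth_kl (st : Setup k l h ek el a f) {x y : L} (hx : x ∈ k) (hy : y ∈ l) :
    Qf L x y = 0 := by
  rw [Qf_apply, st.pair.orth x hx y hy, neg_zero]

theorem Setup.orth_kp (_st : Setup k l h ek el a f) {x y : L} (hx : x ∈ k)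
    (hy : y ∈ perp (k.toSubmodule ⊔ l.toSubmodule)) : Qf L x y = 0 := by
  rw [Qf_symm]
  exact hy x (Submodule.mem_sup_left hx)

theorem Setup.lie_kp (st : Setup k l h ek el a f) {x y : L} (hx : x ∈ k)
    (hy : y ∈ perp (k.toSubmodule ⊔ l.toSubmodule)) :
    ⁅x, y⁆ ∈ perp (k.toSubmodule ⊔ l.toSubmodule) := by
  intro z hz
  obtain ⟨u, hu, v, hv, rfl⟩ := Submodule.mem_sup.1 hz
  rw [Qf_lie', lie_add, st.pair.comm x hx v hv, add_zero, hy _ (Submodule.mem_sup_left ?_),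
    neg_zero]
  exact k.lie_mem hx hu

theorem Setup.lie_lp (st : Setup k l h ek el a f) {x y : L} (hx : x ∈ l)
    (hy : y ∈ perp (k.toSubmodule ⊔ l.toSubmodule)) :
    ⁅x, y⁆ ∈ perp (k.toSubmodule ⊔ l.toSubmodule) := by
  intro z hz
  obtain ⟨u, hu, v, hv, rfl⟩ := Submodule.mem_sup.1 hz
  have h0 : ⁅x, u⁆ = 0 := by
    rw [← lie_skew, st.pair.comm u hu x hx, neg_zero]
  rw [Qf_lie', lie_add, h0, zero_add, hy _ (Submodule.mem_sup_right ?_), neg_zero]
  exact l.lie_mem hx hv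

theorem Setup.mem_k (st : Setup k l h ek el a f) (s : Fin nq) : a s ∈ k := (st.fq.mem s).1

theorem Setup.full (st : Setup k l h ek el a f) :
    IsFrame (⊤ : Submodule ℝ L) (Sum.elim (Sum.elim ek el) f) :=
  (st.fk.sum st.fl fun _ hx _ hy => st.orth_kl hx hy).full st.fp

/-- The Killing form on `k`. -/
theorem Setup.split (st : Setup k l h ek el a f) {x : L} (hx : x ∈ k) :
    Qf L x x = ∑ e, Qf L ⁅x, ek e⁆ ⁅x, ek e⁆ + ∑ i, Qf L ⁅x, f i⁆ ⁅x, f i⁆ := by
  rw [st.full.killing x x, Fintype.sum_sum_type, Fintype.sum_sum_type]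
  simp only [Sum.elim_inl, Sum.elim_inr]
  have h1 : ∑ e, Qf L ⁅x, el e⁆ ⁅x, el e⁆ = 0 := by
    refine Finset.sum_eq_zero fun e _ => ?_
    rw [st.pair.comm x hx _ (st.fl.mem e), map_zero]
  rw [h1, add_zero]

theorem Setup.rw_eq (a : Fin nq → L) (f : Fin np → L) (y : Fin np → ℝ) (s : Fin nq)
    (j : Fin np) : rw' (NN' a f) y s j = Qf L ⁅a s, ∑ i, y i • f i⁆ (f j) := by
  unfold rw' NN'
  rw [Matrix.of_apply]
  unfold mulVec dotProduct
  rw [lie_sum, map_sum, LinearMap.sum_apply]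
  refine Finset.sum_congr rfl fun i _ => ?_
  rw [lie_smul, map_smul, LinearMap.smul_apply, smul_eq_mul, mul_comm]
  rfl

theorem Setup.lcN_eq (a : Fin nq → L) (f : Fin np → L) (x : Fin nq → ℝ) (i j : Fin np) :
    lc (NN' a f) x i j = Qf L ⁅∑ s, x s • a s, f i⁆ (f j) := by
  unfold lc NN'
  rw [Matrix.sum_apply, sum_lie, map_sum, LinearMap.sum_apply]
  refine Finset.sum_congr rfl fun s _ => ?_
  rw [smul_lie, map_smul, LinearMap.smul_apply, smul_eq_mul, Matrix.smul_apply, smul_eq_mul]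
  rfl

theorem Setup.lcS_eq (a : Fin nq → L) (x : Fin nq → ℝ) (t r : Fin nq) :
    lc (SS' a) x t r = Qf L ⁅∑ s, x s • a s, a t⁆ (a r) := by
  unfold lc SS'
  rw [Matrix.sum_apply, sum_lie, map_sum, LinearMap.sum_apply]
  refine Finset.sum_congr rfl fun s _ => ?_
  rw [smul_lie, map_smul, LinearMap.smul_apply, smul_eq_mul, Matrix.smul_apply, smul_eq_mul]
  rfl

theorem frame_norm {n : ℕ} {W : Submodule ℝ L} {e : Fin n → L} (he : IsFrame W e)
    (x : Fin n → ℝ) : Qf L (∑ s, x s • e s) (∑ s, x s • e s) = x ⬝ᵥ x := by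
  rw [Qf_sum]
  unfold dotProduct
  refine Finset.sum_congr rfl fun s _ => ?_
  rw [Qf_symm, he.coord]

theorem frame_mem {n : ℕ} {W : Submodule ℝ L} {e : Fin n → L} (he : IsFrame W e)
    (x : Fin n → ℝ) : ∑ s, x s • e s ∈ W := Submodule.sum_mem _ fun i _ => W.smul_mem _ (he.mem i)

theorem Setup.trN (st : Setup k l h ek el a f) (x : Fin nq → ℝ) :
    trace (lc (NN' a f) x * (lc (NN' a f) x)ᵀ) =
      ∑ i, Qf L ⁅∑ s, x s • a s, f i⁆ ⁅∑ s, x s • a s, f i⁆ := by
  rw [trace_mul_transpose']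
  refine Finset.sum_congr rfl fun i _ => ?_
  rw [st.fp.parseval (st.lie_kp (frame_mem st.fq x).1 (st.fp.mem i))]
  refine Finset.sum_congr rfl fun j _ => ?_
  rw [Setup.lcN_eq, sq]

theorem Setup.small (st : Setup k l h ek el a f) : Small (NN' a f) (SS' a) := by
  refine ⟨?_, ?_, ?_, ?_⟩
  · intro y
    set Y := ∑ i, y i • f i with hY
    have hYm : Y ∈ perp (k.toSubmodule ⊔ l.toSubmodule) := frame_mem st.fp y
    rw [trace_mul_transpose', ← frame_norm st.fp y]
    have h1 : ∀ s, ∑ j, rw' (NN' a f) y s j ^ 2 = Qf L ⁅a s, Y⁆ ⁅a s, Y⁆ := by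
      intro s
      rw [st.fp.parseval (st.lie_kp (st.mem_k s) hYm)]
      refine Finset.sum_congr rfl fun j _ => ?_
      rw [Setup.rw_eq, ← hY, sq]
    simp only [h1]
    have h2 := (st.cas nq a st.mem_k (fun i j => by
      have := st.fq.orth i j
      rw [Qf_apply] at this
      split_ifs at this ⊢ <;> linarith)).2 Y (orth_iff.2 hYm)
    exact h2
  · intro x
    rw [st.trN x, ← frame_norm st.fq x, st.split (frame_mem st.fq x).1]
    have : 0 ≤ ∑ e, Qf L ⁅∑ s, x s • a s, ek e⁆ ⁅∑ s, x s • a s, ek e⁆ :=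
      Finset.sum_nonneg fun e _ => Qf_nonneg st.compact _
    linarith
  · intro x
    rw [st.trN x, ← frame_norm st.fq x]
    set X := ∑ s, x s • a s with hX
    have h1 := st.split (frame_mem st.fq x).1
    have h2 := (st.cas nk ek st.fk.mem (fun i j => by
      have := st.fk.orth i j
      rw [Qf_apply] at this
      split_ifs at this ⊢ <;> linarith)).1 X (frame_mem st.fq x).1
    have h3 : ∑ i, -killingForm ℝ L ⁅ek i, X⁆ ⁅ek i, X⁆ = ∑ e, Qf L ⁅X, ek e⁆ ⁅X, ek e⁆ := by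
      refine Finset.sum_congr rfl fun e _ => ?_
      rw [← lie_skew X (ek e)]
      simp only [map_neg, LinearMap.neg_apply, neg_neg]
      rfl
    rw [h3] at h2
    change _ ≤ 1 / 20 * Qf L X X at h2
    rw [← hX] at h1
    linarith
  · intro x
    rw [st.trN x, ← frame_norm st.fq x]
    set X := ∑ s, x s • a s with hX
    have hXk : X ∈ k := (frame_mem st.fq x).1
    have h1 := st.split hXk
    have h2 : trace (lc (SS' a) x * (lc (SS' a) x)ᵀ) ≤ ∑ s, Qf L ⁅X, a s⁆ ⁅X, a s⁆ := by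
      rw [trace_mul_transpose']
      refine Finset.sum_le_sum fun s _ => ?_
      have h3 := st.fq.bessel st.compact ⁅X, a s⁆
      refine le_trans (le_of_eq ?_) h3
      refine Finset.sum_congr rfl fun r _ => ?_
      rw [Setup.lcS_eq, ← hX]
    have h4 : ∑ s, Qf L ⁅X, a s⁆ ⁅X, a s⁆ ≤ ∑ e, Qf L ⁅X, ek e⁆ ⁅X, ek e⁆ := by
      have h5 : ∀ s, Qf L ⁅X, a s⁆ ⁅X, a s⁆ = ∑ e, Qf L ⁅X, ek e⁆ (a s) ^ 2 := by
        intro s
        rw [st.fk.parseval (k.lie_mem hXk (st.mem_k s))]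
        refine Finset.sum_congr rfl fun e _ => ?_
        rw [Qf_lie', Qf_symm (a s)]
        ring
      simp only [h5]
      rw [Finset.sum_comm]
      exact Finset.sum_le_sum fun e _ => st.fq.bessel st.compact _
    linarith

/-- The frame of the complement. -/
def em (a : Fin nq → L) (f : Fin np → L) : Fin nq ⊕ Fin np → L := Sum.elim a f

theorem Setup.structure (st : Setup k l h ek el a f) (x y z : Fin nq ⊕ Fin np) :
    Qf L ⁅em a f x, em a f y⁆ (em a f z) = CC (NN' a f) (SS' a) x y z := by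
  rcases x with s | i <;> rcases y with t | j <;> rcases z with r | m
  · rfl
  · change Qf L ⁅a s, a t⁆ (f m) = 0
    exact st.orth_kp (k.lie_mem (st.mem_k s) (st.mem_k t)) (st.fp.mem m)
  · change Qf L ⁅a s, f j⁆ (a r) = 0
    rw [Qf_symm]
    exact st.orth_kp (st.mem_k r) (st.lie_kp (st.mem_k s) (st.fp.mem j))
  · rfl
  · change Qf L ⁅f i, a t⁆ (a r) = 0
    rw [← lie_skew, map_neg, LinearMap.neg_apply, Qf_symm,
      st.orth_kp (st.mem_k r) (st.lie_kp (st.mem_k t) (st.fp.mem i)), neg_zero]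
  · change Qf L ⁅f i, a t⁆ (f m) = -Qf L ⁅a t, f i⁆ (f m)
    rw [← lie_skew, map_neg, LinearMap.neg_apply]
  · change Qf L ⁅f i, f j⁆ (a r) = Qf L ⁅a r, f i⁆ (f j)
    rw [Qf_symm, ← Qf_lie]
  · change Qf L ⁅f i, f j⁆ (f m) = 0
    rw [Qf_apply, st.pair.symm _ _ _ (orth_iff.2 (st.fp.mem i)) (orth_iff.2 (st.fp.mem j))
      (orth_iff.2 (st.fp.mem m)), neg_zero]

end

end Pool.Agent.EinS
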