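import Pool.Agent.EinS.Hyp2

/-!
# Einstein metrics on `G/H` near the bi-invariant metric
-/

namespace Pool.Agent.EinS

open Matrix Pool.Agent.EStab

variable {L : Type*} [LieRing L] [LieAlgebra ℝ L]

/-- The frame of the complement of `h`. -/
def em2 {nl nq np : ℕ} (a : Fin nq → L) (el : Fin nl → L) (f : Fin np → L) :
    (Fin nq ⊕ Fin nl) ⊕ Fin np → L := Sum.elim (Sum.elim a el) f

section

variable {k l h : LieSubalgebra ℝ L} {κ θ : ℝ} {nk nl nq np nh : ℕ} {ek : Fin nk → L}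
  {el : Fin nl → L} {a : Fin nq → L} {f : Fin np → L} {b : Fin nh → L}

theorem Setup2.orth_lp (_s : Setup2 k l h κ θ ek el a f b) {x y : L} (hx : x ∈ l)
    (hy : y ∈ pp k l) : Qf L x y = 0 := by
  rw [Qf_symm]
  exact hy x (Submodule.mem_sup_right hx)

theorem Setup2.CF_eq (s : Setup2 k l h κ θ ek el a f b) :
    CF (em2 a el f) = CC (hN (NN' a f) (NN' el f)) (hS (SS' a) (SS' el)) := by
  have hal : ∀ t u, ⁅a t, el u⁆ = 0 := fun t u => s.st.pair.comm _ (s.st.mem_k t) _ (s.mem_l u)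
  have hla : ∀ t u, ⁅el u, a t⁆ = 0 := fun t u => by rw [← lie_skew, hal, neg_zero]
  funext x
  ext y z
  change Qf L ⁅em2 a el f x, em2 a el f y⁆ (em2 a el f z) = _
  rcases x with (t | u) | i <;> rcases y with (t' | u') | j <;> rcases z with (t'' | u'') | r
  · rfl
  · change Qf L ⁅a t, a t'⁆ (el u'') = 0
    exact s.st.orth_kl (k.lie_mem (s.st.mem_k t) (s.st.mem_k t')) (s.mem_l u'')
  · change Qf L ⁅a t, a t'⁆ (f r) = 0
    exact s.st.orth_kp (k.lie_mem (s.st.mem_k t) (s.st.mem_k t')) (s.st.fp.mem r)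
  · change Qf L ⁅a t, el u'⁆ (a t'') = 0
    rw [hal, map_zero, LinearMap.zero_apply]
  · change Qf L ⁅a t, el u'⁆ (el u'') = 0
    rw [hal, map_zero, LinearMap.zero_apply]
  · change Qf L ⁅a t, el u'⁆ (f r) = 0
    rw [hal, map_zero, LinearMap.zero_apply]
  · change Qf L ⁅a t, f j⁆ (a t'') = 0
    rw [Qf_symm]
    exact s.st.orth_kp (s.st.mem_k t'') (s.st.lie_kp (s.st.mem_k t) (s.st.fp.mem j))
  · change Qf L ⁅a t, f j⁆ (el u'') = 0
    rw [Qf_symm]
    exact s.orth_lp (s.mem_l u'') (s.st.lie_kp (s.st.mem_k t) (s.st.fp.mem j))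
  · rfl
  · change Qf L ⁅el u, a t'⁆ (a t'') = 0
    rw [hla, map_zero, LinearMap.zero_apply]
  · change Qf L ⁅el u, a t'⁆ (el u'') = 0
    rw [hla, map_zero, LinearMap.zero_apply]
  · change Qf L ⁅el u, a t'⁆ (f r) = 0
    rw [hla, map_zero, LinearMap.zero_apply]
  · change Qf L ⁅el u, el u'⁆ (a t'') = 0
    rw [Qf_symm]
    exact s.st.orth_kl (s.st.mem_k t'') (l.lie_mem (s.mem_l u) (s.mem_l u'))
  · rfl
  · change Qf L ⁅el u, el u'⁆ (f r) = 0
    exact s.orth_lp (l.lie_mem (s.mem_l u) (s.mem_l u')) (s.st.fp.mem r)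
  · change Qf L ⁅el u, f j⁆ (a t'') = 0
    rw [Qf_symm]
    exact s.st.orth_kp (s.st.mem_k t'') (s.st.lie_lp (s.mem_l u) (s.st.fp.mem j))
  · change Qf L ⁅el u, f j⁆ (el u'') = 0
    rw [Qf_symm]
    exact s.orth_lp (s.mem_l u'') (s.st.lie_lp (s.mem_l u) (s.st.fp.mem j))
  · rfl
  · change Qf L ⁅f i, a t'⁆ (a t'') = 0
    rw [← lie_skew, map_neg, LinearMap.neg_apply, Qf_symm,
      s.st.orth_kp (s.st.mem_k t'') (s.st.lie_kp (s.st.mem_k t') (s.st.fp.mem i)), neg_zero]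
  · change Qf L ⁅f i, a t'⁆ (el u'') = 0
    rw [← lie_skew, map_neg, LinearMap.neg_apply, Qf_symm,
      s.orth_lp (s.mem_l u'') (s.st.lie_kp (s.st.mem_k t') (s.st.fp.mem i)), neg_zero]
  · change Qf L ⁅f i, a t'⁆ (f r) = -Qf L ⁅a t', f i⁆ (f r)
    rw [← lie_skew, map_neg, LinearMap.neg_apply]
  · change Qf L ⁅f i, el u'⁆ (a t'') = 0
    rw [← lie_skew, map_neg, LinearMap.neg_apply, Qf_symm,
      s.st.orth_kp (s.st.mem_k t'') (s.st.lie_lp (s.mem_l u') (s.st.fp.mem i)), neg_zero]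
  · change Qf L ⁅f i, el u'⁆ (el u'') = 0
    rw [← lie_skew, map_neg, LinearMap.neg_apply, Qf_symm,
      s.orth_lp (s.mem_l u'') (s.st.lie_lp (s.mem_l u') (s.st.fp.mem i)), neg_zero]
  · change Qf L ⁅f i, el u'⁆ (f r) = -Qf L ⁅el u', f i⁆ (f r)
    rw [← lie_skew, map_neg, LinearMap.neg_apply]
  · change Qf L ⁅f i, f j⁆ (a t'') = Qf L ⁅a t'', f i⁆ (f j)
    rw [Qf_symm, ← Qf_lie]
  · change Qf L ⁅f i, f j⁆ (el u'') = Qf L ⁅el u'', f i⁆ (f j)
    rw [Qf_symm, ← Qf_lie]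
  · change Qf L ⁅f i, f j⁆ (f r) = 0
    rw [Qf_apply, s.st.pair.symm _ _ _ (orth_iff.2 (s.st.fp.mem i))
      (orth_iff.2 (s.st.fp.mem j)) (orth_iff.2 (s.st.fp.mem r)), neg_zero]

theorem Setup2.m_eq (s : Setup2 k l h κ θ ek el a f b) :
    ((k.toSubmodule ⊓ perp h.toSubmodule) ⊔ l.toSubmodule) ⊔ pp k l =
      perp h.toSubmodule := by
  apply le_antisymm
  · refine sup_le (sup_le ?_ ?_) ?_
    · exact inf_le_right
    · intro x hx y hy
      rw [Qf_symm]
      exact s.st.orth_kl (s.H.le hy) hx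
    · intro x hx y hy
      exact hx y (Submodule.mem_sup_left (s.H.le hy))
  · intro x hx
    have h0 : ∑ i, Qf L x (ek i) • ek i ∈ k.toSubmodule := frame_mem s.st.fk _
    have h0' : ∑ i, Qf L x (el i) • el i ∈ l.toSubmodule := frame_mem s.st.fl _
    have h1 := s.st.fk.sub_mem_perp x
    have h1' := s.st.fl.sub_mem_perp x
    set y := ∑ i, Qf L x (ek i) • ek i with hy
    set z := ∑ i, Qf L x (el i) • el i with hz
    have hxy : x = (y + z) + (x - y - z) := by abel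
    have h5 : ∀ w, Qf L (x - y) w = Qf L x w - Qf L y w := by
      intro w
      rw [map_sub, LinearMap.sub_apply]
    have h6 : ∀ w, Qf L (x - z) w = Qf L x w - Qf L z w := by
      intro w
      rw [map_sub, LinearMap.sub_apply]
    have h7 : ∀ w, Qf L (x - y - z) w = Qf L x w - Qf L y w - Qf L z w := by
      intro w
      rw [map_sub, LinearMap.sub_apply, map_sub, LinearMap.sub_apply]
    rw [hxy]
    refine Submodule.add_mem_sup (Submodule.add_mem_sup ⟨h0, fun w hw => ?_⟩ h0')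
      fun w hw => ?_
    · have h2 := hx w hw
      have h3 := h1 w (s.H.le hw)
      rw [h5] at h3
      linarith
    · obtain ⟨u, hu, v, hv, rfl⟩ := Submodule.mem_sup.1 hw
      have h2 := h1 u hu
      have h3 := h1' v hv
      have h4 : Qf L z u = 0 := by
        rw [Qf_symm]
        exact s.st.orth_kl hu h0'
      have h4' : Qf L y v = 0 := s.st.orth_kl h0 hv
      rw [h5] at h2
      rw [h6] at h3
      rw [map_add, h7, h7, h4, h4']
      linarith

theorem Setup2.fm (s : Setup2 k l h κ θ ek el a f b) :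
    IsFrame (perp h.toSubmodule) (em2 a el f) := by
  rw [← s.m_eq]
  refine (s.st.fq.sum s.st.fl fun x hx y hy => s.st.orth_kl hx.1 hy).sum s.st.fp
    fun x hx y hy => ?_
  obtain ⟨u, hu, v, hv, rfl⟩ := Submodule.mem_sup.1 hx
  rw [map_add, LinearMap.add_apply, s.st.orth_kp hu.1 hy, s.orth_lp hv hy, add_zero]

theorem Setup2.mat_em (s : Setup2 k l h κ θ ek el a f b) {δ : L ≃ₗ⁅ℝ⁆ L}
    (hk : Pres δ k.toSubmodule)
    (hl : Pres δ l.toSubmodule) (hh : Pres δ h.toSubmodule) :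
    mat δ (em2 a el f) =
      fromBlocks (fromBlocks (mat δ a) 0 0 (mat δ el)) 0 0 (mat δ f) := by
  have hp : Pres δ (pp k l) := (hk.sup hl).perp
  ext x y
  rcases x with (t | u) | i <;> rcases y with (t' | u') | j
  · rfl
  · change Qf L (δ (el u')) (a t) = 0
    rw [Qf_symm]
    exact s.st.orth_kl (s.st.mem_k t) (hl.1 _ (s.mem_l u'))
  · change Qf L (δ (f j)) (a t) = 0
    rw [Qf_symm]
    exact s.st.orth_kp (s.st.mem_k t) (hp.1 _ (s.st.fp.mem j))
  · change Qf L (δ (a t')) (el u) = 0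
    exact s.st.orth_kl (hk.1 _ (s.st.mem_k t')) (s.mem_l u)
  · rfl
  · change Qf L (δ (f j)) (el u) = 0
    rw [Qf_symm]
    exact s.orth_lp (s.mem_l u) (hp.1 _ (s.st.fp.mem j))
  · change Qf L (δ (a t')) (f i) = 0
    exact s.st.orth_kp (hk.1 _ (s.st.mem_k t')) (s.st.fp.mem i)
  · change Qf L (δ (el u')) (f i) = 0
    exact s.orth_lp (hl.1 _ (s.mem_l u')) (s.st.fp.mem i)
  · rfl

end

/-- The metric near the bi-invariant one on `G/H`. -/
theorem einstein_pair2 [Module.Finite ℝ L] {k l h : LieSubalgebra ℝ L} {κ θ : ℝ}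
    (H : Hyp2 k l h κ θ) (t0 : 0 < θ) (t1 : θ ≤ 1) (kt : 7500 * κ ≤ θ ^ 2) :
    HasEinsteinMetric L h.toSubmodule (pairAuts k l h) := by
  classical
  obtain ⟨nk, nl, nq, np, nh, ek, el, a, f, b, s⟩ := exists_setup2 H
  obtain ⟨α, hL, ha, ha'⟩ := s.lData
  haveI := s.nonempty
  have hk0 := H.k0
  -- the size of the box
  have hs : 3 * κ ≤ (θ / 50) ^ 2 := by
    have : (θ / 50) ^ 2 = θ ^ 2 / 2500 := by ring
    rw [this]
    linarith
  obtain ⟨B, P, y, hB, hP3, hPh, hinv, hR⟩ := exists_hat s.small2 hL (s := θ / 50)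
    (by positivity) (by linarith) t1 hk0 hs ha ha'
  have hc : (0 : ℝ) < 2 - 20 * (θ / 50) := by linarith
  have hPhd : (hP (Fin nl) P y).det ≠ 0 := hPh.det_ne hc
  have hBd : B.det ≠ 0 := hB.det_ne (by norm_num)
  have hPi := hPh.inv hc (by norm_num)
  set G : Matrix ((Fin nq ⊕ Fin nl) ⊕ Fin np) ((Fin nq ⊕ Fin nl) ⊕ Fin np) ℝ :=
    fromBlocks (hP (Fin nl) P y)⁻¹ 0 0 B with hG
  set Gi : Matrix ((Fin nq ⊕ Fin nl) ⊕ Fin np) ((Fin nq ⊕ Fin nl) ⊕ Fin np) ℝ :=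
    fromBlocks (hP (Fin nl) P y) 0 0 B⁻¹ with hGi
  have hGs : G.IsSymm := by
    rw [hG, Matrix.IsSymm, Matrix.fromBlocks_transpose, hPi.symm.eq, hB.symm.eq,
      Matrix.transpose_zero, Matrix.transpose_zero]
  have hGG : G * Gi = 1 := by
    rw [hG, hGi, Matrix.fromBlocks_multiply,
      Matrix.nonsing_inv_mul _ (isUnit_iff_ne_zero.2 hPhd),
      Matrix.mul_nonsing_inv _ (isUnit_iff_ne_zero.2 hBd)]
    simp only [Matrix.mul_zero, Matrix.zero_mul, add_zero, zero_add]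
    exact Matrix.fromBlocks_one
  have hG0 : ∀ x, 0 ≤ x ⬝ᵥ (G *ᵥ x) := by
    intro x
    rw [hG, fromBlocks_quad]
    have h1 := hPi.lo (x ∘ Sum.inl)
    have h2 := hB.lo (x ∘ Sum.inr)
    have h3 := dot_self_nonneg (x ∘ Sum.inl)
    have h4 := dot_self_nonneg (x ∘ Sum.inr)
    have h5 : (0 : ℝ) ≤ 1 / 3 * ((x ∘ Sum.inl) ⬝ᵥ (x ∘ Sum.inl)) := by positivity
    have h6 : (0 : ℝ) ≤ 1 / 2 * ((x ∘ Sum.inr) ⬝ᵥ (x ∘ Sum.inr)) := by positivity
    linarith
  refine hasEinstein_of H.compact s.fm hGs hGG hG0 ?_ ?_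
  · rw [s.CF_eq]
    exact hR
  · rintro γ ⟨δ, h1, h2, h3, hγ⟩
    have hk := pres_of_map h1
    have hl := pres_of_map h2
    have hh := pres_of_map h3
    refine ⟨δ, hh, hγ, ?_⟩
    have hsym := s.st.sym hk hl hh
    obtain ⟨i1, i2⟩ := hinv _ _ hsym
    have i3 : (mat δ a) * P⁻¹ * (mat δ a)ᵀ = P⁻¹ := conj_inv hsym.u1 i2
    have i4 := mat_orth s.st.fl hl
    have hM1 : fromBlocks (mat δ a) 0 0 (mat δ el) * (fromBlocks (mat δ a) 0 0 (mat δ el))ᵀ =
        (1 : Matrix (Fin nq ⊕ Fin nl) (Fin nq ⊕ Fin nl) ℝ) := by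
      rw [Matrix.fromBlocks_transpose, Matrix.fromBlocks_multiply]
      simp only [Matrix.mul_zero, Matrix.zero_mul, add_zero, zero_add, Matrix.transpose_zero]
      rw [hsym.u1, i4]
      exact fromBlocks_one
    have hM2 : fromBlocks (mat δ a) 0 0 (mat δ el) * hP (Fin nl) P y *
        (fromBlocks (mat δ a) 0 0 (mat δ el))ᵀ = hP (Fin nl) P y := by
      unfold hP
      rw [Matrix.fromBlocks_transpose, Matrix.fromBlocks_multiply, Matrix.fromBlocks_multiply]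
      simp only [Matrix.mul_zero, Matrix.zero_mul, add_zero, zero_add, Matrix.transpose_zero]
      rw [i2, Matrix.mul_smul, Matrix.smul_mul, Matrix.mul_one, i4]
    have hM3 := conj_inv hM1 hM2
    rw [s.mat_em hk hl hh, hG, Matrix.fromBlocks_transpose, Matrix.fromBlocks_multiply,
      Matrix.fromBlocks_multiply]
    simp only [Matrix.mul_zero, Matrix.zero_mul, add_zero, zero_add, Matrix.transpose_zero]
    rw [i1, hM3]

end Pool.Agent.EinS
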