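import Pool.Agent.EinS.Tr

/-!
# The fixed point map for the Einstein equations

`q` indexes an orthonormal basis `a_s` of `𝔮` (the tangent space of `K/H`), `p` indexes an
orthonormal basis `f_i` of `𝔭`; `N a i j = ⟪[a_a, f_i], f_j⟫` and `S a s t = ⟪[a_a, a_s], a_t⟫`.
-/

namespace Pool.Agent.EinS

open Matrix

variable {m q p : Type*} [Fintype m] [DecidableEq m] [Fintype q] [DecidableEq q] [Fintype p]
  [DecidableEq p]

/-- `∑ A_{ab} F_a C F_bᵀ` -/
noncomputable def TT (F : q → Matrix p p ℝ) (A : Matrix q q ℝ) (C : Matrix p p ℝ) :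
    Matrix p p ℝ :=
  ∑ a, ∑ b, A a b • (F a * C * (F b)ᵀ)

/-- `tr (F_a A F_bᵀ C)` -/
noncomputable def UU (F : q → Matrix m m ℝ) (A C : Matrix m m ℝ) : Matrix q q ℝ :=
  of fun a b => trace (F a * A * (F b)ᵀ * C)

/-- The linear combination of the matrices `F_a` with coefficients `x`. -/
noncomputable def lc (F : q → Matrix m m ℝ) (x : q → ℝ) : Matrix m m ℝ := ∑ a, x a • F a

/-- The matrix with rows `F_aᵀ y`. -/
noncomputable def rw' (F : q → Matrix p p ℝ) (y : p → ℝ) : Matrix q p ℝ :=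
  of fun a j => ((F a)ᵀ *ᵥ y) j

theorem TT_symm (F : q → Matrix p p ℝ) {A : Matrix q q ℝ} {C : Matrix p p ℝ} (hA : A.IsSymm)
    (hC : C.IsSymm) : (TT F A C).IsSymm := by
  unfold Matrix.IsSymm TT
  rw [Matrix.transpose_sum, Finset.sum_comm]
  refine Finset.sum_congr rfl fun a _ => ?_
  rw [Matrix.transpose_sum]
  refine Finset.sum_congr rfl fun b _ => ?_
  rw [Matrix.transpose_smul, Matrix.transpose_mul, Matrix.transpose_mul, hC.eq,
    Matrix.transpose_transpose, Matrix.mul_assoc, hA.apply]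

theorem UU_symm (F : q → Matrix m m ℝ) {A C : Matrix m m ℝ} (hA : A.IsSymm) (hC : C.IsSymm) :
    (UU F A C).IsSymm := by
  unfold Matrix.IsSymm UU
  ext a b
  rw [Matrix.transpose_apply, Matrix.of_apply, Matrix.of_apply, ← Matrix.trace_transpose,
    Matrix.transpose_mul, Matrix.transpose_mul, Matrix.transpose_mul, Matrix.transpose_transpose,
    hA.eq, hC.eq, Matrix.trace_mul_comm, ← Matrix.mul_assoc]

theorem dot_sum_mulVec (y : p → ℝ) (M : q → Matrix p p ℝ) :
    y ⬝ᵥ ((∑ a, M a) *ᵥ y) = ∑ a, y ⬝ᵥ (M a *ᵥ y) := by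
  rw [Matrix.sum_mulVec, dotProduct_sum]

theorem TT_quad (F : q → Matrix p p ℝ) (A : Matrix q q ℝ) {C : Matrix p p ℝ} (hC : C.IsSymm)
    (y : p → ℝ) : y ⬝ᵥ (TT F A C *ᵥ y) = trace (A * (rw' F y * C * (rw' F y)ᵀ)) := by
  unfold TT
  rw [dot_sum_mulVec]
  unfold trace
  refine Finset.sum_congr rfl fun a _ => ?_
  rw [dot_sum_mulVec, Matrix.diag_apply, Matrix.mul_apply]
  refine Finset.sum_congr rfl fun b _ => ?_
  rw [Matrix.smul_mulVec, dotProduct_smul, smul_eq_mul]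
  congr 1
  rw [← Matrix.mulVec_mulVec, ← Matrix.mulVec_mulVec, Matrix.dotProduct_mulVec,
    ← Matrix.mulVec_transpose, Matrix.dotProduct_mulVec, ← Matrix.mulVec_transpose, hC.eq,
    dotProduct_comm, Matrix.mul_assoc, Matrix.mul_apply]
  unfold dotProduct
  refine Finset.sum_congr rfl fun j _ => ?_
  congr 1

theorem UU_quad (F : q → Matrix m m ℝ) (A C : Matrix m m ℝ) (x : q → ℝ) :
    x ⬝ᵥ (UU F A C *ᵥ x) = trace (C * (lc F x * A * (lc F x)ᵀ)) := by
  have h1 : lc F x * A * (lc F x)ᵀ = ∑ a, ∑ b, (x a * x b) • (F a * A * (F b)ᵀ) := by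
    unfold lc
    rw [Matrix.transpose_sum, Finset.sum_mul, Finset.sum_mul]
    refine Finset.sum_congr rfl fun a _ => ?_
    rw [Finset.mul_sum]
    refine Finset.sum_congr rfl fun b _ => ?_
    rw [Matrix.transpose_smul, Matrix.mul_smul, Matrix.smul_mul, Matrix.smul_mul, smul_smul,
      mul_comm (x b)]
  rw [h1, Matrix.mul_sum, Matrix.trace_sum]
  unfold dotProduct mulVec UU
  refine Finset.sum_congr rfl fun a _ => ?_
  rw [Matrix.mul_sum, Matrix.trace_sum]
  unfold dotProduct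
  rw [Finset.mul_sum]
  refine Finset.sum_congr rfl fun b _ => ?_
  rw [Matrix.mul_smul, Matrix.trace_smul, smul_eq_mul, Matrix.trace_mul_comm C]
  change x a * (trace (F a * A * (F b)ᵀ * C) * x b) = _
  ring

/-- The structure constants: `‖N_q^T y‖` is small, `tr (N_x N_xᵀ)` is close to `|x|²`. -/
structure Small (N : q → Matrix p p ℝ) (S : q → Matrix q q ℝ) : Prop where
  cas : ∀ y : p → ℝ, trace (rw' N y * (rw' N y)ᵀ) ≤ 1 / 40 * (y ⬝ᵥ y)
  up : ∀ x : q → ℝ, trace (lc N x * (lc N x)ᵀ) ≤ x ⬝ᵥ x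
  lo : ∀ x : q → ℝ, 19 / 20 * (x ⬝ᵥ x) ≤ trace (lc N x * (lc N x)ᵀ)
  str : ∀ x : q → ℝ, trace (lc S x * (lc S x)ᵀ) ≤ x ⬝ᵥ x - trace (lc N x * (lc N x)ᵀ)

/-- The first component of the fixed point map. -/
noncomputable def Phi1 (N : q → Matrix p p ℝ) (B : Matrix p p ℝ) (P : Matrix q q ℝ) :
    Matrix p p ℝ :=
  1 - TT N P⁻¹ B⁻¹ - TT N P B + B * TT N P B⁻¹ * B

/-- The second component of the fixed point map. -/
noncomputable def Phi2 (N : q → Matrix p p ℝ) (S : q → Matrix q q ℝ) (B : Matrix p p ℝ)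
    (P : Matrix q q ℝ) : Matrix q q ℝ :=
  (1 / 2 : ℝ) • UU N B⁻¹ B⁻¹ + P * (1 - UU N B B⁻¹ - UU S P⁻¹ P) * P +
    (1 / 2 : ℝ) • UU S P P

theorem Btw.norm_le {n : Type*} [Fintype n] [DecidableEq n] {a b : ℝ} (ha : 0 < a) (hb : 0 < b)
    {A : Matrix n n ℝ} (hA : Btw a b A) (x : n → ℝ) :
    (A *ᵥ x) ⬝ᵥ (A *ᵥ x) ≤ b ^ 2 * (x ⬝ᵥ x) := by
  have h1 := (hA.inv ha hb).lo (A *ᵥ x)
  rw [Matrix.mulVec_mulVec, Matrix.nonsing_inv_mul _ (isUnit_iff_ne_zero.2 (hA.det_ne ha)),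
    Matrix.one_mulVec, dotProduct_comm (A *ᵥ x) x] at h1
  have h2 := hA.up x
  have h3 : (A *ᵥ x) ⬝ᵥ (A *ᵥ x) ≤ b * (x ⬝ᵥ (A *ᵥ x)) := by
    rwa [one_div, inv_mul_le_iff₀ hb] at h1
  calc (A *ᵥ x) ⬝ᵥ (A *ᵥ x) ≤ b * (x ⬝ᵥ (A *ᵥ x)) := h3
    _ ≤ b * (b * (x ⬝ᵥ x)) := mul_le_mul_of_nonneg_left h2 hb.le
    _ = b ^ 2 * (x ⬝ᵥ x) := by ring

theorem trace_self_nonneg {m n : Type*} [Fintype m] [Fintype n] (W : Matrix m n ℝ) :
    0 ≤ trace (W * Wᵀ) := by
  unfold trace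
  refine Finset.sum_nonneg fun i _ => ?_
  rw [Matrix.diag_apply, Matrix.mul_apply]
  refine Finset.sum_nonneg fun j _ => ?_
  rw [Matrix.transpose_apply]
  exact mul_self_nonneg _

theorem Phi1_btw {N : q → Matrix p p ℝ} {S : q → Matrix q q ℝ} (h : Small N S)
    {B : Matrix p p ℝ} {P : Matrix q q ℝ} (hB : Btw (9107 / 10000) (102 / 100) B)
    (hP : Btw (383 / 1000) (69 / 100) P) : Btw (9107 / 10000) (102 / 100) (Phi1 N B P) := by
  have hR := hB.inv (by norm_num) (by norm_num)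
  have hD := hP.inv (by norm_num) (by norm_num)
  have quad : ∀ y : p → ℝ, y ⬝ᵥ (Phi1 N B P *ᵥ y) =
      y ⬝ᵥ y - trace (P⁻¹ * (rw' N y * B⁻¹ * (rw' N y)ᵀ)) -
        trace (P * (rw' N y * B * (rw' N y)ᵀ)) +
        trace (P * (rw' N (B *ᵥ y) * B⁻¹ * (rw' N (B *ᵥ y))ᵀ)) := by
    intro y
    rw [← TT_quad N P⁻¹ hR.symm, ← TT_quad N P hB.symm, ← TT_quad N P hR.symm]
    unfold Phi1
    rw [Matrix.add_mulVec, Matrix.sub_mulVec, Matrix.sub_mulVec, Matrix.one_mulVec,
      dotProduct_add, dotProduct_sub, dotProduct_sub, ← Matrix.mulVec_mulVec,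
      ← Matrix.mulVec_mulVec]
    congr 1
    rw [Matrix.dotProduct_mulVec, ← Matrix.mulVec_transpose, hB.symm.eq]
  refine ⟨?_, fun y => ?_, fun y => ?_⟩
  · unfold Phi1 Matrix.IsSymm
    rw [Matrix.transpose_add, Matrix.transpose_sub, Matrix.transpose_sub, Matrix.transpose_one,
      (TT_symm N hD.symm hR.symm).eq, (TT_symm N hP.symm hB.symm).eq, Matrix.transpose_mul,
      Matrix.transpose_mul, (TT_symm N hP.symm hR.symm).eq, hB.symm.eq, Matrix.mul_assoc]
  · rw [quad]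
    have t1 := (trace_quad (by norm_num) (by norm_num) (by norm_num) hD hR (rw' N y)).2
    have t2 := (trace_quad (by norm_num) (by norm_num) (by norm_num) hP hB (rw' N y)).2
    have t3 := (trace_quad (by norm_num) (by norm_num) (by norm_num) hP hR
      (rw' N (B *ᵥ y))).1
    have c := h.cas y
    have w3 := trace_self_nonneg (rw' N (B *ᵥ y))
    have w := trace_self_nonneg (rw' N y)
    have w0 := dot_self_nonneg y
    norm_num at t1 t2 t3 ⊢
    nlinarith
  · rw [quad]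
    have t1 := (trace_quad (by norm_num) (by norm_num) (by norm_num) hD hR (rw' N y)).1
    have t2 := (trace_quad (by norm_num) (by norm_num) (by norm_num) hP hB (rw' N y)).1
    have t3 := (trace_quad (by norm_num) (by norm_num) (by norm_num) hP hR
      (rw' N (B *ᵥ y))).2
    have c := h.cas (B *ᵥ y)
    have b := hB.norm_le (by norm_num) (by norm_num) y
    have w3 := trace_self_nonneg (rw' N (B *ᵥ y))
    have w := trace_self_nonneg (rw' N y)
    have w0 := dot_self_nonneg y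
    norm_num at t1 t2 t3 b ⊢
    nlinarith

theorem Phi2_btw {N : q → Matrix p p ℝ} {S : q → Matrix q q ℝ} (h : Small N S)
    {B : Matrix p p ℝ} {P : Matrix q q ℝ} (hB : Btw (9107 / 10000) (102 / 100) B)
    (hP : Btw (383 / 1000) (69 / 100) P) : Btw (383 / 1000) (69 / 100) (Phi2 N S B P) := by
  have hR := hB.inv (by norm_num) (by norm_num)
  have hD := hP.inv (by norm_num) (by norm_num)
  have quad : ∀ x : q → ℝ, x ⬝ᵥ (Phi2 N S B P *ᵥ x) =
      1 / 2 * trace (B⁻¹ * (lc N x * B⁻¹ * (lc N x)ᵀ)) +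
        ((P *ᵥ x) ⬝ᵥ (P *ᵥ x) - trace (B⁻¹ * (lc N (P *ᵥ x) * B * (lc N (P *ᵥ x))ᵀ)) -
          trace (P * (lc S (P *ᵥ x) * P⁻¹ * (lc S (P *ᵥ x))ᵀ))) +
        1 / 2 * trace (P * (lc S x * P * (lc S x)ᵀ)) := by
    intro x
    rw [← UU_quad, ← UU_quad, ← UU_quad, ← UU_quad]
    unfold Phi2
    rw [Matrix.add_mulVec, Matrix.add_mulVec, dotProduct_add, dotProduct_add,
      Matrix.smul_mulVec, Matrix.smul_mulVec, dotProduct_smul, dotProduct_smul, smul_eq_mul,
      smul_eq_mul]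
    congr 2
    rw [← Matrix.mulVec_mulVec, ← Matrix.mulVec_mulVec, Matrix.dotProduct_mulVec,
      ← Matrix.mulVec_transpose, hP.symm.eq, Matrix.sub_mulVec, Matrix.sub_mulVec,
      Matrix.one_mulVec, dotProduct_sub, dotProduct_sub]
  refine ⟨?_, fun x => ?_, fun x => ?_⟩
  · unfold Phi2 Matrix.IsSymm
    rw [Matrix.transpose_add, Matrix.transpose_add, Matrix.transpose_smul,
      Matrix.transpose_smul, (UU_symm N hR.symm hR.symm).eq, (UU_symm S hP.symm hP.symm).eq,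
      Matrix.transpose_mul, Matrix.transpose_mul, Matrix.transpose_sub, Matrix.transpose_sub,
      Matrix.transpose_one, (UU_symm N hB.symm hR.symm).eq, (UU_symm S hD.symm hP.symm).eq,
      hP.symm.eq, Matrix.mul_assoc]
  · rw [quad]
    have t1 := (trace_quad (by norm_num) (by norm_num) (by norm_num) hR hR (lc N x)).1
    have t2 := (trace_quad (by norm_num) (by norm_num) (by norm_num) hR hB
      (lc N (P *ᵥ x))).2
    have t3 := (trace_quad (by norm_num) (by norm_num) (by norm_num) hP hD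
      (lc S (P *ᵥ x))).2
    have t4 := (trace_quad (by norm_num) (by norm_num) (by norm_num) hP hP (lc S x)).1
    have c1 := h.lo x
    have c2 := h.lo (P *ᵥ x)
    have c3 := h.str (P *ᵥ x)
    have b := hP.norm_le (by norm_num) (by norm_num) x
    have w1 := trace_self_nonneg (lc S x)
    have w0 := dot_self_nonneg x
    have w2 := dot_self_nonneg (P *ᵥ x)
    norm_num at t1 t2 t3 t4 b ⊢
    nlinarith
  · rw [quad]
    have t1 := (trace_quad (by norm_num) (by norm_num) (by norm_num) hR hR (lc N x)).2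
    have t2 := (trace_quad (by norm_num) (by norm_num) (by norm_num) hR hB
      (lc N (P *ᵥ x))).1
    have t3 := (trace_quad (by norm_num) (by norm_num) (by norm_num) hP hD
      (lc S (P *ᵥ x))).1
    have t4 := (trace_quad (by norm_num) (by norm_num) (by norm_num) hP hP (lc S x)).2
    have c1 := h.up x
    have c1' := h.lo x
    have c2 := h.lo (P *ᵥ x)
    have c3 := h.str x
    have b := hP.norm_le (by norm_num) (by norm_num) x
    have w1 := trace_self_nonneg (lc S (P *ᵥ x))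
    have w0 := dot_self_nonneg x
    have w2 := dot_self_nonneg (P *ᵥ x)
    norm_num at t1 t2 t3 t4 b ⊢
    nlinarith

end Pool.Agent.EinS
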