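import Pool.Agent.EinS.Frame
import Pool.Agent.EinS.Defs
import Pool.Agent.EStab.SoGen

/-!
# The symmetric pair `so(n + k) ⊇ so(k) ⊕ so(n)`
-/

namespace Pool.Agent.EinS

open Matrix Pool.Agent.EStab LieAlgebra.Orthogonal

section

variable {ι : Type} [Fintype ι] [DecidableEq ι]

theorem so_skew (x : so ι ℝ) (i j : ι) : x.1 i j = - x.1 j i := by
  have h := (mem_so ι ℝ x.1).1 x.2
  have h1 := congrFun (congrFun h i) j
  rw [Matrix.transpose_apply, Matrix.neg_apply] at h1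
  rw [h1, neg_neg]

theorem so_lie (x y : so ι ℝ) : (⁅x, y⁆ : so ι ℝ).1 = x.1 * y.1 - y.1 * x.1 := rfl

theorem Qf_so (x y : so ι ℝ) :
    Qf (so ι ℝ) x y = ((Fintype.card ι : ℝ) - 2) * ∑ i, ∑ j, x.1 i j * y.1 i j := by
  rw [Qf_apply, so_killing_gen, ← mul_neg]
  congr 1
  unfold trace
  rw [← Finset.sum_neg_distrib]
  refine Finset.sum_congr rfl fun i _ => ?_
  rw [Matrix.diag_apply, Matrix.mul_apply, ← Finset.sum_neg_distrib]
  refine Finset.sum_congr rfl fun j _ => ?_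
  rw [so_skew y j i]
  ring

theorem so_compact' (h : 3 ≤ Fintype.card ι) : CompactSemisimple (so ι ℝ) := by
  intro x hx
  have h1 := Qf_so x x
  rw [Qf_apply] at h1
  have h2 : (3 : ℝ) ≤ (Fintype.card ι : ℝ) := by exact_mod_cast h
  have h3 : 0 ≤ ∑ i, ∑ j, x.1 i j * x.1 i j :=
    Finset.sum_nonneg fun i _ => Finset.sum_nonneg fun j _ => mul_self_nonneg _
  have h4 : ∑ i, ∑ j, x.1 i j * x.1 i j ≠ 0 := by
    intro h0
    apply hx
    apply Subtype.ext
    ext i j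
    rw [Finset.sum_eq_zero_iff_of_nonneg (fun i _ => Finset.sum_nonneg fun j _ =>
      mul_self_nonneg _)] at h0
    have h5 := h0 i (Finset.mem_univ i)
    rw [Finset.sum_eq_zero_iff_of_nonneg (fun j _ => mul_self_nonneg _)] at h5
    exact mul_self_eq_zero.1 (h5 j (Finset.mem_univ j))
  have h6 : 0 < ∑ i, ∑ j, x.1 i j * x.1 i j := lt_of_le_of_ne h3 (Ne.symm h4)
  nlinarith

end

/-- The subalgebra `so(k)` of `so(n + k)`: matrices whose first `n` rows vanish. -/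
def lower (n k : ℕ) : LieSubalgebra ℝ (so (Fin n ⊕ Fin k) ℝ) where
  carrier := {x | ∀ i j, x.1 (Sum.inl i) j = 0}
  add_mem' := by
    intro x y hx hy i j
    change x.1 _ _ + y.1 _ _ = 0
    rw [hx, hy, add_zero]
  zero_mem' := fun _ _ => rfl
  smul_mem' := by
    intro c x hx i j
    change c * x.1 _ _ = 0
    rw [hx, mul_zero]
  lie_mem' := by
    intro x y hx hy i j
    rw [so_lie, Matrix.sub_apply, Matrix.mul_apply, Matrix.mul_apply]
    simp only [hx _ _, hy _ _, zero_mul, Finset.sum_const_zero, sub_zero]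

/-- The subalgebra `so(n)` of `so(n + k)`: matrices whose last `k` rows vanish. -/
def upper (n k : ℕ) : LieSubalgebra ℝ (so (Fin n ⊕ Fin k) ℝ) where
  carrier := {x | ∀ i j, x.1 (Sum.inr i) j = 0}
  add_mem' := by
    intro x y hx hy i j
    change x.1 _ _ + y.1 _ _ = 0
    rw [hx, hy, add_zero]
  zero_mem' := fun _ _ => rfl
  smul_mem' := by
    intro c x hx i j
    change c * x.1 _ _ = 0
    rw [hx, mul_zero]
  lie_mem' := by
    intro x y hx hy i j
    rw [so_lie, Matrix.sub_apply, Matrix.mul_apply, Matrix.mul_apply]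
    simp only [hx _ _, hy _ _, zero_mul, Finset.sum_const_zero, sub_zero]

section

variable {n k : ℕ}

theorem lower_col {x : so (Fin n ⊕ Fin k) ℝ} (hx : x ∈ lower n k) (i : Fin n)
    (j : Fin n ⊕ Fin k) : x.1 j (Sum.inl i) = 0 := by
  rw [so_skew, hx i j, neg_zero]

theorem lower_row {x : so (Fin n ⊕ Fin k) ℝ} (hx : x ∈ lower n k) (i : Fin n)
    (j : Fin n ⊕ Fin k) : x.1 (Sum.inl i) j = 0 := hx i j

theorem upper_col {x : so (Fin n ⊕ Fin k) ℝ} (hx : x ∈ upper n k) (i : Fin k)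
    (j : Fin n ⊕ Fin k) : x.1 j (Sum.inr i) = 0 := by
  rw [so_skew, hx i j, neg_zero]

theorem upper_row {x : so (Fin n ⊕ Fin k) ℝ} (hx : x ∈ upper n k) (i : Fin k)
    (j : Fin n ⊕ Fin k) : x.1 (Sum.inr i) j = 0 := hx i j

/-- The lower block of `x`, antisymmetrized: `W - Wᵀ`. -/
noncomputable def mkLow (n : ℕ) {k : ℕ} (W : Matrix (Fin k) (Fin k) ℝ) :
    so (Fin n ⊕ Fin k) ℝ :=
  ⟨fromBlocks 0 0 0 (W - Wᵀ), by
    rw [mem_so, Matrix.fromBlocks_transpose, Matrix.fromBlocks_neg]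
    simp only [Matrix.transpose_zero, neg_zero, Matrix.transpose_sub,
      Matrix.transpose_transpose, neg_sub]⟩

/-- The upper block. -/
noncomputable def mkUp {n : ℕ} (k : ℕ) (W : Matrix (Fin n) (Fin n) ℝ) :
    so (Fin n ⊕ Fin k) ℝ :=
  ⟨fromBlocks (W - Wᵀ) 0 0 0, by
    rw [mem_so, Matrix.fromBlocks_transpose, Matrix.fromBlocks_neg]
    simp only [Matrix.transpose_zero, neg_zero, Matrix.transpose_sub,
      Matrix.transpose_transpose, neg_sub]⟩

theorem mkLow_mem (W : Matrix (Fin k) (Fin k) ℝ) : mkLow n W ∈ lower n k := by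
  intro i j
  rcases j with j | j <;> rfl

theorem mkUp_mem (W : Matrix (Fin n) (Fin n) ℝ) : mkUp k W ∈ upper n k := by
  intro i j
  rcases j with j | j <;> rfl

theorem card_nk : (Fintype.card (Fin n ⊕ Fin k) : ℝ) = n + k := by
  rw [Fintype.card_sum, Fintype.card_fin, Fintype.card_fin, Nat.cast_add]

theorem sum4 (F : Fin n ⊕ Fin k → Fin n ⊕ Fin k → ℝ) :
    ∑ p, ∑ q, F p q = (∑ i, ∑ j, F (Sum.inl i) (Sum.inl j)) +
      (∑ i, ∑ j, F (Sum.inl i) (Sum.inr j)) + (∑ i, ∑ j, F (Sum.inr i) (Sum.inl j)) +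
      ∑ i, ∑ j, F (Sum.inr i) (Sum.inr j) := by
  simp only [Fintype.sum_sum_type, Finset.sum_add_distrib]
  ring

theorem Qf_mkLow (x : so (Fin n ⊕ Fin k) ℝ) (W : Matrix (Fin k) (Fin k) ℝ) :
    Qf _ x (mkLow n W) = (n + k - 2 : ℝ) * (2 * ∑ c, ∑ d, x.1 (Sum.inr c) (Sum.inr d) * W c d) := by
  rw [Qf_so, card_nk, sum4]
  congr 1
  have h1 : ∑ i : Fin n, ∑ j : Fin n, x.1 (Sum.inl i) (Sum.inl j) *
      (mkLow n W).1 (Sum.inl i) (Sum.inl j) = 0 :=
    Finset.sum_eq_zero fun i _ => Finset.sum_eq_zero fun j _ => mul_zero _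
  have h2 : ∑ i : Fin n, ∑ j : Fin k, x.1 (Sum.inl i) (Sum.inr j) *
      (mkLow n W).1 (Sum.inl i) (Sum.inr j) = 0 :=
    Finset.sum_eq_zero fun i _ => Finset.sum_eq_zero fun j _ => mul_zero _
  have h3 : ∑ i : Fin k, ∑ j : Fin n, x.1 (Sum.inr i) (Sum.inl j) *
      (mkLow n W).1 (Sum.inr i) (Sum.inl j) = 0 :=
    Finset.sum_eq_zero fun i _ => Finset.sum_eq_zero fun j _ => mul_zero _
  rw [h1, h2, h3, zero_add, zero_add, zero_add]
  have h4 : ∑ c, ∑ d, x.1 (Sum.inr c) (Sum.inr d) * W d c =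
      -∑ c, ∑ d, x.1 (Sum.inr c) (Sum.inr d) * W c d := by
    rw [Finset.sum_comm, ← Finset.sum_neg_distrib]
    refine Finset.sum_congr rfl fun c _ => ?_
    rw [← Finset.sum_neg_distrib]
    refine Finset.sum_congr rfl fun d _ => ?_
    rw [so_skew x (Sum.inr d) (Sum.inr c)]
    ring
  have h5 : ∀ c d, x.1 (Sum.inr c) (Sum.inr d) * (mkLow n W).1 (Sum.inr c) (Sum.inr d) =
      x.1 (Sum.inr c) (Sum.inr d) * W c d - x.1 (Sum.inr c) (Sum.inr d) * W d c := by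
    intro c d
    change _ * (W c d - W d c) = _
    ring
  simp only [h5, Finset.sum_sub_distrib, h4]
  ring

theorem Qf_mkUp (x : so (Fin n ⊕ Fin k) ℝ) (W : Matrix (Fin n) (Fin n) ℝ) :
    Qf _ x (mkUp k W) = (n + k - 2 : ℝ) * (2 * ∑ c, ∑ d, x.1 (Sum.inl c) (Sum.inl d) * W c d) := by
  rw [Qf_so, card_nk, sum4]
  congr 1
  have h1 : ∑ i : Fin k, ∑ j : Fin k, x.1 (Sum.inr i) (Sum.inr j) *
      (mkUp k W).1 (Sum.inr i) (Sum.inr j) = 0 :=
    Finset.sum_eq_zero fun i _ => Finset.sum_eq_zero fun j _ => mul_zero _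
  have h2 : ∑ i : Fin n, ∑ j : Fin k, x.1 (Sum.inl i) (Sum.inr j) *
      (mkUp k W).1 (Sum.inl i) (Sum.inr j) = 0 :=
    Finset.sum_eq_zero fun i _ => Finset.sum_eq_zero fun j _ => mul_zero _
  have h3 : ∑ i : Fin k, ∑ j : Fin n, x.1 (Sum.inr i) (Sum.inl j) *
      (mkUp k W).1 (Sum.inr i) (Sum.inl j) = 0 :=
    Finset.sum_eq_zero fun i _ => Finset.sum_eq_zero fun j _ => mul_zero _
  rw [h1, h2, h3, add_zero, add_zero, add_zero]
  have h4 : ∑ c, ∑ d, x.1 (Sum.inl c) (Sum.inl d) * W d c =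
      -∑ c, ∑ d, x.1 (Sum.inl c) (Sum.inl d) * W c d := by
    rw [Finset.sum_comm, ← Finset.sum_neg_distrib]
    refine Finset.sum_congr rfl fun c _ => ?_
    rw [← Finset.sum_neg_distrib]
    refine Finset.sum_congr rfl fun d _ => ?_
    rw [so_skew x (Sum.inl d) (Sum.inl c)]
    ring
  have h5 : ∀ c d, x.1 (Sum.inl c) (Sum.inl d) * (mkUp k W).1 (Sum.inl c) (Sum.inl d) =
      x.1 (Sum.inl c) (Sum.inl d) * W c d - x.1 (Sum.inl c) (Sum.inl d) * W d c := by
    intro c d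
    change _ * (W c d - W d c) = _
    ring
  simp only [h5, Finset.sum_sub_distrib, h4]
  ring

theorem sum_sq_zero {α β : Type*} [Fintype α] [Fintype β] {F : α → β → ℝ}
    (h : ∑ c, ∑ d, F c d * F c d = 0) (c : α) (d : β) : F c d = 0 := by
  rw [Finset.sum_eq_zero_iff_of_nonneg (fun i _ => Finset.sum_nonneg fun j _ =>
    mul_self_nonneg _)] at h
  have h5 := h c (Finset.mem_univ c)
  rw [Finset.sum_eq_zero_iff_of_nonneg (fun j _ => mul_self_nonneg _)] at h5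
  exact mul_self_eq_zero.1 (h5 d (Finset.mem_univ d))

/-- Elements orthogonal to both blocks are off-diagonal. -/
theorem off_diag (hM : (0 : ℝ) < n + k - 2) {x : so (Fin n ⊕ Fin k) ℝ}
    (hx : Orth (lower n k) (upper n k) x) :
    (∀ c d, x.1 (Sum.inr c) (Sum.inr d) = 0) ∧ ∀ c d, x.1 (Sum.inl c) (Sum.inl d) = 0 := by
  constructor
  · intro c d
    have h1 := hx.1 _ (mkLow_mem (n := n) (Matrix.of fun c d => x.1 (Sum.inr c) (Sum.inr d)))
    have h2 := Qf_mkLow x (Matrix.of fun c d => x.1 (Sum.inr c) (Sum.inr d))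
    rw [Qf_apply, h1, neg_zero] at h2
    have h3 : ∑ c, ∑ d, x.1 (Sum.inr c) (Sum.inr d) * x.1 (Sum.inr c) (Sum.inr d) = 0 := by
      have h4 := mul_eq_zero.1 h2.symm
      rcases h4 with h4 | h4
      · exact absurd h4 hM.ne'
      · have h5 : ∑ c, ∑ d, x.1 (Sum.inr c) (Sum.inr d) *
          (Matrix.of fun c d => x.1 (Sum.inr c) (Sum.inr d) : Matrix (Fin k) (Fin k) ℝ) c d =
            0 := by linarith
        exact h5
    exact sum_sq_zero (F := fun c d => x.1 (Sum.inr c) (Sum.inr d)) h3 c d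
  · intro c d
    have h1 := hx.2 _ (mkUp_mem (k := k) (Matrix.of fun c d => x.1 (Sum.inl c) (Sum.inl d)))
    have h2 := Qf_mkUp x (Matrix.of fun c d => x.1 (Sum.inl c) (Sum.inl d))
    rw [Qf_apply, h1, neg_zero] at h2
    have h3 : ∑ c, ∑ d, x.1 (Sum.inl c) (Sum.inl d) * x.1 (Sum.inl c) (Sum.inl d) = 0 := by
      have h4 := mul_eq_zero.1 h2.symm
      rcases h4 with h4 | h4
      · exact absurd h4 hM.ne'
      · have h5 : ∑ c, ∑ d, x.1 (Sum.inl c) (Sum.inl d) *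
          (Matrix.of fun c d => x.1 (Sum.inl c) (Sum.inl d) : Matrix (Fin n) (Fin n) ℝ) c d =
            0 := by linarith
        exact h5
    exact sum_sq_zero (F := fun c d => x.1 (Sum.inl c) (Sum.inl d)) h3 c d

theorem so_symPair (hM : (0 : ℝ) < n + k - 2) : SymPair (lower n k) (upper n k) := by
  refine ⟨fun x hx y hy => ?_, fun x hx y hy => ?_, fun x y z hx hy hz => ?_⟩
  · apply Subtype.ext
    rw [so_lie]
    ext i j
    rw [Matrix.sub_apply, Matrix.mul_apply, Matrix.mul_apply, Fintype.sum_sum_type,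
      Fintype.sum_sum_type]
    simp only [lower_col hx, lower_row hx, upper_col hy, upper_row hy, zero_mul, mul_zero,
      Finset.sum_const_zero, add_zero, sub_zero]
    rfl
  · have h1 := Qf_so x y
    rw [Qf_apply, sum4] at h1
    simp only [lower_col hx, lower_row hx, upper_col hy, upper_row hy, zero_mul, mul_zero,
      Finset.sum_const_zero, add_zero] at h1
    linarith
  · obtain ⟨hx1, hx2⟩ := off_diag hM hx
    obtain ⟨hy1, hy2⟩ := off_diag hM hy
    obtain ⟨hz1, hz2⟩ := off_diag hM hz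
    have h1 := Qf_so ⁅x, y⁆ z
    rw [Qf_apply, sum4, so_lie] at h1
    simp only [hz1, hz2, mul_zero, Finset.sum_const_zero, Matrix.sub_apply, Matrix.mul_apply,
      Fintype.sum_sum_type, hx1, hx2, hy1, hy2, zero_mul, add_zero, zero_add, sub_zero] at h1
    linarith

/-- Bessel's inequality in coordinates. -/
theorem so_bessel (h3 : 3 ≤ n + k) {m : ℕ} {a : Fin m → so (Fin n ⊕ Fin k) ℝ}
    (ho : ∀ i j, Qf _ (a i) (a j) = if i = j then 1 else 0) (W : Matrix (Fin k) (Fin k) ℝ) :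
    ∑ i, (∑ c, ∑ d, (a i).1 (Sum.inr c) (Sum.inr d) * W c d) ^ 2 ≤
      (∑ c, ∑ d, W c d ^ 2 - ∑ c, ∑ d, W c d * W d c) / (2 * (n + k - 2)) := by
  have hM : (0 : ℝ) < n + k - 2 := by
    have : (3 : ℝ) ≤ n + k := by exact_mod_cast h3
    linarith
  have hg : CompactSemisimple (so (Fin n ⊕ Fin k) ℝ) := so_compact' (by
    rw [Fintype.card_sum, Fintype.card_fin, Fintype.card_fin]
    exact h3)
  have h1 := bessel_fam hg ho (mkLow n W)
  have h2 : ∀ i, Qf _ (mkLow n W) (a i) =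
      (n + k - 2 : ℝ) * (2 * ∑ c, ∑ d, (a i).1 (Sum.inr c) (Sum.inr d) * W c d) := by
    intro i
    rw [Qf_symm, Qf_mkLow]
  have h4 : Qf _ (mkLow n W) (mkLow n W) =
      (n + k - 2 : ℝ) * (2 * (∑ c, ∑ d, W c d ^ 2 - ∑ c, ∑ d, W c d * W d c)) := by
    rw [Qf_mkLow, ← Finset.sum_sub_distrib]
    congr 2
    refine Finset.sum_congr rfl fun c _ => ?_
    rw [← Finset.sum_sub_distrib]
    refine Finset.sum_congr rfl fun d _ => ?_
    change (W c d - W d c) * W c d = _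
    ring
  simp only [h2] at h1
  rw [h4] at h1
  have h5 : ∑ i, ((n + k - 2 : ℝ) *
      (2 * ∑ c, ∑ d, (a i).1 (Sum.inr c) (Sum.inr d) * W c d)) ^ 2 =
      (4 * (n + k - 2) ^ 2 : ℝ) *
        ∑ i, (∑ c, ∑ d, (a i).1 (Sum.inr c) (Sum.inr d) * W c d) ^ 2 := by
    rw [Finset.mul_sum]
    refine Finset.sum_congr rfl fun i _ => ?_
    ring
  rw [h5] at h1
  rw [le_div_iff₀ (by positivity)]
  set S := ∑ i, (∑ c, ∑ d, (a i).1 (Sum.inr c) (Sum.inr d) * W c d) ^ 2 with hS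
  set T := ∑ c, ∑ d, W c d ^ 2 - ∑ c, ∑ d, W c d * W d c with hT
  have h6 : (n + k - 2 : ℝ) * (2 * (S * (2 * (n + k - 2)))) ≤ (n + k - 2 : ℝ) * (2 * T) := by
    calc (n + k - 2 : ℝ) * (2 * (S * (2 * (n + k - 2)))) = 4 * (n + k - 2 : ℝ) ^ 2 * S := by
          ring
      _ ≤ _ := h1
  have h7 := le_of_mul_le_mul_left h6 hM
  linarith

end

end Pool.Agent.EinS
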