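import Pool.Agent.EinS.SoCas
import Pool.Agent.EinS.Pair2

/-!
# The symmetric pair `so(n + k) ⊇ so(k) ⊕ so(n)`, exact Casimir operators
-/

namespace Pool.Agent.EinS

open Matrix Pool.Agent.EStab LieAlgebra.Orthogonal

variable {n k : ℕ}

/-- Parseval's identity in coordinates. -/
theorem so_parseval (h3 : 3 ≤ n + k) {ι : Type} [Fintype ι] [DecidableEq ι]
    {a : ι → so (Fin n ⊕ Fin k) ℝ}
    (he : IsFrame (lower n k).toSubmodule a) (W : Matrix (Fin k) (Fin k) ℝ) :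
    ∑ i, (∑ c, ∑ d, (a i).1 (Sum.inr c) (Sum.inr d) * W c d) ^ 2 =
      (∑ c, ∑ d, W c d ^ 2 - ∑ c, ∑ d, W c d * W d c) / (2 * (n + k - 2)) := by
  have hM : (0 : ℝ) < n + k - 2 := by
    have : (3 : ℝ) ≤ n + k := by exact_mod_cast h3
    linarith
  have h1 := he.parseval (x := mkLow n W) (mkLow_mem W) (mkLow n W)
  have h2 : ∀ i, Qf _ (mkLow n W) (a i) =
      (n + k - 2 : ℝ) * (2 * ∑ c, ∑ d, (a i).1 (Sum.inr c) (Sum.inr d) * W c d) := by
    intro i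
    rw [Qf_symm, Qf_mkLow]
  have h4 : Qf _ (mkLow n W) (mkLow n W) =
      (n + k - 2 : ℝ) * (2 * (∑ c, ∑ d, W c d ^ 2 - ∑ c, ∑ d, W c d * W d c)) := by
    rw [Qf_mkLow, ← Finset.sum_sub_distrib]
    congr 2
    refine Finset.sum_congr rfl fun c _ => ?_
    rw [← Finset.sum_sub_distrib]
    refine Finset.sum_congr rfl fun d _ => ?_
    change (W c d - W d c) * W c d = _
    ring
  simp only [h2] at h1
  rw [h4] at h1
  have h5 : ∑ i, ((n + k - 2 : ℝ) *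
      (2 * ∑ c, ∑ d, (a i).1 (Sum.inr c) (Sum.inr d) * W c d)) * ((n + k - 2 : ℝ) *
      (2 * ∑ c, ∑ d, (a i).1 (Sum.inr c) (Sum.inr d) * W c d)) =
      (4 * (n + k - 2) ^ 2 : ℝ) *
        ∑ i, (∑ c, ∑ d, (a i).1 (Sum.inr c) (Sum.inr d) * W c d) ^ 2 := by
    rw [Finset.mul_sum]
    refine Finset.sum_congr rfl fun i _ => ?_
    ring
  rw [h5] at h1
  rw [eq_div_iff (by positivity)]
  set S := ∑ i, (∑ c, ∑ d, (a i).1 (Sum.inr c) (Sum.inr d) * W c d) ^ 2 with hS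
  set T := ∑ c, ∑ d, W c d ^ 2 - ∑ c, ∑ d, W c d * W d c with hT
  have h6 : (n + k - 2 : ℝ) * (2 * (S * (2 * (n + k - 2)))) = (n + k - 2 : ℝ) * (2 * T) := by
    calc (n + k - 2 : ℝ) * (2 * (S * (2 * (n + k - 2)))) = 4 * (n + k - 2 : ℝ) ^ 2 * S := by
          ring
      _ = _ := h1.symm
  have h7 := mul_left_cancel₀ hM.ne' h6
  linarith

theorem Qf_off (hM : (0 : ℝ) < n + k - 2) {x : so (Fin n ⊕ Fin k) ℝ}
    (hx : Orth (lower n k) (upper n k) x) :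
    Qf _ x x = (2 * (n + k - 2) : ℝ) * ∑ r, ∑ c, x.1 (Sum.inl r) (Sum.inr c) ^ 2 := by
  obtain ⟨hx1, hx2⟩ := off_diag hM hx
  have hflip : ∑ j, ∑ r, x.1 (Sum.inr j) (Sum.inl r) * x.1 (Sum.inr j) (Sum.inl r) =
      ∑ r, ∑ j, x.1 (Sum.inl r) (Sum.inr j) * x.1 (Sum.inl r) (Sum.inr j) := by
    rw [Finset.sum_comm]
    refine Finset.sum_congr rfl fun r _ => Finset.sum_congr rfl fun j _ => ?_
    rw [so_skew x (Sum.inr j) (Sum.inl r)]
    ring
  rw [Qf_so, card_nk, sum4, hflip]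
  simp only [hx1, hx2, mul_zero, Finset.sum_const_zero, zero_add, add_zero, sq]
  ring

theorem Qf_lie_low (hM : (0 : ℝ) < n + k - 2) {b x : so (Fin n ⊕ Fin k) ℝ}
    (hb : b ∈ lower n k) (hx : Orth (lower n k) (upper n k) x) :
    Qf _ ⁅b, x⁆ ⁅b, x⁆ = (2 * (n + k - 2) : ℝ) *
      ∑ r, ∑ j, (∑ c, ∑ d, b.1 (Sum.inr c) (Sum.inr d) *
        WB (fun c => x.1 (Sum.inl r) (Sum.inr c)) j c d) ^ 2 := by
  obtain ⟨hx1, hx2⟩ := off_diag hM hx
  obtain ⟨X, hX⟩ : ∃ X : Fin n → Fin k → ℝ, X = fun r c => x.1 (Sum.inl r) (Sum.inr c) :=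
    ⟨_, rfl⟩
  have hXr : ∀ r, (fun c => x.1 (Sum.inl r) (Sum.inr c)) = X r := by
    intro r
    rw [hX]
  simp only [hXr]
  have hflip : ∀ y : so (Fin n ⊕ Fin k) ℝ,
      ∑ j, ∑ r, y.1 (Sum.inr j) (Sum.inl r) * y.1 (Sum.inr j) (Sum.inl r) =
      ∑ r, ∑ j, y.1 (Sum.inl r) (Sum.inr j) * y.1 (Sum.inl r) (Sum.inr j) := by
    intro y
    rw [Finset.sum_comm]
    refine Finset.sum_congr rfl fun r _ => Finset.sum_congr rfl fun j _ => ?_
    rw [so_skew y (Sum.inr j) (Sum.inl r)]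
    ring
  rw [Qf_so, card_nk, sum4, hflip]
  have h2 : ∀ r j, (⁅b, x⁆ : so (Fin n ⊕ Fin k) ℝ).1 (Sum.inl r) (Sum.inr j) =
      -∑ c, ∑ d, b.1 (Sum.inr c) (Sum.inr d) * WB (X r) j c d := by
    intro r j
    have h3 := WB_pair (of fun c d => b.1 (Sum.inr c) (Sum.inr d)) (X r) j
    rw [so_lie, Matrix.sub_apply, Matrix.mul_apply, Matrix.mul_apply, Fintype.sum_sum_type,
      Fintype.sum_sum_type]
    simp only [lower_col hb, lower_row hb, hx2, mul_zero, zero_mul,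
      Finset.sum_const_zero, zero_add, zero_sub]
    rw [hX] at h3 ⊢
    exact congrArg Neg.neg h3.symm
  have h4 : ∀ r s, (⁅b, x⁆ : so (Fin n ⊕ Fin k) ℝ).1 (Sum.inl r) (Sum.inl s) = 0 := by
    intro r s
    rw [so_lie, Matrix.sub_apply, Matrix.mul_apply, Matrix.mul_apply, Fintype.sum_sum_type,
      Fintype.sum_sum_type]
    simp only [lower_col hb, lower_row hb, hx2, mul_zero, zero_mul,
      Finset.sum_const_zero, zero_add, sub_zero]
  have h5 : ∀ p q, (⁅b, x⁆ : so (Fin n ⊕ Fin k) ℝ).1 (Sum.inr p) (Sum.inr q) = 0 := by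
    intro p q
    rw [so_lie, Matrix.sub_apply, Matrix.mul_apply, Matrix.mul_apply, Fintype.sum_sum_type,
      Fintype.sum_sum_type]
    simp only [lower_col hb, lower_row hb, hx1, mul_zero, zero_mul,
      Finset.sum_const_zero, zero_add, sub_zero]
  simp only [h4, h5, mul_zero, Finset.sum_const_zero, zero_add, add_zero, h2, neg_mul_neg]
  have h6 : ∀ r j, (∑ c, ∑ d, b.1 (Sum.inr c) (Sum.inr d) * WB (X r) j c d) ^ 2 =
    (∑ c, ∑ d, b.1 (Sum.inr c) (Sum.inr d) * WB (X r) j c d) *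
    (∑ c, ∑ d, b.1 (Sum.inr c) (Sum.inr d) * WB (X r) j c d) := fun r j => sq _
  simp only [h6]
  ring

theorem so_casP (h3 : 3 ≤ n + k) {ι : Type} [Fintype ι] [DecidableEq ι]
    {a : ι → so (Fin n ⊕ Fin k) ℝ}
    (he : IsFrame (lower n k).toSubmodule a) {x : so (Fin n ⊕ Fin k) ℝ}
    (hx : x ∈ pp (lower n k) (upper n k)) :
    ∑ i, Qf _ ⁅a i, x⁆ ⁅a i, x⁆ = ((k - 1 : ℝ) / (2 * (n + k - 2))) * Qf _ x x := by
  have hM : (0 : ℝ) < n + k - 2 := by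
    have : (3 : ℝ) ≤ n + k := by exact_mod_cast h3
    linarith
  have hx' := orth_iff.2 hx
  set X : Fin n → Fin k → ℝ := fun r c => x.1 (Sum.inl r) (Sum.inr c) with hX
  have h1 : ∀ i, Qf _ ⁅a i, x⁆ ⁅a i, x⁆ = (2 * (n + k - 2) : ℝ) *
      ∑ r, ∑ j, (∑ c, ∑ d, (a i).1 (Sum.inr c) (Sum.inr d) * WB (X r) j c d) ^ 2 :=
    fun i => Qf_lie_low hM (he.mem i) hx'
  simp only [h1]
  rw [← Finset.mul_sum, Finset.sum_comm]
  have h6 : ∑ r, ∑ i, ∑ j, (∑ c, ∑ d, (a i).1 (Sum.inr c) (Sum.inr d) *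
      WB (X r) j c d) ^ 2 =
      ∑ r, ∑ j, (∑ c, ∑ d, WB (X r) j c d ^ 2 - ∑ c, ∑ d, WB (X r) j c d * WB (X r) j d c) /
        (2 * (n + k - 2)) := by
    refine Finset.sum_congr rfl fun r _ => ?_
    rw [Finset.sum_comm]
    exact Finset.sum_congr rfl fun j _ => so_parseval h3 he (WB (X r) j)
  rw [h6, Qf_off hM hx']
  simp only [← Finset.sum_div]
  simp only [WB_total, ← Finset.mul_sum]
  rw [hX]
  field_simp

/-! ### The Casimir operator of `h` -/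

/-- `∑ |b_i v|²`. -/
noncomputable def casV {ι : Type*} [Fintype ι] (b : ι → so (Fin n ⊕ Fin k) ℝ)
    (v : Fin k → ℝ) : ℝ :=
  ∑ i, ∑ j, (∑ c, v c * (b i).1 (Sum.inr c) (Sum.inr j)) ^ 2

theorem so_casH (hM : (0 : ℝ) < n + k - 2) {m : ℕ} {b : Fin m → so (Fin n ⊕ Fin k) ℝ}
    (hb : ∀ i, b i ∈ lower n k) {c : ℝ}
    (hc : ∀ v : Fin k → ℝ, c * ∑ j, v j ^ 2 ≤ casV b v) {x : so (Fin n ⊕ Fin k) ℝ}
    (hx : x ∈ pp (lower n k) (upper n k)) :
    c * Qf _ x x ≤ ∑ i, Qf _ ⁅b i, x⁆ ⁅b i, x⁆ := by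
  have hx' := orth_iff.2 hx
  have h1 : ∀ i, Qf _ ⁅b i, x⁆ ⁅b i, x⁆ = (2 * (n + k - 2) : ℝ) *
      ∑ r, ∑ j, (∑ c, x.1 (Sum.inl r) (Sum.inr c) *
        (b i).1 (Sum.inr c) (Sum.inr j)) ^ 2 := by
    intro i
    rw [Qf_lie_low hM (hb i) hx']
    congr 1
    refine Finset.sum_congr rfl fun r _ => Finset.sum_congr rfl fun j _ => ?_
    have h3 := WB_pair (of fun c d => (b i).1 (Sum.inr c) (Sum.inr d))
      (fun c => x.1 (Sum.inl r) (Sum.inr c)) j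
    exact congrArg (· ^ 2) h3
  simp only [h1]
  rw [← Finset.mul_sum, Finset.sum_comm, Qf_off hM hx']
  have h2 : ∀ r : Fin n, c * ∑ j, x.1 (Sum.inl r) (Sum.inr j) ^ 2 ≤
      ∑ i, ∑ j, (∑ c, x.1 (Sum.inl r) (Sum.inr c) *
        (b i).1 (Sum.inr c) (Sum.inr j)) ^ 2 := fun r => hc _
  have h3 := Finset.sum_le_sum fun r (_ : r ∈ Finset.univ) => h2 r
  rw [← Finset.mul_sum] at h3
  calc c * ((2 * (n + k - 2) : ℝ) * ∑ r, ∑ c, x.1 (Sum.inl r) (Sum.inr c) ^ 2)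
      = (2 * (n + k - 2) : ℝ) * (c * ∑ r, ∑ c, x.1 (Sum.inl r) (Sum.inr c) ^ 2) := by ring
    _ ≤ _ := mul_le_mul_of_nonneg_left h3 (by linarith)

/-! ### The action of `so(n)` on `p` -/

/-- The off-diagonal element with upper right block `W`. -/
noncomputable def mkOff {n k : ℕ} (W : Matrix (Fin n) (Fin k) ℝ) : so (Fin n ⊕ Fin k) ℝ :=
  ⟨fromBlocks 0 W (-Wᵀ) 0, by
    rw [mem_so, Matrix.fromBlocks_transpose, Matrix.fromBlocks_neg]
    simp only [Matrix.transpose_zero, neg_zero, Matrix.transpose_neg,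
      Matrix.transpose_transpose, neg_neg]⟩

theorem Qf_mkOff (x : so (Fin n ⊕ Fin k) ℝ) (W : Matrix (Fin n) (Fin k) ℝ) :
    Qf _ x (mkOff W) = (n + k - 2 : ℝ) * (2 * ∑ r, ∑ j, x.1 (Sum.inl r) (Sum.inr j) * W r j) := by
  rw [Qf_so, card_nk, sum4]
  congr 1
  have h1 : ∑ i : Fin n, ∑ j : Fin n, x.1 (Sum.inl i) (Sum.inl j) *
      (mkOff W).1 (Sum.inl i) (Sum.inl j) = 0 :=
    Finset.sum_eq_zero fun i _ => Finset.sum_eq_zero fun j _ => mul_zero _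
  have h2 : ∑ i : Fin k, ∑ j : Fin k, x.1 (Sum.inr i) (Sum.inr j) *
      (mkOff W).1 (Sum.inr i) (Sum.inr j) = 0 :=
    Finset.sum_eq_zero fun i _ => Finset.sum_eq_zero fun j _ => mul_zero _
  have h3 : ∑ i : Fin k, ∑ j : Fin n, x.1 (Sum.inr i) (Sum.inl j) *
      (mkOff W).1 (Sum.inr i) (Sum.inl j) =
      ∑ r : Fin n, ∑ j : Fin k, x.1 (Sum.inl r) (Sum.inr j) * W r j := by
    rw [Finset.sum_comm]
    refine Finset.sum_congr rfl fun r _ => Finset.sum_congr rfl fun j _ => ?_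
    rw [so_skew x (Sum.inr j) (Sum.inl r)]
    change -x.1 (Sum.inl r) (Sum.inr j) * (-W r j) = _
    ring
  rw [h1, h2, h3]
  have h4 : ∑ r : Fin n, ∑ j : Fin k, x.1 (Sum.inl r) (Sum.inr j) *
      (mkOff W).1 (Sum.inl r) (Sum.inr j) =
      ∑ r : Fin n, ∑ j : Fin k, x.1 (Sum.inl r) (Sum.inr j) * W r j := rfl
  rw [h4]
  ring

/-- For `x ∈ so(n)`, `∑ |[x, f_i]|² ≤ (k/(n + k - 2)) |x|²`. -/
theorem so_small (h3 : 3 ≤ n + k) {m : ℕ} {f : Fin m → so (Fin n ⊕ Fin k) ℝ}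
    (hf : IsFrame (pp (lower n k) (upper n k)) f) {x : so (Fin n ⊕ Fin k) ℝ}
    (hx : x ∈ upper n k) :
    ∑ i, Qf _ ⁅x, f i⁆ ⁅x, f i⁆ ≤ ((k : ℝ) / (n + k - 2)) * Qf _ x x := by
  have hM : (0 : ℝ) < n + k - 2 := by
    have : (3 : ℝ) ≤ n + k := by exact_mod_cast h3
    linarith
  have hg : CompactSemisimple (so (Fin n ⊕ Fin k) ℝ) := so_compact' (by
    rw [Fintype.card_sum, Fintype.card_fin, Fintype.card_fin]
    exact h3)
  -- the entries of the bracket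
  have h1 : ∀ i, Qf _ ⁅x, f i⁆ ⁅x, f i⁆ = (2 * (n + k - 2) : ℝ) *
      ∑ r, ∑ j, (∑ s, x.1 (Sum.inl r) (Sum.inl s) * (f i).1 (Sum.inl s) (Sum.inr j)) ^ 2 := by
    intro i
    have hfi := orth_iff.2 (hf.mem i)
    obtain ⟨f1, f2⟩ := off_diag hM hfi
    have hflip : ∀ y : so (Fin n ⊕ Fin k) ℝ,
        ∑ j, ∑ r, y.1 (Sum.inr j) (Sum.inl r) * y.1 (Sum.inr j) (Sum.inl r) =
        ∑ r, ∑ j, y.1 (Sum.inl r) (Sum.inr j) * y.1 (Sum.inl r) (Sum.inr j) := by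
      intro y
      rw [Finset.sum_comm]
      refine Finset.sum_congr rfl fun r _ => Finset.sum_congr rfl fun j _ => ?_
      rw [so_skew y (Sum.inr j) (Sum.inl r)]
      ring
    rw [Qf_so, card_nk, sum4, hflip]
    have h2 : ∀ r j, (⁅x, f i⁆ : so (Fin n ⊕ Fin k) ℝ).1 (Sum.inl r) (Sum.inr j) =
        ∑ s, x.1 (Sum.inl r) (Sum.inl s) * (f i).1 (Sum.inl s) (Sum.inr j) := by
      intro r j
      rw [so_lie, Matrix.sub_apply, Matrix.mul_apply, Matrix.mul_apply, Fintype.sum_sum_type,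
        Fintype.sum_sum_type]
      simp only [upper_col hx, f2, mul_zero, zero_mul,
        Finset.sum_const_zero, add_zero, sub_zero]
    have h4 : ∀ r s, (⁅x, f i⁆ : so (Fin n ⊕ Fin k) ℝ).1 (Sum.inl r) (Sum.inl s) = 0 := by
      intro r s
      rw [so_lie, Matrix.sub_apply, Matrix.mul_apply, Matrix.mul_apply, Fintype.sum_sum_type,
        Fintype.sum_sum_type]
      simp only [upper_col hx, upper_row hx, f2, mul_zero, zero_mul,
        Finset.sum_const_zero, add_zero, sub_zero]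
    have h5 : ∀ p q, (⁅x, f i⁆ : so (Fin n ⊕ Fin k) ℝ).1 (Sum.inr p) (Sum.inr q) = 0 := by
      intro p q
      rw [so_lie, Matrix.sub_apply, Matrix.mul_apply, Matrix.mul_apply, Fintype.sum_sum_type,
        Fintype.sum_sum_type]
      simp only [upper_col hx, upper_row hx, mul_zero, zero_mul,
        Finset.sum_const_zero, add_zero, sub_zero]
    simp only [h4, h5, mul_zero, Finset.sum_const_zero, zero_add, add_zero, h2, sq]
    ring
  simp only [h1]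
  rw [← Finset.mul_sum, Finset.sum_comm]
  have h6 : ∀ (r : Fin n) (j : Fin k),
      ∑ i, (∑ s, x.1 (Sum.inl r) (Sum.inl s) * (f i).1 (Sum.inl s) (Sum.inr j)) ^ 2 ≤
        (∑ s, x.1 (Sum.inl r) (Sum.inl s) ^ 2) / (2 * (n + k - 2)) := by
    intro r j
    set W : Matrix (Fin n) (Fin k) ℝ :=
      of fun s c => if c = j then x.1 (Sum.inl r) (Sum.inl s) else 0 with hW
    have h7 := hf.bessel hg (mkOff W)
    have h8 : ∀ y : so (Fin n ⊕ Fin k) ℝ, Qf _ (mkOff W) y = (n + k - 2 : ℝ) *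
        (2 * ∑ s, x.1 (Sum.inl r) (Sum.inl s) * y.1 (Sum.inl s) (Sum.inr j)) := by
      intro y
      rw [Qf_symm, Qf_mkOff]
      congr 2
      refine Finset.sum_congr rfl fun s _ => ?_
      rw [hW]
      simp only [Matrix.of_apply, mul_ite, mul_zero, Finset.sum_ite_eq', Finset.mem_univ,
        if_true]
      ring
    have h9 : Qf _ (mkOff W) (mkOff W) = (n + k - 2 : ℝ) *
        (2 * ∑ s, x.1 (Sum.inl r) (Sum.inl s) ^ 2) := by
      rw [h8]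
      congr 2
      refine Finset.sum_congr rfl fun s _ => ?_
      have : (mkOff W).1 (Sum.inl s) (Sum.inr j) = x.1 (Sum.inl r) (Sum.inl s) := by
        change W s j = _
        rw [hW, Matrix.of_apply, if_pos rfl]
      rw [this, sq]
    rw [h9] at h7
    simp only [h8] at h7
    have h10 : ∑ i, ((n + k - 2 : ℝ) *
        (2 * ∑ s, x.1 (Sum.inl r) (Sum.inl s) * (f i).1 (Sum.inl s) (Sum.inr j))) ^ 2 =
        (4 * (n + k - 2) ^ 2 : ℝ) *
        ∑ i, (∑ s, x.1 (Sum.inl r) (Sum.inl s) * (f i).1 (Sum.inl s) (Sum.inr j)) ^ 2 := by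
      rw [Finset.mul_sum]
      refine Finset.sum_congr rfl fun i _ => ?_
      ring
    rw [h10] at h7
    rw [le_div_iff₀ (by positivity)]
    set S := ∑ i, (∑ s, x.1 (Sum.inl r) (Sum.inl s) *
      (f i).1 (Sum.inl s) (Sum.inr j)) ^ 2 with hS
    set T := ∑ s, x.1 (Sum.inl r) (Sum.inl s) ^ 2 with hT
    have h11 : (n + k - 2 : ℝ) * (2 * (S * (2 * (n + k - 2)))) ≤
        (n + k - 2 : ℝ) * (2 * T) := by
      calc (n + k - 2 : ℝ) * (2 * (S * (2 * (n + k - 2)))) =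
            4 * (n + k - 2 : ℝ) ^ 2 * S := by ring
        _ ≤ _ := h7
    have h12 := le_of_mul_le_mul_left h11 hM
    linarith
  have h7 : Qf _ x x = (n + k - 2 : ℝ) *
      ∑ r : Fin n, ∑ s : Fin n, x.1 (Sum.inl r) (Sum.inl s) ^ 2 := by
    rw [Qf_so, card_nk, sum4]
    congr 1
    simp only [upper_col hx, upper_row hx, mul_zero, Finset.sum_const_zero, add_zero, sq]
  have h8 : ∑ r, ∑ i, ∑ j, (∑ s, x.1 (Sum.inl r) (Sum.inl s) *
      (f i).1 (Sum.inl s) (Sum.inr j)) ^ 2 ≤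
      ∑ r : Fin n, ∑ _j : Fin k, (∑ s, x.1 (Sum.inl r) (Sum.inl s) ^ 2) /
        (2 * (n + k - 2)) := by
    refine Finset.sum_le_sum fun r _ => ?_
    rw [Finset.sum_comm]
    exact Finset.sum_le_sum fun j _ => h6 r j
  have h9 : ∑ r : Fin n, ∑ _j : Fin k, (∑ s : Fin n, x.1 (Sum.inl r) (Sum.inl s) ^ 2) /
        (2 * (n + k - 2) : ℝ) =
      (k : ℝ) * (∑ r : Fin n, ∑ s : Fin n, x.1 (Sum.inl r) (Sum.inl s) ^ 2) /
        (2 * (n + k - 2)) := by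
    simp only [Finset.sum_const, Finset.card_univ, Fintype.card_fin, nsmul_eq_mul]
    rw [← Finset.mul_sum, ← Finset.sum_div, mul_div_assoc]
  rw [h9] at h8
  calc (2 * (n + k - 2) : ℝ) * _ ≤ (2 * (n + k - 2) : ℝ) * _ :=
        mul_le_mul_of_nonneg_left h8 (by linarith)
    _ = _ := by
        rw [h7]
        field_simp

end Pool.Agent.EinS
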