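import Pool.Agent.EinS.So2

/-!
# Invariant bilinear forms on `so(n)`
-/

namespace Pool.Agent.EinS

open Matrix Pool.Agent.EStab LieAlgebra.Orthogonal

variable {n k : ℕ}

/-- The basis of `so(n)`. -/
noncomputable def Eb (k : ℕ) (i j : Fin n) : so (Fin n ⊕ Fin k) ℝ :=
  mkUp k (Matrix.single i j 1)

theorem Eb_mem (i j : Fin n) : Eb k i j ∈ upper n k := mkUp_mem _

theorem Eb_swap (i j : Fin n) : Eb k i j = -Eb k j i := by
  apply Subtype.ext
  change fromBlocks (Matrix.single i j (1 : ℝ) - (Matrix.single i j (1 : ℝ))ᵀ) 0 0 0 =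
    -fromBlocks (Matrix.single j i (1 : ℝ) - (Matrix.single j i (1 : ℝ))ᵀ) 0 0 0
  rw [Matrix.fromBlocks_neg, Matrix.transpose_single, Matrix.transpose_single, neg_sub]
  simp only [neg_zero]

theorem Eb_self (i : Fin n) : Eb k i i = 0 := by
  apply Subtype.ext
  change fromBlocks (Matrix.single i i (1 : ℝ) - (Matrix.single i i (1 : ℝ))ᵀ) 0 0 0 = 0
  rw [Matrix.transpose_single, sub_self]
  exact fromBlocks_zero

theorem mkUp_lie (U V W : Matrix (Fin n) (Fin n) ℝ)
    (h : (U - Uᵀ) * (V - Vᵀ) - (V - Vᵀ) * (U - Uᵀ) = W - Wᵀ) :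
    ⁅mkUp k U, mkUp k V⁆ = mkUp k W := by
  apply Subtype.ext
  rw [so_lie]
  change fromBlocks (U - Uᵀ) 0 0 0 * fromBlocks (V - Vᵀ) 0 0 0 -
    fromBlocks (V - Vᵀ) 0 0 0 * fromBlocks (U - Uᵀ) 0 0 0 = fromBlocks (W - Wᵀ) 0 0 0
  rw [fromBlocks_multiply, fromBlocks_multiply]
  simp only [Matrix.mul_zero, Matrix.zero_mul, add_zero]
  rw [sub_eq_add_neg, fromBlocks_neg, fromBlocks_add]
  simp only [neg_zero, add_zero]
  rw [← sub_eq_add_neg, h]

theorem single_mul_single' (i j r s : Fin n) :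
    Matrix.single i j (1 : ℝ) * Matrix.single r s (1 : ℝ) =
      if j = r then Matrix.single i s (1 : ℝ) else 0 := by
  split_ifs with h
  · rw [h, Matrix.single_mul_single_same, mul_one]
  · rw [Matrix.single_mul_single_of_ne _ _ _ _ h]

theorem Eb_lie {i j m : Fin n} (hij : i ≠ j) (hjm : j ≠ m) (him : i ≠ m) :
    ⁅Eb k i j, Eb k j m⁆ = Eb k i m := by
  apply mkUp_lie
  simp only [Matrix.transpose_single, Matrix.sub_mul, Matrix.mul_sub, single_mul_single',
    if_true, hij, hjm, him, hij.symm, hjm.symm, him.symm, if_false]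
  abel

theorem Eb_lie_zero {i j r s : Fin n} (hir : i ≠ r) (his : i ≠ s) (hjr : j ≠ r)
    (hjs : j ≠ s) : ⁅Eb k i j, Eb k r s⁆ = 0 := by
  have h0 : mkUp k (0 : Matrix (Fin n) (Fin n) ℝ) = 0 := by
    apply Subtype.ext
    change fromBlocks ((0 : Matrix (Fin n) (Fin n) ℝ) - 0ᵀ) 0 0 0 = 0
    rw [Matrix.transpose_zero, sub_zero]
    exact fromBlocks_zero
  rw [← h0]
  apply mkUp_lie
  simp only [Matrix.transpose_single, Matrix.sub_mul, Matrix.mul_sub, single_mul_single',
    hir, his, hjr, hjs, hir.symm, his.symm, hjr.symm, hjs.symm, if_false, Matrix.transpose_zero,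
    sub_zero]

theorem upper_eq_sum {x : so (Fin n ⊕ Fin k) ℝ} (hx : x ∈ upper n k) :
    x = ∑ i : Fin n, ∑ j : Fin n, (1 / 2 * x.1 (Sum.inl i) (Sum.inl j)) • Eb k i j := by
  apply Subtype.ext
  have h1 : ∀ p q, (∑ i : Fin n, ∑ j : Fin n,
      (1 / 2 * x.1 (Sum.inl i) (Sum.inl j)) • Eb k i j : so (Fin n ⊕ Fin k) ℝ).1 p q =
      ∑ i : Fin n, ∑ j : Fin n, 1 / 2 * x.1 (Sum.inl i) (Sum.inl j) * (Eb k i j).1 p q := by
    intro p q
    let φ : so (Fin n ⊕ Fin k) ℝ →ₗ[ℝ] ℝ :=
      { toFun := fun y => y.1 p q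
        map_add' := fun _ _ => rfl
        map_smul' := fun _ _ => rfl }
    change φ _ = _
    rw [map_sum]
    refine Finset.sum_congr rfl fun i _ => ?_
    rw [map_sum]
    refine Finset.sum_congr rfl fun j _ => ?_
    rw [map_smul]
    rfl
  ext p q
  rw [h1]
  rcases p with p | p
  · rcases q with q | q
    · have h2 : ∀ i j, (Eb k i j).1 (Sum.inl p) (Sum.inl q) =
          (if i = p then (if j = q then (1 : ℝ) else 0) else 0) -
            (if j = p then (if i = q then (1 : ℝ) else 0) else 0) := by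
        intro i j
        change (Matrix.single i j (1 : ℝ) - (Matrix.single i j (1 : ℝ))ᵀ) p q = _
        rw [Matrix.transpose_single, Matrix.sub_apply, Matrix.single_apply,
          Matrix.single_apply]
        congr 1
        · split_ifs <;> simp_all
        · split_ifs <;> simp_all
      simp only [h2, mul_sub, Finset.sum_sub_distrib, mul_ite, mul_one, mul_zero]
      have e1 : ∑ i : Fin n, ∑ j : Fin n, (if i = p then (if j = q then
          1 / 2 * x.1 (Sum.inl i) (Sum.inl j) else 0) else 0) =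
          1 / 2 * x.1 (Sum.inl p) (Sum.inl q) := by
        rw [Finset.sum_comm]
        simp only [Finset.sum_ite_eq', Finset.mem_univ, if_true]
      have e2 : ∑ i : Fin n, ∑ j : Fin n, (if j = p then (if i = q then
          1 / 2 * x.1 (Sum.inl i) (Sum.inl j) else 0) else 0) =
          1 / 2 * x.1 (Sum.inl q) (Sum.inl p) := by
        simp only [Finset.sum_ite_eq', Finset.mem_univ, if_true]
      rw [e1, e2, so_skew x (Sum.inl q) (Sum.inl p)]
      ring
    · rw [upper_col hx]
      symm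
      refine Finset.sum_eq_zero fun i _ => Finset.sum_eq_zero fun j _ => ?_
      rw [upper_col (Eb_mem i j), mul_zero]
  · rw [upper_row hx]
    symm
    refine Finset.sum_eq_zero fun i _ => Finset.sum_eq_zero fun j _ => ?_
    rw [upper_row (Eb_mem i j), mul_zero]

theorem exists_third (hn : 3 ≤ n) (i j : Fin n) : ∃ m, m ≠ i ∧ m ≠ j := by
  have h : ({i, j} : Finset (Fin n)).card < Fintype.card (Fin n) := by
    have := Finset.card_le_two (a := i) (b := j)
    rw [Fintype.card_fin]
    omega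
  obtain ⟨m, hm⟩ := Finset.exists_mem_notMem_of_card_lt_card
    (s := {i, j}) (t := Finset.univ) (by rw [Finset.card_univ]; exact h)
  have h2 := hm.2
  simp only [Finset.mem_insert, Finset.mem_singleton, not_or] at h2
  exact ⟨m, h2.1, h2.2⟩

theorem exists_fifth (hn : 5 ≤ n) (i j r s : Fin n) :
    ∃ m, m ≠ i ∧ m ≠ j ∧ m ≠ r ∧ m ≠ s := by
  have h : ({i, j, r, s} : Finset (Fin n)).card < Fintype.card (Fin n) := by
    have := Finset.card_le_four (a := i) (b := j) (c := r) (d := s)
    rw [Fintype.card_fin]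
    omega
  obtain ⟨m, hm⟩ := Finset.exists_mem_notMem_of_card_lt_card
    (s := {i, j, r, s}) (t := Finset.univ) (by rw [Finset.card_univ]; exact h)
  have h2 := hm.2
  simp only [Finset.mem_insert, Finset.mem_singleton, not_or] at h2
  exact ⟨m, h2.1, h2.2.1, h2.2.2.1, h2.2.2.2⟩

theorem so_perf (hn : 3 ≤ n) {x : so (Fin n ⊕ Fin k) ℝ} (hx : x ∈ upper n k) :
    x ∈ Submodule.span ℝ {z | ∃ u ∈ upper n k, ∃ v ∈ upper n k, ⁅u, v⁆ = z} := by
  rw [upper_eq_sum hx]
  refine Submodule.sum_mem _ fun i _ => Submodule.sum_mem _ fun j _ =>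
    Submodule.smul_mem _ _ ?_
  by_cases hij : i = j
  · rw [hij, Eb_self]
    exact Submodule.zero_mem _
  · obtain ⟨m, h1, h2⟩ := exists_third hn i j
    exact Submodule.subset_span ⟨_, Eb_mem i m, _, Eb_mem m j, Eb_lie h1.symm h2 hij⟩

theorem so_forms (hn : 5 ≤ n) (F : LinearMap.BilinForm ℝ (so (Fin n ⊕ Fin k) ℝ))
    (hs : ∀ x ∈ upper n k, ∀ y ∈ upper n k, F x y = F y x)
    (hi : ∀ x ∈ upper n k, ∀ y ∈ upper n k, ∀ z ∈ upper n k, F ⁅x, y⁆ z = F x ⁅y, z⁆) :
    ∃ μ : ℝ, ∀ x ∈ upper n k, ∀ y ∈ upper n k, F x y = μ * Qf _ x y := by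
  have hM : (0 : ℝ) < n + k - 2 := by
    have : (5 : ℝ) ≤ n := by exact_mod_cast hn
    have : (0 : ℝ) ≤ k := Nat.cast_nonneg k
    linarith
  have m := fun i j : Fin n => Eb_mem (k := k) i j
  -- one common index
  have h1 : ∀ i j r : Fin n, i ≠ j → j ≠ r → i ≠ r → F (Eb k i j) (Eb k i r) = 0 := by
    intro i j r hij hjr hir
    have e1 := hi _ (m i r) _ (m r j) _ (m i r)
    rw [Eb_lie hir hjr.symm hij, ← lie_skew (Eb k r j), Eb_lie hir hjr.symm hij, map_neg,
      hs _ (m i r) _ (m i j)] at e1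
    linarith
  -- no common index
  have h2 : ∀ i j r s : Fin n, i ≠ j → i ≠ r → i ≠ s → j ≠ r → j ≠ s →
      F (Eb k i j) (Eb k r s) = 0 := by
    intro i j r s hij hir his hjr hjs
    obtain ⟨t, t1, t2, t3, t4⟩ := exists_fifth hn i j r s
    have e1 := hi _ (m i t) _ (m t j) _ (m r s)
    rw [Eb_lie t1.symm t2 hij, Eb_lie_zero t3 t4 hjr hjs, map_zero] at e1
    exact e1
  -- equal indices
  have h3 : ∀ i j r : Fin n, i ≠ j → j ≠ r → i ≠ r →
      F (Eb k i j) (Eb k i j) = F (Eb k i r) (Eb k i r) := by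
    intro i j r hij hjr hir
    have e1 := hi _ (m i r) _ (m r j) _ (m i j)
    rw [Eb_lie hir hjr.symm hij, Eb_swap i j, ← Eb_swap i j] at e1
    have e2 : ⁅Eb k r j, Eb k i j⁆ = Eb k i r := by
      rw [Eb_swap i j, lie_neg, Eb_lie hjr.symm hij.symm hir.symm, ← Eb_swap i r]
    rw [e2] at e1
    exact e1
  have h3' : ∀ i j r : Fin n, i ≠ j → r ≠ j →
      F (Eb k i j) (Eb k i j) = F (Eb k i r) (Eb k i r) ∨ r = i := by
    intro i j r hij hrj
    by_cases h : r = i
    · exact Or.inr h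
    · exact Or.inl (h3 i j r hij (Ne.symm hrj) (Ne.symm h))
  have hsw : ∀ i j : Fin n, F (Eb k i j) (Eb k i j) = F (Eb k j i) (Eb k j i) := by
    intro i j
    rw [Eb_swap i j, map_neg, map_neg, LinearMap.neg_apply, neg_neg]
  have hrow : ∀ i j r : Fin n, i ≠ j → i ≠ r →
      F (Eb k i j) (Eb k i j) = F (Eb k i r) (Eb k i r) := by
    intro i j r hij hir
    by_cases h : j = r
    · rw [h]
    · exact h3 i j r hij h hir
  -- the value
  let i0 : Fin n := ⟨0, by omega⟩
  let i1 : Fin n := ⟨1, by omega⟩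
  have h01 : i0 ≠ i1 := by
    intro h
    have := congrArg Fin.val h
    simp [i0, i1] at this
  set c := F (Eb k i0 i1) (Eb k i0 i1) with hc
  have h4 : ∀ i j : Fin n, i ≠ j → F (Eb k i j) (Eb k i j) = c := by
    intro i j hij
    by_cases hi0 : i = i0
    · subst hi0
      exact hrow _ _ _ hij h01
    · by_cases hj0 : j = i0
      · subst hj0
        rw [hsw]
        exact hrow _ _ _ hij.symm h01
      · rw [hrow i j i0 hij hi0, hsw]
        exact hrow _ _ _ (Ne.symm hi0) h01
  have h5 : ∀ i j r s : Fin n, F (Eb k i j) (Eb k r s) =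
      c * ((if i = r then (if j = s then 1 else 0) else 0) -
        (if i = s then (if j = r then 1 else 0) else 0)) := by
    intro i j r s
    by_cases hij : i = j
    · subst hij
      rw [Eb_self, map_zero, LinearMap.zero_apply]
      split_ifs <;> ring
    by_cases hrs : r = s
    · subst hrs
      rw [Eb_self, map_zero, sub_self, mul_zero]
    by_cases hir : i = r
    · subst hir
      by_cases hjs : j = s
      · subst hjs
        rw [h4 i j hij, if_pos rfl, if_pos rfl, if_neg hij]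
        ring
      · rw [h1 i j s hij hjs hrs, if_pos rfl, if_neg hjs, if_neg hrs]
        ring
    by_cases his : i = s
    · subst his
      rw [if_neg hir, if_pos rfl, Eb_swap r i, map_neg]
      by_cases hjr : j = r
      · subst hjr
        rw [h4 i j hij, if_pos rfl]
        ring
      · rw [h1 i j r hij hjr hir, if_neg hjr]
        ring
    rw [if_neg hir, if_neg his, sub_zero, mul_zero]
    by_cases hjr : j = r
    · subst hjr
      rw [Eb_swap i j, map_neg, LinearMap.neg_apply, h1 j i s (Ne.symm hij) his hrs, neg_zero]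
    by_cases hjs : j = s
    · subst hjs
      rw [Eb_swap i j, Eb_swap r j, map_neg, map_neg, LinearMap.neg_apply, neg_neg,
        h1 j i r (Ne.symm hij) hir hjr]
    exact h2 i j r s hij hir his hjr hjs
  refine ⟨c / (2 * (n + k - 2)), fun x hx y hy => ?_⟩
  have h6 : F x y = ∑ i : Fin n, ∑ j : Fin n, ∑ r : Fin n, ∑ s : Fin n,
      (1 / 2 * x.1 (Sum.inl i) (Sum.inl j)) * ((1 / 2 * y.1 (Sum.inl r) (Sum.inl s)) *
        (c * ((if i = r then (if j = s then 1 else 0) else 0) -
        (if i = s then (if j = r then 1 else 0) else 0)))) := by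
    conv_lhs => rw [upper_eq_sum hx]
    rw [map_sum, LinearMap.sum_apply]
    refine Finset.sum_congr rfl fun i _ => ?_
    rw [map_sum, LinearMap.sum_apply]
    refine Finset.sum_congr rfl fun j _ => ?_
    rw [map_smul, LinearMap.smul_apply, smul_eq_mul]
    conv_lhs => rw [upper_eq_sum hy]
    rw [map_sum, Finset.mul_sum]
    refine Finset.sum_congr rfl fun r _ => ?_
    rw [map_sum, Finset.mul_sum]
    refine Finset.sum_congr rfl fun s _ => ?_
    rw [map_smul, smul_eq_mul, h5]
  have h7 : ∀ i j : Fin n, ∑ r : Fin n, ∑ s : Fin n,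
      (1 / 2 * x.1 (Sum.inl i) (Sum.inl j)) * ((1 / 2 * y.1 (Sum.inl r) (Sum.inl s)) *
        (c * ((if i = r then (if j = s then 1 else 0) else 0) -
        (if i = s then (if j = r then 1 else 0) else 0)))) =
      c / 2 * (x.1 (Sum.inl i) (Sum.inl j) * y.1 (Sum.inl i) (Sum.inl j)) := by
    intro i j
    have h8 : ∀ r s : Fin n, (1 / 2 * x.1 (Sum.inl i) (Sum.inl j)) *
        ((1 / 2 * y.1 (Sum.inl r) (Sum.inl s)) *
        (c * ((if i = r then (if j = s then 1 else 0) else 0) -
        (if i = s then (if j = r then 1 else 0) else 0)))) =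
        (if i = r then (if j = s then
          c / 4 * (x.1 (Sum.inl i) (Sum.inl j) * y.1 (Sum.inl r) (Sum.inl s)) else 0) else 0) -
        (if j = r then (if i = s then
          c / 4 * (x.1 (Sum.inl i) (Sum.inl j) * y.1 (Sum.inl r) (Sum.inl s)) else 0)
          else 0) := by
      intro r s
      split_ifs <;> ring
    simp only [h8, Finset.sum_sub_distrib]
    have e1 : ∑ r : Fin n, ∑ s : Fin n, (if i = r then (if j = s then
          c / 4 * (x.1 (Sum.inl i) (Sum.inl j) * y.1 (Sum.inl r) (Sum.inl s)) else 0) else 0) =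
          c / 4 * (x.1 (Sum.inl i) (Sum.inl j) * y.1 (Sum.inl i) (Sum.inl j)) := by
      rw [Finset.sum_comm]
      simp only [Finset.sum_ite_eq, Finset.mem_univ, if_true]
    have e2 : ∑ r : Fin n, ∑ s : Fin n, (if j = r then (if i = s then
          c / 4 * (x.1 (Sum.inl i) (Sum.inl j) * y.1 (Sum.inl r) (Sum.inl s)) else 0) else 0) =
          c / 4 * (x.1 (Sum.inl i) (Sum.inl j) * y.1 (Sum.inl j) (Sum.inl i)) := by
      rw [Finset.sum_comm]
      simp only [Finset.sum_ite_eq, Finset.mem_univ, if_true]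
    rw [e1, e2, so_skew y (Sum.inl j) (Sum.inl i)]
    ring
  rw [h6]
  simp only [h7]
  have h9 : Qf _ x y = (n + k - 2 : ℝ) *
      ∑ r : Fin n, ∑ s : Fin n, x.1 (Sum.inl r) (Sum.inl s) * y.1 (Sum.inl r) (Sum.inl s) := by
    rw [Qf_so, card_nk, sum4]
    congr 1
    simp only [upper_col hx, upper_row hx, zero_mul, Finset.sum_const_zero, add_zero]
  rw [h9]
  simp only [← Finset.mul_sum]
  field_simp

end Pool.Agent.EinS
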