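import Pool.Agent.EinS.So3

/-!
# Einstein metrics on `SO(N)/H` for every closed subgroup `H` of `SO(k)` and `N ≥ N_0(H)`
-/

namespace Pool.Agent.EinS

open Matrix Pool.Agent.EStab LieAlgebra.Orthogonal

variable {n k : ℕ}

/-- The standard embedding of `so(k)` in `so(n + k)`. -/
noncomputable def lowHom (n k : ℕ) : so (Fin k) ℝ →ₗ⁅ℝ⁆ so (Fin n ⊕ Fin k) ℝ where
  toFun x := ⟨fromBlocks 0 0 0 x.1, by
    rw [mem_so, Matrix.fromBlocks_transpose, Matrix.fromBlocks_neg, (mem_so _ _ _).1 x.2]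
    simp only [Matrix.transpose_zero, neg_zero]⟩
  map_add' x y := by
    apply Subtype.ext
    change fromBlocks 0 0 0 (x.1 + y.1) = fromBlocks 0 0 0 x.1 + fromBlocks 0 0 0 y.1
    rw [fromBlocks_add]
    simp only [add_zero]
  map_smul' c x := by
    apply Subtype.ext
    change fromBlocks 0 0 0 (c • x.1) = c • fromBlocks 0 0 0 x.1
    rw [fromBlocks_smul]
    simp only [smul_zero]
  map_lie' := by
    intro x y
    apply Subtype.ext
    change fromBlocks 0 0 0 (x.1 * y.1 - y.1 * x.1) =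
      fromBlocks 0 0 0 x.1 * fromBlocks 0 0 0 y.1 - fromBlocks 0 0 0 y.1 * fromBlocks 0 0 0 x.1
    rw [fromBlocks_multiply, fromBlocks_multiply]
    simp only [Matrix.mul_zero, Matrix.zero_mul, add_zero, zero_add]
    rw [sub_eq_add_neg (fromBlocks _ _ _ _), fromBlocks_neg, fromBlocks_add]
    simp only [neg_zero, add_zero]
    rw [← sub_eq_add_neg]

theorem lowHom_inr (x : so (Fin k) ℝ) (i j : Fin k) :
    (lowHom n k x).1 (Sum.inr i) (Sum.inr j) = x.1 i j := rfl

theorem lowHom_mem (x : so (Fin k) ℝ) : lowHom n k x ∈ lower n k := by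
  intro i j
  rcases j with j | j <;> rfl

theorem map_le_lower (h : LieSubalgebra ℝ (so (Fin k) ℝ)) :
    h.map (lowHom n k) ≤ lower n k := by
  rintro x ⟨y, _, rfl⟩
  exact lowHom_mem y

/-- `h` fixes no nonzero vector of `ℝ^k`. -/
def NoFixed (h : LieSubalgebra ℝ (so (Fin k) ℝ)) : Prop :=
  ∀ v : Fin k → ℝ, (∀ x ∈ h, x.1 *ᵥ v = 0) → v = 0

/-- A positive definite sum of squares. -/
theorem exists_bound {d : ℕ} (g : Fin d → Matrix (Fin k) (Fin k) ℝ)
    (hg : ∀ v : Fin k → ℝ, (∀ i, v ᵥ* g i = 0) → v = 0) :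
    ∃ c : ℝ, 0 < c ∧ ∀ v : Fin k → ℝ,
      c * ∑ j, v j ^ 2 ≤ ∑ i, ∑ j, (∑ r, v r * g i r j) ^ 2 := by
  set G : (Fin k → ℝ) → ℝ := fun v => ∑ i, ∑ j, (∑ r, v r * g i r j) ^ 2 with hG
  have hG0 : ∀ v, 0 ≤ G v := fun v =>
    Finset.sum_nonneg fun i _ => Finset.sum_nonneg fun j _ => sq_nonneg _
  have hGz : ∀ v, G v = 0 → v = 0 := by
    intro v hv
    apply hg v
    intro i
    funext j
    rw [hG] at hv
    dsimp only at hv
    rw [Finset.sum_eq_zero_iff_of_nonneg (fun i _ =>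
      Finset.sum_nonneg fun j _ => sq_nonneg _)] at hv
    have h1 := hv i (Finset.mem_univ i)
    rw [Finset.sum_eq_zero_iff_of_nonneg (fun j _ => sq_nonneg _)] at h1
    have h2 := h1 j (Finset.mem_univ j)
    exact pow_eq_zero_iff (two_ne_zero) |>.1 h2
  have hGs : ∀ (t : ℝ) v, G (t • v) = t ^ 2 * G v := by
    intro t v
    rw [hG]
    dsimp only
    rw [Finset.mul_sum]
    refine Finset.sum_congr rfl fun i _ => ?_
    rw [Finset.mul_sum]
    refine Finset.sum_congr rfl fun j _ => ?_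
    rw [← mul_pow, Finset.mul_sum]
    congr 1
    refine Finset.sum_congr rfl fun r _ => ?_
    rw [Pi.smul_apply, smul_eq_mul, mul_assoc]
  have hGc : Continuous G := by
    rw [hG]
    exact continuous_finset_sum _ fun i _ => continuous_finset_sum _ fun j _ =>
      (continuous_finset_sum _ fun r _ => (continuous_apply r).mul continuous_const).pow 2
  set K : Set (Fin k → ℝ) := {v | ∑ j, v j ^ 2 = 1} with hK
  have hKc : IsCompact K := by
    have h1 := isCompact_univ_pi (fun _ : Fin k =>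
      (isCompact_Icc : IsCompact (Set.Icc (-1 : ℝ) 1)))
    refine h1.of_isClosed_subset ?_ ?_
    · exact isClosed_eq (continuous_finset_sum _ fun j _ => (continuous_apply j).pow 2)
        continuous_const
    · intro v hv j _
      have h2 : v j ^ 2 ≤ ∑ j, v j ^ 2 :=
        Finset.single_le_sum (f := fun j => v j ^ 2) (fun j _ => sq_nonneg _)
          (Finset.mem_univ j)
      have h3 : ∑ j, v j ^ 2 = 1 := hv
      rw [h3] at h2
      exact abs_le.1 ((sq_le_one_iff_abs_le_one _).1 h2)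
  have hnorm : ∀ v : Fin k → ℝ, ∑ j, v j ^ 2 ≠ 0 →
      (Real.sqrt (∑ j, v j ^ 2))⁻¹ • v ∈ K := by
    intro v hv
    have h0 : 0 ≤ ∑ j, v j ^ 2 := Finset.sum_nonneg fun j _ => sq_nonneg _
    change ∑ j, ((Real.sqrt (∑ j, v j ^ 2))⁻¹ • v) j ^ 2 = 1
    simp only [Pi.smul_apply, smul_eq_mul, mul_pow]
    rw [← Finset.mul_sum, inv_pow, Real.sq_sqrt h0, inv_mul_cancel₀ hv]
  by_cases hne : K.Nonempty
  · obtain ⟨v0, hv0, hmin⟩ := hKc.exists_isMinOn hne hGc.continuousOn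
    have hpos : 0 < G v0 := by
      rcases (hG0 v0).lt_or_eq with h | h
      · exact h
      · exfalso
        have h1 := hGz v0 h.symm
        have h2 : ∑ j, v0 j ^ 2 = 1 := hv0
        rw [h1] at h2
        simp at h2
    refine ⟨G v0, hpos, fun v => ?_⟩
    by_cases hv : ∑ j, v j ^ 2 = 0
    · rw [hv, mul_zero]
      exact hG0 v
    · have h1 := hmin (hnorm v hv)
      have h0 : 0 ≤ ∑ j, v j ^ 2 := Finset.sum_nonneg fun j _ => sq_nonneg _
      change G v0 ≤ G _ at h1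
      rw [hGs, inv_pow, Real.sq_sqrt h0] at h1
      have h2 : 0 < ∑ j, v j ^ 2 := lt_of_le_of_ne h0 (Ne.symm hv)
      change G v0 * ∑ j, v j ^ 2 ≤ G v
      rwa [inv_mul_eq_div, le_div_iff₀ h2] at h1
  · refine ⟨1, one_pos, fun v => ?_⟩
    have hv : ∑ j, v j ^ 2 = 0 := by
      by_contra hv
      exact hne ⟨_, hnorm v hv⟩
    rw [hv, mul_zero]
    exact hG0 v

/-- Lower bound for the Casimir operator of `h` on `ℝ^k`, uniform in `n`. -/
theorem exists_lambda (h : LieSubalgebra ℝ (so (Fin k) ℝ)) (hf : NoFixed h) :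
    ∃ c : ℝ, 0 < c ∧ ∀ n : ℕ, 3 ≤ n + k → ∀ (m : ℕ) (b : Fin m → so (Fin n ⊕ Fin k) ℝ),
      IsFrame (h.map (lowHom n k)).toSubmodule b → ∀ v : Fin k → ℝ,
        c / (n + k - 2) * ∑ j, v j ^ 2 ≤ casV b v := by
  set d := Module.finrank ℝ h.toSubmodule with hd
  let e := Module.finBasis ℝ h.toSubmodule
  have hfix : ∀ v : Fin k → ℝ, (∀ i, v ᵥ* (e i).1.1 = 0) → v = 0 := by
    intro v hv
    apply hf v
    intro x hx
    have h1 : ∀ i, (e i).1.1 *ᵥ v = 0 := by
      intro i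
      have h2 := hv i
      have h3 := (mem_so _ _ _).1 (e i).1.2
      rw [← Matrix.mulVec_transpose, h3, Matrix.neg_mulVec, neg_eq_zero] at h2
      exact h2
    have h4 : x = ∑ i, e.repr ⟨x, hx⟩ i • (e i).1 := by
      have h5 := congrArg (fun y : h.toSubmodule => (y : so (Fin k) ℝ)) (e.sum_repr ⟨x, hx⟩)
      simp only [Submodule.coe_sum, Submodule.coe_smul] at h5
      exact h5.symm
    let φ : so (Fin k) ℝ →ₗ[ℝ] (Fin k → ℝ) :=
      { toFun := fun y => y.1 *ᵥ v
        map_add' := fun y z => Matrix.add_mulVec _ _ _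
        map_smul' := fun c y => Matrix.smul_mulVec _ _ _ }
    change φ x = 0
    rw [h4, map_sum]
    refine Finset.sum_eq_zero fun i _ => ?_
    rw [map_smul]
    change _ • ((e i).1.1 *ᵥ v) = 0
    rw [h1, smul_zero]
  obtain ⟨c, hc, hcv⟩ := exists_bound (fun i => (e i).1.1) hfix
  set C : ℝ := 1 + ∑ i, ∑ p, ∑ q, (e i).1.1 p q * (e i).1.1 p q with hC
  have hS0 : ∀ i, 0 ≤ ∑ p, ∑ q, (e i).1.1 p q * (e i).1.1 p q := fun i =>
    Finset.sum_nonneg fun p _ => Finset.sum_nonneg fun q _ => mul_self_nonneg _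
  have hC0 : 0 < C := by
    have : 0 ≤ ∑ i, ∑ p, ∑ q, (e i).1.1 p q * (e i).1.1 p q :=
      Finset.sum_nonneg fun i _ => hS0 i
    linarith
  refine ⟨c / C, div_pos hc hC0, fun n h3 m b hb v => ?_⟩
  have hM : (0 : ℝ) < n + k - 2 := by
    have : (3 : ℝ) ≤ n + k := by exact_mod_cast h3
    linarith
  have hV0 : 0 ≤ casV b v := Finset.sum_nonneg fun i _ =>
    Finset.sum_nonneg fun j _ => sq_nonneg _
  have key : ∀ i, ∑ j, (∑ r, v r * (e i).1.1 r j) ^ 2 ≤
      (n + k - 2 : ℝ) * (∑ p, ∑ q, (e i).1.1 p q * (e i).1.1 p q) * casV b v := by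
    intro i
    set z := lowHom n k (e i).1 with hz
    have hzm : z ∈ (h.map (lowHom n k)).toSubmodule := ⟨(e i).1, (e i).2, rfl⟩
    have hq : Qf _ z z = (n + k - 2 : ℝ) * (∑ p, ∑ q, (e i).1.1 p q * (e i).1.1 p q) := by
      rw [Qf_so, card_nk, sum4]
      congr 1
      have hl := lowHom_mem (n := n) (e i).1
      rw [← hz] at hl
      simp only [lower_col hl, lower_row hl, mul_zero, Finset.sum_const_zero, zero_add]
      rfl
    have hpar : Qf _ z z = ∑ s, Qf _ z (b s) ^ 2 := by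
      rw [hb.parseval hzm]
      exact Finset.sum_congr rfl fun s _ => (sq _).symm
    have hexp : ∀ r j, (e i).1.1 r j =
        ∑ s, Qf _ z (b s) * (b s).1 (Sum.inr r) (Sum.inr j) := by
      intro r j
      let φ : so (Fin n ⊕ Fin k) ℝ →ₗ[ℝ] ℝ :=
        { toFun := fun y => y.1 (Sum.inr r) (Sum.inr j)
          map_add' := fun _ _ => rfl
          map_smul' := fun _ _ => rfl }
      have h1 := congrArg φ (hb.exp z hzm)
      rw [map_sum] at h1
      refine Eq.trans (b := φ z) rfl (h1.trans ?_)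
      refine Finset.sum_congr rfl fun s _ => ?_
      rw [map_smul]
      rfl
    have hrow : ∀ j, ∑ r, v r * (e i).1.1 r j =
        ∑ s, Qf _ z (b s) * ∑ r, v r * (b s).1 (Sum.inr r) (Sum.inr j) := by
      intro j
      simp only [hexp, Finset.mul_sum]
      rw [Finset.sum_comm]
      refine Finset.sum_congr rfl fun s _ => Finset.sum_congr rfl fun r _ => ?_
      ring
    calc ∑ j, (∑ r, v r * (e i).1.1 r j) ^ 2
        ≤ ∑ j, (∑ s, Qf _ z (b s) ^ 2) *
            ∑ s, (∑ r, v r * (b s).1 (Sum.inr r) (Sum.inr j)) ^ 2 := by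
          refine Finset.sum_le_sum fun j _ => ?_
          rw [hrow]
          exact Finset.sum_mul_sq_le_sq_mul_sq Finset.univ _ _
      _ = Qf _ z z * casV b v := by
          rw [← Finset.mul_sum, ← hpar, Finset.sum_comm]
          rfl
      _ = _ := by rw [hq]
  have h4 : ∑ i, ∑ j, (∑ r, v r * (e i).1.1 r j) ^ 2 ≤ (n + k - 2 : ℝ) * C * casV b v := by
    calc ∑ i, ∑ j, (∑ r, v r * (e i).1.1 r j) ^ 2
        ≤ ∑ i, (n + k - 2 : ℝ) * (∑ p, ∑ q, (e i).1.1 p q * (e i).1.1 p q) * casV b v :=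
          Finset.sum_le_sum fun i _ => key i
      _ = (n + k - 2 : ℝ) * (∑ i, ∑ p, ∑ q, (e i).1.1 p q * (e i).1.1 p q) * casV b v := by
          rw [← Finset.sum_mul, ← Finset.mul_sum]
      _ ≤ _ := by
          refine mul_le_mul_of_nonneg_right ?_ hV0
          refine mul_le_mul_of_nonneg_left ?_ hM.le
          rw [hC]
          linarith
  have h5 := (hcv v).trans h4
  rw [div_div, div_mul_eq_mul_div, div_le_iff₀ (by positivity)]
  calc c * ∑ j, v j ^ 2 ≤ (n + k - 2 : ℝ) * C * casV b v := h5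
    _ = _ := by ring

theorem noFixed_two_le (hk : 0 < k) {h : LieSubalgebra ℝ (so (Fin k) ℝ)} (hf : NoFixed h) :
    2 ≤ k := by
  by_contra hk2
  have hk1 : k = 1 := by omega
  subst hk1
  have h1 := hf (fun _ => 1) (fun x _ => by
    funext i
    rw [Matrix.mulVec, dotProduct]
    refine Finset.sum_eq_zero fun j _ => ?_
    have h2 := (mem_so _ _ _).1 x.2
    have h3 := congrFun (congrFun h2 i) j
    rw [Matrix.transpose_apply, Matrix.neg_apply, Subsingleton.elim j i] at h3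
    rw [Subsingleton.elim j i]
    have h4 : x.1 i i = 0 := by linarith
    rw [h4, zero_mul])
  have h2 := congrFun h1 0
  exact one_ne_zero h2

/-- The quantitative statement. -/
theorem so_core (hk2 : 2 ≤ k) {h : LieSubalgebra ℝ (so (Fin k) ℝ)} {c θ : ℝ} (t0 : 0 < θ)
    (t1 : θ ≤ 1) (t2 : θ * (k - 1) ≤ 2 * c) (hn5 : 5 ≤ n)
    (hkn : 3750 * (k - 1 : ℝ) ≤ θ ^ 2 * (n + k - 2))
    (hcv : ∀ (m : ℕ) (b : Fin m → so (Fin n ⊕ Fin k) ℝ),
      IsFrame (h.map (lowHom n k)).toSubmodule b → ∀ v : Fin k → ℝ,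
        c / (n + k - 2) * ∑ j, v j ^ 2 ≤ casV b v) :
    HasEinsteinMetric (so (Fin n ⊕ Fin k) ℝ) (h.map (lowHom n k)).toSubmodule
      (pairAuts (lower n k) (upper n k) (h.map (lowHom n k))) := by
  have hk2' : (2 : ℝ) ≤ k := by exact_mod_cast hk2
  have h3 : 3 ≤ n + k := by omega
  have hM : (0 : ℝ) < n + k - 2 := by
    have : (3 : ℝ) ≤ n + k := by exact_mod_cast h3
    linarith
  have hg : CompactSemisimple (so (Fin n ⊕ Fin k) ℝ) := so_compact' (by
    rw [Fintype.card_sum, Fintype.card_fin, Fintype.card_fin]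
    exact h3)
  have hkap : 7500 * ((k - 1 : ℝ) / (2 * (n + k - 2))) ≤ θ ^ 2 := by
    rw [← mul_div_assoc, div_le_iff₀ (by linarith)]
    linarith
  have hθ2 : θ ^ 2 ≤ 1 := pow_le_one₀ t0.le t1
  refine einstein_pair2 (κ := (k - 1 : ℝ) / (2 * (n + k - 2))) (θ := θ) ?_ t0 t1 hkap
  refine ⟨hg, so_symPair hM, map_le_lower h, ?_, ?_, ?_, ?_, ?_, ?_, ?_, ?_, ?_⟩
  · intro m a ha x hx
    refine (so_casimir_k h3 ha.mem ha.orth hx).trans ?_
    refine mul_le_mul_of_nonneg_right ?_ (Qf_nonneg hg x)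
    have e : 3 * ((k - 1 : ℝ) / (2 * (n + k - 2))) = 3 / 2 * (k - 1) / (n + k - 2) := by
      field_simp
    rw [e, div_le_div_iff_of_pos_right hM]
    linarith
  · intro ι _ _ a ha x hx
    exact so_casP h3 ha hx
  · intro m b hb x hx
    have h1 := so_casH hM (fun i => map_le_lower h (hb.mem i)) (hcv m b hb) hx
    refine le_trans ?_ h1
    refine mul_le_mul_of_nonneg_right ?_ (Qf_nonneg hg x)
    rw [← mul_div_assoc, mul_comm (2 : ℝ), ← div_div, div_right_comm,
      div_le_div_iff_of_pos_right hM, div_le_iff₀ (by norm_num)]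
    linarith
  · intro x hx
    exact so_perf (by omega) hx
  · intro F hs hi
    exact so_forms hn5 F hs hi
  · intro m f hf' x hx
    refine (so_small h3 hf' hx).trans ?_
    refine mul_le_mul_of_nonneg_right ?_ (Qf_nonneg hg x)
    have e : 4 * ((k - 1 : ℝ) / (2 * (n + k - 2))) = 2 * (k - 1) / (n + k - 2) := by
      field_simp
      ring
    rw [e, div_le_div_iff_of_pos_right hM]
    linarith
  · refine ⟨Eb k ⟨0, by omega⟩ ⟨1, by omega⟩, Eb_mem _ _, fun h0 => ?_⟩
    have h1 := congrArg (fun y : so (Fin n ⊕ Fin k) ℝ =>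
      y.1 (Sum.inl ⟨0, by omega⟩) (Sum.inl ⟨1, by omega⟩)) h0
    change (Matrix.single (⟨0, by omega⟩ : Fin n) (⟨1, by omega⟩ : Fin n) (1 : ℝ) -
      (Matrix.single (⟨0, by omega⟩ : Fin n) (⟨1, by omega⟩ : Fin n) (1 : ℝ))ᵀ) _ _ = 0 at h1
    rw [Matrix.transpose_single, Matrix.sub_apply, Matrix.single_apply_same,
      Matrix.single_apply_of_ne] at h1
    · norm_num at h1
    · simp
  · exact div_nonneg (by linarith) (by linarith)
  · linarith

/-- For every subalgebra `h` of `so(k)` which fixes no nonzero vector and every large `n`, the space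
`SO(n + k)/H` has an invariant Einstein metric. -/
theorem so_large (hk : 0 < k) {h : LieSubalgebra ℝ (so (Fin k) ℝ)} (hf : NoFixed h) :
    ∃ n0 : ℕ, ∀ n ≥ n0, HasEinsteinMetric (so (Fin n ⊕ Fin k) ℝ)
      (h.map (lowHom n k)).toSubmodule
      (pairAuts (lower n k) (upper n k) (h.map (lowHom n k))) := by
  obtain ⟨c, hc, hcv⟩ := exists_lambda h hf
  have hk2 := noFixed_two_le hk hf
  have hk2' : (2 : ℝ) ≤ k := by exact_mod_cast hk2
  have hk1 : (0 : ℝ) < k - 1 := by linarith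
  set θ : ℝ := min 1 (2 * c / (k - 1)) with hθ
  have t1 : θ ≤ 1 := min_le_left _ _
  have t2 : θ ≤ 2 * c / (k - 1) := min_le_right _ _
  have t0 : 0 < θ := lt_min one_pos (div_pos (by linarith) (by linarith))
  rw [le_div_iff₀ hk1] at t2
  refine ⟨5 + ⌈3750 * (k - 1) / θ ^ 2⌉₊, fun n hn => ?_⟩
  have hn5 : 5 ≤ n := by omega
  have hn1 : (5 : ℝ) + 3750 * (k - 1) / θ ^ 2 ≤ n := by
    have h1 : ((5 + ⌈3750 * (k - 1 : ℝ) / θ ^ 2⌉₊ : ℕ) : ℝ) ≤ n := by exact_mod_cast hn
    have h2 := Nat.le_ceil (3750 * (k - 1 : ℝ) / θ ^ 2)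
    push_cast at h1
    linarith
  have h1 : 3750 * (k - 1) / θ ^ 2 ≤ (n + k - 2 : ℝ) := by linarith
  rw [div_le_iff₀ (by positivity), mul_comm (n + k - 2 : ℝ)] at h1
  exact so_core hk2 t0 t1 t2 hn5 h1 (hcv n (by omega))

end Pool.Agent.EinS
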