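import Mathlib

/-!
# Trace inequalities for symmetric matrices between two scalars
-/

namespace Pool.Agent.EinS

open Matrix

variable {m n : Type*} [Fintype m] [DecidableEq m] [Fintype n] [DecidableEq n]

/-- The symmetric matrix `A` satisfies `a ≤ A ≤ b`. -/
structure Btw (a b : ℝ) (A : Matrix n n ℝ) : Prop where
  symm : A.IsSymm
  lo : ∀ x : n → ℝ, a * (x ⬝ᵥ x) ≤ x ⬝ᵥ (A *ᵥ x)
  up : ∀ x : n → ℝ, x ⬝ᵥ (A *ᵥ x) ≤ b * (x ⬝ᵥ x)

theorem dot_self_nonneg (x : n → ℝ) : 0 ≤ x ⬝ᵥ x := by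
  unfold dotProduct
  exact Finset.sum_nonneg fun i _ => mul_self_nonneg _

theorem dot_self_eq_zero {x : n → ℝ} (h : x ⬝ᵥ x = 0) : x = 0 := by
  unfold dotProduct at h
  rw [Finset.sum_eq_zero_iff_of_nonneg (fun i _ => mul_self_nonneg _)] at h
  funext i
  exact mul_self_eq_zero.1 (h i (Finset.mem_univ i))

theorem posSemidef_of_quad {A : Matrix n n ℝ} (h : A.IsSymm)
    (h0 : ∀ x : n → ℝ, 0 ≤ x ⬝ᵥ (A *ᵥ x)) : A.PosSemidef := by
  rw [Matrix.posSemidef_iff_dotProduct_mulVec]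
  refine ⟨?_, fun x => ?_⟩
  · rw [Matrix.IsHermitian, Matrix.conjTranspose_eq_transpose_of_trivial]
    exact h
  · rw [star_trivial]
    exact h0 x

theorem exists_factor {A : Matrix n n ℝ} (h : A.IsSymm)
    (h0 : ∀ x : n → ℝ, 0 ≤ x ⬝ᵥ (A *ᵥ x)) : ∃ Y : Matrix n n ℝ, A = Yᵀ * Y := by
  open scoped MatrixOrder Matrix.Norms.L2Operator in
  obtain ⟨Y, hY⟩ := CStarAlgebra.nonneg_iff_eq_star_mul_self.mp (posSemidef_of_quad h h0).nonneg
  refine ⟨Y, ?_⟩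
  rw [hY, Matrix.star_eq_conjTranspose, Matrix.conjTranspose_eq_transpose_of_trivial]

theorem trace_mul_nonneg {A C : Matrix n n ℝ} (hA : A.IsSymm)
    (hA0 : ∀ x : n → ℝ, 0 ≤ x ⬝ᵥ (A *ᵥ x)) (hC : C.IsSymm)
    (hC0 : ∀ x : n → ℝ, 0 ≤ x ⬝ᵥ (C *ᵥ x)) : 0 ≤ trace (A * C) := by
  obtain ⟨Y, rfl⟩ := exists_factor hC hC0
  rw [← Matrix.mul_assoc, Matrix.trace_mul_comm, ← Matrix.mul_assoc]
  unfold trace
  refine Finset.sum_nonneg fun i _ => ?_
  have h1 := hA0 (fun j => Y i j)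
  have h2 : (fun j => Y i j) ⬝ᵥ (A *ᵥ (fun j => Y i j)) = (Y * A * Yᵀ).diag i := by
    rw [Matrix.diag_apply, Matrix.mul_assoc, Matrix.mul_apply]
    unfold dotProduct
    refine Finset.sum_congr rfl fun j _ => ?_
    rw [Matrix.mul_apply]
    unfold mulVec dotProduct
    simp only [Matrix.transpose_apply]
  rw [← h2]
  exact h1

theorem trace_mul_le {A C : Matrix n n ℝ} {a b : ℝ} (hA : Btw a b A) (hC : C.IsSymm)
    (hC0 : ∀ x : n → ℝ, 0 ≤ x ⬝ᵥ (C *ᵥ x)) :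
    a * trace C ≤ trace (A * C) ∧ trace (A * C) ≤ b * trace C := by
  constructor
  · have h := trace_mul_nonneg (A := A - a • (1 : Matrix n n ℝ)) (C := C)
      (by
        unfold Matrix.IsSymm
        rw [Matrix.transpose_sub, Matrix.transpose_smul, Matrix.transpose_one, hA.symm])
      (fun x => by
        rw [Matrix.sub_mulVec, dotProduct_sub, Matrix.smul_mulVec, Matrix.one_mulVec,
          dotProduct_smul, smul_eq_mul]
        have := hA.lo x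
        linarith) hC hC0
    rw [Matrix.sub_mul, Matrix.trace_sub, Matrix.smul_mul, Matrix.one_mul, Matrix.trace_smul,
      smul_eq_mul] at h
    linarith
  · have h := trace_mul_nonneg (A := b • (1 : Matrix n n ℝ) - A) (C := C)
      (by
        unfold Matrix.IsSymm
        rw [Matrix.transpose_sub, Matrix.transpose_smul, Matrix.transpose_one, hA.symm])
      (fun x => by
        rw [Matrix.sub_mulVec, dotProduct_sub, Matrix.smul_mulVec, Matrix.one_mulVec,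
          dotProduct_smul, smul_eq_mul]
        have := hA.up x
        linarith) hC hC0
    rw [Matrix.sub_mul, Matrix.trace_sub, Matrix.smul_mul, Matrix.one_mul, Matrix.trace_smul,
      smul_eq_mul] at h
    linarith

/-- `a c |W|² ≤ tr (A W C Wᵀ) ≤ b d |W|²`. -/
theorem trace_quad {A : Matrix m m ℝ} {C : Matrix n n ℝ} {a b c d : ℝ} (ha : 0 ≤ a) (hb : 0 ≤ b)
    (hc : 0 ≤ c) (hA : Btw a b A) (hC : Btw c d C) (W : Matrix m n ℝ) :
    a * c * trace (W * Wᵀ) ≤ trace (A * (W * C * Wᵀ)) ∧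
      trace (A * (W * C * Wᵀ)) ≤ b * d * trace (W * Wᵀ) := by
  have hX : (W * C * Wᵀ).IsSymm := by
    unfold Matrix.IsSymm
    rw [Matrix.transpose_mul, Matrix.transpose_mul, Matrix.transpose_transpose, hC.symm,
      Matrix.mul_assoc]
  have hX0 : ∀ x : m → ℝ, 0 ≤ x ⬝ᵥ ((W * C * Wᵀ) *ᵥ x) := by
    intro x
    have h1 : x ⬝ᵥ ((W * C * Wᵀ) *ᵥ x) = (Wᵀ *ᵥ x) ⬝ᵥ (C *ᵥ (Wᵀ *ᵥ x)) := by
      rw [← Matrix.mulVec_mulVec, ← Matrix.mulVec_mulVec, Matrix.dotProduct_mulVec,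
        ← Matrix.mulVec_transpose]
    rw [h1]
    exact le_trans (mul_nonneg hc (dot_self_nonneg _)) (hC.lo _)
  have h1 := trace_mul_le hA hX hX0
  have hY : (Wᵀ * W).IsSymm := by
    unfold Matrix.IsSymm
    rw [Matrix.transpose_mul, Matrix.transpose_transpose]
  have hY0 : ∀ x : n → ℝ, 0 ≤ x ⬝ᵥ ((Wᵀ * W) *ᵥ x) := by
    intro x
    rw [← Matrix.mulVec_mulVec, Matrix.dotProduct_mulVec, ← Matrix.mulVec_transpose,
      Matrix.transpose_transpose]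
    exact dot_self_nonneg _
  have h2 := trace_mul_le hC hY hY0
  have e1 : trace (W * C * Wᵀ) = trace (C * (Wᵀ * W)) := by
    rw [Matrix.mul_assoc, Matrix.trace_mul_comm, Matrix.mul_assoc]
  have e2 : trace (Wᵀ * W) = trace (W * Wᵀ) := Matrix.trace_mul_comm _ _
  rw [e1] at h1
  rw [e2] at h2
  constructor
  · refine le_trans ?_ h1.1
    rw [mul_assoc]
    exact mul_le_mul_of_nonneg_left h2.1 ha
  · refine le_trans h1.2 ?_
    rw [mul_assoc]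
    exact mul_le_mul_of_nonneg_left h2.2 hb

theorem Btw.det_ne {a b : ℝ} (ha : 0 < a) {A : Matrix n n ℝ} (hA : Btw a b A) : A.det ≠ 0 := by
  intro h
  obtain ⟨v, hv, hv0⟩ := Matrix.exists_mulVec_eq_zero_iff.2 h
  have h1 := hA.lo v
  rw [hv0, dotProduct_zero] at h1
  have h2 := dot_self_nonneg v
  have h3 : v ⬝ᵥ v = 0 := by nlinarith
  exact hv (dot_self_eq_zero h3)

theorem Btw.inv {a b : ℝ} (ha : 0 < a) (hb : 0 < b) {A : Matrix n n ℝ} (hA : Btw a b A) :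
    Btw (1 / b) (1 / a) A⁻¹ := by
  have hdet := hA.det_ne ha
  have hu : IsUnit A.det := isUnit_iff_ne_zero.2 hdet
  obtain ⟨Y, hY⟩ := exists_factor hA.symm (fun x => le_trans (mul_nonneg ha.le
    (dot_self_nonneg x)) (hA.lo x))
  have key : ∀ x : n → ℝ, ∃ y : n → ℝ, A *ᵥ y = x ∧ A⁻¹ *ᵥ x = y := by
    intro x
    refine ⟨A⁻¹ *ᵥ x, ?_, rfl⟩
    rw [Matrix.mulVec_mulVec, Matrix.mul_nonsing_inv _ hu, Matrix.one_mulVec]
  have hsym : ∀ u v : n → ℝ, u ⬝ᵥ (A *ᵥ v) = (A *ᵥ u) ⬝ᵥ v := by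
    intro u v
    rw [Matrix.dotProduct_mulVec, ← Matrix.mulVec_transpose, hA.symm]
  have hform : ∀ u v : n → ℝ, u ⬝ᵥ (A *ᵥ v) = (Y *ᵥ u) ⬝ᵥ (Y *ᵥ v) := by
    intro u v
    rw [hY, ← Matrix.mulVec_mulVec, Matrix.dotProduct_mulVec, ← Matrix.mulVec_transpose,
      Matrix.transpose_transpose]
  have cs : ∀ u v : n → ℝ, (u ⬝ᵥ v) ^ 2 ≤ (u ⬝ᵥ u) * (v ⬝ᵥ v) := by
    intro u v
    have := Finset.sum_mul_sq_le_sq_mul_sq Finset.univ u v
    unfold dotProduct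
    simpa only [pow_two] using this
  refine ⟨?_, fun x => ?_, fun x => ?_⟩
  · unfold Matrix.IsSymm
    rw [Matrix.transpose_nonsing_inv, hA.symm]
  · obtain ⟨y, hy, hxy⟩ := key x
    rw [hxy, ← hy]
    -- `|Ay|² ≤ b yᵀAy`
    have h1 := cs (Y *ᵥ (A *ᵥ y)) (Y *ᵥ y)
    rw [← hform, ← hform, ← hform] at h1
    have h2 := hA.up (A *ᵥ y)
    have h3 : (A *ᵥ y) ⬝ᵥ (A *ᵥ y) = (A *ᵥ y) ⬝ᵥ (A *ᵥ y) := rfl
    have h4 : 0 ≤ y ⬝ᵥ (A *ᵥ y) := le_trans (mul_nonneg ha.le (dot_self_nonneg y)) (hA.lo y)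
    have h5 := dot_self_nonneg (A *ᵥ y)
    have h6 : (A *ᵥ y) ⬝ᵥ y = y ⬝ᵥ (A *ᵥ y) := dotProduct_comm _ _
    rw [h6]
    set s := (A *ᵥ y) ⬝ᵥ (A *ᵥ y)
    set t := y ⬝ᵥ (A *ᵥ y)
    have h7 : s ^ 2 ≤ b * s * t := le_trans h1 (mul_le_mul_of_nonneg_right h2 h4)
    have h8 : s ≤ b * t := by
      rcases h5.eq_or_lt with h | h
      · rw [← h]; positivity
      · have : s * s ≤ s * (b * t) := by nlinarith
        exact le_of_mul_le_mul_left this h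
    rw [one_div, inv_mul_le_iff₀ hb]
    exact h8
  · obtain ⟨y, hy, hxy⟩ := key x
    rw [hxy, ← hy]
    have h1 := cs y (A *ᵥ y)
    have h2 := hA.lo y
    have h4 : 0 ≤ y ⬝ᵥ (A *ᵥ y) := le_trans (mul_nonneg ha.le (dot_self_nonneg y)) (hA.lo y)
    have h5 := dot_self_nonneg (A *ᵥ y)
    have h6 : (A *ᵥ y) ⬝ᵥ y = y ⬝ᵥ (A *ᵥ y) := dotProduct_comm _ _
    have h9 := dot_self_nonneg y
    rw [h6]
    set s := (A *ᵥ y) ⬝ᵥ (A *ᵥ y)
    set t := y ⬝ᵥ (A *ᵥ y)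
    set r := y ⬝ᵥ y
    have h7 : a * t ≤ s := by
      rcases h4.eq_or_lt with h | h
      · rw [← h]; simpa using h5
      · have h8 : t * (a * t) ≤ t * s := by nlinarith
        exact le_of_mul_le_mul_left h8 h
    rw [one_div, ← div_eq_inv_mul, le_div_iff₀ ha]
    linarith

end Pool.Agent.EinS
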